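import Pool.Agent.LibSchE.E22
import Pool.Agent.LibSchA.A9

/-! **E0.**  Definitions for the E-gauge theorem (`MP_9d9785_an`), `2 < q < 4`, `a = 1 - 2/q`. -/

open MeasureTheory Set Matrix
open scoped ComplexOrder

namespace Pool.Agent.LibSchE

open Pool.Agent.LibSchP Pool.Agent.LibSchA

/-- bounded functions vanishing to first order at `0` (trial functions) -/
structure Zc (φ : ℝ → ℝ) : Prop where
  meas : Measurable φ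
  bd : ∃ C : ℝ, ∀ ν, 0 < ν → |φ ν| ≤ C * (ν / (1 + ν))

/-- bounded functions vanishing to first order at `∞` -/
structure Ic (φ : ℝ → ℝ) : Prop where
  meas : Measurable φ
  bd : ∃ C : ℝ, ∀ ν, 0 < ν → |φ ν| ≤ C * (1 / (1 + ν))

/-- kernel of two trial functions (`E`-terms) -/
noncomputable def kn (a : ℝ) (φ ψ : ℝ → ℝ) (x y : ℝ) : ℝ :=
  (x * y) ^ (1 - a) * ∫ r in Ioi (0 : ℝ), r ^ (2 * a - 2) * (φ (r / x) * ψ (r / y))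

/-- kernel of two functions (`T - G`-terms) -/
noncomputable def kd (a : ℝ) (φ ψ : ℝ → ℝ) (x y : ℝ) : ℝ :=
  (x * y) ^ (1 - a) * ∫ r in Ioi (0 : ℝ), r ^ (2 * a - 1) * (φ (r / x) * ψ (r / y))

/-- `p₁ ν/(ν+e₁) + p₂ ν/(ν+e₂)` -/
noncomputable def ph (e₁ e₂ p₁ p₂ ν : ℝ) : ℝ := p₁ * (ν / (ν + e₁)) + p₂ * (ν / (ν + e₂))

section ops

variable {m m' n κ κ' : Type} [Fintype m] [Fintype m'] [Fintype n] [Fintype κ] [Fintype κ']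
  [DecidableEq κ] [DecidableEq κ']

/-- the trial matrix `U diag(θ^(1-a) φ(r/θ)) Vᴴ` -/
noncomputable def tf (a : ℝ) (φ : ℝ → ℝ) (U : Matrix m κ ℂ) (V : Matrix n κ ℂ) (θ : κ → ℝ)
    (r : ℝ) : Matrix m n ℂ :=
  U * (dg fun j => θ j ^ (1 - a) * φ (r / θ j)) * Vᴴ

/-- `Re tr E Θ` for `Θ = U diag(θ) Uᴴ` -/
noncomputable def pr (U : Matrix m κ ℂ) (θ : κ → ℝ) (E : Matrix m m ℂ) : ℝ :=
  ∑ j, θ j * ((Uᴴ * E * U) j j).re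

/-- `Θ = U diag(θ) Uᴴ` -/
noncomputable def th (U : Matrix m κ ℂ) (θ : κ → ℝ) : Matrix m m ℂ := U * dg θ * Uᴴ

/-- cross form with the kernel `F` -/
noncomputable def cx (F : ℝ → ℝ → ℝ) (U : Matrix m κ ℂ) (V : Matrix n κ ℂ) (θ : κ → ℝ)
    (U' : Matrix m' κ' ℂ) (V' : Matrix n κ' ℂ) (θ' : κ' → ℝ) (E : Matrix m m' ℂ) : ℝ :=
  ∑ j, ∑ l, F (θ j) (θ' l) * ((Uᴴ * E * U') j l * (V'ᴴ * V) l j).re

/-- the integrand of one column: upper block `T₁`, lower block `T₂`, trial matrices `G₁`, `G₂` -/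
noncomputable def colI (T₁ T₂ G₁ G₂ : Matrix m n ℂ) (E₁₁ E₂₂ E₁₂ : Matrix m m ℂ) (r : ℝ) : ℝ :=
  (fr (T₁ - G₁) + fr (T₂ - G₂)) + r⁻¹ * ((trace (G₁ᴴ * E₁₁ * G₁)).re +
    (trace (G₂ᴴ * E₂₂ * G₂)).re + 2 * (trace (G₁ᴴ * E₁₂ * G₂)).re)

/-- the integral of `r^(2a-1) * colI` for `G₁ = tf φ (A)`, `G₂ = tf ψ (C) - tf χ (A)` -/
noncomputable def colW [DecidableEq m] (a y y' : ℝ) (φ ψ χ : ℝ → ℝ) (U : Matrix m κ ℂ) (V : Matrix n κ ℂ)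
    (θ : κ → ℝ) (U' : Matrix m κ' ℂ) (V' : Matrix n κ' ℂ) (θ' : κ' → ℝ)
    (E₁₁ E₂₂ E₁₂ : Matrix m m ℂ) : ℝ :=
  ((∑ j, θ j ^ 2) * (kd a (fun ν => y - φ ν) (fun ν => y - φ ν) 1 1 + kd a χ χ 1 1) +
    (∑ l, θ' l ^ 2) * kd a (fun ν => y' - ψ ν) (fun ν => y' - ψ ν) 1 1 +
    2 * cx (kd a (fun ν => y' - ψ ν) χ) U' V' θ' U V θ (1 : Matrix m m ℂ)) +
  ((kn a φ φ 1 1 * pr U θ E₁₁ + kn a ψ ψ 1 1 * pr U' θ' E₂₂ + kn a χ χ 1 1 * pr U θ E₂₂ -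
    2 * cx (kn a ψ χ) U' V' θ' U V θ E₂₂) +
    2 * (cx (kn a φ ψ) U V θ U' V' θ' E₁₂ - kn a φ χ 1 1 * pr U θ E₁₂))

end ops

end Pool.Agent.LibSchE
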