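import Pool.Agent.LibSchE.E0

/-! **E1a.**  Integrability for the kernels `kn`, `kd`. -/

open MeasureTheory Set

namespace Pool.Agent.LibSchE

open Pool.Agent.LibSchP Pool.Agent.LibSchA

theorem Zc.zero : Zc (fun _ => 0) := ⟨measurable_const, 0, fun ν _ => by simp⟩

theorem Ic.zero : Ic (fun _ => 0) := ⟨measurable_const, 0, fun ν _ => by simp⟩

theorem Zc.sub {φ ψ : ℝ → ℝ} (hφ : Zc φ) (hψ : Zc ψ) : Zc (fun ν => φ ν - ψ ν) := by
  obtain ⟨C, hC⟩ := hφ.bd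
  obtain ⟨D, hD⟩ := hψ.bd
  refine ⟨hφ.meas.sub hψ.meas, C + D, fun ν hν => ?_⟩
  have h1 := hC ν hν
  have h2 := hD ν hν
  have h3 := abs_sub (φ ν) (ψ ν)
  calc |φ ν - ψ ν| ≤ |φ ν| + |ψ ν| := h3
    _ ≤ C * (ν / (1 + ν)) + D * (ν / (1 + ν)) := add_le_add h1 h2
    _ = (C + D) * (ν / (1 + ν)) := by ring

theorem Ic.add {φ ψ : ℝ → ℝ} (hφ : Ic φ) (hψ : Ic ψ) : Ic (fun ν => φ ν + ψ ν) := by
  obtain ⟨C, hC⟩ := hφ.bd
  obtain ⟨D, hD⟩ := hψ.bd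
  refine ⟨hφ.meas.add hψ.meas, C + D, fun ν hν => ?_⟩
  have h1 := hC ν hν
  have h2 := hD ν hν
  calc |φ ν + ψ ν| ≤ |φ ν| + |ψ ν| := abs_add_le _ _
    _ ≤ C * (1 / (1 + ν)) + D * (1 / (1 + ν)) := add_le_add h1 h2
    _ = (C + D) * (1 / (1 + ν)) := by ring

/-- `1/(ν+e) ≤ (1 + e⁻¹)/(1+ν)` -/
theorem inv_bd {e ν : ℝ} (he : 0 < e) (hν : 0 < ν) : 1 / (ν + e) ≤ (1 + e⁻¹) * (1 / (1 + ν)) := by
  rw [mul_one_div, div_le_div_iff₀ (by positivity) (by positivity)]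
  have h1 : e⁻¹ * e = 1 := inv_mul_cancel₀ he.ne'
  have h2 : 0 < e⁻¹ := by positivity
  nlinarith [mul_pos h2 hν]

/-- `|ν/(ν+e)| ≤ max 1 e⁻¹ · ν/(1+ν)` -/
theorem Zc.ph (e₁ e₂ p₁ p₂ : ℝ) (he₁ : 0 < e₁) (he₂ : 0 < e₂) : Zc (ph e₁ e₂ p₁ p₂) := by
  refine ⟨by unfold LibSchE.ph; fun_prop, |p₁| * (1 + e₁⁻¹) + |p₂| * (1 + e₂⁻¹), fun ν hν => ?_⟩
  have k1 : ν / (ν + e₁) ≤ (1 + e₁⁻¹) * (ν / (1 + ν)) := by
    have := mul_le_mul_of_nonneg_left (inv_bd he₁ hν) hν.le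
    calc ν / (ν + e₁) = ν * (1 / (ν + e₁)) := by ring
      _ ≤ ν * ((1 + e₁⁻¹) * (1 / (1 + ν))) := this
      _ = _ := by ring
  have k2 : ν / (ν + e₂) ≤ (1 + e₂⁻¹) * (ν / (1 + ν)) := by
    have := mul_le_mul_of_nonneg_left (inv_bd he₂ hν) hν.le
    calc ν / (ν + e₂) = ν * (1 / (ν + e₂)) := by ring
      _ ≤ ν * ((1 + e₂⁻¹) * (1 / (1 + ν))) := this
      _ = _ := by ring
  unfold LibSchE.ph
  have h1 : 0 < ν / (ν + e₁) := by positivity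
  have h2 : 0 < ν / (ν + e₂) := by positivity
  calc |p₁ * (ν / (ν + e₁)) + p₂ * (ν / (ν + e₂))|
      ≤ |p₁ * (ν / (ν + e₁))| + |p₂ * (ν / (ν + e₂))| := abs_add_le _ _
    _ = |p₁| * (ν / (ν + e₁)) + |p₂| * (ν / (ν + e₂)) := by
        rw [abs_mul, abs_mul, abs_of_pos h1, abs_of_pos h2]
    _ ≤ |p₁| * ((1 + e₁⁻¹) * (ν / (1 + ν))) + |p₂| * ((1 + e₂⁻¹) * (ν / (1 + ν))) :=
        add_le_add (mul_le_mul_of_nonneg_left k1 (abs_nonneg _))
          (mul_le_mul_of_nonneg_left k2 (abs_nonneg _))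
    _ = _ := by ring

/-- `p₁ + p₂ - ph ν = p₁ e₁/(ν+e₁) + p₂ e₂/(ν+e₂)` -/
theorem Ic.ph (e₁ e₂ p₁ p₂ y : ℝ) (he₁ : 0 < e₁) (he₂ : 0 < e₂) (hy : y = p₁ + p₂) :
    Ic (fun ν => y - ph e₁ e₂ p₁ p₂ ν) := by
  refine ⟨by unfold LibSchE.ph; fun_prop,
    |p₁| * e₁ * (1 + e₁⁻¹) + |p₂| * e₂ * (1 + e₂⁻¹), fun ν hν => ?_⟩
  have h1 : 0 < 1 / (ν + e₁) := by positivity
  have h2 : 0 < 1 / (ν + e₂) := by positivity
  have hE : y - LibSchE.ph e₁ e₂ p₁ p₂ ν = p₁ * e₁ * (1 / (ν + e₁)) + p₂ * e₂ * (1 / (ν + e₂)) := by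
    unfold LibSchE.ph
    rw [hy]
    have h3 : ν + e₁ ≠ 0 := by positivity
    have h4 : ν + e₂ ≠ 0 := by positivity
    field_simp
    ring
  show |y - LibSchE.ph e₁ e₂ p₁ p₂ ν| ≤ _
  rw [hE]
  calc |p₁ * e₁ * (1 / (ν + e₁)) + p₂ * e₂ * (1 / (ν + e₂))|
      ≤ |p₁ * e₁ * (1 / (ν + e₁))| + |p₂ * e₂ * (1 / (ν + e₂))| := abs_add_le _ _
    _ = |p₁| * e₁ * (1 / (ν + e₁)) + |p₂| * e₂ * (1 / (ν + e₂)) := by
        rw [abs_mul, abs_mul, abs_mul, abs_mul, abs_of_pos h1, abs_of_pos h2, abs_of_pos he₁,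
          abs_of_pos he₂]
    _ ≤ |p₁| * e₁ * ((1 + e₁⁻¹) * (1 / (1 + ν))) + |p₂| * e₂ * ((1 + e₂⁻¹) * (1 / (1 + ν))) :=
        add_le_add (mul_le_mul_of_nonneg_left (inv_bd he₁ hν) (by positivity))
          (mul_le_mul_of_nonneg_left (inv_bd he₂ hν) (by positivity))
    _ = _ := by ring

/-- dominated by `C r^(2a) / ((x + r) (y + r))` (`int_dd`, `LibSchE.int_bdd`) -/
theorem kn_int {a : ℝ} (h0 : 0 < a) (h1 : 2 * a < 1) {φ ψ : ℝ → ℝ} (hφ : Zc φ) (hψ : Zc ψ)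
    {x y : ℝ} (hx : 0 < x) (hy : 0 < y) :
    IntegrableOn (fun r => r ^ (2 * a - 2) * (φ (r / x) * ψ (r / y))) (Ioi 0) := by
  obtain ⟨C, hC⟩ := hφ.bd
  obtain ⟨D, hD⟩ := hψ.bd
  have hg := (int_dd (2 * a) x y (by linarith) h1 hx hy).1
  have hm1 := hφ.meas
  have hm2 := hψ.meas
  have hm : Measurable (fun r : ℝ => φ (r / x) * ψ (r / y) * ((x + r) * (y + r) / (r * r))) :=
    ((hm1.comp (measurable_id.div_const x)).mul (hm2.comp (measurable_id.div_const y))).mul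
      (by fun_prop)
  refine (int_bdd (C := C * D) hg hm ?_).congr_fun ?_ measurableSet_Ioi
  · intro r hr
    have k1 := hC (r / x) (by positivity)
    have k2 := hD (r / y) (by positivity)
    have e1 : r / x / (1 + r / x) = r / (x + r) := by field_simp
    have e2 : r / y / (1 + r / y) = r / (y + r) := by field_simp
    rw [e1] at k1
    rw [e2] at k2
    have hp : 0 < (x + r) * (y + r) / (r * r) := by positivity
    rw [abs_mul, abs_mul, abs_of_pos hp]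
    calc |φ (r / x)| * |ψ (r / y)| * ((x + r) * (y + r) / (r * r))
        ≤ (C * (r / (x + r))) * (D * (r / (y + r))) * ((x + r) * (y + r) / (r * r)) :=
          mul_le_mul_of_nonneg_right (mul_le_mul k1 k2 (abs_nonneg _)
            ((abs_nonneg _).trans k1)) hp.le
      _ = C * D := by
          have h3 : x + r ≠ 0 := by positivity
          have h4 : y + r ≠ 0 := by positivity
          field_simp
  · intro r hr
    have hr0 : (0 : ℝ) < r := hr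
    show r ^ (2 * a) / ((x + r) * (y + r)) * (φ (r / x) * ψ (r / y) *
      ((x + r) * (y + r) / (r * r))) = r ^ (2 * a - 2) * (φ (r / x) * ψ (r / y))
    rw [pow_two_a hr0]
    have h3 : x + r ≠ 0 := by positivity
    have h4 : y + r ≠ 0 := by positivity
    field_simp

/-- dominated by `C r^(2a-1) / ((x + r) (y + r))` (`int_dd_neg`, `LibSchE.int_bdd`) -/
theorem kd_int {a : ℝ} (h0 : 0 < a) (h1 : 2 * a < 1) {φ ψ : ℝ → ℝ} (hφ : Ic φ) (hψ : Ic ψ)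
    {x y : ℝ} (hx : 0 < x) (hy : 0 < y) :
    IntegrableOn (fun r => r ^ (2 * a - 1) * (φ (r / x) * ψ (r / y))) (Ioi 0) := by
  obtain ⟨C, hC⟩ := hφ.bd
  obtain ⟨D, hD⟩ := hψ.bd
  have hg := (int_dd_neg (2 * a) x y (by linarith) h1 hx hy).1
  have hm1 := hφ.meas
  have hm2 := hψ.meas
  have hm : Measurable (fun r : ℝ => φ (r / x) * ψ (r / y) * ((x + r) * (y + r))) :=
    ((hm1.comp (measurable_id.div_const x)).mul (hm2.comp (measurable_id.div_const y))).mul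
      (by fun_prop)
  refine (int_bdd (C := C * D * (x * y)) hg hm ?_).congr_fun ?_ measurableSet_Ioi
  · intro r hr
    have k1 := hC (r / x) (by positivity)
    have k2 := hD (r / y) (by positivity)
    have e1 : 1 / (1 + r / x) = x / (x + r) := by field_simp
    have e2 : 1 / (1 + r / y) = y / (y + r) := by field_simp
    rw [e1] at k1
    rw [e2] at k2
    have hp : 0 < (x + r) * (y + r) := by positivity
    rw [abs_mul, abs_mul, abs_of_pos hp]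
    calc |φ (r / x)| * |ψ (r / y)| * ((x + r) * (y + r))
        ≤ (C * (x / (x + r))) * (D * (y / (y + r))) * ((x + r) * (y + r)) :=
          mul_le_mul_of_nonneg_right (mul_le_mul k1 k2 (abs_nonneg _)
            ((abs_nonneg _).trans k1)) hp.le
      _ = C * D * (x * y) := by
          have h3 : x + r ≠ 0 := by positivity
          have h4 : y + r ≠ 0 := by positivity
          field_simp
  · intro r hr
    have hr0 : (0 : ℝ) < r := hr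
    show r ^ (2 * a - 1) / ((x + r) * (y + r)) * (φ (r / x) * ψ (r / y) *
      ((x + r) * (y + r))) = r ^ (2 * a - 1) * (φ (r / x) * ψ (r / y))
    have h3 : x + r ≠ 0 := by positivity
    have h4 : y + r ≠ 0 := by positivity
    field_simp

/-- `(xy)^(1-a) = x^(1-a) y^(1-a)` -/
theorem kn_itg {a : ℝ} (h0 : 0 < a) (h1 : 2 * a < 1) {φ ψ : ℝ → ℝ} (hφ : Zc φ) (hψ : Zc ψ)
    {x y : ℝ} (hx : 0 < x) (hy : 0 < y) :
    Itg (fun r => r ^ (2 * a - 2) * ((x ^ (1 - a) * φ (r / x)) * (y ^ (1 - a) * ψ (r / y))))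
      (kn a φ ψ x y) := by
  have hi := kn_int h0 h1 hφ hψ hx hy
  have hE : (fun r : ℝ => r ^ (2 * a - 2) * ((x ^ (1 - a) * φ (r / x)) *
      (y ^ (1 - a) * ψ (r / y)))) =
      fun r => (x * y) ^ (1 - a) * (r ^ (2 * a - 2) * (φ (r / x) * ψ (r / y))) := by
    funext r
    rw [Real.mul_rpow hx.le hy.le]
    ring
  rw [hE]
  refine ⟨hi.const_mul _, ?_⟩
  rw [integral_const_mul]
  rfl

theorem kd_itg {a : ℝ} (h0 : 0 < a) (h1 : 2 * a < 1) {φ ψ : ℝ → ℝ} (hφ : Ic φ) (hψ : Ic ψ)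
    {x y : ℝ} (hx : 0 < x) (hy : 0 < y) :
    Itg (fun r => r ^ (2 * a - 1) * ((x ^ (1 - a) * φ (r / x)) * (y ^ (1 - a) * ψ (r / y))))
      (kd a φ ψ x y) := by
  have hi := kd_int h0 h1 hφ hψ hx hy
  have hE : (fun r : ℝ => r ^ (2 * a - 1) * ((x ^ (1 - a) * φ (r / x)) *
      (y ^ (1 - a) * ψ (r / y)))) =
      fun r => (x * y) ^ (1 - a) * (r ^ (2 * a - 1) * (φ (r / x) * ψ (r / y))) := by
    funext r
    rw [Real.mul_rpow hx.le hy.le]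
    ring
  rw [hE]
  refine ⟨hi.const_mul _, ?_⟩
  rw [integral_const_mul]
  rfl

end Pool.Agent.LibSchE
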