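import Pool.Agent.LibSchE.E1a

/-! **E1b.**  Elementary properties of the kernels `kn`, `kd`. -/

open MeasureTheory Set

namespace Pool.Agent.LibSchE

open Pool.Agent.LibSchP Pool.Agent.LibSchA

theorem E1b_scale (s : ℝ) (F : ℝ → ℝ) {x : ℝ} (hx : 0 < x) :
    ∫ r in Ioi (0 : ℝ), r ^ s * F (r / x) = x ^ (s + 1) * ∫ r in Ioi (0 : ℝ), r ^ s * F r := by
  have h1 := integral_comp_mul_left_Ioi (fun r => r ^ s * F (r / x)) 0 hx
  rw [mul_zero, smul_eq_mul] at h1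
  have h2 : ∫ u in Ioi (0 : ℝ), (x * u) ^ s * F (x * u / x) =
      x ^ s * ∫ u in Ioi (0 : ℝ), u ^ s * F u := by
    rw [← integral_const_mul]
    refine setIntegral_congr_fun measurableSet_Ioi fun u hu => ?_
    have e1 : x * u / x = u := by field_simp
    have hu0 : (0 : ℝ) < u := hu
    change (x * u) ^ s * F (x * u / x) = x ^ s * (u ^ s * F u)
    rw [e1, Real.mul_rpow hx.le hu0.le]
    ring
  rw [h2] at h1
  rw [Real.rpow_add_one hx.ne']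
  have h3 : x * (x⁻¹ * ∫ r in Ioi (0 : ℝ), r ^ s * F (r / x)) =
      ∫ r in Ioi (0 : ℝ), r ^ s * F (r / x) := by
    rw [← mul_assoc, mul_inv_cancel₀ hx.ne', one_mul]
  rw [← h3, ← h1]
  ring

theorem E1b_one (a : ℝ) : ((1 : ℝ) * 1) ^ (1 - a) = 1 := by
  rw [one_mul, Real.one_rpow]

theorem kn_comm (a : ℝ) (φ ψ : ℝ → ℝ) (x y : ℝ) : kn a φ ψ x y = kn a ψ φ y x := by
  unfold kn
  rw [mul_comm x y]
  congr 1
  refine setIntegral_congr_fun measurableSet_Ioi fun r _ => ?_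
  change r ^ (2 * a - 2) * (φ (r / x) * ψ (r / y)) = r ^ (2 * a - 2) * (ψ (r / y) * φ (r / x))
  rw [mul_comm (φ (r / x))]

/-- substitution `r = x u` (`integral_comp_mul_left_Ioi`) -/
theorem kn_diag (a : ℝ) (φ ψ : ℝ → ℝ) {x : ℝ} (hx : 0 < x) :
    kn a φ ψ x x = x * kn a φ ψ 1 1 := by
  have h1 := E1b_scale (2 * a - 2) (fun ν => φ ν * ψ ν) hx
  have h2 := E1b_scale (2 * a - 2) (fun ν => φ ν * ψ ν) one_pos
  unfold kn
  rw [h1, h2, E1b_one, Real.one_rpow, one_mul, one_mul, ← mul_assoc]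
  congr 1
  rw [Real.mul_rpow hx.le hx.le, ← Real.rpow_add hx, ← Real.rpow_add hx]
  have : 1 - a + (1 - a) + (2 * a - 2 + 1) = 1 := by ring
  rw [this, Real.rpow_one]

theorem kd_diag (a : ℝ) (φ ψ : ℝ → ℝ) {x : ℝ} (hx : 0 < x) :
    kd a φ ψ x x = x ^ 2 * kd a φ ψ 1 1 := by
  have h1 := E1b_scale (2 * a - 1) (fun ν => φ ν * ψ ν) hx
  have h2 := E1b_scale (2 * a - 1) (fun ν => φ ν * ψ ν) one_pos
  unfold kd
  rw [h1, h2, E1b_one, Real.one_rpow, one_mul, one_mul, ← mul_assoc]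
  congr 1
  rw [Real.mul_rpow hx.le hx.le, ← Real.rpow_add hx, ← Real.rpow_add hx]
  have : 1 - a + (1 - a) + (2 * a - 1 + 1) = ((2 : ℕ) : ℝ) := by
    push_cast
    ring
  rw [this, Real.rpow_natCast]

theorem kn_self_nonneg (a : ℝ) (φ : ℝ → ℝ) : 0 ≤ kn a φ φ 1 1 := by
  unfold kn
  rw [E1b_one, one_mul]
  refine setIntegral_nonneg measurableSet_Ioi fun r hr => ?_
  exact mul_nonneg (Real.rpow_nonneg (le_of_lt hr) _) (mul_self_nonneg _)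

theorem kd_self_nonneg (a : ℝ) (φ : ℝ → ℝ) : 0 ≤ kd a φ φ 1 1 := by
  unfold kd
  rw [E1b_one, one_mul]
  refine setIntegral_nonneg measurableSet_Ioi fun r hr => ?_
  exact mul_nonneg (Real.rpow_nonneg (le_of_lt hr) _) (mul_self_nonneg _)

/-- Cauchy-Schwarz (`LibSchE.cs_int`) -/
theorem kn_cs {a : ℝ} (h0 : 0 < a) (h1 : 2 * a < 1) {φ ψ : ℝ → ℝ} (hφ : Zc φ) (hψ : Zc ψ) :
    kn a φ ψ 1 1 ^ 2 ≤ kn a φ φ 1 1 * kn a ψ ψ 1 1 := by
  unfold kn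
  rw [E1b_one, one_mul, one_mul, one_mul]
  refine cs_int (kn_int h0 h1 hφ hφ one_pos one_pos) (kn_int h0 h1 hψ hψ one_pos one_pos)
    (kn_int h0 h1 hφ hψ one_pos one_pos) ?_ ?_ ?_
  · intro r hr
    exact mul_nonneg (Real.rpow_nonneg hr.le _) (mul_self_nonneg _)
  · intro r hr
    exact mul_nonneg (Real.rpow_nonneg hr.le _) (mul_self_nonneg _)
  · intro r hr
    apply le_of_eq
    ring

theorem kn_zero_right (a : ℝ) (φ : ℝ → ℝ) (x y : ℝ) : kn a φ (fun _ => 0) x y = 0 := by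
  unfold kn
  simp

theorem kn_zero_left (a : ℝ) (φ : ℝ → ℝ) (x y : ℝ) : kn a (fun _ => 0) φ x y = 0 := by
  unfold kn
  simp

theorem kd_zero_right (a : ℝ) (φ : ℝ → ℝ) (x y : ℝ) : kd a φ (fun _ => 0) x y = 0 := by
  unfold kd
  simp

/-- `kn` depends only on the values on `(0,∞)` -/
theorem kn_congr (a : ℝ) {φ ψ φ' ψ' : ℝ → ℝ} (h : ∀ ν, 0 < ν → φ ν = φ' ν)
    (h' : ∀ ν, 0 < ν → ψ ν = ψ' ν) {x y : ℝ} (hx : 0 < x) (hy : 0 < y) :
    kn a φ ψ x y = kn a φ' ψ' x y := by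
  unfold kn
  congr 1
  refine setIntegral_congr_fun measurableSet_Ioi fun r hr => ?_
  have hr0 : (0 : ℝ) < r := hr
  change r ^ (2 * a - 2) * (φ (r / x) * ψ (r / y)) = r ^ (2 * a - 2) * (φ' (r / x) * ψ' (r / y))
  rw [h _ (div_pos hr0 hx), h' _ (div_pos hr0 hy)]

theorem kd_congr (a : ℝ) {φ ψ φ' ψ' : ℝ → ℝ} (h : ∀ ν, 0 < ν → φ ν = φ' ν)
    (h' : ∀ ν, 0 < ν → ψ ν = ψ' ν) {x y : ℝ} (hx : 0 < x) (hy : 0 < y) :
    kd a φ ψ x y = kd a φ' ψ' x y := by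
  unfold kd
  congr 1
  refine setIntegral_congr_fun measurableSet_Ioi fun r hr => ?_
  have hr0 : (0 : ℝ) < r := hr
  change r ^ (2 * a - 1) * (φ (r / x) * ψ (r / y)) = r ^ (2 * a - 1) * (φ' (r / x) * ψ' (r / y))
  rw [h _ (div_pos hr0 hx), h' _ (div_pos hr0 hy)]

end Pool.Agent.LibSchE
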