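import Pool.Agent.LibSchE.E1b

/-! **E1c.**  Closed forms and sums for the kernels `kn`, `kd`. -/

open MeasureTheory Set

namespace Pool.Agent.LibSchE

open Pool.Agent.LibSchP Pool.Agent.LibSchA

theorem e1c_kn1 (a : ℝ) (φ ψ : ℝ → ℝ) :
    kn a φ ψ 1 1 = ∫ r in Ioi (0 : ℝ), r ^ (2 * a - 2) * (φ r * ψ r) := by
  simp only [kn, mul_one, Real.one_rpow, one_mul, div_one]

theorem e1c_kd1 (a : ℝ) (φ ψ : ℝ → ℝ) :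
    kd a φ ψ 1 1 = ∫ r in Ioi (0 : ℝ), r ^ (2 * a - 1) * (φ r * ψ r) := by
  simp only [kd, mul_one, Real.one_rpow, one_mul, div_one]

theorem e1c_kn1_int {a : ℝ} (h0 : 0 < a) (h1 : 2 * a < 1) {φ ψ : ℝ → ℝ} (hφ : Zc φ)
    (hψ : Zc ψ) : IntegrableOn (fun r => r ^ (2 * a - 2) * (φ r * ψ r)) (Ioi 0) := by
  have h := kn_int h0 h1 hφ hψ one_pos one_pos
  simpa only [div_one] using h

theorem e1c_kd1_int {a : ℝ} (h0 : 0 < a) (h1 : 2 * a < 1) {φ ψ : ℝ → ℝ} (hφ : Ic φ)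
    (hψ : Ic ψ) : IntegrableOn (fun r => r ^ (2 * a - 1) * (φ r * ψ r)) (Ioi 0) := by
  have h := kd_int h0 h1 hφ hψ one_pos one_pos
  simpa only [div_one] using h

theorem e1c_gam (a e₁ e₂ p₁ p₂ : ℝ) (he₁ : 0 < e₁) (he₂ : 0 < e₂) {x r : ℝ} (hx : 0 < x)
    (hr : 0 < r) : gam a e₁ e₂ p₁ p₂ x r = x ^ (1 - a) * ph e₁ e₂ p₁ p₂ (r / x) := by
  unfold gam ph
  have e1 : r / x / (r / x + e₁) = r / (r + e₁ * x) := by field_simp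
  have e2 : r / x / (r / x + e₂) = r / (r + e₂ * x) := by field_simp
  rw [e1, e2]

/-- `itg_ker`: `gam a e₁ e₂ p₁ p₂ x r = x^(1-a) ph e₁ e₂ p₁ p₂ (r/x)` -/
theorem kn_ph {a e₁ e₂ : ℝ} (p₁ p₂ q₁ q₂ : ℝ) (h0 : 0 < a) (h1 : 2 * a < 1) (he₁ : 0 < e₁)
    (he₂ : 0 < e₂) {x y : ℝ} (hx : 0 < x) (hy : 0 < y) :
    kn a (ph e₁ e₂ p₁ p₂) (ph e₁ e₂ q₁ q₂) x y =
      cst (2 * a) * ker a e₁ e₂ p₁ p₂ q₁ q₂ x y := by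
  have k1 := kn_itg h0 h1 (Zc.ph e₁ e₂ p₁ p₂ he₁ he₂) (Zc.ph e₁ e₂ q₁ q₂ he₁ he₂) hx hy
  have k2 := itg_ker a e₁ e₂ p₁ p₂ q₁ q₂ x y h0 h1 he₁ he₂ hx hy
  rw [← k1.2, ← k2.2]
  refine setIntegral_congr_fun measurableSet_Ioi fun r hr => ?_
  have hr' : (0 : ℝ) < r := hr
  show r ^ (2 * a - 2) * ((x ^ (1 - a) * ph e₁ e₂ p₁ p₂ (r / x)) *
    (y ^ (1 - a) * ph e₁ e₂ q₁ q₂ (r / y))) =
    r ^ (2 * a - 2) * (gam a e₁ e₂ p₁ p₂ x r * gam a e₁ e₂ q₁ q₂ y r)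
  rw [e1c_gam a e₁ e₂ p₁ p₂ he₁ he₂ hx hr', e1c_gam a e₁ e₂ q₁ q₂ he₁ he₂ hy hr']

/-- `itg_res` with `x = 1` -/
theorem kd_ph {a e₁ e₂ : ℝ} (p₁ p₂ y : ℝ) (h0 : 0 < a) (h1 : 2 * a < 1) (he₁ : 0 < e₁)
    (he₂ : 0 < e₂) (hy : y = p₁ + p₂) :
    kd a (fun ν => y - ph e₁ e₂ p₁ p₂ ν) (fun ν => y - ph e₁ e₂ p₁ p₂ ν) 1 1 =
      cst (2 * a) * res a e₁ e₂ p₁ p₂ := by
  have k2 := itg_res a e₁ e₂ p₁ p₂ 1 h0 h1 he₁ he₂ one_pos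
  rw [one_pow, one_mul] at k2
  rw [e1c_kd1, ← k2.2]
  refine setIntegral_congr_fun measurableSet_Ioi fun r hr => ?_
  have hr' : (0 : ℝ) < r := hr
  show r ^ (2 * a - 1) * ((y - ph e₁ e₂ p₁ p₂ r) * (y - ph e₁ e₂ p₁ p₂ r)) =
    r ^ (2 * a - 1) * (1 ^ (1 - a) * (p₁ + p₂) - gam a e₁ e₂ p₁ p₂ 1 r) ^ 2
  rw [e1c_gam a e₁ e₂ p₁ p₂ he₁ he₂ one_pos hr', Real.one_rpow, one_mul, one_mul, div_one, hy]
  ring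

/-- splitting `G = ψ - χ` with `ψ χ = 0`: second moment -/
theorem kn_split {a : ℝ} (h0 : 0 < a) (h1 : 2 * a < 1) {ψ χ G : ℝ → ℝ} (hψ : Zc ψ) (hχ : Zc χ)
    (hG : ∀ ν, 0 < ν → G ν = ψ ν - χ ν) (h : ∀ ν, 0 < ν → ψ ν * χ ν = 0) :
    kn a ψ ψ 1 1 + kn a χ χ 1 1 = kn a G G 1 1 := by
  rw [e1c_kn1, e1c_kn1, e1c_kn1,
    ← integral_add (e1c_kn1_int h0 h1 hψ hψ) (e1c_kn1_int h0 h1 hχ hχ)]
  refine setIntegral_congr_fun measurableSet_Ioi fun r hr => ?_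
  have hr' : (0 : ℝ) < r := hr
  show r ^ (2 * a - 2) * (ψ r * ψ r) + r ^ (2 * a - 2) * (χ r * χ r) =
    r ^ (2 * a - 2) * (G r * G r)
  rw [hG r hr']
  linear_combination (2 * r ^ (2 * a - 2)) * h r hr'

/-- splitting: product with `φ` -/
theorem kn_split' {a : ℝ} (h0 : 0 < a) (h1 : 2 * a < 1) {φ ψ χ G : ℝ → ℝ} (hφ : Zc φ)
    (hψ : Zc ψ) (hχ : Zc χ) (hG : ∀ ν, 0 < ν → G ν = ψ ν - χ ν) :
    kn a φ ψ 1 1 - kn a φ χ 1 1 = kn a φ G 1 1 := by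
  rw [e1c_kn1, e1c_kn1, e1c_kn1,
    ← integral_sub (e1c_kn1_int h0 h1 hφ hψ) (e1c_kn1_int h0 h1 hφ hχ)]
  refine setIntegral_congr_fun measurableSet_Ioi fun r hr => ?_
  have hr' : (0 : ℝ) < r := hr
  show r ^ (2 * a - 2) * (φ r * ψ r) - r ^ (2 * a - 2) * (φ r * χ r) =
    r ^ (2 * a - 2) * (φ r * G r)
  rw [hG r hr']
  ring

/-- splitting: `(y' - G)² = (y' - ψ)² + 2 (y' - ψ) χ + χ²` -/
theorem kd_split {a y' : ℝ} (h0 : 0 < a) (h1 : 2 * a < 1) {ψ χ G : ℝ → ℝ}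
    (hψ : Ic (fun ν => y' - ψ ν)) (hχ : Ic χ) (hG : ∀ ν, 0 < ν → G ν = ψ ν - χ ν) :
    kd a (fun ν => y' - ψ ν) (fun ν => y' - ψ ν) 1 1 + 2 * kd a (fun ν => y' - ψ ν) χ 1 1 +
      kd a χ χ 1 1 = kd a (fun ν => y' - G ν) (fun ν => y' - G ν) 1 1 := by
  have i1 := e1c_kd1_int h0 h1 hψ hψ
  have i2 := (e1c_kd1_int h0 h1 hψ hχ).const_mul 2
  have i3 := e1c_kd1_int h0 h1 hχ hχ
  have h12 := integral_add i1 i2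
  have h123 := integral_add (i1.add i2) i3
  simp only [Pi.add_apply] at h123
  rw [e1c_kd1, e1c_kd1, e1c_kd1, e1c_kd1, ← integral_const_mul, ← h12, ← h123]
  refine setIntegral_congr_fun measurableSet_Ioi fun r hr => ?_
  have hr' : (0 : ℝ) < r := hr
  show r ^ (2 * a - 1) * ((y' - ψ r) * (y' - ψ r)) + 2 * (r ^ (2 * a - 1) * ((y' - ψ r) * χ r)) +
    r ^ (2 * a - 1) * (χ r * χ r) = r ^ (2 * a - 1) * ((y' - G r) * (y' - G r))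
  rw [hG r hr']
  ring

end Pool.Agent.LibSchE
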