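import Pool.Agent.LibSchE.E1

/-! **E2b.**  The integral of one column. -/

open MeasureTheory Set Matrix
open scoped ComplexOrder

namespace Pool.Agent.LibSchE

open Pool.Agent.LibSchP Pool.Agent.LibSchA

section column

variable {m n κ κ' : Type} [Fintype m] [DecidableEq m] [Fintype n] [Fintype κ] [Fintype κ']
  [DecidableEq κ] [DecidableEq κ']

omit [DecidableEq m] in
theorem E2b_re_conj {m' : Type} [Fintype m'] (P : Matrix m n ℂ) (Q : Matrix m' n ℂ)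
    (E : Matrix m m' ℂ) : (trace (Qᴴ * Eᴴ * P)).re = (trace (Pᴴ * E * Q)).re := by
  have h : trace (Qᴴ * Eᴴ * P) = star (trace (Pᴴ * E * Q)) := by
    rw [← Matrix.trace_conjTranspose, Matrix.conjTranspose_mul, Matrix.conjTranspose_mul,
      Matrix.conjTranspose_conjTranspose, Matrix.mul_assoc]
  rw [h]
  exact Complex.conj_re _

theorem E2b_fr_add (X Y : Matrix m n ℂ) :
    fr (X + Y) = fr X + fr Y + 2 * (trace (Xᴴ * (1 : Matrix m m ℂ) * Y)).re := by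
  have h := E2b_re_conj X Y (1 : Matrix m m ℂ)
  rw [Matrix.conjTranspose_one, Matrix.mul_one, Matrix.mul_one] at h
  rw [fr_eq_trace, fr_eq_trace, fr_eq_trace, Matrix.mul_one, Matrix.conjTranspose_add,
    Matrix.add_mul, Matrix.mul_add, Matrix.mul_add, Matrix.trace_add, Matrix.trace_add,
    Matrix.trace_add, Complex.add_re, Complex.add_re, Complex.add_re, h]
  ring

omit [DecidableEq m] in
theorem E2b_tr_sub (P Q : Matrix m n ℂ) (E : Matrix m m ℂ) (hE : E.IsHermitian) :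
    (trace ((P - Q)ᴴ * E * (P - Q))).re = (trace (Pᴴ * E * P)).re + (trace (Qᴴ * E * Q)).re -
      2 * (trace (Pᴴ * E * Q)).re := by
  have h := E2b_re_conj P Q E
  rw [hE.eq] at h
  rw [Matrix.conjTranspose_sub, Matrix.sub_mul, Matrix.sub_mul, Matrix.mul_sub, Matrix.mul_sub,
    Matrix.trace_sub, Matrix.trace_sub, Matrix.trace_sub, Complex.sub_re, Complex.sub_re,
    Complex.sub_re, h]
  ring

omit [DecidableEq m] in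
theorem E2b_tr_sub' {m' : Type} [Fintype m'] (G : Matrix m' n ℂ) (P Q : Matrix m n ℂ)
    (E : Matrix m' m ℂ) :
    (trace (Gᴴ * E * (P - Q))).re = (trace (Gᴴ * E * P)).re - (trace (Gᴴ * E * Q)).re := by
  rw [Matrix.mul_sub, Matrix.trace_sub, Complex.sub_re]

omit [DecidableEq m] in
theorem E2b_diag2 (U : Matrix m κ ℂ) (V : Matrix n κ ℂ) (hV : Vᴴ * V = 1) (g g' : κ → ℝ)
    (E : Matrix m m ℂ) : (trace ((U * dg g * Vᴴ)ᴴ * E * (U * dg g' * Vᴴ))).re =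
      ∑ j, g j * g' j * ((Uᴴ * E * U) j j).re := by
  rw [trace_usv_cross, hV]
  refine Finset.sum_congr rfl fun j _ => ?_
  rw [Finset.sum_eq_single j]
  · rw [Matrix.one_apply_eq, mul_one]
  · intro l _ hl
    rw [Matrix.one_apply_ne hl, mul_zero, Complex.zero_re, mul_zero]
  · intro h
    exact absurd (Finset.mem_univ j) h

omit [DecidableEq m] in
theorem E2b_sub {a y : ℝ} {φ : ℝ → ℝ} {T : Matrix m n ℂ} {U : Matrix m κ ℂ} {V : Matrix n κ ℂ}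
    {θ : κ → ℝ} (h : BlkD a y T U V θ) (r : ℝ) :
    T - tf a φ U V θ r = U * (dg fun j => θ j ^ (1 - a) * (y - φ (r / θ j))) * Vᴴ := by
  rw [h.hT, tf, ← Matrix.sub_mul, ← Matrix.mul_sub]
  congr 2
  ext i j
  rw [Matrix.sub_apply, dg_apply, dg_apply, dg_apply]
  split_ifs
  · push_cast
    ring
  · simp

/-- `T₁ - G₁ = U diag(θ^(1-a) (y - φ(r/θ))) Vᴴ`; `T₂ - G₂ = tf (y' - ψ) - (-tf χ)`;
`fr_usv`, `trace_usv_diag`, `trace_usv_cross` (with `E = 1` for the cross term of `|T₂ - G₂|²`),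
`kn_itg`, `kd_itg`, `kn_diag`, `kd_diag`, `Itg.sum`, `Itg.add`. -/
theorem col_itg {a y y' : ℝ} (h0 : 0 < a) (h1 : 2 * a < 1) {φ ψ χ : ℝ → ℝ} (hφ : Zc φ)
    (hψ : Zc ψ) (hχ : Zc χ) (iφ : Ic (fun ν => y - φ ν)) (iψ : Ic (fun ν => y' - ψ ν))
    (iχ : Ic χ) {T₁ T₂ : Matrix m n ℂ} {U : Matrix m κ ℂ} {V : Matrix n κ ℂ} {θ : κ → ℝ}
    {U' : Matrix m κ' ℂ} {V' : Matrix n κ' ℂ} {θ' : κ' → ℝ} (hA : BlkD a y T₁ U V θ)
    (hC : BlkD a y' T₂ U' V' θ') (E₁₁ E₂₂ E₁₂ : Matrix m m ℂ) (h12 : E₁₂.IsHermitian)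
    (h22 : E₂₂.IsHermitian) :
    Itg (fun r => r ^ (2 * a - 1) * colI T₁ T₂ (tf a φ U V θ r)
      (tf a ψ U' V' θ' r - tf a χ U V θ r) E₁₁ E₂₂ E₁₂ r)
      (colW a y y' φ ψ χ U V θ U' V' θ' E₁₁ E₂₂ E₁₂) := by
  have i1 : Itg (fun r => ∑ j, r ^ (2 * a - 1) *
      ((θ j ^ (1 - a) * (y - φ (r / θ j))) * (θ j ^ (1 - a) * (y - φ (r / θ j)))))
      (∑ j, kd a (fun ν => y - φ ν) (fun ν => y - φ ν) (θ j) (θ j)) :=
    Itg.sum _ fun j _ => kd_itg h0 h1 iφ iφ (hA.hθ j) (hA.hθ j)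
  have i2 : Itg (fun r => ∑ j, r ^ (2 * a - 1) *
      ((θ j ^ (1 - a) * χ (r / θ j)) * (θ j ^ (1 - a) * χ (r / θ j))))
      (∑ j, kd a χ χ (θ j) (θ j)) :=
    Itg.sum _ fun j _ => kd_itg h0 h1 iχ iχ (hA.hθ j) (hA.hθ j)
  have i3 : Itg (fun r => ∑ j, r ^ (2 * a - 1) *
      ((θ' j ^ (1 - a) * (y' - ψ (r / θ' j))) * (θ' j ^ (1 - a) * (y' - ψ (r / θ' j)))))
      (∑ j, kd a (fun ν => y' - ψ ν) (fun ν => y' - ψ ν) (θ' j) (θ' j)) :=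
    Itg.sum _ fun j _ => kd_itg h0 h1 iψ iψ (hC.hθ j) (hC.hθ j)
  have i4 : Itg (fun r => ∑ l, ∑ j, ((U'ᴴ * (1 : Matrix m m ℂ) * U) l j * (Vᴴ * V') j l).re *
      (r ^ (2 * a - 1) *
        ((θ' l ^ (1 - a) * (y' - ψ (r / θ' l))) * (θ j ^ (1 - a) * χ (r / θ j)))))
      (∑ l, ∑ j, ((U'ᴴ * (1 : Matrix m m ℂ) * U) l j * (Vᴴ * V') j l).re *
        kd a (fun ν => y' - ψ ν) χ (θ' l) (θ j)) :=
    Itg.sum _ fun l _ => Itg.sum _ fun j _ =>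
      (kd_itg h0 h1 iψ iχ (hC.hθ l) (hA.hθ j)).const_mul _
  have i5 : Itg (fun r => ∑ j, ((Uᴴ * E₁₁ * U) j j).re * (r ^ (2 * a - 2) *
      ((θ j ^ (1 - a) * φ (r / θ j)) * (θ j ^ (1 - a) * φ (r / θ j)))))
      (∑ j, ((Uᴴ * E₁₁ * U) j j).re * kn a φ φ (θ j) (θ j)) :=
    Itg.sum _ fun j _ => (kn_itg h0 h1 hφ hφ (hA.hθ j) (hA.hθ j)).const_mul _
  have i6 : Itg (fun r => ∑ j, ((U'ᴴ * E₂₂ * U') j j).re * (r ^ (2 * a - 2) *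
      ((θ' j ^ (1 - a) * ψ (r / θ' j)) * (θ' j ^ (1 - a) * ψ (r / θ' j)))))
      (∑ j, ((U'ᴴ * E₂₂ * U') j j).re * kn a ψ ψ (θ' j) (θ' j)) :=
    Itg.sum _ fun j _ => (kn_itg h0 h1 hψ hψ (hC.hθ j) (hC.hθ j)).const_mul _
  have i7 : Itg (fun r => ∑ j, ((Uᴴ * E₂₂ * U) j j).re * (r ^ (2 * a - 2) *
      ((θ j ^ (1 - a) * χ (r / θ j)) * (θ j ^ (1 - a) * χ (r / θ j)))))
      (∑ j, ((Uᴴ * E₂₂ * U) j j).re * kn a χ χ (θ j) (θ j)) :=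
    Itg.sum _ fun j _ => (kn_itg h0 h1 hχ hχ (hA.hθ j) (hA.hθ j)).const_mul _
  have i8 : Itg (fun r => ∑ l, ∑ j, ((U'ᴴ * E₂₂ * U) l j * (Vᴴ * V') j l).re *
      (r ^ (2 * a - 2) * ((θ' l ^ (1 - a) * ψ (r / θ' l)) * (θ j ^ (1 - a) * χ (r / θ j)))))
      (∑ l, ∑ j, ((U'ᴴ * E₂₂ * U) l j * (Vᴴ * V') j l).re * kn a ψ χ (θ' l) (θ j)) :=
    Itg.sum _ fun l _ => Itg.sum _ fun j _ =>
      (kn_itg h0 h1 hψ hχ (hC.hθ l) (hA.hθ j)).const_mul _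
  have i9 : Itg (fun r => ∑ j, ∑ l, ((Uᴴ * E₁₂ * U') j l * (V'ᴴ * V) l j).re *
      (r ^ (2 * a - 2) * ((θ j ^ (1 - a) * φ (r / θ j)) * (θ' l ^ (1 - a) * ψ (r / θ' l)))))
      (∑ j, ∑ l, ((Uᴴ * E₁₂ * U') j l * (V'ᴴ * V) l j).re * kn a φ ψ (θ j) (θ' l)) :=
    Itg.sum _ fun j _ => Itg.sum _ fun l _ =>
      (kn_itg h0 h1 hφ hψ (hA.hθ j) (hC.hθ l)).const_mul _
  have i10 : Itg (fun r => ∑ j, ((Uᴴ * E₁₂ * U) j j).re * (r ^ (2 * a - 2) *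
      ((θ j ^ (1 - a) * φ (r / θ j)) * (θ j ^ (1 - a) * χ (r / θ j)))))
      (∑ j, ((Uᴴ * E₁₂ * U) j j).re * kn a φ χ (θ j) (θ j)) :=
    Itg.sum _ fun j _ => (kn_itg h0 h1 hφ hχ (hA.hθ j) (hA.hθ j)).const_mul _
  have hI := (((i1.add i2).add i3).add (i4.const_mul 2)).add
    ((((i5.add i6).add i7).add (i8.const_mul (-2))).add
      ((i9.add (i10.const_mul (-1))).const_mul 2))
  have v1 : ∑ j, kd a (fun ν => y - φ ν) (fun ν => y - φ ν) (θ j) (θ j) =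
      (∑ j, θ j ^ 2) * kd a (fun ν => y - φ ν) (fun ν => y - φ ν) 1 1 := by
    rw [Finset.sum_mul]
    exact Finset.sum_congr rfl fun j _ => kd_diag a _ _ (hA.hθ j)
  have v2 : ∑ j, kd a χ χ (θ j) (θ j) = (∑ j, θ j ^ 2) * kd a χ χ 1 1 := by
    rw [Finset.sum_mul]
    exact Finset.sum_congr rfl fun j _ => kd_diag a _ _ (hA.hθ j)
  have v3 : ∑ j, kd a (fun ν => y' - ψ ν) (fun ν => y' - ψ ν) (θ' j) (θ' j) =
      (∑ j, θ' j ^ 2) * kd a (fun ν => y' - ψ ν) (fun ν => y' - ψ ν) 1 1 := by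
    rw [Finset.sum_mul]
    exact Finset.sum_congr rfl fun j _ => kd_diag a _ _ (hC.hθ j)
  have v4 : ∑ l, ∑ j, ((U'ᴴ * (1 : Matrix m m ℂ) * U) l j * (Vᴴ * V') j l).re *
        kd a (fun ν => y' - ψ ν) χ (θ' l) (θ j) =
      cx (kd a (fun ν => y' - ψ ν) χ) U' V' θ' U V θ (1 : Matrix m m ℂ) := by
    unfold cx
    exact Finset.sum_congr rfl fun l _ => Finset.sum_congr rfl fun j _ => mul_comm _ _
  have v5 : ∑ j, ((Uᴴ * E₁₁ * U) j j).re * kn a φ φ (θ j) (θ j) =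
      kn a φ φ 1 1 * pr U θ E₁₁ := by
    unfold pr
    rw [Finset.mul_sum]
    refine Finset.sum_congr rfl fun j _ => ?_
    rw [kn_diag a _ _ (hA.hθ j)]
    ring
  have v6 : ∑ j, ((U'ᴴ * E₂₂ * U') j j).re * kn a ψ ψ (θ' j) (θ' j) =
      kn a ψ ψ 1 1 * pr U' θ' E₂₂ := by
    unfold pr
    rw [Finset.mul_sum]
    refine Finset.sum_congr rfl fun j _ => ?_
    rw [kn_diag a _ _ (hC.hθ j)]
    ring
  have v7 : ∑ j, ((Uᴴ * E₂₂ * U) j j).re * kn a χ χ (θ j) (θ j) =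
      kn a χ χ 1 1 * pr U θ E₂₂ := by
    unfold pr
    rw [Finset.mul_sum]
    refine Finset.sum_congr rfl fun j _ => ?_
    rw [kn_diag a _ _ (hA.hθ j)]
    ring
  have v8 : ∑ l, ∑ j, ((U'ᴴ * E₂₂ * U) l j * (Vᴴ * V') j l).re * kn a ψ χ (θ' l) (θ j) =
      cx (kn a ψ χ) U' V' θ' U V θ E₂₂ := by
    unfold cx
    exact Finset.sum_congr rfl fun l _ => Finset.sum_congr rfl fun j _ => mul_comm _ _
  have v9 : ∑ j, ∑ l, ((Uᴴ * E₁₂ * U') j l * (V'ᴴ * V) l j).re * kn a φ ψ (θ j) (θ' l) =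
      cx (kn a φ ψ) U V θ U' V' θ' E₁₂ := by
    unfold cx
    exact Finset.sum_congr rfl fun j _ => Finset.sum_congr rfl fun l _ => mul_comm _ _
  have v10 : ∑ j, ((Uᴴ * E₁₂ * U) j j).re * kn a φ χ (θ j) (θ j) =
      kn a φ χ 1 1 * pr U θ E₁₂ := by
    unfold pr
    rw [Finset.mul_sum]
    refine Finset.sum_congr rfl fun j _ => ?_
    rw [kn_diag a _ _ (hA.hθ j)]
    ring
  rw [v1, v2, v3, v4, v5, v6, v7, v8, v9, v10] at hI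
  have hv : colW a y y' φ ψ χ U V θ U' V' θ' E₁₁ E₂₂ E₁₂ =
      ((((∑ j, θ j ^ 2) * kd a (fun ν => y - φ ν) (fun ν => y - φ ν) 1 1 +
        (∑ j, θ j ^ 2) * kd a χ χ 1 1) +
        (∑ j, θ' j ^ 2) * kd a (fun ν => y' - ψ ν) (fun ν => y' - ψ ν) 1 1) +
        2 * cx (kd a (fun ν => y' - ψ ν) χ) U' V' θ' U V θ (1 : Matrix m m ℂ)) +
      ((((kn a φ φ 1 1 * pr U θ E₁₁ + kn a ψ ψ 1 1 * pr U' θ' E₂₂) +
        kn a χ χ 1 1 * pr U θ E₂₂) + (-2) * cx (kn a ψ χ) U' V' θ' U V θ E₂₂) +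
        2 * (cx (kn a φ ψ) U V θ U' V' θ' E₁₂ + (-1) * (kn a φ χ 1 1 * pr U θ E₁₂))) := by
    unfold colW
    ring
  rw [hv]
  refine hI.congr fun r hr => ?_
  have hr1 : r ^ (2 * a - 2) = r ^ (2 * a - 1) * r⁻¹ := by
    have : (2 * a - 2) = (2 * a - 1) - 1 := by ring
    rw [this, Real.rpow_sub_one hr.ne' (2 * a - 1), div_eq_mul_inv]
  have e1 : fr (T₁ - tf a φ U V θ r) = ∑ j, (θ j ^ (1 - a) * (y - φ (r / θ j))) ^ 2 := by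
    rw [E2b_sub hA, fr_usv U V hA.hU hA.hV]
  have e2 : fr (T₂ - (tf a ψ U' V' θ' r - tf a χ U V θ r)) =
      ∑ j, (θ' j ^ (1 - a) * (y' - ψ (r / θ' j))) ^ 2 + ∑ j, (θ j ^ (1 - a) * χ (r / θ j)) ^ 2 +
      2 * ∑ l, ∑ j, (θ' l ^ (1 - a) * (y' - ψ (r / θ' l))) * (θ j ^ (1 - a) * χ (r / θ j)) *
        ((U'ᴴ * (1 : Matrix m m ℂ) * U) l j * (Vᴴ * V') j l).re := by
    have h : T₂ - (tf a ψ U' V' θ' r - tf a χ U V θ r) =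
        U' * (dg fun j => θ' j ^ (1 - a) * (y' - ψ (r / θ' j))) * V'ᴴ +
          U * (dg fun j => θ j ^ (1 - a) * χ (r / θ j)) * Vᴴ := by
      rw [← E2b_sub hC, tf, tf]
      abel
    rw [h, E2b_fr_add, fr_usv U' V' hC.hU hC.hV, fr_usv U V hA.hU hA.hV, trace_usv_cross]
  have e3 : (trace ((tf a φ U V θ r)ᴴ * E₁₁ * tf a φ U V θ r)).re =
      ∑ j, (θ j ^ (1 - a) * φ (r / θ j)) ^ 2 * ((Uᴴ * E₁₁ * U) j j).re := by
    rw [tf, trace_usv_diag U V hA.hV]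
  have e4 : (trace ((tf a ψ U' V' θ' r - tf a χ U V θ r)ᴴ * E₂₂ *
      (tf a ψ U' V' θ' r - tf a χ U V θ r))).re =
      ∑ j, (θ' j ^ (1 - a) * ψ (r / θ' j)) ^ 2 * ((U'ᴴ * E₂₂ * U') j j).re +
      ∑ j, (θ j ^ (1 - a) * χ (r / θ j)) ^ 2 * ((Uᴴ * E₂₂ * U) j j).re -
      2 * ∑ l, ∑ j, (θ' l ^ (1 - a) * ψ (r / θ' l)) * (θ j ^ (1 - a) * χ (r / θ j)) *
        ((U'ᴴ * E₂₂ * U) l j * (Vᴴ * V') j l).re := by
    rw [E2b_tr_sub _ _ _ h22, tf, tf, trace_usv_diag U V hA.hV, trace_usv_diag U' V' hC.hV,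
      trace_usv_cross]
  have e5 : (trace ((tf a φ U V θ r)ᴴ * E₁₂ * (tf a ψ U' V' θ' r - tf a χ U V θ r))).re =
      ∑ j, ∑ l, (θ j ^ (1 - a) * φ (r / θ j)) * (θ' l ^ (1 - a) * ψ (r / θ' l)) *
        ((Uᴴ * E₁₂ * U') j l * (V'ᴴ * V) l j).re -
      ∑ j, (θ j ^ (1 - a) * φ (r / θ j)) * (θ j ^ (1 - a) * χ (r / θ j)) *
        ((Uᴴ * E₁₂ * U) j j).re := by
    rw [E2b_tr_sub', tf, tf, tf, trace_usv_cross, E2b_diag2 U V hA.hV]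
  unfold colI
  rw [e1, e2, e3, e4, e5]
  have w1 : ∑ j, r ^ (2 * a - 1) *
      ((θ j ^ (1 - a) * (y - φ (r / θ j))) * (θ j ^ (1 - a) * (y - φ (r / θ j)))) =
      r ^ (2 * a - 1) * ∑ j, (θ j ^ (1 - a) * (y - φ (r / θ j))) ^ 2 := by
    rw [Finset.mul_sum]
    exact Finset.sum_congr rfl fun j _ => by ring
  have w2 : ∑ j, r ^ (2 * a - 1) *
      ((θ j ^ (1 - a) * χ (r / θ j)) * (θ j ^ (1 - a) * χ (r / θ j))) =
      r ^ (2 * a - 1) * ∑ j, (θ j ^ (1 - a) * χ (r / θ j)) ^ 2 := by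
    rw [Finset.mul_sum]
    exact Finset.sum_congr rfl fun j _ => by ring
  have w3 : ∑ j, r ^ (2 * a - 1) *
      ((θ' j ^ (1 - a) * (y' - ψ (r / θ' j))) * (θ' j ^ (1 - a) * (y' - ψ (r / θ' j)))) =
      r ^ (2 * a - 1) * ∑ j, (θ' j ^ (1 - a) * (y' - ψ (r / θ' j))) ^ 2 := by
    rw [Finset.mul_sum]
    exact Finset.sum_congr rfl fun j _ => by ring
  have w4 : ∑ l, ∑ j, ((U'ᴴ * (1 : Matrix m m ℂ) * U) l j * (Vᴴ * V') j l).re *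
      (r ^ (2 * a - 1) *
        ((θ' l ^ (1 - a) * (y' - ψ (r / θ' l))) * (θ j ^ (1 - a) * χ (r / θ j)))) =
      r ^ (2 * a - 1) * ∑ l, ∑ j,
        (θ' l ^ (1 - a) * (y' - ψ (r / θ' l))) * (θ j ^ (1 - a) * χ (r / θ j)) *
        ((U'ᴴ * (1 : Matrix m m ℂ) * U) l j * (Vᴴ * V') j l).re := by
    simp only [Finset.mul_sum]
    exact Finset.sum_congr rfl fun l _ => Finset.sum_congr rfl fun j _ => by ring
  have w5 : ∑ j, ((Uᴴ * E₁₁ * U) j j).re * (r ^ (2 * a - 2) *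
      ((θ j ^ (1 - a) * φ (r / θ j)) * (θ j ^ (1 - a) * φ (r / θ j)))) =
      r ^ (2 * a - 1) * r⁻¹ *
        ∑ j, (θ j ^ (1 - a) * φ (r / θ j)) ^ 2 * ((Uᴴ * E₁₁ * U) j j).re := by
    rw [Finset.mul_sum, hr1]
    exact Finset.sum_congr rfl fun j _ => by ring
  have w6 : ∑ j, ((U'ᴴ * E₂₂ * U') j j).re * (r ^ (2 * a - 2) *
      ((θ' j ^ (1 - a) * ψ (r / θ' j)) * (θ' j ^ (1 - a) * ψ (r / θ' j)))) =
      r ^ (2 * a - 1) * r⁻¹ *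
        ∑ j, (θ' j ^ (1 - a) * ψ (r / θ' j)) ^ 2 * ((U'ᴴ * E₂₂ * U') j j).re := by
    rw [Finset.mul_sum, hr1]
    exact Finset.sum_congr rfl fun j _ => by ring
  have w7 : ∑ j, ((Uᴴ * E₂₂ * U) j j).re * (r ^ (2 * a - 2) *
      ((θ j ^ (1 - a) * χ (r / θ j)) * (θ j ^ (1 - a) * χ (r / θ j)))) =
      r ^ (2 * a - 1) * r⁻¹ *
        ∑ j, (θ j ^ (1 - a) * χ (r / θ j)) ^ 2 * ((Uᴴ * E₂₂ * U) j j).re := by
    rw [Finset.mul_sum, hr1]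
    exact Finset.sum_congr rfl fun j _ => by ring
  have w8 : ∑ l, ∑ j, ((U'ᴴ * E₂₂ * U) l j * (Vᴴ * V') j l).re *
      (r ^ (2 * a - 2) * ((θ' l ^ (1 - a) * ψ (r / θ' l)) * (θ j ^ (1 - a) * χ (r / θ j)))) =
      r ^ (2 * a - 1) * r⁻¹ * ∑ l, ∑ j,
        (θ' l ^ (1 - a) * ψ (r / θ' l)) * (θ j ^ (1 - a) * χ (r / θ j)) *
        ((U'ᴴ * E₂₂ * U) l j * (Vᴴ * V') j l).re := by
    rw [hr1]
    simp only [Finset.mul_sum]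
    exact Finset.sum_congr rfl fun l _ => Finset.sum_congr rfl fun j _ => by ring
  have w9 : ∑ j, ∑ l, ((Uᴴ * E₁₂ * U') j l * (V'ᴴ * V) l j).re *
      (r ^ (2 * a - 2) * ((θ j ^ (1 - a) * φ (r / θ j)) * (θ' l ^ (1 - a) * ψ (r / θ' l)))) =
      r ^ (2 * a - 1) * r⁻¹ * ∑ j, ∑ l,
        (θ j ^ (1 - a) * φ (r / θ j)) * (θ' l ^ (1 - a) * ψ (r / θ' l)) *
        ((Uᴴ * E₁₂ * U') j l * (V'ᴴ * V) l j).re := by
    rw [hr1]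
    simp only [Finset.mul_sum]
    exact Finset.sum_congr rfl fun j _ => Finset.sum_congr rfl fun l _ => by ring
  have w10 : ∑ j, ((Uᴴ * E₁₂ * U) j j).re * (r ^ (2 * a - 2) *
      ((θ j ^ (1 - a) * φ (r / θ j)) * (θ j ^ (1 - a) * χ (r / θ j)))) =
      r ^ (2 * a - 1) * r⁻¹ *
        ∑ j, (θ j ^ (1 - a) * φ (r / θ j)) * (θ j ^ (1 - a) * χ (r / θ j)) *
        ((Uᴴ * E₁₂ * U) j j).re := by
    rw [Finset.mul_sum, hr1]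
    exact Finset.sum_congr rfl fun j _ => by ring
  rw [w1, w2, w3, w4, w5, w6, w7, w8, w9, w10]
  ring

/-- the same for the mirror image (trial matrices `G₁ = tf ψ (C) - tf χ (A)` in the upper row):
`colI` is symmetric, `Re tr G₁ᴴ E₁₂ G₂ = Re tr G₂ᴴ E₁₂ G₁`. -/
theorem col_itg' {a y y' : ℝ} (h0 : 0 < a) (h1 : 2 * a < 1) {φ ψ χ : ℝ → ℝ} (hφ : Zc φ)
    (hψ : Zc ψ) (hχ : Zc χ) (iφ : Ic (fun ν => y - φ ν)) (iψ : Ic (fun ν => y' - ψ ν))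
    (iχ : Ic χ) {T₁ T₂ : Matrix m n ℂ} {U : Matrix m κ ℂ} {V : Matrix n κ ℂ} {θ : κ → ℝ}
    {U' : Matrix m κ' ℂ} {V' : Matrix n κ' ℂ} {θ' : κ' → ℝ} (hA : BlkD a y T₂ U V θ)
    (hC : BlkD a y' T₁ U' V' θ') (E₁₁ E₂₂ E₁₂ : Matrix m m ℂ) (h12 : E₁₂.IsHermitian)
    (h11 : E₁₁.IsHermitian) :
    Itg (fun r => r ^ (2 * a - 1) * colI T₁ T₂ (tf a ψ U' V' θ' r - tf a χ U V θ r)
      (tf a φ U V θ r) E₁₁ E₂₂ E₁₂ r)
      (colW a y y' φ ψ χ U V θ U' V' θ' E₂₂ E₁₁ E₁₂) := by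
  refine (col_itg h0 h1 hφ hψ hχ iφ iψ iχ hA hC E₂₂ E₁₁ E₁₂ h12 h11).congr fun r _ => ?_
  have h := E2b_re_conj (tf a φ U V θ r) (tf a ψ U' V' θ' r - tf a χ U V θ r) E₁₂
  rw [h12.eq] at h
  unfold colI
  rw [h]
  ring

end column

end Pool.Agent.LibSchE
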