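import Pool.Agent.LibSchE.II

/-! **E22.**  The cross term of the truncated functions (helper50). -/

open MeasureTheory Set

namespace Pool.Agent.LibSchE

open Pool.Agent.LibSchP Pool.Agent.LibSchA

/-- `f = g₂⁺` -/
noncomputable def ff (l₁ l₂ s c₀ ν : ℝ) : ℝ := c₀ * ν * max (ν - s) 0 / ((ν + l₁) * (ν + l₂))

/-- `m = g₂⁻` -/
noncomputable def mm (l₁ l₂ s c₀ ν : ℝ) : ℝ := c₀ * ν * max (s - ν) 0 / ((ν + l₁) * (ν + l₂))

noncomputable def Kfm (a l₁ l₂ s c₀ x y : ℝ) : ℝ :=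
  (x * y) ^ (1 - a) *
    ∫ ν in Ioi (0 : ℝ), ν ^ (2 * a - 2) * (ff l₁ l₂ s c₀ (ν / x) * mm l₁ l₂ s c₀ (ν / y))

noncomputable def rff (a l₁ l₂ s c₀ : ℝ) : ℝ :=
  ∫ ν in Ioi (0 : ℝ), ν ^ (2 * a - 2) * ff l₁ l₂ s c₀ ν ^ 2

noncomputable def k2 (a l₁ l₂ s c₀ : ℝ) : ℝ :=
  c₀ * ∫ ν in Ioi (0 : ℝ), ν ^ (2 * a - 1) * mm l₁ l₂ s c₀ ν

/-! ### scalar inequality `(1-t)^4 ≤ κ t² + (2-κ) - 2 t^κ` -/

theorem psi_ge (κ t : ℝ) (h1 : 1 / 2 ≤ κ) (h2 : κ ≤ 1) (ht : 0 ≤ t) (ht1 : t ≤ 1) :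
    (1 - t) ^ 4 ≤ κ * t ^ 2 + (2 - κ) - 2 * t ^ κ := by
  set x := Real.sqrt t with hx
  have hx0 : 0 ≤ x := Real.sqrt_nonneg t
  have hxt : x ^ 2 = t := Real.sq_sqrt ht
  have hx1 : x ≤ 1 := by
    rw [hx, ← Real.sqrt_one]
    exact Real.sqrt_le_sqrt ht1
  -- convexity in κ (weighted AM-GM)
  have hk : t ^ κ ≤ (2 * κ - 1) * t + (2 - 2 * κ) * x := by
    have h3 := Real.geom_mean_le_arith_mean2_weighted (by linarith : 0 ≤ 2 * κ - 1)
      (by linarith : 0 ≤ 2 - 2 * κ) ht hx0 (by ring)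
    refine le_trans (le_of_eq ?_) h3
    rcases ht.eq_or_lt with h0 | h0
    · rw [← h0, Real.zero_rpow (by linarith)]
      have hx' : x = 0 := by rw [hx, ← h0, Real.sqrt_zero]
      rw [hx']
      rcases h2.eq_or_lt with h4 | h4
      · rw [h4]
        norm_num
      · rw [Real.zero_rpow (by linarith : (2 - 2 * κ) ≠ 0), mul_zero]
    · rw [hx, Real.sqrt_eq_rpow, ← Real.rpow_mul ht, ← Real.rpow_add h0]
      congr 1
      ring
  have h5 : (1 - x ^ 2) ^ 2 * (1 + x) ^ 2 ≤ (x ^ 2 + 2 * x + 3) / 2 := by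
    nlinarith [mul_nonneg hx0 (sub_nonneg.mpr hx1), mul_nonneg (mul_nonneg hx0 hx0)
      (sub_nonneg.mpr hx1), mul_nonneg (mul_nonneg (mul_nonneg hx0 hx0) hx0)
      (sub_nonneg.mpr hx1), sq_nonneg (x - 1), sq_nonneg (x ^ 2 - x), sq_nonneg (x ^ 3),
      mul_nonneg (mul_nonneg (mul_nonneg hx0 hx0) (mul_nonneg hx0 hx0))
      (sub_nonneg.mpr hx1)]
  have h6 : (1 - t) ^ 4 ≤ (1 - t) ^ 2 := by
    have h7 : (1 - t) ^ 2 ≤ 1 := by nlinarith
    nlinarith [sq_nonneg (1 - t)]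
  have h8 : (1 - t) ^ 4 ≤ (1 - x) ^ 2 * ((x ^ 2 + 2 * x + 3) / 2) := by
    rw [← hxt]
    have h9 : (1 - x ^ 2) ^ 4 = (1 - x) ^ 2 * ((1 - x ^ 2) ^ 2 * (1 + x) ^ 2) := by ring
    rw [h9]
    exact mul_le_mul_of_nonneg_left h5 (sq_nonneg _)
  have h10 : (2 * κ - 1) * (1 - t) ^ 4 + (2 - 2 * κ) * (1 - t) ^ 4 ≤
      (2 * κ - 1) * (1 - t) ^ 2 + (2 - 2 * κ) * ((1 - x) ^ 2 * ((x ^ 2 + 2 * x + 3) / 2)) :=
    add_le_add (mul_le_mul_of_nonneg_left h6 (by linarith))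
      (mul_le_mul_of_nonneg_left h8 (by linarith))
  have h11 : κ * t ^ 2 + (2 - κ) - 2 * ((2 * κ - 1) * t + (2 - 2 * κ) * x) =
      (2 * κ - 1) * (1 - t) ^ 2 + (2 - 2 * κ) * ((1 - x) ^ 2 * ((x ^ 2 + 2 * x + 3) / 2)) := by
    rw [← hxt]
    ring
  linarith

/-! ### integrals -/

theorem int_bdd {g φ : ℝ → ℝ} {C : ℝ} (hg : IntegrableOn g (Ioi 0)) (hφ : Measurable φ)
    (hC : ∀ r, 0 < r → |φ r| ≤ C) : IntegrableOn (fun r => g r * φ r) (Ioi 0) := by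
  refine Integrable.mono' (hg.norm.const_mul C) ?_ ?_
  · exact hg.aestronglyMeasurable.mul hφ.aestronglyMeasurable.restrict
  · refine (ae_restrict_iff' measurableSet_Ioi).2 (Filter.Eventually.of_forall ?_)
    intro r hr
    rw [norm_mul, Real.norm_eq_abs (φ r), mul_comm]
    exact mul_le_mul_of_nonneg_right (hC r hr) (norm_nonneg _)

/-- Cauchy-Schwarz -/
theorem cs_int {u v h : ℝ → ℝ} (hu : IntegrableOn u (Ioi 0)) (hv : IntegrableOn v (Ioi 0))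
    (hh : IntegrableOn h (Ioi 0)) (u0 : ∀ r, 0 < r → 0 ≤ u r) (v0 : ∀ r, 0 < r → 0 ≤ v r)
    (hp : ∀ r, 0 < r → h r ^ 2 ≤ u r * v r) :
    (∫ r in Ioi (0 : ℝ), h r) ^ 2 ≤ (∫ r in Ioi (0 : ℝ), u r) * ∫ r in Ioi (0 : ℝ), v r := by
  have key : ∀ x : ℝ, 0 ≤ (∫ r in Ioi (0 : ℝ), u r) * (x * x) +
      (-2 * ∫ r in Ioi (0 : ℝ), h r) * x + ∫ r in Ioi (0 : ℝ), v r := by
    intro x
    have h1 : 0 ≤ ∫ r in Ioi (0 : ℝ), ((x * x) * u r + (-2 * x) * h r + v r) := by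
      refine setIntegral_nonneg measurableSet_Ioi fun r hr => ?_
      have a1 := u0 r hr
      have a2 := v0 r hr
      have a3 := hp r hr
      by_contra hneg
      push Not at hneg
      rcases a1.eq_or_lt with h0 | h0
      · rw [← h0] at a3 hneg
        have : h r = 0 := by
          have h4 : h r ^ 2 ≤ 0 := by simpa using a3
          exact pow_eq_zero_iff (two_ne_zero) |>.1 (le_antisymm h4 (sq_nonneg _))
        rw [this] at hneg
        linarith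
      · nlinarith [sq_nonneg (x * u r - h r)]
    have e1 : ∫ r in Ioi (0 : ℝ), ((x * x) * u r + (-2 * x) * h r + v r) =
        (x * x) * (∫ r in Ioi (0 : ℝ), u r) + (-2 * x) * (∫ r in Ioi (0 : ℝ), h r) +
          ∫ r in Ioi (0 : ℝ), v r := by
      rw [← integral_const_mul, ← integral_const_mul]
      rw [← integral_add (hu.const_mul _) (hh.const_mul _)]
      exact integral_add ((hu.const_mul _).add (hh.const_mul _)) hv
    rw [e1] at h1
    linarith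
  have h2 := discrim_le_zero key
  unfold discrim at h2
  nlinarith

theorem base1 (s : ℝ) (hs : 0 < s) :
    IntegrableOn (fun μ : ℝ => (1 - s / μ) ^ 2 * (s / μ ^ 2)) (Ioi s) ∧
      ∫ μ in Ioi s, (1 - s / μ) ^ 2 * (s / μ ^ 2) = 1 / 3 := by
  have hder : ∀ μ ∈ Ioi s, HasDerivAt (fun μ : ℝ => (1 - s / μ) ^ 3 / 3)
      ((1 - s / μ) ^ 2 * (s / μ ^ 2)) μ := by
    intro μ hμ
    have hμ0 : 0 < μ := hs.trans hμ
    have d1 : HasDerivAt (fun μ : ℝ => s / μ) ((0 * μ - s * 1) / μ ^ 2) μ :=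
      (hasDerivAt_const μ s).div (hasDerivAt_id' μ) hμ0.ne'
    have d2 := ((d1.const_sub 1).pow 3).div_const 3
    refine d2.congr_deriv ?_
    push_cast
    field_simp
    ring
  have hcont : ContinuousWithinAt (fun μ : ℝ => (1 - s / μ) ^ 3 / 3) (Ici s) s := by
    refine ContinuousAt.continuousWithinAt ?_
    have : ContinuousAt (fun μ : ℝ => s / μ) s :=
      continuousAt_const.div continuousAt_id hs.ne'
    exact ((continuousAt_const.sub this).pow 3).div_const 3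
  have hpos : ∀ μ ∈ Ioi s, 0 ≤ (1 - s / μ) ^ 2 * (s / μ ^ 2) := by
    intro μ hμ
    have hμ0 : 0 < μ := hs.trans hμ
    positivity
  have htop : Filter.Tendsto (fun μ : ℝ => (1 - s / μ) ^ 3 / 3) Filter.atTop (nhds (1 / 3)) := by
    have h1 : Filter.Tendsto (fun μ : ℝ => s / μ) Filter.atTop (nhds 0) :=
      tendsto_const_nhds.div_atTop Filter.tendsto_id
    have h2 := ((tendsto_const_nhds (x := (1 : ℝ))).sub h1).pow 3
    have h3 := h2.div_const 3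
    simpa using h3
  refine ⟨integrableOn_Ioi_deriv_of_nonneg hcont hder hpos htop, ?_⟩
  rw [integral_Ioi_of_hasDerivAt_of_nonneg hcont hder hpos htop]
  rw [div_self hs.ne']
  norm_num

theorem base2 (s t : ℝ) (hs : 0 < s) (ht : 0 < t) (ht1 : t < 1) :
    ∫ μ in Ioi s, (1 - s / μ) ^ 2 * (s / μ ^ 2) * max (s / μ - t) 0 = (1 - t) ^ 4 / 12 := by
  set T := s / t with hT
  have hsT : s ≤ T := by
    rw [hT, le_div_iff₀ ht]
    nlinarith
  have hT0 : 0 < T := by positivity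
  have hder : ∀ μ ∈ Set.uIcc s T, HasDerivAt (fun μ : ℝ => (1 - t) * (1 - s / μ) ^ 3 / 3 -
      (1 - s / μ) ^ 4 / 4) ((1 - s / μ) ^ 2 * (s / μ ^ 2) * (s / μ - t)) μ := by
    intro μ hμ
    rw [Set.uIcc_of_le hsT] at hμ
    have hμ0 : 0 < μ := lt_of_lt_of_le hs hμ.1
    have d1 : HasDerivAt (fun μ : ℝ => s / μ) ((0 * μ - s * 1) / μ ^ 2) μ :=
      (hasDerivAt_const μ s).div (hasDerivAt_id' μ) hμ0.ne'
    have d2 := ((((d1.const_sub 1).pow 3).const_mul (1 - t)).div_const 3).sub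
      (((d1.const_sub 1).pow 4).div_const 4)
    refine d2.congr_deriv ?_
    push_cast
    field_simp
    ring
  have hcontT : ContinuousOn (fun μ : ℝ => (1 - s / μ) ^ 2 * (s / μ ^ 2) * (s / μ - t))
      (Set.uIcc s T) := by
    intro μ hμ
    rw [Set.uIcc_of_le hsT] at hμ
    have hμ0 : 0 < μ := lt_of_lt_of_le hs hμ.1
    have c1 : ContinuousAt (fun μ : ℝ => s / μ) μ := continuousAt_const.div continuousAt_id hμ0.ne'
    have c2 : ContinuousAt (fun μ : ℝ => s / μ ^ 2) μ :=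
      continuousAt_const.div (continuousAt_id.pow 2) (by positivity)
    exact ((((continuousAt_const.sub c1).pow 2).mul c2).mul
      (c1.sub continuousAt_const)).continuousWithinAt
  have hI := intervalIntegral.integral_eq_sub_of_hasDerivAt hder hcontT.intervalIntegrable
  rw [intervalIntegral.integral_of_le hsT] at hI
  have hzero : ∀ μ ∈ Ioi s \ Ioc s T, (1 - s / μ) ^ 2 * (s / μ ^ 2) * max (s / μ - t) 0 = 0 := by
    intro μ hμ
    have h1 : s < μ := hμ.1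
    have h2 : T < μ := by
      by_contra hle
      push Not at hle
      exact hμ.2 ⟨h1, hle⟩
    have h3 : s / μ - t ≤ 0 := by
      have hμ0 : 0 < μ := hs.trans h1
      rw [sub_nonpos, div_le_iff₀ hμ0]
      rw [hT, div_lt_iff₀ ht] at h2
      linarith
    rw [max_eq_right h3, mul_zero]
  rw [setIntegral_eq_of_subset_of_forall_sdiff_eq_zero measurableSet_Ioi
    (fun μ hμ => hμ.1 : Ioc s T ⊆ Ioi s) hzero]
  have heq : ∫ μ in Ioc s T, (1 - s / μ) ^ 2 * (s / μ ^ 2) * max (s / μ - t) 0 =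
      ∫ μ in Ioc s T, (1 - s / μ) ^ 2 * (s / μ ^ 2) * (s / μ - t) := by
    refine setIntegral_congr_fun measurableSet_Ioc fun μ hμ => ?_
    have hμ0 : 0 < μ := hs.trans hμ.1
    have h3 : 0 ≤ s / μ - t := by
      rw [sub_nonneg, le_div_iff₀ hμ0]
      have := hμ.2
      rw [hT, le_div_iff₀ ht] at this
      linarith
    show (1 - s / μ) ^ 2 * (s / μ ^ 2) * max (s / μ - t) 0 = _
    rw [max_eq_left h3]
  rw [heq, hI, div_self hs.ne']
  have h5 : s / T = t := by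
    rw [hT]
    field_simp
  rw [h5]
  ring

/-! ### the functions `f`, `m` -/

section fm

variable {a l₁ l₂ s c₀ : ℝ}

theorem ff_nonneg (h1 : 0 < l₁) (h2 : 0 < l₂) (hc : 0 ≤ c₀) {ν : ℝ} (hν : 0 < ν) :
    0 ≤ ff l₁ l₂ s c₀ ν := by
  unfold ff
  have := le_max_right (ν - s) 0
  positivity

theorem mm_nonneg (h1 : 0 < l₁) (h2 : 0 < l₂) (hc : 0 ≤ c₀) {ν : ℝ} (hν : 0 < ν) :
    0 ≤ mm l₁ l₂ s c₀ ν := by
  unfold mm
  have := le_max_right (s - ν) 0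
  positivity

theorem ff_zero {ν : ℝ} (h : ν ≤ s) : ff l₁ l₂ s c₀ ν = 0 := by
  unfold ff
  rw [max_eq_right (by linarith), mul_zero, zero_div]

theorem mm_zero {ν : ℝ} (h : s ≤ ν) : mm l₁ l₂ s c₀ ν = 0 := by
  unfold mm
  rw [max_eq_right (by linarith), mul_zero, zero_div]

/-- the base integrand -/
theorem G0_int (h0 : 0 < a) (ha : 2 * a < 1) (e e' : ℝ) (he : 0 < e) (he' : 0 < e') :
    IntegrableOn (fun ν : ℝ => ν ^ (2 * a) / ((e + ν) * (e' + ν))) (Ioi 0) :=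
  (int_dd (2 * a) e e' (by linarith) ha he he').1

theorem pow_two_a {ν : ℝ} (hν : 0 < ν) : ν ^ (2 * a) = ν ^ (2 * a - 2) * (ν * ν) := by
  rw [Real.rpow_sub hν, show (2 : ℝ) = ((2 : ℕ) : ℝ) by norm_num, Real.rpow_natCast]
  field_simp

theorem pow_two_a' {ν : ℝ} (hν : 0 < ν) : ν ^ (2 * a) = ν ^ (2 * a - 1) * ν := by
  rw [Real.rpow_sub_one hν.ne']
  field_simp

theorem rff_int (h0 : 0 < a) (ha : 2 * a < 1) (h1 : 0 < l₁) (h2 : 0 < l₂) (hs : 0 < s) (x : ℝ)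
    (hx : 0 < x) :
    IntegrableOn (fun ν : ℝ => ν ^ (2 * a - 2) * ff l₁ l₂ s c₀ (ν / x) ^ 2) (Ioi 0) := by
  have hg := G0_int h0 ha (l₁ * x) (l₁ * x) (by positivity) (by positivity)
  have hφ : Measurable (fun ν : ℝ => c₀ ^ 2 * (max (ν / x - s) 0 / (ν / x + l₂)) ^ 2) := by
    fun_prop
  refine (int_bdd (C := c₀ ^ 2) hg hφ ?_).congr_fun ?_ measurableSet_Ioi
  · intro r hr
    have hrx : 0 < r / x := by positivity
    have h3 := le_max_right (r / x - s) 0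
    have h4 : max (r / x - s) 0 / (r / x + l₂) ≤ 1 := by
      rw [div_le_one (by positivity)]
      exact max_le (by linarith) (by positivity)
    have h5 : 0 ≤ max (r / x - s) 0 / (r / x + l₂) := by positivity
    rw [abs_of_nonneg (by positivity)]
    have h6 : (max (r / x - s) 0 / (r / x + l₂)) ^ 2 ≤ 1 := by nlinarith
    nlinarith [sq_nonneg c₀]
  · intro r hr
    have hr0 : (0 : ℝ) < r := hr
    show r ^ (2 * a) / ((l₁ * x + r) * (l₁ * x + r)) * (c₀ ^ 2 * (max (r / x - s) 0 /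
      (r / x + l₂)) ^ 2) = r ^ (2 * a - 2) * ff l₁ l₂ s c₀ (r / x) ^ 2
    unfold ff
    rw [pow_two_a hr0]
    have h3 : r / x + l₂ ≠ 0 := by positivity
    have h4 : r / x + l₁ ≠ 0 := by positivity
    have h5 : l₁ * x + r ≠ 0 := by positivity
    have h6 : l₂ * x + r ≠ 0 := by positivity
    field_simp
    ring_nf

theorem mm_int (h0 : 0 < a) (ha : 2 * a < 1) (h1 : 0 < l₁) (h2 : 0 < l₂) (hs : 0 < s) (y : ℝ)
    (hy : 0 < y) :
    IntegrableOn (fun ν : ℝ => ν ^ (2 * a - 1) * mm l₁ l₂ s c₀ (ν / y)) (Ioi 0) := by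
  have hg := G0_int h0 ha (l₁ * y) (l₂ * y) (by positivity) (by positivity)
  have hφ : Measurable (fun ν : ℝ => c₀ * y * max (s - ν / y) 0) := by fun_prop
  refine (int_bdd (C := |c₀| * y * s) hg hφ ?_).congr_fun ?_ measurableSet_Ioi
  · intro r hr
    have hrx : 0 < r / y := by positivity
    have h3 := le_max_right (s - r / y) 0
    have h4 : max (s - r / y) 0 ≤ s := max_le (by linarith) hs.le
    rw [abs_mul, abs_mul, abs_of_pos hy, abs_of_nonneg h3]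
    have := abs_nonneg c₀
    gcongr
  · intro r hr
    have hr0 : (0 : ℝ) < r := hr
    show r ^ (2 * a) / ((l₁ * y + r) * (l₂ * y + r)) * (c₀ * y * max (s - r / y) 0) =
      r ^ (2 * a - 1) * mm l₁ l₂ s c₀ (r / y)
    unfold mm
    rw [pow_two_a' hr0]
    have h3 : r / y + l₂ ≠ 0 := by positivity
    have h4 : r / y + l₁ ≠ 0 := by positivity
    have h5 : l₁ * y + r ≠ 0 := by positivity
    have h6 : l₂ * y + r ≠ 0 := by positivity
    field_simp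
    ring_nf

theorem fm_int (h0 : 0 < a) (ha : 2 * a < 1) (h1 : 0 < l₁) (h2 : 0 < l₂) (hs : 0 < s) (x y : ℝ)
    (hx : 0 < x) (hy : 0 < y) :
    IntegrableOn (fun ν : ℝ => ν ^ (2 * a - 2) *
      (ff l₁ l₂ s c₀ (ν / x) * mm l₁ l₂ s c₀ (ν / y))) (Ioi 0) := by
  have hg := G0_int h0 ha (l₁ * x) (l₁ * y) (by positivity) (by positivity)
  have hφ : Measurable (fun ν : ℝ => c₀ ^ 2 * (max (ν / x - s) 0 / (ν / x + l₂)) *
      (max (s - ν / y) 0 / (ν / y + l₂))) := by fun_prop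
  refine (int_bdd (C := c₀ ^ 2 * 1 * (s / l₂)) hg hφ ?_).congr_fun ?_ measurableSet_Ioi
  · intro r hr
    have hrx : 0 < r / x := by positivity
    have hry : 0 < r / y := by positivity
    have h3 := le_max_right (r / x - s) 0
    have h3' := le_max_right (s - r / y) 0
    have h4 : max (r / x - s) 0 / (r / x + l₂) ≤ 1 := by
      rw [div_le_one (by positivity)]
      exact max_le (by linarith) (by positivity)
    have h5 : 0 ≤ max (r / x - s) 0 / (r / x + l₂) := by positivity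
    have h6 : max (s - r / y) 0 / (r / y + l₂) ≤ s / l₂ := by
      have : max (s - r / y) 0 ≤ s := max_le (by linarith) hs.le
      gcongr
      linarith
    have h7 : 0 ≤ max (s - r / y) 0 / (r / y + l₂) := by positivity
    rw [abs_of_nonneg (by positivity)]
    gcongr
  · intro r hr
    have hr0 : (0 : ℝ) < r := hr
    show r ^ (2 * a) / ((l₁ * x + r) * (l₁ * y + r)) * (c₀ ^ 2 * (max (r / x - s) 0 /
      (r / x + l₂)) * (max (s - r / y) 0 / (r / y + l₂))) = r ^ (2 * a - 2) *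
        (ff l₁ l₂ s c₀ (r / x) * mm l₁ l₂ s c₀ (r / y))
    unfold ff mm
    rw [pow_two_a hr0]
    have h3 : r / x + l₂ ≠ 0 := by positivity
    have h4 : r / x + l₁ ≠ 0 := by positivity
    have h3' : r / y + l₂ ≠ 0 := by positivity
    have h4' : r / y + l₁ ≠ 0 := by positivity
    have h5 : l₁ * x + r ≠ 0 := by positivity
    have h6 : l₁ * y + r ≠ 0 := by positivity
    field_simp
    ring_nf

theorem v_int (h0 : 0 < a) (ha : 2 * a < 1) (h1 : 0 < l₁) (h2 : 0 < l₂) (hs : 0 < s) (x y : ℝ)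
    (hx : 0 < x) (hy : 0 < y) :
    IntegrableOn (fun ν : ℝ => ν ^ (2 * a - 2) * ff l₁ l₂ s c₀ (ν / x) ^ 2 *
      (mm l₁ l₂ s c₀ (ν / y) / ν)) (Ioi 0) := by
  have hg := rff_int (c₀ := c₀) h0 ha h1 h2 hs x hx
  have hφ : Measurable (fun ν : ℝ => c₀ / y * max (s - ν / y) 0 /
      ((ν / y + l₁) * (ν / y + l₂))) := by fun_prop
  refine (int_bdd (C := |c₀| / y * s / (l₁ * l₂)) hg hφ ?_).congr_fun ?_ measurableSet_Ioi
  · intro r hr
    have hry : 0 < r / y := by positivity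
    have h3' := le_max_right (s - r / y) 0
    have : max (s - r / y) 0 ≤ s := max_le (by linarith) hs.le
    rw [abs_div, abs_mul, abs_div, abs_of_pos hy, abs_of_nonneg h3',
      abs_of_pos (by positivity : 0 < (r / y + l₁) * (r / y + l₂))]
    have := abs_nonneg c₀
    gcongr <;> linarith
  · intro r hr
    have hr0 : (0 : ℝ) < r := hr
    show r ^ (2 * a - 2) * ff l₁ l₂ s c₀ (r / x) ^ 2 * (c₀ / y * max (s - r / y) 0 /
      ((r / y + l₁) * (r / y + l₂))) = r ^ (2 * a - 2) * ff l₁ l₂ s c₀ (r / x) ^ 2 *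
        (mm l₁ l₂ s c₀ (r / y) / r)
    congr 1
    unfold mm
    have h3' : r / y + l₂ ≠ 0 := by positivity
    have h4' : r / y + l₁ ≠ 0 := by positivity
    field_simp

theorem u_scale (y : ℝ) (hy : 0 < y) :
    ∫ ν in Ioi (0 : ℝ), ν ^ (2 * a - 1) * mm l₁ l₂ s c₀ (ν / y) =
      y ^ (2 * a) * ∫ ν in Ioi (0 : ℝ), ν ^ (2 * a - 1) * mm l₁ l₂ s c₀ ν := by
  have h1 := integral_comp_mul_left_Ioi
    (fun ν : ℝ => ν ^ (2 * a - 1) * mm l₁ l₂ s c₀ (ν / y)) 0 hy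
  rw [mul_zero] at h1
  have h2 : ∫ ν in Ioi (0 : ℝ), ν ^ (2 * a - 1) * mm l₁ l₂ s c₀ (ν / y) =
      y * ∫ ν in Ioi (0 : ℝ), (y * ν) ^ (2 * a - 1) * mm l₁ l₂ s c₀ (y * ν / y) := by
    rw [h1, smul_eq_mul, ← mul_assoc, mul_inv_cancel₀ hy.ne', one_mul]
  rw [h2]
  have h3 : ∫ ν in Ioi (0 : ℝ), (y * ν) ^ (2 * a - 1) * mm l₁ l₂ s c₀ (y * ν / y) =
      y ^ (2 * a - 1) * ∫ ν in Ioi (0 : ℝ), ν ^ (2 * a - 1) * mm l₁ l₂ s c₀ ν := by
    rw [← integral_const_mul]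
    refine setIntegral_congr_fun measurableSet_Ioi fun r hr => ?_
    have hr0 : (0 : ℝ) < r := hr
    show (y * r) ^ (2 * a - 1) * mm l₁ l₂ s c₀ (y * r / y) =
      y ^ (2 * a - 1) * (r ^ (2 * a - 1) * mm l₁ l₂ s c₀ r)
    rw [Real.mul_rpow hy.le hr0.le, mul_div_cancel_left₀ r hy.ne']
    ring
  rw [h3, pow_two_a' hy]
  ring

/-- the increasing density -/
theorem dens_mono (h0 : 0 < a) (h1 : 0 < l₁) (h2 : 0 < l₂) {μ μ' : ℝ} (hμ : 0 < μ)
    (h : μ ≤ μ') : μ ^ (2 * a) * (μ ^ 2 / ((μ + l₁) * (μ + l₂))) ^ 2 ≤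
      μ' ^ (2 * a) * (μ' ^ 2 / ((μ' + l₁) * (μ' + l₂))) ^ 2 := by
  have hμ' : 0 < μ' := lt_of_lt_of_le hμ h
  have e1 : μ ^ (2 * a) ≤ μ' ^ (2 * a) := Real.rpow_le_rpow hμ.le h (by linarith)
  have e2 : μ ^ 2 / ((μ + l₁) * (μ + l₂)) ≤ μ' ^ 2 / ((μ' + l₁) * (μ' + l₂)) := by
    rw [div_le_div_iff₀ (by positivity) (by positivity)]
    have hmm : 0 < μ * μ' := by positivity
    nlinarith [mul_nonneg (mul_nonneg hmm.le (sub_nonneg.mpr h)) (add_pos h1 h2).le,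
      mul_nonneg (mul_pos h1 h2).le (mul_nonneg (sub_nonneg.mpr h) (add_pos hμ hμ').le)]
  have e3 : 0 ≤ μ ^ (2 * a) := Real.rpow_nonneg hμ.le _
  have e4 : 0 ≤ μ ^ 2 / ((μ + l₁) * (μ + l₂)) := by positivity
  gcongr

theorem cheb (h0 : 0 < a) (ha : 2 * a < 1) (h1 : 0 < l₁) (h2 : 0 < l₂) (hs : 0 < s) (t : ℝ)
    (ht : 0 < t) (ht1 : t < 1) :
    ∫ μ in Ioi s, μ ^ (2 * a - 2) * ff l₁ l₂ s c₀ μ ^ 2 * max (s / μ - t) 0 ≤
      (1 - t) ^ 4 / 4 * ∫ μ in Ioi s, μ ^ (2 * a - 2) * ff l₁ l₂ s c₀ μ ^ 2 := by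
  set q := (1 - t) ^ 4 / 4 with hq
  have hq0 : 0 ≤ q := by positivity
  have hq1 : t + q < 1 := by
    have h3 : (1 - t) ^ 4 ≤ 1 - t := by
      have h4 : (1 - t) ^ 3 ≤ 1 := pow_le_one₀ (by linarith) (by linarith)
      nlinarith [sub_pos.mpr ht1]
    rw [hq]
    nlinarith [sub_pos.mpr ht1]
  have hR : IntegrableOn (fun μ : ℝ => μ ^ (2 * a - 2) * ff l₁ l₂ s c₀ μ ^ 2) (Ioi s) := by
    have h3 := rff_int (c₀ := c₀) h0 ha h1 h2 hs 1 one_pos
    simp only [div_one] at h3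
    exact h3.mono_set (Ioi_subset_Ioi hs.le)
  have hbd : ∀ {g : ℝ → ℝ}, IntegrableOn g (Ioi s) →
      IntegrableOn (fun μ => g μ * max (s / μ - t) 0) (Ioi s) := by
    intro g hg
    refine Integrable.mono' hg.norm ?_ ?_
    · refine hg.aestronglyMeasurable.mul ?_
      have : Measurable (fun μ : ℝ => max (s / μ - t) 0) := by fun_prop
      exact this.aestronglyMeasurable.restrict
    · refine (ae_restrict_iff' measurableSet_Ioi).2 (Filter.Eventually.of_forall ?_)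
      intro r hr
      have hr0 : 0 < r := hs.trans hr
      have h4 : max (s / r - t) 0 ≤ 1 := by
        refine max_le ?_ zero_le_one
        have : s / r ≤ 1 := by
          rw [div_le_one hr0]
          exact le_of_lt hr
        linarith
      rw [norm_mul, Real.norm_of_nonneg (le_max_right _ _)]
      have := norm_nonneg (g r)
      nlinarith
  have hN := hbd hR
  obtain ⟨b1, b1'⟩ := base1 s hs
  have b2 := base2 s t hs ht ht1
  have hB := hbd b1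
  set μ₀ := s / (t + q) with hμ₀
  have htq : 0 < t + q := by linarith
  have hμ₀0 : 0 < μ₀ := by positivity
  set Dn : ℝ → ℝ := fun μ => c₀ ^ 2 / s * (μ ^ (2 * a) * (μ ^ 2 / ((μ + l₁) * (μ + l₂))) ^ 2)
    with hDn
  have hrep : ∀ μ, s < μ → μ ^ (2 * a - 2) * ff l₁ l₂ s c₀ μ ^ 2 =
      Dn μ * ((1 - s / μ) ^ 2 * (s / μ ^ 2)) := by
    intro μ hμ
    have hμ0 : 0 < μ := hs.trans hμ
    rw [hDn]
    unfold ff
    simp only
    rw [max_eq_left (by linarith), pow_two_a hμ0]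
    have h3 : μ + l₁ ≠ 0 := by positivity
    have h4 : μ + l₂ ≠ 0 := by positivity
    field_simp
  have hc : 0 ≤ c₀ ^ 2 / s := by positivity
  have hle : ∫ μ in Ioi s, (μ ^ (2 * a - 2) * ff l₁ l₂ s c₀ μ ^ 2 * max (s / μ - t) 0 -
      q * (μ ^ (2 * a - 2) * ff l₁ l₂ s c₀ μ ^ 2)) ≤
      ∫ μ in Ioi s, (Dn μ₀ * ((1 - s / μ) ^ 2 * (s / μ ^ 2) * max (s / μ - t) 0) -
        Dn μ₀ * q * ((1 - s / μ) ^ 2 * (s / μ ^ 2))) := by
    refine setIntegral_mono_on (hN.sub (hR.const_mul q)) ((hB.const_mul _).sub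
      (b1.const_mul _)) measurableSet_Ioi fun μ hμ => ?_
    have hμ0 : 0 < μ := hs.trans hμ
    rw [hrep μ hμ]
    have hw : 0 ≤ (1 - s / μ) ^ 2 * (s / μ ^ 2) := by positivity
    have key : Dn μ * (max (s / μ - t) 0 - q) ≤ Dn μ₀ * (max (s / μ - t) 0 - q) := by
      rcases le_total μ μ₀ with h5 | h5
      · have h6 : Dn μ ≤ Dn μ₀ := mul_le_mul_of_nonneg_left (dens_mono h0 h1 h2 hμ0 h5) hc
        have h7 : 0 ≤ max (s / μ - t) 0 - q := by
          have h8 : t + q ≤ s / μ := by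
            rw [le_div_iff₀ hμ0]
            rw [hμ₀, le_div_iff₀ htq] at h5
            linarith
          have := le_max_left (s / μ - t) 0
          linarith
        exact mul_le_mul_of_nonneg_right h6 h7
      · have h6 : Dn μ₀ ≤ Dn μ := mul_le_mul_of_nonneg_left (dens_mono h0 h1 h2 hμ₀0 h5) hc
        have h7 : max (s / μ - t) 0 - q ≤ 0 := by
          have h8 : s / μ ≤ t + q := by
            rw [div_le_iff₀ hμ0]
            rw [hμ₀, div_le_iff₀ htq] at h5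
            linarith
          have : max (s / μ - t) 0 ≤ q := max_le (by linarith) hq0
          linarith
        exact mul_le_mul_of_nonpos_right h6 h7
    have h9 := mul_le_mul_of_nonneg_left key hw
    nlinarith
  rw [integral_sub hN (hR.const_mul q), integral_const_mul,
    integral_sub (hB.const_mul _) (b1.const_mul _), integral_const_mul, integral_const_mul,
    b1', b2] at hle
  have h10 : Dn μ₀ * ((1 - t) ^ 4 / 12) - Dn μ₀ * q * (1 / 3) = 0 := by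
    rw [hq]
    ring
  linarith

theorem rff_Ioi (hs : 0 < s) : ∫ μ in Ioi s, μ ^ (2 * a - 2) * ff l₁ l₂ s c₀ μ ^ 2 =
    rff a l₁ l₂ s c₀ := by
  unfold rff
  refine (setIntegral_eq_of_subset_of_forall_sdiff_eq_zero measurableSet_Ioi
    (Ioi_subset_Ioi hs.le) ?_).symm
  intro μ hμ
  have : μ ≤ s := not_lt.1 hμ.2
  rw [ff_zero this]
  ring

/-- `e ∫ v ≤ c₀ x^(2a-2) ρ_ff (1-t)^4/4` -/
theorem v_bound (h0 : 0 < a) (ha : 2 * a < 1) (h1 : 0 < l₁) (h2 : 0 < l₂) (hs : 0 < s)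
    (hc : 0 ≤ c₀) (e : ℝ) (he : 0 < e) (hel : e ≤ l₁) (x y : ℝ) (hx : 0 < x) (hxy : x < y) :
    e * ∫ ν in Ioi (0 : ℝ), ν ^ (2 * a - 2) * ff l₁ l₂ s c₀ (ν / x) ^ 2 *
      (mm l₁ l₂ s c₀ (ν / y) / ν) ≤
      c₀ * x ^ (2 * a - 2) * ((1 - x / y) ^ 4 / 4 * rff a l₁ l₂ s c₀) := by
  have hy : 0 < y := hx.trans hxy
  have ht : 0 < x / y := by positivity
  have ht1 : x / y < 1 := by
    rw [div_lt_one hy]
    exact hxy
  have hsc := integral_comp_mul_left_Ioi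
    (fun ν : ℝ => ν ^ (2 * a - 2) * ff l₁ l₂ s c₀ (ν / x) ^ 2 * (mm l₁ l₂ s c₀ (ν / y) / ν)) 0 hx
  rw [mul_zero] at hsc
  have h3 : ∫ ν in Ioi (0 : ℝ), ν ^ (2 * a - 2) * ff l₁ l₂ s c₀ (ν / x) ^ 2 *
      (mm l₁ l₂ s c₀ (ν / y) / ν) = x * ∫ μ in Ioi (0 : ℝ), (x * μ) ^ (2 * a - 2) *
        ff l₁ l₂ s c₀ (x * μ / x) ^ 2 * (mm l₁ l₂ s c₀ (x * μ / y) / (x * μ)) := by
    rw [hsc, smul_eq_mul, ← mul_assoc, mul_inv_cancel₀ hx.ne', one_mul]
  have h4 : ∫ μ in Ioi (0 : ℝ), (x * μ) ^ (2 * a - 2) *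
        ff l₁ l₂ s c₀ (x * μ / x) ^ 2 * (mm l₁ l₂ s c₀ (x * μ / y) / (x * μ)) =
      ∫ μ in Ioi s, (x * μ) ^ (2 * a - 2) *
        ff l₁ l₂ s c₀ (x * μ / x) ^ 2 * (mm l₁ l₂ s c₀ (x * μ / y) / (x * μ)) := by
    refine setIntegral_eq_of_subset_of_forall_sdiff_eq_zero measurableSet_Ioi
      (Ioi_subset_Ioi hs.le) ?_
    intro μ hμ
    have : μ ≤ s := not_lt.1 hμ.2
    rw [mul_div_cancel_left₀ μ hx.ne', ff_zero this]
    ring
  have hvi := v_int (c₀ := c₀) h0 ha h1 h2 hs x y hx hy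
  have hvi' : IntegrableOn (fun μ : ℝ => (x * μ) ^ (2 * a - 2) *
        ff l₁ l₂ s c₀ (x * μ / x) ^ 2 * (mm l₁ l₂ s c₀ (x * μ / y) / (x * μ))) (Ioi s) := by
    have h5 := (integrableOn_Ioi_comp_mul_left_iff (fun ν : ℝ => ν ^ (2 * a - 2) *
      ff l₁ l₂ s c₀ (ν / x) ^ 2 * (mm l₁ l₂ s c₀ (ν / y) / ν)) 0 hx).2 (by rwa [mul_zero])
    exact h5.mono_set (Ioi_subset_Ioi hs.le)
  have hR : IntegrableOn (fun μ : ℝ => μ ^ (2 * a - 2) * ff l₁ l₂ s c₀ μ ^ 2 *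
      max (s / μ - x / y) 0) (Ioi s) := by
    have h3 := rff_int (c₀ := c₀) h0 ha h1 h2 hs 1 one_pos
    simp only [div_one] at h3
    have hg := h3.mono_set (Ioi_subset_Ioi hs.le)
    refine Integrable.mono' hg.norm ?_ ?_
    · refine hg.aestronglyMeasurable.mul ?_
      have : Measurable (fun μ : ℝ => max (s / μ - x / y) 0) := by fun_prop
      exact this.aestronglyMeasurable.restrict
    · refine (ae_restrict_iff' measurableSet_Ioi).2 (Filter.Eventually.of_forall ?_)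
      intro r hr
      have hr0 : 0 < r := hs.trans hr
      have h4 : max (s / r - x / y) 0 ≤ 1 := by
        refine max_le ?_ zero_le_one
        have : s / r ≤ 1 := by
          rw [div_le_one hr0]
          exact le_of_lt hr
        linarith
      rw [norm_mul, Real.norm_of_nonneg (le_max_right _ _)]
      have := norm_nonneg (r ^ (2 * a - 2) * ff l₁ l₂ s c₀ r ^ 2)
      nlinarith
  have h6 : e * (x * ∫ μ in Ioi s, (x * μ) ^ (2 * a - 2) *
        ff l₁ l₂ s c₀ (x * μ / x) ^ 2 * (mm l₁ l₂ s c₀ (x * μ / y) / (x * μ))) ≤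
      c₀ * x ^ (2 * a - 2) * ∫ μ in Ioi s, μ ^ (2 * a - 2) * ff l₁ l₂ s c₀ μ ^ 2 *
        max (s / μ - x / y) 0 := by
    rw [← mul_assoc, ← integral_const_mul, ← integral_const_mul]
    refine setIntegral_mono_on (hvi'.const_mul _) (hR.const_mul _) measurableSet_Ioi
      fun μ hμ => ?_
    have hμ0 : 0 < μ := hs.trans hμ
    rw [mul_div_cancel_left₀ μ hx.ne', Real.mul_rpow hx.le hμ0.le]
    have hmm : e * mm l₁ l₂ s c₀ (x * μ / y) ≤ c₀ * (μ * max (s / μ - x / y) 0) := by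
      have e1 : μ * max (s / μ - x / y) 0 = max (s - x * μ / y) 0 := by
        rw [mul_max_of_nonneg _ _ hμ0.le, mul_zero]
        congr 1
        field_simp
      rw [e1]
      unfold mm
      have h7 := le_max_right (s - x * μ / y) 0
      set z := x * μ / y with hz
      have hz0 : 0 < z := by positivity
      have h8 : e * (c₀ * z * max (s - z) 0 / ((z + l₁) * (z + l₂))) =
          c₀ * max (s - z) 0 * (e * z / ((z + l₁) * (z + l₂))) := by ring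
      rw [h8]
      have h9 : e * z / ((z + l₁) * (z + l₂)) ≤ 1 := by
        rw [div_le_one (by positivity)]
        nlinarith [mul_pos hz0 h2, mul_pos h1 h2, mul_pos hz0 hz0,
          mul_nonneg (sub_nonneg.mpr hel) hz0.le]
      have h10 : 0 ≤ c₀ * max (s - z) 0 := by positivity
      nlinarith
    have hA : 0 ≤ x ^ (2 * a - 2) * μ ^ (2 * a - 2) * ff l₁ l₂ s c₀ μ ^ 2 := by
      have := Real.rpow_nonneg hx.le (2 * a - 2)
      have := Real.rpow_nonneg hμ0.le (2 * a - 2)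
      positivity
    calc e * x * (x ^ (2 * a - 2) * μ ^ (2 * a - 2) * ff l₁ l₂ s c₀ μ ^ 2 *
          (mm l₁ l₂ s c₀ (x * μ / y) / (x * μ)))
        = x ^ (2 * a - 2) * μ ^ (2 * a - 2) * ff l₁ l₂ s c₀ μ ^ 2 *
            (e * mm l₁ l₂ s c₀ (x * μ / y)) / μ := by
          field_simp
      _ ≤ x ^ (2 * a - 2) * μ ^ (2 * a - 2) * ff l₁ l₂ s c₀ μ ^ 2 *
            (c₀ * (μ * max (s / μ - x / y) 0)) / μ := by
          gcongr
      _ = c₀ * x ^ (2 * a - 2) * (μ ^ (2 * a - 2) * ff l₁ l₂ s c₀ μ ^ 2 *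
            max (s / μ - x / y) 0) := by
          field_simp
  rw [h3, h4]
  refine h6.trans ?_
  have h11 := cheb (c₀ := c₀) h0 ha h1 h2 hs (x / y) ht ht1
  rw [rff_Ioi hs] at h11
  have h12 : 0 ≤ c₀ * x ^ (2 * a - 2) := mul_nonneg hc (Real.rpow_nonneg hx.le _)
  exact mul_le_mul_of_nonneg_left h11 h12

/-- the main estimate for `x < y` -/
theorem Kfm_lt (h0 : 0 < a) (ha : 2 * a < 1) (h1 : 0 < l₁) (h2 : 0 < l₂) (hs : 0 < s)
    (hc : 0 ≤ c₀) (e : ℝ) (he : 0 < e) (hel : e ≤ l₁) (x y : ℝ) (hx : 0 < x) (hxy : x < y) :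
    e * Kfm a l₁ l₂ s c₀ x y ^ 2 ≤
      k2 a l₁ l₂ s c₀ * rff a l₁ l₂ s c₀ * (y ^ 2 * ((1 - x / y) ^ 4 / 4)) := by
  have hy : 0 < y := hx.trans hxy
  have hu := mm_int (c₀ := c₀) h0 ha h1 h2 hs y hy
  have hv := v_int (c₀ := c₀) h0 ha h1 h2 hs x y hx hy
  have hh := fm_int (c₀ := c₀) h0 ha h1 h2 hs x y hx hy
  have hcs := cs_int hu hv hh
    (fun r hr => mul_nonneg (Real.rpow_nonneg hr.le _)
      (mm_nonneg h1 h2 hc (by positivity)))
    (fun r hr => mul_nonneg (mul_nonneg (Real.rpow_nonneg hr.le _) (sq_nonneg _))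
      (div_nonneg (mm_nonneg h1 h2 hc (by positivity)) hr.le))
    (fun r hr => le_of_eq (by
      have e1 : r ^ (2 * a - 1) = r ^ (2 * a - 2) * r := by
        nth_rewrite 3 [← Real.rpow_one r]
        rw [← Real.rpow_add hr]
        congr 1
        ring
      rw [e1]
      field_simp))
  rw [u_scale y hy] at hcs
  have hvb := v_bound h0 ha h1 h2 hs hc e he hel x y hx hxy
  set H := ∫ ν in Ioi (0 : ℝ), ν ^ (2 * a - 2) * (ff l₁ l₂ s c₀ (ν / x) *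
    mm l₁ l₂ s c₀ (ν / y)) with hH
  set V := ∫ ν in Ioi (0 : ℝ), ν ^ (2 * a - 2) * ff l₁ l₂ s c₀ (ν / x) ^ 2 *
      (mm l₁ l₂ s c₀ (ν / y) / ν) with hV
  set U := ∫ ν in Ioi (0 : ℝ), ν ^ (2 * a - 1) * mm l₁ l₂ s c₀ ν with hU
  have hU0 : 0 ≤ U := setIntegral_nonneg measurableSet_Ioi fun r hr =>
    mul_nonneg (Real.rpow_nonneg (le_of_lt hr) _) (mm_nonneg h1 h2 hc hr)
  have hk : Kfm a l₁ l₂ s c₀ x y = (x * y) ^ (1 - a) * H := rfl
  have hk2 : k2 a l₁ l₂ s c₀ = c₀ * U := rfl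
  rw [hk, hk2]
  have hxy0 : 0 < x * y := by positivity
  have hy2a : 0 ≤ y ^ (2 * a) := Real.rpow_nonneg hy.le _
  have step : e * H ^ 2 ≤ y ^ (2 * a) * U * (c₀ * x ^ (2 * a - 2) *
      ((1 - x / y) ^ 4 / 4 * rff a l₁ l₂ s c₀)) := by
    calc e * H ^ 2 ≤ e * (y ^ (2 * a) * U * V) := mul_le_mul_of_nonneg_left hcs he.le
      _ = y ^ (2 * a) * U * (e * V) := by ring
      _ ≤ _ := mul_le_mul_of_nonneg_left hvb (mul_nonneg hy2a hU0)
  have hP : 0 ≤ ((x * y) ^ (1 - a)) ^ 2 := sq_nonneg _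
  have step2 := mul_le_mul_of_nonneg_left step hP
  have e3 : ((x * y) ^ (1 - a)) ^ 2 * (y ^ (2 * a) * x ^ (2 * a - 2)) = y ^ 2 := by
    rw [← Real.rpow_natCast ((x * y) ^ (1 - a)) 2, ← Real.rpow_mul hxy0.le,
      Real.mul_rpow hx.le hy.le]
    have e4 : x ^ ((1 - a) * ((2 : ℕ) : ℝ)) * y ^ ((1 - a) * ((2 : ℕ) : ℝ)) *
        (y ^ (2 * a) * x ^ (2 * a - 2)) = (x ^ ((1 - a) * ((2 : ℕ) : ℝ)) * x ^ (2 * a - 2)) *
          (y ^ ((1 - a) * ((2 : ℕ) : ℝ)) * y ^ (2 * a)) := by ring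
    rw [e4, ← Real.rpow_add hx, ← Real.rpow_add hy]
    have e5 : (1 - a) * ((2 : ℕ) : ℝ) + (2 * a - 2) = 0 := by push_cast; ring
    have e6 : (1 - a) * ((2 : ℕ) : ℝ) + 2 * a = ((2 : ℕ) : ℝ) := by push_cast; ring
    rw [e5, e6, Real.rpow_zero, Real.rpow_natCast, one_mul]
  calc e * ((x * y) ^ (1 - a) * H) ^ 2 = ((x * y) ^ (1 - a)) ^ 2 * (e * H ^ 2) := by ring
    _ ≤ ((x * y) ^ (1 - a)) ^ 2 * (y ^ (2 * a) * U * (c₀ * x ^ (2 * a - 2) *
      ((1 - x / y) ^ 4 / 4 * rff a l₁ l₂ s c₀))) := step2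
    _ = (((x * y) ^ (1 - a)) ^ 2 * (y ^ (2 * a) * x ^ (2 * a - 2))) *
        (c₀ * U * rff a l₁ l₂ s c₀ * ((1 - x / y) ^ 4 / 4)) := by ring
    _ = _ := by rw [e3]; ring

theorem Kfm_ge (x y : ℝ) (hy : 0 < y) (hxy : y ≤ x) :
    Kfm a l₁ l₂ s c₀ x y = 0 := by
  unfold Kfm
  have h3 : ∫ ν in Ioi (0 : ℝ), ν ^ (2 * a - 2) *
      (ff l₁ l₂ s c₀ (ν / x) * mm l₁ l₂ s c₀ (ν / y)) = 0 := by
    refine setIntegral_eq_zero_of_forall_eq_zero fun r hr => ?_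
    have hr0 : (0 : ℝ) < r := hr
    rcases le_total (r / x) s with h4 | h4
    · rw [ff_zero h4]
      ring
    · have h5 : s ≤ r / y := h4.trans (by gcongr)
      rw [mm_zero h5]
      ring
  rw [h3, mul_zero]

theorem k2_nonneg (h1 : 0 < l₁) (h2 : 0 < l₂) (hc : 0 ≤ c₀) : 0 ≤ k2 a l₁ l₂ s c₀ :=
  mul_nonneg hc (setIntegral_nonneg measurableSet_Ioi fun _ hr =>
    mul_nonneg (Real.rpow_nonneg (le_of_lt hr) _) (mm_nonneg h1 h2 hc hr))

theorem rff_nonneg : 0 ≤ rff a l₁ l₂ s c₀ :=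
  setIntegral_nonneg measurableSet_Ioi fun _ hr =>
    mul_nonneg (Real.rpow_nonneg (le_of_lt hr) _) (sq_nonneg _)

/-- **(E22)** -/
theorem E22 (h0 : 0 < a) (ha : 2 * a < 1) (h1 : 0 < l₁) (h2 : 0 < l₂) (hs : 0 < s)
    (hc : 0 ≤ c₀) (e : ℝ) (he : 0 < e) (hel : e ≤ l₁) (x y : ℝ) (hx : 0 < x) (hy : 0 < y) :
    2 * e * Kfm a l₁ l₂ s c₀ x y ^ 2 ≤ rff a l₁ l₂ s c₀ * (k2 a l₁ l₂ s c₀ / 2) *
      ((1 - a) * x ^ 2 + (1 + a) * y ^ 2 - 2 * (x ^ (1 - a) * y ^ (1 + a))) := by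
  have hk := k2_nonneg (a := a) (s := s) h1 h2 hc
  have hr := rff_nonneg (a := a) (l₁ := l₁) (l₂ := l₂) (s := s) (c₀ := c₀)
  rcases lt_or_ge x y with hxy | hxy
  · have h3 := Kfm_lt h0 ha h1 h2 hs hc e he hel x y hx hxy
    have ht1 : x / y ≤ 1 := by
      rw [div_le_one hy]
      exact hxy.le
    have h4 := psi_ge (1 - a) (x / y) (by linarith) (by linarith) (by positivity) ht1
    have h5 : y ^ 2 * ((1 - a) * (x / y) ^ 2 + (2 - (1 - a)) - 2 * (x / y) ^ (1 - a)) =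
        (1 - a) * x ^ 2 + (1 + a) * y ^ 2 - 2 * (x ^ (1 - a) * y ^ (1 + a)) := by
      rw [Real.div_rpow hx.le hy.le]
      have e1 : y ^ (1 + a) = y ^ 2 / y ^ (1 - a) := by
        rw [← Real.rpow_natCast y 2, ← Real.rpow_sub hy]
        congr 1
        push_cast
        ring
      rw [e1]
      have h6 : y ^ (1 - a) ≠ 0 := (Real.rpow_pos_of_pos hy _).ne'
      field_simp
      ring
    rw [← h5]
    have h7 := mul_le_mul_of_nonneg_left h4 (sq_nonneg y)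
    have h8 := mul_le_mul_of_nonneg_left h7 (mul_nonneg hr hk)
    nlinarith
  · rw [Kfm_ge x y hy hxy]
    have h4 := Real.geom_mean_le_arith_mean2_weighted (w₁ := (1 - a) / 2) (w₂ := (1 + a) / 2)
      (by linarith) (by linarith) (sq_nonneg x) (sq_nonneg y) (by ring)
    rw [← Real.rpow_natCast x 2, ← Real.rpow_natCast y 2, ← Real.rpow_mul hx.le,
      ← Real.rpow_mul hy.le] at h4
    have e1 : ((2 : ℕ) : ℝ) * ((1 - a) / 2) = 1 - a := by push_cast; ring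
    have e2 : ((2 : ℕ) : ℝ) * ((1 + a) / 2) = 1 + a := by push_cast; ring
    rw [e1, e2, Real.rpow_natCast, Real.rpow_natCast] at h4
    have h5 : 0 ≤ (1 - a) * x ^ 2 + (1 + a) * y ^ 2 - 2 * (x ^ (1 - a) * y ^ (1 + a)) := by
      linarith
    have h6 : 0 ≤ rff a l₁ l₂ s c₀ * (k2 a l₁ l₂ s c₀ / 2) := by positivity
    have h7 := mul_nonneg h6 h5
    simpa using h7

/-- the kernel of the term `T - G` -/
noncomputable def K2 (a l₁ l₂ s c₀ x y : ℝ) : ℝ :=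
  (x * y) ^ (1 - a) *
    ∫ ν in Ioi (0 : ℝ), ν ^ (2 * a - 1) * ((c₀ - ff l₁ l₂ s c₀ (ν / x)) * mm l₁ l₂ s c₀ (ν / y))

theorem ff_le (h1 : 0 < l₁) (h2 : 0 < l₂) (hs : 0 < s) (hc : 0 ≤ c₀) (e : ℝ) (he : 0 ≤ e)
    (hel : e ≤ l₁) {z : ℝ} (hz : 0 < z) : (1 + e / z) * ff l₁ l₂ s c₀ z ≤ c₀ := by
  rcases le_total z s with h | h
  · rw [ff_zero h, mul_zero]
    exact hc
  · unfold ff
    rw [max_eq_left (by linarith)]
    have h3 : (1 + e / z) * (c₀ * z * (z - s) / ((z + l₁) * (z + l₂))) =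
        c₀ * ((z + e) * (z - s) / ((z + l₁) * (z + l₂))) := by
      field_simp
    rw [h3]
    have h4 : (z + e) * (z - s) / ((z + l₁) * (z + l₂)) ≤ 1 := by
      rw [div_le_one (by positivity)]
      have h5 : 0 ≤ z - s := by linarith
      have h6 : (z + e) * (z - s) ≤ (z + l₁) * (z + l₂) := by
        apply mul_le_mul <;> linarith
      exact h6
    nlinarith

theorem K2_int (h0 : 0 < a) (ha : 2 * a < 1) (h1 : 0 < l₁) (h2 : 0 < l₂) (hs : 0 < s)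
    (hc : 0 ≤ c₀) (x y : ℝ) (hx : 0 < x) (hy : 0 < y) :
    IntegrableOn (fun ν : ℝ => ν ^ (2 * a - 1) *
      ((c₀ - ff l₁ l₂ s c₀ (ν / x)) * mm l₁ l₂ s c₀ (ν / y))) (Ioi 0) := by
  have hg := mm_int (c₀ := c₀) h0 ha h1 h2 hs y hy
  have hφ : Measurable (fun ν : ℝ => c₀ - ff l₁ l₂ s c₀ (ν / x)) := by
    unfold ff
    fun_prop
  refine (int_bdd (C := c₀) hg hφ ?_).congr_fun ?_ measurableSet_Ioi
  · intro r hr
    have hrx : 0 < r / x := by positivity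
    have h3 := ff_le h1 h2 hs hc 0 le_rfl h1.le hrx
    rw [zero_div, add_zero, one_mul] at h3
    have h4 := ff_nonneg (s := s) h1 h2 hc hrx
    rw [abs_of_nonneg (by linarith)]
    linarith
  · intro r _
    show r ^ (2 * a - 1) * mm l₁ l₂ s c₀ (r / y) * (c₀ - ff l₁ l₂ s c₀ (r / x)) = _
    ring

theorem K2_le (h0 : 0 < a) (ha : 2 * a < 1) (h1 : 0 < l₁) (h2 : 0 < l₂) (hs : 0 < s)
    (hc : 0 ≤ c₀) (x y : ℝ) (hx : 0 < x) (hy : 0 < y) :
    K2 a l₁ l₂ s c₀ x y ≤ k2 a l₁ l₂ s c₀ * (x ^ (1 - a) * y ^ (1 + a)) := by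
  have hle : ∫ ν in Ioi (0 : ℝ), ν ^ (2 * a - 1) * ((c₀ - ff l₁ l₂ s c₀ (ν / x)) *
      mm l₁ l₂ s c₀ (ν / y)) ≤ c₀ * ∫ ν in Ioi (0 : ℝ), ν ^ (2 * a - 1) *
        mm l₁ l₂ s c₀ (ν / y) := by
    rw [← integral_const_mul]
    refine setIntegral_mono_on (K2_int h0 ha h1 h2 hs hc x y hx hy)
      ((mm_int h0 ha h1 h2 hs y hy).const_mul _) measurableSet_Ioi fun r hr => ?_
    have hr0 : (0 : ℝ) < r := hr
    have h4 := ff_nonneg (s := s) h1 h2 hc (by positivity : 0 < r / x)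
    have h5 := mm_nonneg (s := s) h1 h2 hc (by positivity : 0 < r / y)
    have h6 := Real.rpow_nonneg hr0.le (2 * a - 1)
    have h7 := mul_nonneg (mul_nonneg h6 h4) h5
    nlinarith
  rw [u_scale y hy] at hle
  unfold K2 k2
  have hP : 0 ≤ (x * y) ^ (1 - a) := Real.rpow_nonneg (by positivity) _
  refine (mul_le_mul_of_nonneg_left hle hP).trans (le_of_eq ?_)
  rw [Real.mul_rpow hx.le hy.le]
  have e1 : y ^ (1 + a) = y ^ (1 - a) * y ^ (2 * a) := by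
    rw [← Real.rpow_add hy]
    congr 1
    ring
  rw [e1]
  ring

/-- `K₂' = K₂ - e x K_fm ≥ 0` -/
theorem K2_ge (h0 : 0 < a) (ha : 2 * a < 1) (h1 : 0 < l₁) (h2 : 0 < l₂) (hs : 0 < s)
    (hc : 0 ≤ c₀) (e : ℝ) (he : 0 ≤ e) (hel : e ≤ l₁) (x y : ℝ) (hx : 0 < x) (hy : 0 < y) :
    e * x * Kfm a l₁ l₂ s c₀ x y ≤ K2 a l₁ l₂ s c₀ x y := by
  have hle : e * x * ∫ ν in Ioi (0 : ℝ), ν ^ (2 * a - 2) * (ff l₁ l₂ s c₀ (ν / x) *
      mm l₁ l₂ s c₀ (ν / y)) ≤ ∫ ν in Ioi (0 : ℝ), ν ^ (2 * a - 1) *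
        ((c₀ - ff l₁ l₂ s c₀ (ν / x)) * mm l₁ l₂ s c₀ (ν / y)) := by
    rw [← integral_const_mul]
    refine setIntegral_mono_on ((fm_int h0 ha h1 h2 hs x y hx hy).const_mul _)
      (K2_int h0 ha h1 h2 hs hc x y hx hy) measurableSet_Ioi fun r hr => ?_
    have hr0 : (0 : ℝ) < r := hr
    have h4 := ff_le (s := s) h1 h2 hs hc e he hel (by positivity : 0 < r / x)
    have h5 := mm_nonneg (s := s) h1 h2 hc (by positivity : 0 < r / y)
    have h6 := Real.rpow_nonneg hr0.le (2 * a - 1)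
    have e1 : r ^ (2 * a - 2) = r ^ (2 * a - 1) / r := by
      have : (2 * a - 2) = (2 * a - 1) - 1 := by ring
      rw [this, Real.rpow_sub_one hr0.ne']
    rw [e1]
    have e2 : e * x * (r ^ (2 * a - 1) / r * (ff l₁ l₂ s c₀ (r / x) * mm l₁ l₂ s c₀ (r / y))) =
        r ^ (2 * a - 1) * mm l₁ l₂ s c₀ (r / y) * (e / (r / x) * ff l₁ l₂ s c₀ (r / x)) := by
      field_simp
    rw [e2]
    have h7 := mul_le_mul_of_nonneg_left
      (by linarith : e / (r / x) * ff l₁ l₂ s c₀ (r / x) ≤ c₀ - ff l₁ l₂ s c₀ (r / x))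
      (mul_nonneg h6 h5)
    refine h7.trans (le_of_eq ?_)
    ring
  unfold K2 Kfm
  have hP : 0 ≤ (x * y) ^ (1 - a) := Real.rpow_nonneg (by positivity) _
  have h8 := mul_le_mul_of_nonneg_left hle hP
  refine le_trans (le_of_eq ?_) h8
  ring

end fm

end Pool.Agent.LibSchE
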