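import Pool.Agent.LibSchE.E0

/-! **E2a.**  The resolvent inequality in columns. -/

open MeasureTheory Set Matrix
open scoped ComplexOrder

namespace Pool.Agent.LibSchE

open Pool.Agent.LibSchP Pool.Agent.LibSchA

/-- `resolvent_le`, `fr_blk`, `trace_blk`, `itg_base`, `Itg.mono` (as in `LibSchA.main_blk`). -/
theorem main_sum {N : ℕ} {m : Type} {n : Fin N → Type} [Fintype m] [DecidableEq m]
    [∀ k, Fintype (n k)] {a : ℝ} (h0 : 0 < a) (h1 : 2 * a < 1)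
    (A B : ∀ k, Matrix m (n k) ℂ) (G₁ G₂ : ∀ k, ℝ → Matrix m (n k) ℂ) (J : Fin N → ℝ)
    (W : Matrix (m ⊕ m) (m ⊕ m) ℂ) (hW : W ∈ unitaryGroup (m ⊕ m) ℂ) (x μ : m ⊕ m → ℝ)
    (hμ : ∀ i, 0 ≤ μ i) (hT : LibSch.blk A B * (LibSch.blk A B)ᴴ = ud W x)
    (hJ : ∀ k, Itg (fun r => r ^ (2 * a - 1) * colI (A k) (B k) (G₁ k r) (G₂ k r)
      (ud W μ).toBlocks₁₁ (ud W μ).toBlocks₂₂ (ud W μ).toBlocks₁₂ r) (J k)) :
    cst (2 * a) * ∑ i, x i * μ i ^ (2 * a) ≤ ∑ k, J k := by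
  have hb0 : 0 < 2 * a := by linarith
  set E := ud W μ with hE
  have iL : Itg (fun r => ∑ i, x i * (r ^ (2 * a - 1) * (μ i / (r + μ i))))
      (∑ i, x i * (cst (2 * a) * μ i ^ (2 * a))) :=
    Itg.sum _ fun i _ => (itg_base (2 * a) (μ i) hb0 h1 (hμ i)).const_mul _
  have iR : Itg (fun r => ∑ k, r ^ (2 * a - 1) * colI (A k) (B k) (G₁ k r) (G₂ k r)
      E.toBlocks₁₁ E.toBlocks₂₂ E.toBlocks₁₂ r) (∑ k, J k) := Itg.sum _ fun k _ => hJ k
  have h2 := iL.mono iR (by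
    intro r hr
    have h2 := resolvent_le W hW x μ hμ (LibSch.blk A B)
      (LibSch.blk (fun k => G₁ k r) (fun k => G₂ k r)) hT r hr
    rw [fr_blk, trace_blk _ _ _ (ud_isHermitian W μ), Finset.mul_sum,
      ← Finset.sum_add_distrib] at h2
    have h3 := mul_le_mul_of_nonneg_left h2 (Real.rpow_nonneg hr.le (2 * a - 1))
    rw [Finset.mul_sum, Finset.mul_sum] at h3
    refine le_trans (le_of_eq ?_) h3
    exact Finset.sum_congr rfl fun i _ => by ring)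
  have e1 : ∑ i, x i * (cst (2 * a) * μ i ^ (2 * a)) =
      cst (2 * a) * ∑ i, x i * μ i ^ (2 * a) := by
    rw [Finset.mul_sum]
    exact Finset.sum_congr rfl fun i _ => by ring
  rw [e1] at h2
  exact h2

end Pool.Agent.LibSchE
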