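import Pool.Agent.LibSchE.E1

/-! **E3a.**  API of `th`, `pr`, `cx`. -/

open MeasureTheory Set Matrix
open scoped ComplexOrder

namespace Pool.Agent.LibSchE

open Pool.Agent.LibSchP Pool.Agent.LibSchA

section ops

variable {m n κ κ' : Type} [Fintype m] [DecidableEq m] [Fintype n] [Fintype κ] [Fintype κ']
  [DecidableEq κ] [DecidableEq κ']

theorem E3a_fr_sub (X Y : Matrix m m ℂ) :
    fr (X - Y) = fr X + fr Y - 2 * (trace (Xᴴ * Y)).re := by
  rw [fr_eq_trace, fr_eq_trace X, fr_eq_trace Y]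
  have h : (X - Y)ᴴ * (X - Y) = Xᴴ * X + Yᴴ * Y - Xᴴ * Y - Yᴴ * X := by
    rw [conjTranspose_sub, Matrix.sub_mul, Matrix.mul_sub, Matrix.mul_sub]
    abel
  have h2 : (trace (Yᴴ * X)).re = (trace (Xᴴ * Y)).re := by
    have h3 : (Xᴴ * Y)ᴴ = Yᴴ * X := by
      rw [conjTranspose_mul, conjTranspose_conjTranspose]
    rw [← h3, trace_conjTranspose]
    simp
  rw [h, trace_sub, trace_sub, trace_add, Complex.sub_re, Complex.sub_re, Complex.add_re, h2]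
  ring

theorem E3a_fr_smul (c : ℝ) (X : Matrix m m ℂ) : fr ((c : ℂ) • X) = c ^ 2 * fr X := by
  rw [← nf_sq, nf_smul, mul_pow, nf_sq]
  simp

/-- `fr (U diag(θ) Uᴴ) = ∑ θ²` (`fr_usv`) -/
theorem fr_th (U : Matrix m κ ℂ) (hU : Uᴴ * U = 1) (θ : κ → ℝ) : fr (th U θ) = ∑ j, θ j ^ 2 :=
  fr_usv U U hU hU θ

theorem th_isHermitian (U : Matrix m κ ℂ) (θ : κ → ℝ) : (th U θ).IsHermitian := by
  unfold th Matrix.IsHermitian
  rw [conjTranspose_mul, conjTranspose_mul, conjTranspose_conjTranspose, dg_conjTranspose,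
    Matrix.mul_assoc]

theorem th_posSemidef (U : Matrix m κ ℂ) (θ : κ → ℝ) (hθ : ∀ j, 0 ≤ θ j) :
    (th U θ).PosSemidef := by
  have hd : (dg θ).PosSemidef := by
    unfold dg
    rw [posSemidef_diagonal_iff]
    intro j
    exact_mod_cast hθ j
  exact hd.mul_mul_conjTranspose_same U

/-- `pr U θ E = Re tr (Eᴴ Θ)` for Hermitian `E` -/
theorem pr_eq (U : Matrix m κ ℂ) (θ : κ → ℝ) (E : Matrix m m ℂ) (hE : E.IsHermitian) :
    pr U θ E = (trace (Eᴴ * th U θ)).re := by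
  have h : trace (Eᴴ * th U θ) = trace (Uᴴ * E * U * dg θ) := by
    rw [hE.eq]
    unfold th
    rw [← Matrix.mul_assoc, trace_mul_comm]
    simp only [Matrix.mul_assoc]
  rw [h]
  unfold pr
  simp only [trace, diag_apply, dg, mul_diagonal, Complex.re_sum]
  refine Finset.sum_congr rfl fun j _ => ?_
  rw [Complex.re_mul_ofReal]
  ring

/-- `e⁻¹ |E|² = e |E/e - Θ|² + ...`:  for Hermitian `E`, `e > 0`,
`2 pr U θ E = |E|²/e + e |Θ|² - e |E/e - Θ|²` -/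
theorem pr_square (U : Matrix m κ ℂ) (θ : κ → ℝ) (E : Matrix m m ℂ) (hE : E.IsHermitian)
    (e : ℝ) (he : 0 < e) :
    2 * pr U θ E = fr E / e + e * fr (th U θ) - e * fr ((e : ℂ)⁻¹ • E - th U θ) := by
  have h1 : ((e : ℂ)⁻¹) = ((e⁻¹ : ℝ) : ℂ) := by push_cast; rfl
  rw [pr_eq U θ E hE, E3a_fr_sub, h1, E3a_fr_smul]
  have h2 : (trace ((((e⁻¹ : ℝ) : ℂ) • E)ᴴ * th U θ)).re = e⁻¹ * (trace (Eᴴ * th U θ)).re := by
    rw [conjTranspose_smul, Matrix.smul_mul, trace_smul, Complex.star_def, Complex.conj_ofReal,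
      smul_eq_mul, Complex.re_ofReal_mul]
  rw [h2]
  field_simp
  ring

theorem cx_add_right (F : ℝ → ℝ → ℝ) (U : Matrix m κ ℂ) (V : Matrix n κ ℂ) (θ : κ → ℝ)
    (U' : Matrix m κ' ℂ) (V' : Matrix n κ' ℂ) (θ' : κ' → ℝ) (E E' : Matrix m m ℂ) :
    cx F U V θ U' V' θ' (E + E') = cx F U V θ U' V' θ' E + cx F U V θ U' V' θ' E' := by
  unfold cx
  rw [← Finset.sum_add_distrib]
  refine Finset.sum_congr rfl fun j _ => ?_
  rw [← Finset.sum_add_distrib]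
  refine Finset.sum_congr rfl fun l _ => ?_
  rw [Matrix.mul_add, Matrix.add_mul, Matrix.add_apply, add_mul, Complex.add_re, mul_add]

/-- `Uᴴ Θ U' = diag(θ) Uᴴ U'`: the kernel `x F x y` -/
theorem cx_th (F : ℝ → ℝ → ℝ) (U : Matrix m κ ℂ) (hU : Uᴴ * U = 1) (V : Matrix n κ ℂ)
    (θ : κ → ℝ) (U' : Matrix m κ' ℂ) (V' : Matrix n κ' ℂ) (θ' : κ' → ℝ) (e : ℝ) :
    cx F U V θ U' V' θ' ((e : ℂ) • th U θ) =
      cx (fun x y => e * x * F x y) U V θ U' V' θ' (1 : Matrix m m ℂ) := by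
  have h : Uᴴ * ((e : ℂ) • th U θ) * U' = (e : ℂ) • (dg θ * (Uᴴ * (1 : Matrix m m ℂ) * U')) := by
    unfold th
    rw [Matrix.mul_smul, Matrix.smul_mul, Matrix.mul_one]
    congr 1
    rw [← Matrix.mul_assoc Uᴴ, ← Matrix.mul_assoc Uᴴ, hU, Matrix.one_mul, Matrix.mul_assoc]
  unfold cx
  refine Finset.sum_congr rfl fun j _ => ?_
  refine Finset.sum_congr rfl fun l _ => ?_
  rw [h, Matrix.smul_apply, smul_eq_mul]
  unfold dg
  rw [diagonal_mul, mul_assoc, mul_assoc, Complex.re_ofReal_mul, Complex.re_ofReal_mul]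
  ring

end ops

end Pool.Agent.LibSchE
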