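import Pool.Agent.LibSchE.E3a

/-! **E3b.**  A Hilbert-Schmidt estimate. -/

open MeasureTheory Set Matrix
open scoped ComplexOrder

namespace Pool.Agent.LibSchE

open Pool.Agent.LibSchP Pool.Agent.LibSchA

section ops

variable {m n κ κ' : Type} [Fintype m] [DecidableEq m] [Fintype n] [Fintype κ] [Fintype κ']
  [DecidableEq κ] [DecidableEq κ']

theorem E3b_amgm {A B C x y : ℝ} (hA : 0 ≤ A) (hC : 0 ≤ C) (hB : B ^ 2 ≤ 4 * (A * C)) :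
    B * (x * y) ≤ A * x ^ 2 + C * y ^ 2 := by
  have h1 : 0 ≤ A * x ^ 2 + C * y ^ 2 := by positivity
  have h2 : (B * (x * y)) ^ 2 ≤ (A * x ^ 2 + C * y ^ 2) ^ 2 := by
    have h3 : B ^ 2 * (x * y) ^ 2 ≤ 4 * (A * C) * (x * y) ^ 2 :=
      mul_le_mul_of_nonneg_right hB (sq_nonneg _)
    nlinarith [sq_nonneg (A * x ^ 2 - C * y ^ 2)]
  exact (abs_le_of_sq_le_sq' h2 h1).2

theorem E3b_weights (W : κ → κ' → ℝ) (hW : ∀ j l, 0 ≤ W j l) (hr : ∀ j, ∑ l, W j l ≤ 1)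
    (hc : ∀ l, ∑ j, W j l ≤ 1) {a k : ℝ} (h0 : 0 < a) (h1 : 2 * a < 1) (hk : 0 ≤ k)
    (θ : κ → ℝ) (θ' : κ' → ℝ) (hs : ∑ j, θ j ^ 2 ≤ 1) (hs' : ∑ j, θ' j ^ 2 ≤ 1)
    (G : κ → κ' → ℝ) (hG : ∀ j l, G j l ≤ k / 2 * ((1 - a) * θ j ^ 2 + (1 + a) * θ' l ^ 2)) :
    ∑ j, ∑ l, G j l * W j l ≤ k := by
  have h2 : ∑ j, ∑ l, θ j ^ 2 * W j l ≤ 1 := by
    calc ∑ j, ∑ l, θ j ^ 2 * W j l = ∑ j, θ j ^ 2 * ∑ l, W j l :=
          Finset.sum_congr rfl fun j _ => (Finset.mul_sum _ _ _).symm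
      _ ≤ ∑ j, θ j ^ 2 * 1 := Finset.sum_le_sum fun j _ =>
          mul_le_mul_of_nonneg_left (hr j) (sq_nonneg _)
      _ = ∑ j, θ j ^ 2 := by simp
      _ ≤ 1 := hs
  have h3 : ∑ j, ∑ l, θ' l ^ 2 * W j l ≤ 1 := by
    rw [Finset.sum_comm]
    calc ∑ l, ∑ j, θ' l ^ 2 * W j l = ∑ l, θ' l ^ 2 * ∑ j, W j l :=
          Finset.sum_congr rfl fun j _ => (Finset.mul_sum _ _ _).symm
      _ ≤ ∑ l, θ' l ^ 2 * 1 := Finset.sum_le_sum fun l _ =>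
          mul_le_mul_of_nonneg_left (hc l) (sq_nonneg _)
      _ = ∑ l, θ' l ^ 2 := by simp
      _ ≤ 1 := hs'
  calc ∑ j, ∑ l, G j l * W j l
      ≤ ∑ j, ∑ l, (k / 2 * (1 - a) * (θ j ^ 2 * W j l) + k / 2 * (1 + a) * (θ' l ^ 2 * W j l)) := by
        refine Finset.sum_le_sum fun j _ => Finset.sum_le_sum fun l _ => ?_
        refine (mul_le_mul_of_nonneg_right (hG j l) (hW j l)).trans (le_of_eq ?_)
        ring
    _ = k / 2 * (1 - a) * ∑ j, ∑ l, θ j ^ 2 * W j l +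
        k / 2 * (1 + a) * ∑ j, ∑ l, θ' l ^ 2 * W j l := by
        simp only [Finset.sum_add_distrib, Finset.mul_sum]
    _ ≤ k / 2 * (1 - a) * 1 + k / 2 * (1 + a) * 1 :=
        add_le_add (mul_le_mul_of_nonneg_left h2 (by
          have : 0 ≤ 1 - a := by linarith
          positivity)) (mul_le_mul_of_nonneg_left h3 (by positivity))
    _ = k := by ring

/-- Let `0 ≤ F`, `F x y ≤ (k/2)((1-a)x²+(1+a)y²)` and `F x y + R x y ≤ (k/2)((1-a)x²+(1+a)y²)`,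
`R ≥ 0`, `2 e S² ≤ ρ R`.  Then for every matrix `D`
`2 cx F 1 - 2 e cx S D ≤ 2 k + (ρ e / 2) |D|²`.  With `w = UᴴU'`, `v = VᴴV'`:
`2 F Re(w v̄) ≤ F |w|² + F |v|²`, `-2 e S Re(d v̄) ≤ (ρ e/2)|d|² + R |v|²`,
`∑ |w|²`, `∑ |v|²` over rows and columns are at most `1` (`row_le_one`, `a7b_col_le_one`),
`∑ |d|² ≤ |D|²` (`nf_compress`); `(1-a)/2 + (1+a)/2 = 1`. -/
theorem cross_half {a e ρ k : ℝ} (h0 : 0 < a) (h1 : 2 * a < 1) (he : 0 < e) (hρ : 0 ≤ ρ)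
    (hk : 0 ≤ k) (F S R : ℝ → ℝ → ℝ) (hF : ∀ x y, 0 < x → 0 < y → 0 ≤ F x y)
    (hR : ∀ x y, 0 < x → 0 < y → 0 ≤ R x y)
    (hFR : ∀ x y, 0 < x → 0 < y → F x y + R x y ≤ k / 2 * ((1 - a) * x ^ 2 + (1 + a) * y ^ 2))
    (hS : ∀ x y, 0 < x → 0 < y → 2 * e * S x y ^ 2 ≤ ρ * R x y)
    (U : Matrix m κ ℂ) (V : Matrix n κ ℂ) (θ : κ → ℝ) (U' : Matrix m κ' ℂ)
    (V' : Matrix n κ' ℂ) (θ' : κ' → ℝ) (hU : Uᴴ * U = 1) (hV : Vᴴ * V = 1)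
    (hU' : U'ᴴ * U' = 1) (hV' : V'ᴴ * V' = 1) (hθ : ∀ j, 0 < θ j) (hθ' : ∀ j, 0 < θ' j)
    (hs : ∑ j, θ j ^ 2 ≤ 1) (hs' : ∑ j, θ' j ^ 2 ≤ 1) (D : Matrix m m ℂ) :
    2 * cx F U V θ U' V' θ' (1 : Matrix m m ℂ) - 2 * e * cx S U V θ U' V' θ' D ≤
      2 * k + ρ * e / 2 * fr D := by
  obtain ⟨w, hw⟩ : ∃ w : κ → κ' → ℂ, w = fun j l => (Uᴴ * (1 : Matrix m m ℂ) * U') j l := ⟨_, rfl⟩
  obtain ⟨v, hv⟩ : ∃ v : κ → κ' → ℂ, v = fun j l => (V'ᴴ * V) l j := ⟨_, rfl⟩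
  obtain ⟨d, hd⟩ : ∃ d : κ → κ' → ℂ, d = fun j l => (Uᴴ * D * U') j l := ⟨_, rfl⟩
  have hw' : ∀ j l, w j l = (Uᴴ * U') j l := fun j l => by rw [hw, Matrix.mul_one]
  have re_le : ∀ x y : ℂ, (x * y).re ≤ ‖x‖ * ‖y‖ := fun x y => by
    rw [← norm_mul]
    exact (le_abs_self _).trans (Complex.abs_re_le_norm _)
  have re_ge : ∀ x y : ℂ, -(‖x‖ * ‖y‖) ≤ (x * y).re := fun x y => by
    rw [← norm_mul]
    exact (abs_le.1 (Complex.abs_re_le_norm (x * y))).1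
  -- pointwise
  have hpt : ∀ j l, 2 * (F (θ j) (θ' l) * (w j l * v j l).re) -
      2 * e * (S (θ j) (θ' l) * (d j l * v j l).re) ≤
      F (θ j) (θ' l) * ‖w j l‖ ^ 2 + (F (θ j) (θ' l) + R (θ j) (θ' l)) * ‖v j l‖ ^ 2 +
        ρ * e / 2 * ‖d j l‖ ^ 2 := by
    intro j l
    have hF0 := hF _ _ (hθ j) (hθ' l)
    have hR0 := hR _ _ (hθ j) (hθ' l)
    have hS0 := hS _ _ (hθ j) (hθ' l)
    have e1 : 2 * (F (θ j) (θ' l) * (w j l * v j l).re) ≤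
        F (θ j) (θ' l) * ‖w j l‖ ^ 2 + F (θ j) (θ' l) * ‖v j l‖ ^ 2 := by
      have h2 := mul_le_mul_of_nonneg_left (re_le (w j l) (v j l)) hF0
      have h3 : 0 ≤ F (θ j) (θ' l) * (‖w j l‖ - ‖v j l‖) ^ 2 := mul_nonneg hF0 (sq_nonneg _)
      nlinarith
    have e2 : -(2 * e * (S (θ j) (θ' l) * (d j l * v j l).re)) ≤
        ρ * e / 2 * ‖d j l‖ ^ 2 + R (θ j) (θ' l) * ‖v j l‖ ^ 2 := by
      have h2 : -(2 * e * (S (θ j) (θ' l) * (d j l * v j l).re)) ≤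
          (2 * e * |S (θ j) (θ' l)|) * (‖d j l‖ * ‖v j l‖) := by
        have h4 : |(d j l * v j l).re| ≤ ‖d j l‖ * ‖v j l‖ :=
          abs_le.2 ⟨re_ge _ _, re_le _ _⟩
        calc -(2 * e * (S (θ j) (θ' l) * (d j l * v j l).re))
            ≤ |2 * e * (S (θ j) (θ' l) * (d j l * v j l).re)| := neg_le_abs _
          _ = (2 * e * |S (θ j) (θ' l)|) * |(d j l * v j l).re| := by
              rw [abs_mul (2 * e), abs_mul (S (θ j) (θ' l)),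
                abs_of_pos (by linarith : (0 : ℝ) < 2 * e)]
              ring
          _ ≤ _ := mul_le_mul_of_nonneg_left h4 (by positivity)
      refine h2.trans (E3b_amgm (by positivity) hR0 ?_)
      have h5 : (2 * e * |S (θ j) (θ' l)|) ^ 2 = 2 * e * (2 * e * S (θ j) (θ' l) ^ 2) := by
        rw [mul_pow, sq_abs]
        ring
      rw [h5]
      calc 2 * e * (2 * e * S (θ j) (θ' l) ^ 2) ≤ 2 * e * (ρ * R (θ j) (θ' l)) :=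
            mul_le_mul_of_nonneg_left hS0 (by linarith)
        _ = 4 * (ρ * e / 2 * R (θ j) (θ' l)) := by ring
    nlinarith
  have hcxF : cx F U V θ U' V' θ' (1 : Matrix m m ℂ) =
      ∑ j, ∑ l, F (θ j) (θ' l) * (w j l * v j l).re := by rw [hw, hv]; rfl
  have hcxS : cx S U V θ U' V' θ' D = ∑ j, ∑ l, S (θ j) (θ' l) * (d j l * v j l).re := by
    rw [hd, hv]; rfl
  have hsum : 2 * cx F U V θ U' V' θ' (1 : Matrix m m ℂ) - 2 * e * cx S U V θ U' V' θ' D ≤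
      ∑ j, ∑ l, F (θ j) (θ' l) * ‖w j l‖ ^ 2 +
        ∑ j, ∑ l, (F (θ j) (θ' l) + R (θ j) (θ' l)) * ‖v j l‖ ^ 2 +
        ρ * e / 2 * ∑ j, ∑ l, ‖d j l‖ ^ 2 := by
    rw [hcxF, hcxS]
    calc 2 * ∑ j, ∑ l, F (θ j) (θ' l) * (w j l * v j l).re -
          2 * e * ∑ j, ∑ l, S (θ j) (θ' l) * (d j l * v j l).re
        = ∑ j, ∑ l, (2 * (F (θ j) (θ' l) * (w j l * v j l).re) -
            2 * e * (S (θ j) (θ' l) * (d j l * v j l).re)) := by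
          simp only [Finset.mul_sum, Finset.sum_sub_distrib]
      _ ≤ ∑ j, ∑ l, (F (θ j) (θ' l) * ‖w j l‖ ^ 2 +
            (F (θ j) (θ' l) + R (θ j) (θ' l)) * ‖v j l‖ ^ 2 + ρ * e / 2 * ‖d j l‖ ^ 2) :=
          Finset.sum_le_sum fun j _ => Finset.sum_le_sum fun l _ => hpt j l
      _ = _ := by simp only [Finset.sum_add_distrib, Finset.mul_sum]
  -- the three sums
  have s1 : ∑ j, ∑ l, F (θ j) (θ' l) * ‖w j l‖ ^ 2 ≤ k := by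
    refine E3b_weights (fun j l => ‖w j l‖ ^ 2) (fun j l => sq_nonneg _) ?_ ?_ h0 h1 hk θ θ' hs hs'
      (fun j l => F (θ j) (θ' l)) ?_
    · intro j
      simp only [hw']
      exact a7b_col_le_one U' U hU' hU j
    · intro l
      simp only [hw']
      exact row_le_one U' U hU' hU l
    · intro j l
      have h2 := hFR _ _ (hθ j) (hθ' l)
      have h3 := hR _ _ (hθ j) (hθ' l)
      linarith
  have s2 : ∑ j, ∑ l, (F (θ j) (θ' l) + R (θ j) (θ' l)) * ‖v j l‖ ^ 2 ≤ k := by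
    refine E3b_weights (fun j l => ‖v j l‖ ^ 2) (fun j l => sq_nonneg _) ?_ ?_ h0 h1 hk θ θ' hs hs'
      (fun j l => F (θ j) (θ' l) + R (θ j) (θ' l)) ?_
    · intro j
      rw [hv]
      exact row_le_one V V' hV hV' j
    · intro l
      rw [hv]
      exact a7b_col_le_one V V' hV hV' l
    · intro j l
      exact hFR _ _ (hθ j) (hθ' l)
  have s3 : ∑ j, ∑ l, ‖d j l‖ ^ 2 ≤ fr D := by
    have h2 : ∑ j, ∑ l, ‖d j l‖ ^ 2 = fr (Uᴴ * D * U') := by rw [hd]; rfl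
    rw [h2, ← nf_sq, ← nf_sq D]
    exact pow_le_pow_left₀ (nf_nonneg _) (nf_compress U U' hU hU' D) 2
  have s4 := mul_le_mul_of_nonneg_left s3 (show 0 ≤ ρ * e / 2 by positivity)
  linarith

end ops

end Pool.Agent.LibSchE
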