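import Pool.Agent.LibSchE.E3b

/-! **E3c.**  The bound for a bad column. -/

open MeasureTheory Set Matrix
open scoped ComplexOrder

namespace Pool.Agent.LibSchE

open Pool.Agent.LibSchP Pool.Agent.LibSchA

section ops

variable {m n κ κ' : Type} [Fintype m] [DecidableEq m] [Fintype n] [Fintype κ] [Fintype κ']
  [DecidableEq κ] [DecidableEq κ']

theorem E3c_cx_smul_right (F : ℝ → ℝ → ℝ) (U : Matrix m κ ℂ) (V : Matrix n κ ℂ) (θ : κ → ℝ)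
    (U' : Matrix m κ' ℂ) (V' : Matrix n κ' ℂ) (θ' : κ' → ℝ) (e : ℝ) (E : Matrix m m ℂ) :
    cx F U V θ U' V' θ' ((e : ℂ) • E) = e * cx F U V θ U' V' θ' E := by
  unfold cx
  rw [Finset.mul_sum]
  refine Finset.sum_congr rfl fun j _ => ?_
  rw [Finset.mul_sum]
  refine Finset.sum_congr rfl fun l _ => ?_
  have h1 : (Uᴴ * ((e : ℂ) • E) * U') j l = (e : ℂ) * (Uᴴ * E * U') j l := by
    rw [Matrix.mul_smul, Matrix.smul_mul, Matrix.smul_apply, smul_eq_mul]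
  rw [h1, mul_assoc (e : ℂ), Complex.re_ofReal_mul]
  ring

theorem E3c_cx_sub_left (F F' : ℝ → ℝ → ℝ) (U : Matrix m κ ℂ) (V : Matrix n κ ℂ) (θ : κ → ℝ)
    (U' : Matrix m κ' ℂ) (V' : Matrix n κ' ℂ) (θ' : κ' → ℝ) (E : Matrix m m ℂ) :
    cx (fun x y => F x y - F' x y) U V θ U' V' θ' E =
      cx F U V θ U' V' θ' E - cx F' U V θ U' V' θ' E := by
  unfold cx
  rw [← Finset.sum_sub_distrib]
  refine Finset.sum_congr rfl fun j _ => ?_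
  rw [← Finset.sum_sub_distrib]
  refine Finset.sum_congr rfl fun l _ => ?_
  ring

theorem E3c_amgm {a x y : ℝ} (h0 : 0 < a) (h1 : 2 * a < 1) (hx : 0 < x) (hy : 0 < y) :
    2 * (x ^ (1 - a) * y ^ (1 + a)) ≤ (1 - a) * x ^ 2 + (1 + a) * y ^ 2 := by
  have h := Real.geom_mean_le_arith_mean2_weighted (by linarith : 0 ≤ (1 - a) / 2)
    (by linarith : 0 ≤ (1 + a) / 2) (sq_nonneg x) (sq_nonneg y) (by ring)
  have e1 : (x ^ 2) ^ ((1 - a) / 2) = x ^ (1 - a) := by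
    rw [← Real.rpow_natCast x 2, ← Real.rpow_mul hx.le]
    congr 1
    push_cast
    ring
  have e2 : (y ^ 2) ^ ((1 + a) / 2) = y ^ (1 + a) := by
    rw [← Real.rpow_natCast y 2, ← Real.rpow_mul hy.le]
    congr 1
    push_cast
    ring
  rw [e1, e2] at h
  linarith

/-- the terms with `E₂₂` and the cross term of `|T₂ - G₂|²`:  `E₂₂ = e Θ' + e D`,
`D = E₂₂/e - Θ'` (`pr_square`, `cx_add_right`, `cx_th`, `cross_half` with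
`F = kd - e x kn`, `S = kn`, `R = (k/2)((1-a)x²+(1+a)y²) - k x^(1-a) y^(1+a)`, `e |Θ'|² ≤ e`). -/
theorem bad_22 {a y' : ℝ} (h0 : 0 < a) (h1 : 2 * a < 1) {ψ χ : ℝ → ℝ} {e k : ℝ} (he : 0 < e)
    (hk : 0 ≤ k)
    (hE : ∀ x y : ℝ, 0 < x → 0 < y → 2 * e * kn a ψ χ x y ^ 2 ≤ kn a ψ ψ 1 1 * (k / 2) *
      ((1 - a) * x ^ 2 + (1 + a) * y ^ 2 - 2 * (x ^ (1 - a) * y ^ (1 + a))))
    (hle : ∀ x y : ℝ, 0 < x → 0 < y →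
      kd a (fun ν => y' - ψ ν) χ x y ≤ k * (x ^ (1 - a) * y ^ (1 + a)))
    (hge : ∀ x y : ℝ, 0 < x → 0 < y → e * x * kn a ψ χ x y ≤ kd a (fun ν => y' - ψ ν) χ x y)
    (hnn : ∀ x y : ℝ, 0 < x → 0 < y → 0 ≤ kn a ψ χ x y)
    {U : Matrix m κ ℂ} {V : Matrix n κ ℂ} {θ : κ → ℝ} {U' : Matrix m κ' ℂ}
    {V' : Matrix n κ' ℂ} {θ' : κ' → ℝ} (hU : Uᴴ * U = 1) (hV : Vᴴ * V = 1)
    (hU' : U'ᴴ * U' = 1) (hV' : V'ᴴ * V' = 1) (hθ : ∀ j, 0 < θ j) (hθ' : ∀ j, 0 < θ' j)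
    (hs : ∑ j, θ j ^ 2 ≤ 1) (hs' : ∑ j, θ' j ^ 2 ≤ 1) (E₂₂ : Matrix m m ℂ)
    (h22 : E₂₂.IsHermitian) :
    2 * cx (kd a (fun ν => y' - ψ ν) χ) U' V' θ' U V θ (1 : Matrix m m ℂ) +
      kn a ψ ψ 1 1 * pr U' θ' E₂₂ - 2 * cx (kn a ψ χ) U' V' θ' U V θ E₂₂ ≤
      2 * k + kn a ψ ψ 1 1 / 2 * (fr E₂₂ / e + e) := by
  have hρ : 0 ≤ kn a ψ ψ 1 1 := kn_self_nonneg a ψ
  obtain ⟨D, hD⟩ : ∃ D : Matrix m m ℂ, D = (e : ℂ)⁻¹ • E₂₂ - th U' θ' := ⟨_, rfl⟩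
  have heC : (e : ℂ) ≠ 0 := by exact_mod_cast he.ne'
  have hE2 : E₂₂ = (e : ℂ) • th U' θ' + (e : ℂ) • D := by
    rw [hD, smul_sub, smul_smul, mul_inv_cancel₀ heC, one_smul]
    abel
  have hpr := pr_square U' θ' E₂₂ h22 e he
  rw [← hD] at hpr
  have hfr : fr (th U' θ') ≤ 1 := by
    rw [fr_th U' hU' θ']
    exact hs'
  have hcx : cx (kn a ψ χ) U' V' θ' U V θ E₂₂ =
      cx (fun x y => e * x * kn a ψ χ x y) U' V' θ' U V θ (1 : Matrix m m ℂ) +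
        e * cx (kn a ψ χ) U' V' θ' U V θ D := by
    conv_lhs => rw [hE2]
    rw [cx_add_right, cx_th _ U' hU', E3c_cx_smul_right]
  have hcr := cross_half (e := e) h0 h1 he hρ hk
    (fun x y => kd a (fun ν => y' - ψ ν) χ x y - e * x * kn a ψ χ x y) (kn a ψ χ)
    (fun x y => k / 2 * ((1 - a) * x ^ 2 + (1 + a) * y ^ 2 - 2 * (x ^ (1 - a) * y ^ (1 + a))))
    (fun x y hx hy => sub_nonneg.mpr (hge x y hx hy))
    (fun x y hx hy => mul_nonneg (by linarith) (by linarith [E3c_amgm h0 h1 hx hy]))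
    (fun x y hx hy => by
      have h2 := hle x y hx hy
      have h3 : 0 ≤ e * x * kn a ψ χ x y :=
        mul_nonneg (mul_nonneg he.le hx.le) (hnn x y hx hy)
      have h4 : k / 2 * ((1 - a) * x ^ 2 + (1 + a) * y ^ 2 -
          2 * (x ^ (1 - a) * y ^ (1 + a))) = k / 2 * ((1 - a) * x ^ 2 + (1 + a) * y ^ 2) -
          k * (x ^ (1 - a) * y ^ (1 + a)) := by ring
      show kd a (fun ν => y' - ψ ν) χ x y - e * x * kn a ψ χ x y + k / 2 * ((1 - a) * x ^ 2 +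
        (1 + a) * y ^ 2 - 2 * (x ^ (1 - a) * y ^ (1 + a))) ≤ _
      rw [h4]
      linarith)
    (fun x y hx hy => by
      have h2 := hE x y hx hy
      show 2 * e * kn a ψ χ x y ^ 2 ≤ kn a ψ ψ 1 1 * (k / 2 * ((1 - a) * x ^ 2 +
        (1 + a) * y ^ 2 - 2 * (x ^ (1 - a) * y ^ (1 + a))))
      rw [← mul_assoc]
      exact h2)
    U' V' θ' U V θ hU' hV' hU hV hθ' hθ hs' hs D
  rw [E3c_cx_sub_left] at hcr
  have h5 : kn a ψ ψ 1 1 * (e * fr (th U' θ')) ≤ kn a ψ ψ 1 1 * e :=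
    mul_le_mul_of_nonneg_left (by nlinarith) hρ
  have h6 : kn a ψ ψ 1 1 * pr U' θ' E₂₂ =
      kn a ψ ψ 1 1 / 2 * (fr E₂₂ / e) + kn a ψ ψ 1 1 * (e * fr (th U' θ')) / 2 -
        kn a ψ ψ 1 1 * e / 2 * fr D := by
    have h7 : pr U' θ' E₂₂ = (fr E₂₂ / e + e * fr (th U' θ') - e * fr D) / 2 := by linarith
    rw [h7]
    ring
  rw [h6, hcx]
  have h8 : kn a ψ ψ 1 1 / 2 * (fr E₂₂ / e + e) =
      kn a ψ ψ 1 1 / 2 * (fr E₂₂ / e) + kn a ψ ψ 1 1 * e / 2 := by ring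
  rw [h8]
  linarith

/-- **bound for a bad column**: `bad_22`, `cross_bound` (for `kn a φ ψ`), `kd_self_nonneg`. -/
theorem bad_col {a y y' : ℝ} (h0 : 0 < a) (h1 : 2 * a < 1) {φ ψ χ : ℝ → ℝ} {e k : ℝ}
    (he : 0 < e) (hk : 0 ≤ k)
    (hII : ∃ M P : ℝ, 0 ≤ M ∧ 0 ≤ P ∧ M + P = kn a φ ψ 1 1 ∧
      ∀ x y : ℝ, 0 < x → 0 < y → |kn a φ ψ x y| ≤ M * x + P * y)
    (hE : ∀ x y : ℝ, 0 < x → 0 < y → 2 * e * kn a ψ χ x y ^ 2 ≤ kn a ψ ψ 1 1 * (k / 2) *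
      ((1 - a) * x ^ 2 + (1 + a) * y ^ 2 - 2 * (x ^ (1 - a) * y ^ (1 + a))))
    (hle : ∀ x y : ℝ, 0 < x → 0 < y →
      kd a (fun ν => y' - ψ ν) χ x y ≤ k * (x ^ (1 - a) * y ^ (1 + a)))
    (hge : ∀ x y : ℝ, 0 < x → 0 < y → e * x * kn a ψ χ x y ≤ kd a (fun ν => y' - ψ ν) χ x y)
    (hnn : ∀ x y : ℝ, 0 < x → 0 < y → 0 ≤ kn a ψ χ x y)
    {U : Matrix m κ ℂ} {V : Matrix n κ ℂ} {θ : κ → ℝ} {U' : Matrix m κ' ℂ}
    {V' : Matrix n κ' ℂ} {θ' : κ' → ℝ} (hU : Uᴴ * U = 1) (hV : Vᴴ * V = 1)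
    (hU' : U'ᴴ * U' = 1) (hV' : V'ᴴ * V' = 1) (hθ : ∀ j, 0 < θ j) (hθ' : ∀ j, 0 < θ' j)
    (hs : ∑ j, θ j ^ 2 ≤ 1) (hs' : ∑ j, θ' j ^ 2 ≤ 1) (E₁₁ E₂₂ E₁₂ : Matrix m m ℂ)
    (h22 : E₂₂.IsHermitian) :
    colW a y y' φ ψ χ U V θ U' V' θ' E₁₁ E₂₂ E₁₂ ≤
      (kd a (fun ν => y - φ ν) (fun ν => y - φ ν) 1 1 + kd a χ χ 1 1 +
        kd a (fun ν => y' - ψ ν) (fun ν => y' - ψ ν) 1 1 + 2 * k) +
      (kn a φ φ 1 1 * pr U θ E₁₁ + kn a χ χ 1 1 * pr U θ E₂₂ +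
        kn a ψ ψ 1 1 / 2 * (fr E₂₂ / e + e)) +
      2 * (kn a φ ψ 1 1 * nf E₁₂ - kn a φ χ 1 1 * pr U θ E₁₂) := by
  have h3 := bad_22 h0 h1 he hk hE hle hge hnn hU hV hU' hV' hθ hθ' hs hs' E₂₂ h22
  obtain ⟨M, P, hM, hP, hMP, hb⟩ := hII
  have h4 : cx (kn a φ ψ) U V θ U' V' θ' E₁₂ ≤ kn a φ ψ 1 1 * nf E₁₂ := by
    rw [← hMP]
    exact cross_bound U V U' V' hU hV hU' hV' θ θ' hθ hθ' hs hs' (kn a φ ψ) M P hM hP hb E₁₂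
  have h5 : (∑ j, θ j ^ 2) * (kd a (fun ν => y - φ ν) (fun ν => y - φ ν) 1 1 + kd a χ χ 1 1) ≤
      kd a (fun ν => y - φ ν) (fun ν => y - φ ν) 1 1 + kd a χ χ 1 1 :=
    mul_le_of_le_one_left (add_nonneg (kd_self_nonneg a _) (kd_self_nonneg a _)) hs
  have h6 : (∑ l, θ' l ^ 2) * kd a (fun ν => y' - ψ ν) (fun ν => y' - ψ ν) 1 1 ≤
      kd a (fun ν => y' - ψ ν) (fun ν => y' - ψ ν) 1 1 :=
    mul_le_of_le_one_left (kd_self_nonneg a _) hs'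
  unfold colW
  linarith

end ops

end Pool.Agent.LibSchE
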