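import Pool.Agent.LibSchA.A2
import Pool.Agent.LibSchA.A6b
import Pool.Agent.LibSchA.A7

/-! **E-gauge, good column.**  The cross term of a good column is bounded by springs: the kernel is
`C₀ K_S - (C₁/2)(K₁₂ + K₂₁) + (P + Q) y A(x, y)`, the first two terms are a positive definite kernel
(for every `λ`), `0 ≤ A ≤ A(1,1)` is norm-only. -/

open MeasureTheory Set Matrix
open scoped ComplexOrder

namespace Pool.Agent.LibSchE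

open Pool.Agent.LibSchP Pool.Agent.LibSchA

/-- uniqueness of the value -/
theorem itg_unique {f : ℝ → ℝ} {v w : ℝ} (hf : Itg f v) (hg : Itg f w) : v = w := by
  rw [← hf.2, ← hg.2]

/-- the base integral -/
theorem g_base (a A B : ℝ) (h0 : 0 < a) (h1 : 2 * a < 1) (hA : 0 < A) (hB : 0 < B) :
    Itg (fun r => r ^ (2 * a) * (1 / ((A + r) * (B + r)))) (cst (2 * a) * dd (2 * a) A B) := by
  have hI : Itg (fun r : ℝ => r ^ (2 * a) / ((A + r) * (B + r))) (cst (2 * a) * dd (2 * a) A B) :=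
    int_dd (2 * a) A B (by linarith) h1 hA hB
  refine hI.congr fun r _ => ?_
  rw [mul_one_div]

/-- `K_{ef}(x,y) = (xy)^(1-a) dd(ex, fy)` -/
noncomputable def kk (a e f x y : ℝ) : ℝ := (x * y) ^ (1 - a) * dd (2 * a) (e * x) (f * y)

theorem g_kk (a e f x y : ℝ) (h0 : 0 < a) (h1 : 2 * a < 1) (he : 0 < e) (hf : 0 < f) (hx : 0 < x)
    (hy : 0 < y) : Itg (fun r => r ^ (2 * a) * ((x * y) ^ (1 - a) / ((e * x + r) * (f * y + r))))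
      (cst (2 * a) * kk a e f x y) := by
  have h := (g_base a (e * x) (f * y) h0 h1 (by positivity) (by positivity)).const_mul
    ((x * y) ^ (1 - a))
  have hv : (x * y) ^ (1 - a) * (cst (2 * a) * dd (2 * a) (e * x) (f * y)) =
      cst (2 * a) * kk a e f x y := by
    unfold kk
    ring
  rw [hv] at h
  refine h.congr fun r _ => ?_
  ring

theorem kk_diag (a e f x : ℝ) (he : 0 < e) (hf : 0 < f) (hx : 0 < x) :
    kk a e f x x = x * kk a e f 1 1 := by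
  unfold kk
  have e1 : e * x = x * e := mul_comm _ _
  have e2 : f * x = x * f := mul_comm _ _
  rw [e1, e2, dd_smul (2 * a) x e f hx he hf, mul_one, mul_one, mul_one, Real.one_rpow, one_mul,
    ← mul_assoc, Real.mul_rpow hx.le hx.le, ← Real.rpow_add hx, ← Real.rpow_add hx]
  have : 1 - a + (1 - a) + (2 * a - 1) = 1 := by ring
  rw [this, Real.rpow_one]

theorem kk_same (a e x y : ℝ) (he : 0 < e) (hx : 0 < x) (hy : 0 < y) :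
    kk a e e x y = e ^ (2 * a - 1) * kk a 1 1 x y := by
  unfold kk
  rw [dd_smul (2 * a) e x y he hx hy, one_mul, one_mul]
  ring

/-- the kernel `A` (homogeneous of degree `0`) -/
noncomputable def AA (a e₁ e₂ x y : ℝ) : ℝ :=
  ((e₁ + e₂) * (kk a e₁ e₂ x y + kk a e₂ e₁ x y) - 2 * e₁ * kk a e₁ e₁ x y
    - 2 * e₂ * kk a e₂ e₂ x y) / ((e₁ - e₂) * (x + y))

theorem AA_itg (a e₁ e₂ x y : ℝ) (h0 : 0 < a) (h1 : 2 * a < 1) (he₂ : 0 < e₂) (he : e₂ < e₁)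
    (hx : 0 < x) (hy : 0 < y) :
    Itg (fun r => r ^ (2 * a) * ((x * y) ^ (1 - a) * ((e₁ - e₂) * r) /
      ((e₁ * x + r) * (e₂ * x + r) * ((e₁ * y + r) * (e₂ * y + r)))))
      (cst (2 * a) * AA a e₁ e₂ x y) := by
  have he₁ : 0 < e₁ := he₂.trans he
  have hd : 0 < e₁ - e₂ := sub_pos.mpr he
  have i12 := (g_kk a e₁ e₂ x y h0 h1 he₁ he₂ hx hy).const_mul ((e₁ + e₂) / ((e₁ - e₂) * (x + y)))
  have i21 := (g_kk a e₂ e₁ x y h0 h1 he₂ he₁ hx hy).const_mul ((e₁ + e₂) / ((e₁ - e₂) * (x + y)))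
  have i11 := (g_kk a e₁ e₁ x y h0 h1 he₁ he₁ hx hy).const_mul (-(2 * e₁) / ((e₁ - e₂) * (x + y)))
  have i22 := (g_kk a e₂ e₂ x y h0 h1 he₂ he₂ hx hy).const_mul (-(2 * e₂) / ((e₁ - e₂) * (x + y)))
  have i := (i12.add i21).add (i11.add i22)
  have hv : (e₁ + e₂) / ((e₁ - e₂) * (x + y)) * (cst (2 * a) * kk a e₁ e₂ x y) +
      (e₁ + e₂) / ((e₁ - e₂) * (x + y)) * (cst (2 * a) * kk a e₂ e₁ x y) +
      (-(2 * e₁) / ((e₁ - e₂) * (x + y)) * (cst (2 * a) * kk a e₁ e₁ x y) +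
      -(2 * e₂) / ((e₁ - e₂) * (x + y)) * (cst (2 * a) * kk a e₂ e₂ x y)) =
      cst (2 * a) * AA a e₁ e₂ x y := by
    unfold AA
    ring
  rw [hv] at i
  refine i.congr fun r hr => ?_
  have f1 : e₁ * x + r ≠ 0 := by positivity
  have f2 : e₂ * x + r ≠ 0 := by positivity
  have f3 : e₁ * y + r ≠ 0 := by positivity
  have f4 : e₂ * y + r ≠ 0 := by positivity
  have f5 : x + y ≠ 0 := by positivity
  have f6 : e₁ - e₂ ≠ 0 := hd.ne'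
  field_simp
  ring

theorem AA_diff (a e₁ e₂ x y : ℝ) (h0 : 0 < a) (h1 : 2 * a < 1) (he₂ : 0 < e₂) (he : e₂ < e₁)
    (hx : 0 < x) (hy : 0 < y) :
    kk a e₁ e₂ x y - kk a e₂ e₁ x y = (y - x) * AA a e₁ e₂ x y := by
  have he₁ : 0 < e₁ := he₂.trans he
  have hc := cst_pos (2 * a) (by linarith) h1
  have i1 := (g_kk a e₁ e₂ x y h0 h1 he₁ he₂ hx hy).add
    ((g_kk a e₂ e₁ x y h0 h1 he₂ he₁ hx hy).const_mul (-1))
  have i2 := (AA_itg a e₁ e₂ x y h0 h1 he₂ he hx hy).const_mul (y - x)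
  have h := itg_unique i1 (i2.congr fun r hr => by
    have f1 : e₁ * x + r ≠ 0 := by positivity
    have f2 : e₂ * x + r ≠ 0 := by positivity
    have f3 : e₁ * y + r ≠ 0 := by positivity
    have f4 : e₂ * y + r ≠ 0 := by positivity
    field_simp
    ring)
  have h2 : cst (2 * a) * (kk a e₁ e₂ x y - kk a e₂ e₁ x y) =
      cst (2 * a) * ((y - x) * AA a e₁ e₂ x y) := by linarith
  exact mul_left_cancel₀ hc.ne' h2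

theorem AA_diag (a e₁ e₂ x : ℝ) (he₂ : 0 < e₂) (he : e₂ < e₁) (hx : 0 < x) :
    AA a e₁ e₂ x x = AA a e₁ e₂ 1 1 := by
  have he₁ : 0 < e₁ := he₂.trans he
  have hd : e₁ - e₂ ≠ 0 := (sub_pos.mpr he).ne'
  unfold AA
  rw [kk_diag a e₁ e₂ x he₁ he₂ hx, kk_diag a e₂ e₁ x he₂ he₁ hx, kk_diag a e₁ e₁ x he₁ he₁ hx,
    kk_diag a e₂ e₂ x he₂ he₂ hx]
  have hx' : x + x ≠ 0 := by positivity
  field_simp

theorem AA_nonneg (a e₁ e₂ x y : ℝ) (h0 : 0 < a) (h1 : 2 * a < 1) (he₂ : 0 < e₂) (he : e₂ < e₁)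
    (hx : 0 < x) (hy : 0 < y) : 0 ≤ AA a e₁ e₂ x y := by
  have he₁ : 0 < e₁ := he₂.trans he
  have hd : 0 < e₁ - e₂ := sub_pos.mpr he
  have hc := cst_pos (2 * a) (by linarith) h1
  have h := (AA_itg a e₁ e₂ x y h0 h1 he₂ he hx hy).nonneg fun r hr => by positivity
  exact nonneg_of_mul_nonneg_right h hc

theorem AA_le (a e₁ e₂ x y : ℝ) (h0 : 0 < a) (h1 : 2 * a < 1) (he₂ : 0 < e₂) (he : e₂ < e₁)
    (hx : 0 < x) (hy : 0 < y) : AA a e₁ e₂ x y ≤ AA a e₁ e₂ 1 1 := by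
  have he₁ : 0 < e₁ := he₂.trans he
  have hd : 0 < e₁ - e₂ := sub_pos.mpr he
  have hc := cst_pos (2 * a) (by linarith) h1
  have ix := AA_itg a e₁ e₂ x x h0 h1 he₂ he hx hx
  have iy := AA_itg a e₁ e₂ y y h0 h1 he₂ he hy hy
  have i := (ix.const_mul (1 / 2)).add (iy.const_mul (1 / 2))
  have h := (AA_itg a e₁ e₂ x y h0 h1 he₂ he hx hy).mono i (by
    intro r hr
    have f1 : 0 < e₁ * x + r := by positivity
    have f2 : 0 < e₂ * x + r := by positivity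
    have f3 : 0 < e₁ * y + r := by positivity
    have f4 : 0 < e₂ * y + r := by positivity
    obtain ⟨u, hu⟩ : ∃ u, u = x ^ (1 - a) / ((e₁ * x + r) * (e₂ * x + r)) := ⟨_, rfl⟩
    obtain ⟨v, hv⟩ : ∃ v, v = y ^ (1 - a) / ((e₁ * y + r) * (e₂ * y + r)) := ⟨_, rfl⟩
    have g1 : (x * y) ^ (1 - a) * ((e₁ - e₂) * r) /
        ((e₁ * x + r) * (e₂ * x + r) * ((e₁ * y + r) * (e₂ * y + r))) = (e₁ - e₂) * r * (u * v) := by
      rw [hu, hv, Real.mul_rpow hx.le hy.le]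
      field_simp
    have g2 : (x * x) ^ (1 - a) * ((e₁ - e₂) * r) /
        ((e₁ * x + r) * (e₂ * x + r) * ((e₁ * x + r) * (e₂ * x + r))) = (e₁ - e₂) * r * (u * u) := by
      rw [hu, Real.mul_rpow hx.le hx.le]
      field_simp
    have g3 : (y * y) ^ (1 - a) * ((e₁ - e₂) * r) /
        ((e₁ * y + r) * (e₂ * y + r) * ((e₁ * y + r) * (e₂ * y + r))) = (e₁ - e₂) * r * (v * v) := by
      rw [hv, Real.mul_rpow hy.le hy.le]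
      field_simp
    rw [g1, g2, g3]
    have k : 0 ≤ r ^ (2 * a) * ((e₁ - e₂) * r) := by positivity
    nlinarith [mul_nonneg k (sq_nonneg (u - v))])
  rw [AA_diag a e₁ e₂ x he₂ he hx, AA_diag a e₁ e₂ y he₂ he hy] at h
  have h2 : cst (2 * a) * AA a e₁ e₂ x y ≤ cst (2 * a) * AA a e₁ e₂ 1 1 := by linarith
  exact le_of_mul_le_mul_left h2 hc

/-! ### Positive definite kernels -/

section pd

variable {m n κ κ' : Type} [Fintype m] [Fintype n] [Fintype κ] [Fintype κ']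
  [DecidableEq κ] [DecidableEq κ']

/-- the basic inequality `2 Re tr XᴴhX' ≤ tr XᴴhX + tr X'ᴴhX'` -/
theorem pd_point (U : Matrix m κ ℂ) (V : Matrix n κ ℂ) (U' : Matrix m κ' ℂ) (V' : Matrix n κ' ℂ)
    (hV : Vᴴ * V = 1) (hV' : V'ᴴ * V' = 1) (g : κ → ℝ) (g' : κ' → ℝ) (h : Matrix m m ℂ)
    (hh : h.PosSemidef) :
    2 * ∑ j, ∑ l, g j * g' l * ((Uᴴ * h * U') j l * (V'ᴴ * V) l j).re ≤
      ∑ j, g j ^ 2 * ((Uᴴ * h * U) j j).re + ∑ l, g' l ^ 2 * ((U'ᴴ * h * U') l l).re := by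
  rw [← trace_usv_cross U V U' V' g g' h, ← trace_usv_diag U V hV g h,
    ← trace_usv_diag U' V' hV' g' h]
  set X := U * dg g * Vᴴ with hX
  set Y := U' * dg g' * V'ᴴ with hY
  have h1 : 0 ≤ (trace ((X - Y)ᴴ * h * (X - Y))).re := by
    have h2 := (hh.conjTranspose_mul_mul_same (X - Y)).trace_nonneg
    exact (Complex.le_def.mp h2).1
  have h3 : (X - Y)ᴴ * h * (X - Y) = Xᴴ * h * X + Yᴴ * h * Y - Xᴴ * h * Y - Yᴴ * h * X := by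
    rw [conjTranspose_sub]
    simp only [Matrix.sub_mul, Matrix.mul_sub]
    abel
  have h4 : (trace (Yᴴ * h * X)).re = (trace (Xᴴ * h * Y)).re := by
    have h5 : (Yᴴ * h * X)ᴴ = Xᴴ * h * Y := by
      have g1 := conjTranspose_mul (Yᴴ * h) X
      have g2 := conjTranspose_mul Yᴴ h
      rw [g1, g2, conjTranspose_conjTranspose, hh.isHermitian.eq, Matrix.mul_assoc]
    rw [← h5, trace_conjTranspose, Complex.star_def, Complex.conj_re]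
  rw [h3, trace_sub, trace_sub, trace_add, Complex.sub_re, Complex.sub_re, Complex.add_re, h4] at h1
  linarith

/-- the same for a kernel `k(x,y) = ∫ w_r(x) w_r(y) dr` -/
theorem pd_kernel (U : Matrix m κ ℂ) (V : Matrix n κ ℂ) (U' : Matrix m κ' ℂ) (V' : Matrix n κ' ℂ)
    (hV : Vᴴ * V = 1) (hV' : V'ᴴ * V' = 1) (θ : κ → ℝ) (θ' : κ' → ℝ) (hθ : ∀ j, 0 < θ j)
    (hθ' : ∀ l, 0 < θ' l) (h : Matrix m m ℂ) (hh : h.PosSemidef) (w : ℝ → ℝ → ℝ) (C : ℝ)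
    (hC : 0 < C) (k : ℝ → ℝ → ℝ)
    (hk : ∀ x y, 0 < x → 0 < y → Itg (fun r => w r x * w r y) (C * k x y))
    (hd : ∀ x, 0 < x → k x x = x * k 1 1) :
    2 * ∑ j, ∑ l, k (θ j) (θ' l) * ((Uᴴ * h * U') j l * (V'ᴴ * V) l j).re ≤
      k 1 1 * (∑ j, θ j * ((Uᴴ * h * U) j j).re + ∑ l, θ' l * ((U'ᴴ * h * U') l l).re) := by
  have iL : Itg (fun r => 2 * ∑ j, ∑ l, ((Uᴴ * h * U') j l * (V'ᴴ * V) l j).re *
      (w r (θ j) * w r (θ' l))) (2 * ∑ j, ∑ l, ((Uᴴ * h * U') j l * (V'ᴴ * V) l j).re *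
      (C * k (θ j) (θ' l))) :=
    (Itg.sum _ fun j _ => Itg.sum _ fun l _ => (hk _ _ (hθ j) (hθ' l)).const_mul _).const_mul 2
  have iR : Itg (fun r => ∑ j, ((Uᴴ * h * U) j j).re * (w r (θ j) * w r (θ j)) +
      ∑ l, ((U'ᴴ * h * U') l l).re * (w r (θ' l) * w r (θ' l)))
      (∑ j, ((Uᴴ * h * U) j j).re * (C * k (θ j) (θ j)) +
      ∑ l, ((U'ᴴ * h * U') l l).re * (C * k (θ' l) (θ' l))) :=
    (Itg.sum _ fun j _ => (hk _ _ (hθ j) (hθ j)).const_mul _).add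
      (Itg.sum _ fun l _ => (hk _ _ (hθ' l) (hθ' l)).const_mul _)
  have h1 := iL.mono iR fun r _ => by
    have h2 := pd_point U V U' V' hV hV' (fun j => w r (θ j)) (fun l => w r (θ' l)) h hh
    refine le_trans (le_of_eq ?_) (h2.trans (le_of_eq ?_))
    · congr 1
      exact Finset.sum_congr rfl fun j _ => Finset.sum_congr rfl fun l _ => by ring
    · exact congrArg₂ _ (Finset.sum_congr rfl fun j _ => by ring)
        (Finset.sum_congr rfl fun l _ => by ring)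
  have e1 : 2 * ∑ j, ∑ l, ((Uᴴ * h * U') j l * (V'ᴴ * V) l j).re * (C * k (θ j) (θ' l)) =
      C * (2 * ∑ j, ∑ l, k (θ j) (θ' l) * ((Uᴴ * h * U') j l * (V'ᴴ * V) l j).re) := by
    simp only [Finset.mul_sum]
    exact Finset.sum_congr rfl fun j _ => Finset.sum_congr rfl fun l _ => by ring
  have e2 : ∑ j, ((Uᴴ * h * U) j j).re * (C * k (θ j) (θ j)) +
      ∑ l, ((U'ᴴ * h * U') l l).re * (C * k (θ' l) (θ' l)) =
      C * (k 1 1 * (∑ j, θ j * ((Uᴴ * h * U) j j).re + ∑ l, θ' l * ((U'ᴴ * h * U') l l).re)) := by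
    rw [mul_add, mul_add, Finset.mul_sum, Finset.mul_sum, Finset.mul_sum, Finset.mul_sum]
    refine congrArg₂ _ (Finset.sum_congr rfl fun j _ => ?_) (Finset.sum_congr rfl fun l _ => ?_)
    · rw [hd _ (hθ j)]
      ring
    · rw [hd _ (hθ' l)]
      ring
  rw [e1, e2] at h1
  exact le_of_mul_le_mul_left h1 hC

end pd

/-! ### The kernel `K_S` and the kernel of the difference -/

theorem ks_itg (a x y : ℝ) (h0 : 0 < a) (h1 : 2 * a < 1) (hx : 0 < x) (hy : 0 < y) :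
    Itg (fun r => (r ^ a * (x ^ (1 - a) / (x + r))) * (r ^ a * (y ^ (1 - a) / (y + r))))
      (cst (2 * a) * kk a 1 1 x y) := by
  refine (g_kk a 1 1 x y h0 h1 one_pos one_pos hx hy).congr fun r hr => ?_
  have e : r ^ (2 * a) = r ^ a * r ^ a := by
    rw [← Real.rpow_add hr]
    congr 1
    ring
  rw [e, Real.mul_rpow hx.le hy.le, one_mul, one_mul]
  have f1 : x + r ≠ 0 := by positivity
  have f2 : y + r ≠ 0 := by positivity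
  field_simp

/-- `2 K_S - (e₁e₂)^(1/2-a) (K₁₂ + K₂₁)` -/
noncomputable def kp (a e₁ e₂ x y : ℝ) : ℝ :=
  2 * kk a 1 1 x y - (e₁ * e₂) ^ (1 / 2 - a) * (kk a e₁ e₂ x y + kk a e₂ e₁ x y)

theorem kp_itg (a e₁ e₂ x y : ℝ) (h0 : 0 < a) (h1 : 2 * a < 1) (he₁ : 0 < e₁) (he₂ : 0 < e₂)
    (hx : 0 < x) (hy : 0 < y) :
    Itg (fun r => (r ^ a * x ^ (1 - a) * (e₁ ^ (1 / 2 - a) / (e₁ * x + r) -
        e₂ ^ (1 / 2 - a) / (e₂ * x + r))) *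
      (r ^ a * y ^ (1 - a) * (e₁ ^ (1 / 2 - a) / (e₁ * y + r) -
        e₂ ^ (1 / 2 - a) / (e₂ * y + r))))
      (cst (2 * a) * kp a e₁ e₂ x y) := by
  have i11 := (g_kk a e₁ e₁ x y h0 h1 he₁ he₁ hx hy).const_mul (e₁ ^ (1 / 2 - a) * e₁ ^ (1 / 2 - a))
  have i22 := (g_kk a e₂ e₂ x y h0 h1 he₂ he₂ hx hy).const_mul (e₂ ^ (1 / 2 - a) * e₂ ^ (1 / 2 - a))
  have i12 := (g_kk a e₁ e₂ x y h0 h1 he₁ he₂ hx hy).const_mul (-((e₁ * e₂) ^ (1 / 2 - a)))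
  have i21 := (g_kk a e₂ e₁ x y h0 h1 he₂ he₁ hx hy).const_mul (-((e₁ * e₂) ^ (1 / 2 - a)))
  have i := (i11.add i22).add (i12.add i21)
  have q1 : ∀ e : ℝ, 0 < e → e ^ (1 / 2 - a) * e ^ (1 / 2 - a) * e ^ (2 * a - 1) = 1 := by
    intro e he
    rw [← Real.rpow_add he, ← Real.rpow_add he]
    have : (1 / 2 - a + (1 / 2 - a) + (2 * a - 1)) = 0 := by ring
    rw [this, Real.rpow_zero]
  have hv : e₁ ^ (1 / 2 - a) * e₁ ^ (1 / 2 - a) * (cst (2 * a) * kk a e₁ e₁ x y) +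
      e₂ ^ (1 / 2 - a) * e₂ ^ (1 / 2 - a) * (cst (2 * a) * kk a e₂ e₂ x y) +
      (-((e₁ * e₂) ^ (1 / 2 - a)) * (cst (2 * a) * kk a e₁ e₂ x y) +
      -((e₁ * e₂) ^ (1 / 2 - a)) * (cst (2 * a) * kk a e₂ e₁ x y)) =
      cst (2 * a) * kp a e₁ e₂ x y := by
    rw [kk_same a e₁ x y he₁ hx hy, kk_same a e₂ x y he₂ hx hy]
    unfold kp
    linear_combination (cst (2 * a) * kk a 1 1 x y) * q1 e₁ he₁ +
      (cst (2 * a) * kk a 1 1 x y) * q1 e₂ he₂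
  rw [hv] at i
  refine i.congr fun r hr => ?_
  have e : r ^ (2 * a) = r ^ a * r ^ a := by
    rw [← Real.rpow_add hr]
    congr 1
    ring
  rw [e, Real.mul_rpow hx.le hy.le, Real.mul_rpow he₁.le he₂.le]
  have f1 : e₁ * x + r ≠ 0 := by positivity
  have f2 : e₂ * x + r ≠ 0 := by positivity
  have f3 : e₁ * y + r ≠ 0 := by positivity
  have f4 : e₂ * y + r ≠ 0 := by positivity
  field_simp
  ring

theorem kp_diag (a e₁ e₂ x : ℝ) (he₁ : 0 < e₁) (he₂ : 0 < e₂) (hx : 0 < x) :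
    kp a e₁ e₂ x x = x * kp a e₁ e₂ 1 1 := by
  unfold kp
  rw [kk_diag a 1 1 x one_pos one_pos hx, kk_diag a e₁ e₂ x he₁ he₂ hx,
    kk_diag a e₂ e₁ x he₂ he₁ hx]
  ring

/-- the coefficients of the even part -/
noncomputable def C0 (a e₁ e₂ p₁ p₂ q₁ q₂ : ℝ) : ℝ :=
  p₁ * q₁ * e₁ ^ (2 * a - 1) + p₂ * q₂ * e₂ ^ (2 * a - 1) +
    (p₁ * q₂ - p₂ * q₁) * ((e₁ ^ (2 * a) + e₂ ^ (2 * a)) / (e₁ - e₂))

noncomputable def C1 (e₁ e₂ p₁ p₂ q₁ q₂ : ℝ) : ℝ :=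
  2 * (p₁ * q₂ * e₂ - p₂ * q₁ * e₁) / (e₁ - e₂)

/-- the decomposition of the kernel -/
theorem ker_split (a e₁ e₂ p₁ p₂ q₁ q₂ x y : ℝ) (h0 : 0 < a) (h1 : 2 * a < 1) (he₂ : 0 < e₂)
    (he : e₂ < e₁) (hx : 0 < x) (hy : 0 < y) :
    ker a e₁ e₂ p₁ p₂ q₁ q₂ x y =
      (C0 a e₁ e₂ p₁ p₂ q₁ q₂ - C1 e₁ e₂ p₁ p₂ q₁ q₂ * (e₁ * e₂) ^ (a - 1 / 2)) * kk a 1 1 x y +
      C1 e₁ e₂ p₁ p₂ q₁ q₂ * (e₁ * e₂) ^ (a - 1 / 2) / 2 * kp a e₁ e₂ x y +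
      (p₁ * q₂ - p₂ * q₁) * (y * AA a e₁ e₂ x y) := by
  have he₁ : 0 < e₁ := he₂.trans he
  have hd : e₁ - e₂ ≠ 0 := (sub_pos.mpr he).ne'
  have hxy : x + y ≠ 0 := by positivity
  have hA := AA_diff a e₁ e₂ x y h0 h1 he₂ he hx hy
  have hS : (x + y) * AA a e₁ e₂ x y = ((e₁ + e₂) * (kk a e₁ e₂ x y + kk a e₂ e₁ x y)
      - 2 * (e₁ ^ (2 * a) + e₂ ^ (2 * a)) * kk a 1 1 x y) / (e₁ - e₂) := by
    have g1 : e₁ * e₁ ^ (2 * a - 1) = e₁ ^ (2 * a) := by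
      rw [mul_comm, ← Real.rpow_add_one he₁.ne']
      congr 1
      ring
    have g2 : e₂ * e₂ ^ (2 * a - 1) = e₂ ^ (2 * a) := by
      rw [mul_comm, ← Real.rpow_add_one he₂.ne']
      congr 1
      ring
    unfold AA
    rw [kk_same a e₁ x y he₁ hx hy, kk_same a e₂ x y he₂ hx hy]
    rw [← g1, ← g2]
    field_simp
    ring
  have hg : (e₁ * e₂) ^ (a - 1 / 2) * (e₁ * e₂) ^ (1 / 2 - a) = 1 := by
    rw [← Real.rpow_add (mul_pos he₁ he₂)]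
    have : a - 1 / 2 + (1 / 2 - a) = 0 := by ring
    rw [this, Real.rpow_zero]
  have hk : ker a e₁ e₂ p₁ p₂ q₁ q₂ x y = (p₁ * q₁ * e₁ ^ (2 * a - 1) +
      p₂ * q₂ * e₂ ^ (2 * a - 1)) * kk a 1 1 x y + p₁ * q₂ * kk a e₁ e₂ x y +
      p₂ * q₁ * kk a e₂ e₁ x y := by
    have k1 := kk_same a e₁ x y he₁ hx hy
    have k2 := kk_same a e₂ x y he₂ hx hy
    have k3 : ker a e₁ e₂ p₁ p₂ q₁ q₂ x y = p₁ * q₁ * kk a e₁ e₁ x y + p₁ * q₂ * kk a e₁ e₂ x y +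
      p₂ * q₁ * kk a e₂ e₁ x y + p₂ * q₂ * kk a e₂ e₂ x y := by
      unfold ker kk
      ring
    rw [k3, k1, k2]
    ring
  have hy2 : y * AA a e₁ e₂ x y = ((x + y) * AA a e₁ e₂ x y + (y - x) * AA a e₁ e₂ x y) / 2 := by
    ring
  rw [hk, hy2, hS, ← hA]
  unfold kp C0 C1
  have e5 : (e₁ * e₂) ^ (a - 1 / 2) / 2 * ((e₁ * e₂) ^ (1 / 2 - a) *
      (kk a e₁ e₂ x y + kk a e₂ e₁ x y)) = (kk a e₁ e₂ x y + kk a e₂ e₁ x y) / 2 := by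
    linear_combination (kk a e₁ e₂ x y + kk a e₂ e₁ x y) / 2 * hg
  set C := 2 * (p₁ * q₂ * e₂ - p₂ * q₁ * e₁) / (e₁ - e₂) with hC
  have hCd : C * (e₁ - e₂) = 2 * (p₁ * q₂ * e₂ - p₂ * q₁ * e₁) := by
    rw [hC]
    field_simp
  have e6 : C * (e₁ * e₂) ^ (a - 1 / 2) / 2 * (2 * kk a 1 1 x y - (e₁ * e₂) ^ (1 / 2 - a) *
      (kk a e₁ e₂ x y + kk a e₂ e₁ x y)) = C * (e₁ * e₂) ^ (a - 1 / 2) * kk a 1 1 x y -
      C * ((kk a e₁ e₂ x y + kk a e₂ e₁ x y) / 2) := by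
    linear_combination (-C) * e5
  rw [e6]
  set S := kk a e₁ e₂ x y + kk a e₂ e₁ x y with hSd
  have e7 : (kk a e₁ e₂ x y - kk a e₂ e₁ x y) = 2 * kk a e₁ e₂ x y - S := by rw [hSd]; ring
  have e8 : kk a e₂ e₁ x y = S - kk a e₁ e₂ x y := by rw [hSd]; ring
  rw [e7, e8]
  have e9 : (p₁ * q₂ - p₂ * q₁) * ((((e₁ + e₂) * S -
      2 * (e₁ ^ (2 * a) + e₂ ^ (2 * a)) * kk a 1 1 x y) / (e₁ - e₂) +
      (2 * kk a e₁ e₂ x y - S)) / 2) = (p₁ * q₂ - p₂ * q₁) * ((e₁ + e₂) * S / (e₁ - e₂)) / 2 -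
      (p₁ * q₂ - p₂ * q₁) * ((e₁ ^ (2 * a) + e₂ ^ (2 * a)) / (e₁ - e₂)) * kk a 1 1 x y +
      (p₁ * q₂ - p₂ * q₁) * (2 * kk a e₁ e₂ x y - S) / 2 := by
    field_simp
  rw [e9]
  have e10 : C * (S / 2) = (p₁ * q₂ * e₂ - p₂ * q₁ * e₁) / (e₁ - e₂) * S := by
    rw [hC]
    field_simp
  rw [e10]
  have e11 : (p₁ * q₂ - p₂ * q₁) * ((e₁ + e₂) * S / (e₁ - e₂)) / 2 -
      (p₁ * q₂ * e₂ - p₂ * q₁ * e₁) / (e₁ - e₂) * S = (p₁ * q₂ + p₂ * q₁) * S / 2 := by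
    field_simp
    ring
  linear_combination (-1) * e11

/-- the spring constant of a good column -/
noncomputable def spr (a e₁ e₂ p₁ p₂ q₁ q₂ : ℝ) : ℝ :=
  ker a e₁ e₂ p₁ p₂ q₁ q₂ 1 1 - (p₁ * q₂ - p₂ * q₁) * AA a e₁ e₂ 1 1

theorem spr_eq (a e₁ e₂ p₁ p₂ q₁ q₂ : ℝ) (h0 : 0 < a) (h1 : 2 * a < 1) (he₂ : 0 < e₂)
    (he : e₂ < e₁) : spr a e₁ e₂ p₁ p₂ q₁ q₂ =
      (C0 a e₁ e₂ p₁ p₂ q₁ q₂ - C1 e₁ e₂ p₁ p₂ q₁ q₂ * (e₁ * e₂) ^ (a - 1 / 2)) * kk a 1 1 1 1 +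
      C1 e₁ e₂ p₁ p₂ q₁ q₂ * (e₁ * e₂) ^ (a - 1 / 2) / 2 * kp a e₁ e₂ 1 1 := by
  unfold spr
  rw [ker_split a e₁ e₂ p₁ p₂ q₁ q₂ 1 1 h0 h1 he₂ he one_pos one_pos]
  ring

section good

variable {m n κ κ' : Type} [Fintype m] [Fintype n] [Fintype κ] [Fintype κ']
  [DecidableEq κ] [DecidableEq κ']

/-- **Good column.** -/
theorem good_col (a e₁ e₂ p₁ p₂ q₁ q₂ : ℝ) (h0 : 0 < a) (h1 : 2 * a < 1) (he₂ : 0 < e₂)
    (he : e₂ < e₁) (h12 : 0 ≤ p₁ * q₂) (h21 : p₂ * q₁ ≤ 0)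
    (hPD : C1 e₁ e₂ p₁ p₂ q₁ q₂ * (e₁ * e₂) ^ (a - 1 / 2) ≤ C0 a e₁ e₂ p₁ p₂ q₁ q₂)
    (U : Matrix m κ ℂ) (V : Matrix n κ ℂ) (U' : Matrix m κ' ℂ) (V' : Matrix n κ' ℂ)
    (hU : Uᴴ * U = 1) (hV : Vᴴ * V = 1) (hU' : U'ᴴ * U' = 1) (hV' : V'ᴴ * V' = 1)
    (θ : κ → ℝ) (θ' : κ' → ℝ) (hθ : ∀ j, 0 < θ j) (hθ' : ∀ l, 0 < θ' l)
    (hs : ∑ j, θ j ^ 2 ≤ 1) (hs' : ∑ j, θ' j ^ 2 ≤ 1) (h : Matrix m m ℂ) (hh : h.PosSemidef) :
    2 * ∑ j, ∑ l, ker a e₁ e₂ p₁ p₂ q₁ q₂ (θ j) (θ' l) *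
        ((Uᴴ * h * U') j l * (V'ᴴ * V) l j).re ≤
      spr a e₁ e₂ p₁ p₂ q₁ q₂ * (∑ j, θ j * ((Uᴴ * h * U) j j).re +
        ∑ l, θ' l * ((U'ᴴ * h * U') l l).re) +
      2 * ((ker a e₁ e₂ p₁ p₂ q₁ q₂ 1 1 - spr a e₁ e₂ p₁ p₂ q₁ q₂) * nf h) := by
  have he₁ : 0 < e₁ := he₂.trans he
  have hc := cst_pos (2 * a) (by linarith) h1
  have hd : 0 < e₁ - e₂ := sub_pos.mpr he
  set c := C0 a e₁ e₂ p₁ p₂ q₁ q₂ - C1 e₁ e₂ p₁ p₂ q₁ q₂ * (e₁ * e₂) ^ (a - 1 / 2) with hcdef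
  set C := C1 e₁ e₂ p₁ p₂ q₁ q₂ * (e₁ * e₂) ^ (a - 1 / 2) / 2 with hCdef
  have hc0 : 0 ≤ c := sub_nonneg.mpr hPD
  have hC0 : 0 ≤ C := by
    rw [hCdef]
    have : 0 ≤ C1 e₁ e₂ p₁ p₂ q₁ q₂ := by
      unfold C1
      apply div_nonneg _ hd.le
      have := mul_nonneg h12 he₂.le
      have := mul_nonneg_of_nonpos_of_nonpos h21 (neg_nonpos.mpr he₁.le)
      linarith
    have h3 : 0 ≤ (e₁ * e₂) ^ (a - 1 / 2) := Real.rpow_nonneg (mul_pos he₁ he₂).le _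
    positivity
  have hD0 : 0 ≤ p₁ * q₂ - p₂ * q₁ := by linarith
  have k1 := pd_kernel U V U' V' hV hV' θ θ' hθ hθ' h hh (fun r x => r ^ a * (x ^ (1 - a) / (x + r)))
    (cst (2 * a)) hc (kk a 1 1) (fun x y hx hy => ks_itg a x y h0 h1 hx hy)
    (fun x hx => kk_diag a 1 1 x one_pos one_pos hx)
  have k2 := pd_kernel U V U' V' hV hV' θ θ' hθ hθ' h hh
    (fun r x => r ^ a * x ^ (1 - a) * (e₁ ^ (1 / 2 - a) / (e₁ * x + r) -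
        e₂ ^ (1 / 2 - a) / (e₂ * x + r)))
    (cst (2 * a)) hc (kp a e₁ e₂) (fun x y hx hy => kp_itg a e₁ e₂ x y h0 h1 he₁ he₂ hx hy)
    (fun x hx => kp_diag a e₁ e₂ x he₁ he₂ hx)
  have k3 := cross_bound U V U' V' hU hV hU' hV' θ θ' hθ hθ' hs hs'
    (fun x y => y * AA a e₁ e₂ x y) 0 (AA a e₁ e₂ 1 1) le_rfl
    (AA_nonneg a e₁ e₂ 1 1 h0 h1 he₂ he one_pos one_pos)
    (fun x y hx hy => by
      have g1 := AA_nonneg a e₁ e₂ x y h0 h1 he₂ he hx hy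
      have g2 := AA_le a e₁ e₂ x y h0 h1 he₂ he hx hy
      rw [abs_of_nonneg (mul_nonneg hy.le g1), zero_mul, zero_add, mul_comm]
      exact mul_le_mul_of_nonneg_right g2 hy.le) h
  have e1 : ∑ j, ∑ l, ker a e₁ e₂ p₁ p₂ q₁ q₂ (θ j) (θ' l) *
        ((Uᴴ * h * U') j l * (V'ᴴ * V) l j).re =
      c * ∑ j, ∑ l, kk a 1 1 (θ j) (θ' l) * ((Uᴴ * h * U') j l * (V'ᴴ * V) l j).re +
      C * ∑ j, ∑ l, kp a e₁ e₂ (θ j) (θ' l) * ((Uᴴ * h * U') j l * (V'ᴴ * V) l j).re +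
      (p₁ * q₂ - p₂ * q₁) * ∑ j, ∑ l, θ' l * AA a e₁ e₂ (θ j) (θ' l) *
        ((Uᴴ * h * U') j l * (V'ᴴ * V) l j).re := by
    simp only [Finset.mul_sum, ← Finset.sum_add_distrib]
    refine Finset.sum_congr rfl fun j _ => Finset.sum_congr rfl fun l _ => ?_
    rw [ker_split a e₁ e₂ p₁ p₂ q₁ q₂ _ _ h0 h1 he₂ he (hθ j) (hθ' l)]
    ring
  rw [e1]
  have e2 : ker a e₁ e₂ p₁ p₂ q₁ q₂ 1 1 - spr a e₁ e₂ p₁ p₂ q₁ q₂ =
      (p₁ * q₂ - p₂ * q₁) * AA a e₁ e₂ 1 1 := by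
    unfold spr
    ring
  rw [e2, spr_eq a e₁ e₂ p₁ p₂ q₁ q₂ h0 h1 he₂ he, ← hcdef, ← hCdef]
  have g1 := mul_le_mul_of_nonneg_left k1 hc0
  have g2 := mul_le_mul_of_nonneg_left k2 hC0
  have g3 := mul_le_mul_of_nonneg_left k3 hD0
  have g4 : (p₁ * q₂ - p₂ * q₁) * ∑ j, ∑ l, θ' l * AA a e₁ e₂ (θ j) (θ' l) *
        ((Uᴴ * h * U') j l * (V'ᴴ * V) l j).re ≤
      (p₁ * q₂ - p₂ * q₁) * ((0 + AA a e₁ e₂ 1 1) * nf h) := g3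
  linarith

/-- **Good column**, the other orientation (`p₁ q₂ ≤ 0 ≤ p₂ q₁`): apply `good_col` to the swapped
column. -/
theorem good_col' (a e₁ e₂ p₁ p₂ q₁ q₂ : ℝ) (h0 : 0 < a) (h1 : 2 * a < 1) (he₂ : 0 < e₂)
    (he : e₂ < e₁) (h12 : p₁ * q₂ ≤ 0) (h21 : 0 ≤ p₂ * q₁)
    (hPD : C1 e₁ e₂ q₁ q₂ p₁ p₂ * (e₁ * e₂) ^ (a - 1 / 2) ≤ C0 a e₁ e₂ q₁ q₂ p₁ p₂)
    (U : Matrix m κ ℂ) (V : Matrix n κ ℂ) (U' : Matrix m κ' ℂ) (V' : Matrix n κ' ℂ)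
    (hU : Uᴴ * U = 1) (hV : Vᴴ * V = 1) (hU' : U'ᴴ * U' = 1) (hV' : V'ᴴ * V' = 1)
    (θ : κ → ℝ) (θ' : κ' → ℝ) (hθ : ∀ j, 0 < θ j) (hθ' : ∀ l, 0 < θ' l)
    (hs : ∑ j, θ j ^ 2 ≤ 1) (hs' : ∑ j, θ' j ^ 2 ≤ 1) (h : Matrix m m ℂ) (hh : h.PosSemidef) :
    2 * ∑ j, ∑ l, ker a e₁ e₂ p₁ p₂ q₁ q₂ (θ j) (θ' l) *
        ((Uᴴ * h * U') j l * (V'ᴴ * V) l j).re ≤
      spr a e₁ e₂ q₁ q₂ p₁ p₂ * (∑ j, θ j * ((Uᴴ * h * U) j j).re +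
        ∑ l, θ' l * ((U'ᴴ * h * U') l l).re) +
      2 * ((ker a e₁ e₂ p₁ p₂ q₁ q₂ 1 1 - spr a e₁ e₂ q₁ q₂ p₁ p₂) * nf h) := by
  have g := good_col a e₁ e₂ q₁ q₂ p₁ p₂ h0 h1 he₂ he (by rw [mul_comm]; exact h21)
    (by rw [mul_comm]; exact h12) hPD U' V' U V hU' hV' hU hV θ' θ hθ' hθ hs' hs h hh
  rw [ker_swap a e₁ e₂ q₁ q₂ p₁ p₂ 1 1, add_comm (∑ l, θ' l * ((U'ᴴ * h * U') l l).re)] at g
  refine le_trans (le_of_eq ?_) g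
  rw [Finset.sum_comm]
  congr 1
  refine Finset.sum_congr rfl fun l _ => Finset.sum_congr rfl fun j _ => ?_
  rw [ker_swap a e₁ e₂ q₁ q₂ p₁ p₂ (θ' l) (θ j)]
  congr 1
  have k1 : (U'ᴴ * h * U) l j = star ((Uᴴ * h * U') j l) := by
    rw [← conjTranspose_apply, conjTranspose_mul, conjTranspose_mul, conjTranspose_conjTranspose,
      hh.isHermitian.eq, Matrix.mul_assoc]
  have k2 : (Vᴴ * V') j l = star ((V'ᴴ * V) l j) := by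
    rw [← conjTranspose_apply, conjTranspose_mul, conjTranspose_conjTranspose]
  rw [k1, k2, ← star_mul', Complex.star_def, Complex.conj_re]

end good

/-! ### Closed forms -/

theorem kk_one (a e f : ℝ) : kk a e f 1 1 = dd (2 * a) e f := by
  unfold kk
  rw [mul_one, mul_one, mul_one, Real.one_rpow, one_mul]

theorem dd_self' (s x : ℝ) : dd s x x = s * x ^ (s - 1) := by
  unfold dd
  rw [if_pos rfl]

/-- `spr = 2a C₀ - C₁ dd(e₁,e₂)` -/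
theorem spr_closed (a e₁ e₂ p₁ p₂ q₁ q₂ : ℝ) (h0 : 0 < a) (h1 : 2 * a < 1) (he₂ : 0 < e₂)
    (he : e₂ < e₁) : spr a e₁ e₂ p₁ p₂ q₁ q₂ =
      2 * a * C0 a e₁ e₂ p₁ p₂ q₁ q₂ - C1 e₁ e₂ p₁ p₂ q₁ q₂ * dd (2 * a) e₁ e₂ := by
  have he₁ : 0 < e₁ := he₂.trans he
  rw [spr_eq a e₁ e₂ p₁ p₂ q₁ q₂ h0 h1 he₂ he]
  unfold kp
  rw [kk_one, kk_one, kk_one, dd_comm (2 * a) e₂ e₁, dd_self', Real.one_rpow]
  have hg : (e₁ * e₂) ^ (a - 1 / 2) * (e₁ * e₂) ^ (1 / 2 - a) = 1 := by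
    rw [← Real.rpow_add (mul_pos he₁ he₂)]
    have : a - 1 / 2 + (1 / 2 - a) = 0 := by ring
    rw [this, Real.rpow_zero]
  linear_combination (-(C1 e₁ e₂ p₁ p₂ q₁ q₂ * dd (2 * a) e₁ e₂)) * hg

/-- `A(1,1)` -/
theorem AA_one (a e₁ e₂ : ℝ) (he₂ : 0 < e₂) (he : e₂ < e₁) :
    AA a e₁ e₂ 1 1 = ((e₁ + e₂) * dd (2 * a) e₁ e₂ - 2 * a * (e₁ ^ (2 * a) + e₂ ^ (2 * a))) /
      (e₁ - e₂) := by
  have he₁ : 0 < e₁ := he₂.trans he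
  have hd : e₁ - e₂ ≠ 0 := (sub_pos.mpr he).ne'
  unfold AA
  rw [kk_one, kk_one, kk_one, kk_one, dd_comm (2 * a) e₂ e₁, dd_self', dd_self']
  have g1 : e₁ ^ (2 * a) = e₁ * e₁ ^ (2 * a - 1) := by
    rw [Real.rpow_sub_one he₁.ne']
    field_simp
  have g2 : e₂ ^ (2 * a) = e₂ * e₂ ^ (2 * a - 1) := by
    rw [Real.rpow_sub_one he₂.ne']
    field_simp
  rw [g1, g2]
  field_simp
  ring

end Pool.Agent.LibSchE
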