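import Pool.Agent.LibSchE.E3
import Pool.Agent.LibSchE.Good

/-! **E4.**  The bound for a good column. -/

open MeasureTheory Set Matrix
open scoped ComplexOrder

namespace Pool.Agent.LibSchE

open Pool.Agent.LibSchP Pool.Agent.LibSchA

/-- `0 ≤ ker 1 1 - spr = (p₁q₂ - p₂q₁) AA 1 1` (`AA_itg`) -/
theorem ker_sub_spr_nonneg {a e₁ e₂ p₁ p₂ q₁ q₂ : ℝ} (h0 : 0 < a) (h1 : 2 * a < 1)
    (he₂ : 0 < e₂) (he : e₂ < e₁) (h12 : 0 ≤ p₁ * q₂) (h21 : p₂ * q₁ ≤ 0) :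
    0 ≤ ker a e₁ e₂ p₁ p₂ q₁ q₂ 1 1 - spr a e₁ e₂ p₁ p₂ q₁ q₂ := by
  have h := AA_nonneg a e₁ e₂ 1 1 h0 h1 he₂ he one_pos one_pos
  have h2 : 0 ≤ p₁ * q₂ - p₂ * q₁ := by linarith
  have h3 := mul_nonneg h2 h
  unfold spr
  linarith

section ops

variable {m n κ κ' : Type} [Fintype m] [DecidableEq m] [Fintype n] [Fintype κ] [Fintype κ']
  [DecidableEq κ] [DecidableEq κ']

omit [DecidableEq m] [DecidableEq κ] [DecidableEq κ'] in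
/-- `cx` with the zero kernel -/
theorem E4_cx_zero (F : ℝ → ℝ → ℝ) (hF : ∀ x y, F x y = 0) (U : Matrix m κ ℂ)
    (V : Matrix n κ ℂ) (θ : κ → ℝ) (U' : Matrix m κ' ℂ) (V' : Matrix n κ' ℂ) (θ' : κ' → ℝ)
    (E : Matrix m m ℂ) : cx F U V θ U' V' θ' E = 0 := by
  unfold cx
  simp [hF]

/-- **bound for a good column** (`φ = ph e₁ e₂ p₁ p₂`, `ψ = ph e₁ e₂ q₁ q₂`, `χ = 0`):
`kn_ph`, `kd_ph`, `res_nonneg`, `kn_zero_right`, `kd_zero_right`, `LibSchE.good_col`. -/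
theorem good_colW {a e₁ e₂ p₁ p₂ q₁ q₂ : ℝ} (h0 : 0 < a) (h1 : 2 * a < 1) (he₂ : 0 < e₂)
    (he : e₂ < e₁) (h12 : 0 ≤ p₁ * q₂) (h21 : p₂ * q₁ ≤ 0)
    (hPD : C1 e₁ e₂ p₁ p₂ q₁ q₂ * (e₁ * e₂) ^ (a - 1 / 2) ≤ C0 a e₁ e₂ p₁ p₂ q₁ q₂)
    (U : Matrix m κ ℂ) (V : Matrix n κ ℂ) (θ : κ → ℝ) (U' : Matrix m κ' ℂ)
    (V' : Matrix n κ' ℂ) (θ' : κ' → ℝ) (hU : Uᴴ * U = 1) (hV : Vᴴ * V = 1)
    (hU' : U'ᴴ * U' = 1) (hV' : V'ᴴ * V' = 1) (hθ : ∀ j, 0 < θ j) (hθ' : ∀ j, 0 < θ' j)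
    (hs : ∑ j, θ j ^ 2 ≤ 1) (hs' : ∑ j, θ' j ^ 2 ≤ 1) (E₁₁ E₂₂ H : Matrix m m ℂ)
    (hH : H.PosSemidef) :
    colW a (p₁ + p₂) (q₁ + q₂) (ph e₁ e₂ p₁ p₂) (ph e₁ e₂ q₁ q₂) (fun _ => 0)
      U V θ U' V' θ' E₁₁ E₂₂ H ≤
      cst (2 * a) * ((res a e₁ e₂ p₁ p₂ + res a e₁ e₂ q₁ q₂) +
        (ker a e₁ e₂ p₁ p₂ p₁ p₂ 1 1 * pr U θ E₁₁ + ker a e₁ e₂ q₁ q₂ q₁ q₂ 1 1 * pr U' θ' E₂₂) +
        (spr a e₁ e₂ p₁ p₂ q₁ q₂ * (pr U θ H + pr U' θ' H) +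
          2 * ((ker a e₁ e₂ p₁ p₂ q₁ q₂ 1 1 - spr a e₁ e₂ p₁ p₂ q₁ q₂) * nf H))) := by
  have he₁ : 0 < e₁ := he₂.trans he
  have hc := cst_pos (2 * a) (by linarith) h1
  have kp := kd_ph p₁ p₂ (p₁ + p₂) h0 h1 he₁ he₂ rfl
  have kq := kd_ph q₁ q₂ (q₁ + q₂) h0 h1 he₁ he₂ rfl
  have rp := kd_self_nonneg a (fun ν => (p₁ + p₂) - ph e₁ e₂ p₁ p₂ ν)
  have rq := kd_self_nonneg a (fun ν => (q₁ + q₂) - ph e₁ e₂ q₁ q₂ ν)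
  have npp := kn_ph p₁ p₂ p₁ p₂ h0 h1 he₁ he₂ (x := 1) (y := 1) one_pos one_pos
  have nqq := kn_ph q₁ q₂ q₁ q₂ h0 h1 he₁ he₂ (x := 1) (y := 1) one_pos one_pos
  have hcx : cx (kn a (ph e₁ e₂ p₁ p₂) (ph e₁ e₂ q₁ q₂)) U V θ U' V' θ' H =
      cst (2 * a) * ∑ j, ∑ l, ker a e₁ e₂ p₁ p₂ q₁ q₂ (θ j) (θ' l) *
        ((Uᴴ * H * U') j l * (V'ᴴ * V) l j).re := by
    unfold cx
    simp only [Finset.mul_sum]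
    refine Finset.sum_congr rfl fun j _ => Finset.sum_congr rfl fun l _ => ?_
    rw [kn_ph p₁ p₂ q₁ q₂ h0 h1 he₁ he₂ (hθ j) (hθ' l)]
    ring
  have hg := good_col a e₁ e₂ p₁ p₂ q₁ q₂ h0 h1 he₂ he h12 h21 hPD U V U' V' hU hV hU' hV' θ θ'
    hθ hθ' hs hs' H hH
  have z1 : cx (kd a (fun ν => (q₁ + q₂) - ph e₁ e₂ q₁ q₂ ν) (fun _ => 0)) U' V' θ' U V θ
      (1 : Matrix m m ℂ) = 0 :=
    E4_cx_zero _ (fun x y => kd_zero_right a _ x y) _ _ _ _ _ _ _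
  have z2 : cx (kn a (ph e₁ e₂ q₁ q₂) (fun _ => 0)) U' V' θ' U V θ E₂₂ = 0 :=
    E4_cx_zero _ (fun x y => kn_zero_right a _ x y) _ _ _ _ _ _ _
  unfold colW
  rw [z1, z2, hcx, kd_zero_right, kn_zero_right, kn_zero_right, kp, kq, npp, nqq]
  rw [kp] at rp
  rw [kq] at rq
  have m1 := mul_le_mul_of_nonneg_right hs rp
  have m2 := mul_le_mul_of_nonneg_right hs' rq
  have m3 := mul_le_mul_of_nonneg_left hg hc.le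
  have e1 : pr U θ H = ∑ j, θ j * ((Uᴴ * H * U) j j).re := rfl
  have e2 : pr U' θ' H = ∑ l, θ' l * ((U'ᴴ * H * U') l l).re := rfl
  rw [e1, e2]
  linarith

end ops

end Pool.Agent.LibSchE
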