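import Pool.Agent.LibSchE.E3

/-! **E5.**  The network inequality. -/

open Matrix
open scoped ComplexOrder

namespace Pool.Agent.LibSchE

open Pool.Agent.LibSchP Pool.Agent.LibSchA

variable {m : Type} [Fintype m] [DecidableEq m]

/-- three springs in series (triangle inequality for `nf` and Cauchy-Schwarz) -/
theorem series (X₀ X₁ X₂ X₃ : Matrix m m ℂ) {g₁ g₂ g₃ : ℝ} (h₁ : 0 < g₁) (h₂ : 0 < g₂)
    (h₃ : 0 < g₃) : (1 / (1 / g₁ + 1 / g₂ + 1 / g₃)) * fr (X₀ - X₃) ≤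
      g₁ * fr (X₀ - X₁) + g₂ * fr (X₁ - X₂) + g₃ * fr (X₂ - X₃) := by
  have htri : nf (X₀ - X₃) ≤ nf (X₀ - X₁) + nf (X₁ - X₂) + nf (X₂ - X₃) := by
    have e : X₀ - X₃ = (X₀ - X₁) + (X₁ - X₂) + (X₂ - X₃) := by abel
    rw [e]
    exact (nf_add_le _ _).trans (by linarith [nf_add_le (X₀ - X₁) (X₁ - X₂)])
  rw [← nf_sq, ← nf_sq, ← nf_sq, ← nf_sq]
  set a := nf (X₀ - X₁) with ha
  set b := nf (X₁ - X₂) with hb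
  set c := nf (X₂ - X₃) with hc
  set d := nf (X₀ - X₃) with hd
  have hd0 : 0 ≤ d := nf_nonneg _
  have h1 : d ^ 2 ≤ (a + b + c) ^ 2 := pow_le_pow_left₀ hd0 htri 2
  have hS : 0 < 1 / g₁ + 1 / g₂ + 1 / g₃ := by positivity
  rw [div_mul_eq_mul_div, one_mul, div_le_iff₀ hS]
  refine h1.trans ?_
  have e : (g₁ * a ^ 2 + g₂ * b ^ 2 + g₃ * c ^ 2) * (1 / g₁ + 1 / g₂ + 1 / g₃) - (a + b + c) ^ 2 =
      (g₁ * a - g₂ * b) ^ 2 / (g₁ * g₂) + (g₁ * a - g₃ * c) ^ 2 / (g₁ * g₃) +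
        (g₂ * b - g₃ * c) ^ 2 / (g₂ * g₃) := by
    field_simp
    ring
  have hp : 0 ≤ (g₁ * a - g₂ * b) ^ 2 / (g₁ * g₂) + (g₁ * a - g₃ * c) ^ 2 / (g₁ * g₃) +
        (g₂ * b - g₃ * c) ^ 2 / (g₂ * g₃) := by positivity
  linarith

/-- the hypothesis (IV) -/
def IVh (t gA gB gk gm gD : ℝ) : Prop :=
  0 < gA ∧ 0 < gB ∧ 0 < gk ∧ 0 < gm ∧ 0 < gD ∧
    2 * t ≤ 1 / (1 / gA + 1 / gB + 1 / gk) + 1 / (1 / gm + 1 / gD + 1 / gk)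

theorem E5_ser_le {a b c : ℝ} (ha : 0 < a) (hb : 0 < b) (hc : 0 < c) :
    1 / (1 / a + 1 / b + 1 / c) ≤ a := by
  have hS : 0 < 1 / a + 1 / b + 1 / c := by positivity
  rw [div_le_iff₀ hS]
  have h1 : a * (1 / a + 1 / b + 1 / c) = 1 + a / b + a / c := by
    field_simp
  rw [h1]
  have h2 : 0 ≤ a / b := by positivity
  have h3 : 0 ≤ a / c := by positivity
  linarith

theorem IVh.le {t gA gB gk gm gD : ℝ} (h : IVh t gA gB gk gm gD) : 2 * t ≤ gA + gm := by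
  obtain ⟨hA, hB, hk, hm, hD, h⟩ := h
  have h1 := E5_ser_le hA hB hk
  have h2 := E5_ser_le hm hD hk
  linarith

/-- two paths from `A` to `h`: `A - x₁ - B - h` and `A - x₂ - D - h` (`series`) -/
theorem network {t gA gB gk gm gD : ℝ} (h : IVh t gA gB gk gm gD)
    (x₁ x₂ h₀ A B D : Matrix m m ℂ) :
    2 * t * fr (h₀ - A) ≤ gA * fr (x₁ - A) + gB * fr (x₁ - B) + gk * fr (h₀ - B) +
      (gm * fr (x₂ - A) + gD * fr (x₂ - D) + gk * fr (h₀ - D)) := by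
  obtain ⟨hA, hB, hk, hm, hD, h⟩ := h
  have hsw : ∀ X Y : Matrix m m ℂ, fr (X - Y) = fr (Y - X) := by
    intro X Y
    unfold fr
    refine Finset.sum_congr rfl fun i _ => Finset.sum_congr rfl fun j _ => ?_
    rw [Matrix.sub_apply, Matrix.sub_apply, norm_sub_rev]
  have s1 := series A x₁ B h₀ hA hB hk
  have s2 := series A x₂ D h₀ hm hD hk
  rw [hsw A h₀, hsw A x₁, hsw B h₀] at s1
  rw [hsw A h₀, hsw A x₂, hsw D h₀] at s2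
  have h0 : 0 ≤ fr (h₀ - A) := fr_nonneg _
  have h1 := mul_le_mul_of_nonneg_right h h0
  rw [add_mul] at h1
  linarith

variable {κA κB κD : Type} [Fintype κA] [Fintype κB] [Fintype κD] [DecidableEq κA]
  [DecidableEq κB] [DecidableEq κD]

/-- **The operator inequality for `N = 2`.**  `pr_square` for all terms (`e = e₁₁, e₂₂, e₁₂`),
`2 nf H ≤ |H|²/e₁₂ + e₁₂`, `network` with `t = n e₁₂`, `gA = ρA e₁₁`, ..., `gk = κ e₁₂`;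
`|A|² ≤ 1`: the coefficient of `1 - |A|²` is `(ρA e₁₁ + ρm e₂₂ - 2 n e₁₂)/2 ≥ 0` (`IVh.le`). -/
theorem oper {C e₁₁ e₂₂ e₁₂ ρA ρB ρf ρm ρD n κ α : ℝ} (he₁₁ : 0 < e₁₁)
    (he₂₂ : 0 < e₂₂) (he₁₂ : 0 < e₁₂) (hf : 0 ≤ ρf) (hα : 0 ≤ α)
    (h : IVh (n * e₁₂) (ρA * e₁₁) (ρB * e₁₁) (κ * e₁₂) (ρm * e₂₂) (ρD * e₂₂))
    (s₁₁ : ρA + ρB = C * e₁₁) (s₂₂ : ρf + ρm + ρD = C * e₂₂) (s₁₂ : κ + α - n = C * e₁₂)
    (UA : Matrix m κA ℂ) (θA : κA → ℝ) (UB : Matrix m κB ℂ) (θB : κB → ℝ)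
    (UD : Matrix m κD ℂ) (θD : κD → ℝ) (hUA : UAᴴ * UA = 1) (hUB : UBᴴ * UB = 1)
    (hUD : UDᴴ * UD = 1) (hsA : ∑ j, θA j ^ 2 ≤ 1) (hsB : ∑ j, θB j ^ 2 ≤ 1)
    (hsD : ∑ j, θD j ^ 2 ≤ 1) (E₁₁ E₂₂ H : Matrix m m ℂ) (h11 : E₁₁.IsHermitian)
    (h22 : E₂₂.IsHermitian) (h12 : H.IsHermitian) :
    (ρA * pr UA θA E₁₁ + ρB * pr UB θB E₁₁) +
      (ρm * pr UA θA E₂₂ + ρD * pr UD θD E₂₂ + ρf / 2 * (fr E₂₂ / e₂₂ + e₂₂)) +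
      (κ * (pr UB θB H + pr UD θD H) + 2 * α * nf H - 2 * n * pr UA θA H) ≤
    C / 2 * ((fr E₁₁ + fr E₂₂ + 2 * fr H) + (e₁₁ ^ 2 + e₂₂ ^ 2 + 2 * e₁₂ ^ 2)) := by
  have hnet := network h ((e₁₁ : ℂ)⁻¹ • E₁₁) ((e₂₂ : ℂ)⁻¹ • E₂₂) ((e₁₂ : ℂ)⁻¹ • H)
    (th UA θA) (th UB θB) (th UD θD)
  have hle := h.le
  obtain ⟨hgA, hgB, hgk, hgm, hgD, -⟩ := h
  have q1 := pr_square UA θA E₁₁ h11 e₁₁ he₁₁
  have q2 := pr_square UB θB E₁₁ h11 e₁₁ he₁₁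
  have q3 := pr_square UA θA E₂₂ h22 e₂₂ he₂₂
  have q4 := pr_square UD θD E₂₂ h22 e₂₂ he₂₂
  have q5 := pr_square UB θB H h12 e₁₂ he₁₂
  have q6 := pr_square UD θD H h12 e₁₂ he₁₂
  have q7 := pr_square UA θA H h12 e₁₂ he₁₂
  have fA : fr (th UA θA) ≤ 1 := by rw [fr_th UA hUA]; exact hsA
  have fB : fr (th UB θB) ≤ 1 := by rw [fr_th UB hUB]; exact hsB
  have fD : fr (th UD θD) ≤ 1 := by rw [fr_th UD hUD]; exact hsD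
  have hnf : 2 * nf H ≤ fr H / e₁₂ + e₁₂ := by
    have h1 : fr H / e₁₂ + e₁₂ - 2 * nf H = (nf H - e₁₂) ^ 2 / e₁₂ := by
      rw [← nf_sq]
      field_simp
      ring
    have h2 : 0 ≤ (nf H - e₁₂) ^ 2 / e₁₂ := by positivity
    linarith
  have hnf' := mul_le_mul_of_nonneg_left hnf hα
  set a := fr (th UA θA)
  set b := fr (th UB θB)
  set d := fr (th UD θD)
  set P1 := pr UA θA E₁₁
  set P2 := pr UB θB E₁₁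
  set P3 := pr UA θA E₂₂
  set P4 := pr UD θD E₂₂
  set P5 := pr UB θB H
  set P6 := pr UD θD H
  set P7 := pr UA θA H
  set S1 := fr ((e₁₁ : ℂ)⁻¹ • E₁₁ - th UA θA)
  set S2 := fr ((e₁₁ : ℂ)⁻¹ • E₁₁ - th UB θB)
  set S3 := fr ((e₂₂ : ℂ)⁻¹ • E₂₂ - th UA θA)
  set S4 := fr ((e₂₂ : ℂ)⁻¹ • E₂₂ - th UD θD)
  set S5 := fr ((e₁₂ : ℂ)⁻¹ • H - th UB θB)
  set S6 := fr ((e₁₂ : ℂ)⁻¹ • H - th UD θD)
  set S7 := fr ((e₁₂ : ℂ)⁻¹ • H - th UA θA)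
  set N := nf H
  obtain ⟨x, hx⟩ : ∃ x, x = fr E₁₁ / e₁₁ := ⟨_, rfl⟩
  obtain ⟨y, hy⟩ : ∃ y, y = fr E₂₂ / e₂₂ := ⟨_, rfl⟩
  obtain ⟨z, hz⟩ : ∃ z, z = fr H / e₁₂ := ⟨_, rfl⟩
  have hx' : fr E₁₁ = x * e₁₁ := by rw [hx]; field_simp
  have hy' : fr E₂₂ = y * e₂₂ := by rw [hy]; field_simp
  have hz' : fr H = z * e₁₂ := by rw [hz]; field_simp
  rw [← hx] at q1 q2
  rw [← hy] at q3 q4
  rw [← hz] at q5 q6 q7 hnf'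
  rw [← hy, hx', hy', hz']
  have p1 : P1 = (x + e₁₁ * a - e₁₁ * S1) / 2 := by linarith
  have p2 : P2 = (x + e₁₁ * b - e₁₁ * S2) / 2 := by linarith
  have p3 : P3 = (y + e₂₂ * a - e₂₂ * S3) / 2 := by linarith
  have p4 : P4 = (y + e₂₂ * d - e₂₂ * S4) / 2 := by linarith
  have p5 : P5 = (z + e₁₂ * b - e₁₂ * S5) / 2 := by linarith
  have p6 : P6 = (z + e₁₂ * d - e₁₂ * S6) / 2 := by linarith
  have p7 : P7 = (z + e₁₂ * a - e₁₂ * S7) / 2 := by linarith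
  have r1 := mul_nonneg (sub_nonneg.2 hle) (sub_nonneg.2 fA)
  have r2 := mul_nonneg hgB.le (sub_nonneg.2 fB)
  have r3 := mul_nonneg hgD.le (sub_nonneg.2 fD)
  have r4 := mul_nonneg hgk.le (sub_nonneg.2 fB)
  have r5 := mul_nonneg hgk.le (sub_nonneg.2 fD)
  have c1 : C / 2 * ((x * e₁₁ + y * e₂₂ + 2 * (z * e₁₂)) + (e₁₁ ^ 2 + e₂₂ ^ 2 + 2 * e₁₂ ^ 2)) =
      (C * e₁₁) / 2 * (x + e₁₁) + (C * e₂₂) / 2 * (y + e₂₂) + (C * e₁₂) * (z + e₁₂) := by ring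
  rw [c1, ← s₁₁, ← s₂₂, ← s₁₂, p1, p2, p3, p4, p5, p6, p7]
  nlinarith [r1, r2, r3, r4, r5, hnet, hnf']

end Pool.Agent.LibSchE
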