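import Pool.Agent.LibSchE.E2

/-! **E6.**  The gauge. -/

open Matrix
open scoped ComplexOrder

namespace Pool.Agent.LibSchE

open Pool.Agent.LibSchP Pool.Agent.LibSchA

variable {m : Type} [Fintype m] [DecidableEq m]

/-- Polar decomposition of a square matrix.  (`svd_red`: `M = U diag(t) Vᴴ` with isometries
`U`, `V`; extend `V ↦ U` to a unitary `Q` (`LinearIsometry.extend`), take `Qᴴ`.  Or: for invertible
`M` (`LibSchQ.polar_right`), and compactness of the unitary group.) -/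
theorem polar_sq (M : Matrix m m ℂ) : ∃ V ∈ unitaryGroup m ℂ, (M * V).PosSemidef := by
  classical
  obtain ⟨V, hV, x, hx, hT⟩ := ud_exists_nonneg (Mᴴ * M) (posSemidef_conjTranspose_mul_self M)
  set W : Matrix m m ℂ := M * V with hWdef
  have hVV : Vᴴ * V = 1 := a2_uu V hV
  have hVV' : V * Vᴴ = 1 := a2_uu' V hV
  have hW : Wᴴ * W = dg x := by
    rw [hWdef, conjTranspose_mul, Matrix.mul_assoc, ← Matrix.mul_assoc Mᴴ, hT]
    unfold ud
    rw [Matrix.mul_assoc (V * dg x), hVV, Matrix.mul_one, ← Matrix.mul_assoc, hVV, Matrix.one_mul]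
  have hWe : ∀ j k, ∑ i, star (W i j) * W i k = if j = k then (x j : ℂ) else 0 := by
    intro j k
    have h1 := congrFun (congrFun hW j) k
    rw [dg_apply, Matrix.mul_apply] at h1
    simpa only [conjTranspose_apply] using h1
  have hW0 : ∀ k, x k = 0 → ∀ i, W i k = 0 := by
    intro k hk i
    have h1 := hWe k k
    rw [if_pos rfl, hk] at h1
    have h2 : ∑ i, ‖W i k‖ ^ 2 = 0 := by
      have h3 : ((∑ i, ‖W i k‖ ^ 2 : ℝ) : ℂ) = 0 := by
        rw [← Complex.ofReal_zero, ← h1]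
        push_cast
        refine Finset.sum_congr rfl fun i _ => ?_
        rw [Complex.star_def, mul_comm, Complex.mul_conj, Complex.normSq_eq_norm_sq]
        push_cast
        rfl
      exact_mod_cast h3
    have h4 := (Finset.sum_eq_zero_iff_of_nonneg fun i _ => by positivity).1 h2 i
      (Finset.mem_univ i)
    exact norm_eq_zero.1 (pow_eq_zero_iff (two_ne_zero)|>.1 h4)
  let u : m → EuclideanSpace ℂ m := fun k => WithLp.toLp 2 (fun i => W i k / ((√(x k) : ℝ) : ℂ))
  have hin : ∀ j k, x j ≠ 0 → x k ≠ 0 → inner ℂ (u j) (u k) = if j = k then (1 : ℂ) else 0 := by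
    intro j k hj hk
    have hj' : ((√(x j) : ℝ) : ℂ) ≠ 0 := by
      exact_mod_cast (Real.sqrt_ne_zero (hx j)).2 hj
    have hk' : ((√(x k) : ℝ) : ℂ) ≠ 0 := by
      exact_mod_cast (Real.sqrt_ne_zero (hx k)).2 hk
    have e1 : inner ℂ (u j) (u k)
        = (∑ i, star (W i j) * W i k) / (((√(x j) : ℝ) : ℂ) * ((√(x k) : ℝ) : ℂ)) := by
      rw [EuclideanSpace.inner_eq_star_dotProduct, dotProduct, Finset.sum_div]
      refine Finset.sum_congr rfl fun i _ => ?_
      simp only [u, Pi.star_apply, star_div₀, Complex.star_def, Complex.conj_ofReal]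
      field_simp
    rw [e1, hWe]
    split_ifs with h
    · subst h
      rw [← Complex.ofReal_mul, Real.mul_self_sqrt (hx j), div_self]
      exact_mod_cast hj
    · rw [zero_div]
  have hu : Orthonormal ℂ (Set.domRestrict {k | x k ≠ 0} u) := by
    rw [orthonormal_iff_ite]
    rintro ⟨j, hj⟩ ⟨k, hk⟩
    rw [Set.domRestrict_apply, Set.domRestrict_apply, hin j k hj hk]
    simp only [Subtype.mk.injEq]
  obtain ⟨b, hb⟩ := hu.exists_orthonormalBasis_extension_of_card_eq (by simp)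
  set B : Matrix m m ℂ := Matrix.of fun i k => b k i with hB
  have hBB : Bᴴ * B = 1 := by
    ext j k
    have h1 := (orthonormal_iff_ite.1 b.orthonormal) j k
    rw [EuclideanSpace.inner_eq_star_dotProduct, dotProduct] at h1
    rw [Matrix.mul_apply, Matrix.one_apply, ← h1]
    refine Finset.sum_congr rfl fun i _ => ?_
    rw [conjTranspose_apply, hB, Matrix.of_apply, Matrix.of_apply, mul_comm]
    rfl
  have hWB : W = B * dg fun k => √(x k) := by
    ext i k
    rw [dg, Matrix.mul_diagonal, hB, Matrix.of_apply]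
    by_cases h : x k = 0
    · rw [hW0 k h i, h, Real.sqrt_zero, Complex.ofReal_zero, mul_zero]
    · have hk' : ((√(x k) : ℝ) : ℂ) ≠ 0 := by
        exact_mod_cast (Real.sqrt_ne_zero (hx k)).2 h
      rw [hb k h]
      simp only [u]
      rw [div_mul_cancel₀ _ hk']
  refine ⟨V * Bᴴ, ?_, ?_⟩
  · rw [mem_unitaryGroup_iff', star_eq_conjTranspose, conjTranspose_mul,
      conjTranspose_conjTranspose, Matrix.mul_assoc, ← Matrix.mul_assoc Vᴴ, hVV, Matrix.one_mul]
    exact mul_eq_one_comm.1 hBB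
  · rw [← Matrix.mul_assoc, ← hWdef, hWB]
    exact ud_posSemidef B _ fun k => Real.sqrt_nonneg _

/-- `D = fromBlocks 1 0 0 Vᴴ` with `V` from `polar_sq` for `(ud W μ).toBlocks₁₂`:
`D * ud W x * Dᴴ = ud (D * W) x`, the block `₁₂` of `D E Dᴴ` is `E₁₂ V`;
`D * blk A B = blk A (Vᴴ * B)`. -/
theorem gauge {N : ℕ} {n : Fin N → Type} [∀ k, Fintype (n k)] [∀ k, DecidableEq (n k)]
    (A B : ∀ k, Matrix m (n k) ℂ) (W : Matrix (m ⊕ m) (m ⊕ m) ℂ)
    (hW : W ∈ unitaryGroup (m ⊕ m) ℂ) (x μ : m ⊕ m → ℝ)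
    (hT : LibSch.blk A B * (LibSch.blk A B)ᴴ = ud W x) :
    ∃ V ∈ unitaryGroup m ℂ, ∃ W' ∈ unitaryGroup (m ⊕ m) ℂ,
      LibSch.blk A (fun k => Vᴴ * B k) * (LibSch.blk A (fun k => Vᴴ * B k))ᴴ = ud W' x ∧
      (ud W' μ).toBlocks₁₂.PosSemidef := by
  obtain ⟨V, hV, hp⟩ := polar_sq (ud W μ).toBlocks₁₂
  have hVV : Vᴴ * V = 1 := a2_uu V hV
  have hVV' : V * Vᴴ = 1 := a2_uu' V hV
  set D : Matrix (m ⊕ m) (m ⊕ m) ℂ := fromBlocks 1 0 0 Vᴴ with hD
  have hDH : Dᴴ = fromBlocks 1 0 0 V := by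
    rw [hD, fromBlocks_conjTranspose, conjTranspose_one, conjTranspose_zero,
      conjTranspose_conjTranspose]
  have hDD : Dᴴ * D = 1 := by
    rw [hDH, hD, fromBlocks_multiply]
    simp [hVV', fromBlocks_one]
  have hW1 : Wᴴ * W = 1 := a2_uu W hW
  have hud : ∀ y : m ⊕ m → ℝ, ud (D * W) y = D * ud W y * Dᴴ := by
    intro y
    unfold ud
    rw [conjTranspose_mul]
    simp only [Matrix.mul_assoc]
  have hblk : LibSch.blk A (fun k => Vᴴ * B k) = D * LibSch.blk A B := by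
    ext i c
    rcases i with i | i
    · simp only [LibSch.blk, Matrix.of_apply, Sum.elim_inl, Matrix.mul_apply,
        Fintype.sum_sum_type, Sum.elim_inr, hD, fromBlocks_apply₁₁, fromBlocks_apply₁₂,
        Matrix.zero_apply, zero_mul, Finset.sum_const_zero, add_zero, Matrix.one_apply,
        ite_mul, one_mul, Finset.sum_ite_eq, Finset.mem_univ, if_true]
    · simp only [LibSch.blk, Matrix.of_apply, Sum.elim_inl, Matrix.mul_apply,
        Fintype.sum_sum_type, Sum.elim_inr, hD, fromBlocks_apply₂₁, fromBlocks_apply₂₂,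
        Matrix.zero_apply, zero_mul, Finset.sum_const_zero, zero_add]
  refine ⟨V, hV, D * W, ?_, ?_, ?_⟩
  · rw [mem_unitaryGroup_iff', star_eq_conjTranspose, conjTranspose_mul, Matrix.mul_assoc,
      ← Matrix.mul_assoc Dᴴ, hDD, Matrix.one_mul, hW1]
  · rw [hblk, conjTranspose_mul, hud, ← hT]
    simp only [Matrix.mul_assoc]
  · rw [hud]
    have h1 : (D * ud W μ * Dᴴ).toBlocks₁₂ = (ud W μ).toBlocks₁₂ * V := by
      conv_lhs => rw [← fromBlocks_toBlocks (ud W μ)]
      rw [hDH, hD, fromBlocks_multiply, fromBlocks_multiply, toBlocks_fromBlocks₁₂]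
      simp
    rw [h1]
    exact hp

/-- `pw q (Vᴴ B) = pw q B` (`LibSch.pw_unitary`) -/
theorem pw_gauge {n : Type} [Fintype n] [DecidableEq n] (q : ℝ) (V : Matrix m m ℂ)
    (hV : V ∈ unitaryGroup m ℂ) (B : Matrix m n ℂ) :
    LibSch.pw q (Vᴴ * B) = LibSch.pw q B := by
  have hV' : Vᴴ ∈ unitaryGroup m ℂ := by
    rw [mem_unitaryGroup_iff', star_eq_conjTranspose, conjTranspose_conjTranspose]
    exact a2_uu' V hV
  have h := LibSch.pw_unitary q B ⟨Vᴴ, hV'⟩ 1
  simpa using h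

end Pool.Agent.LibSchE
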