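import Pool.Agent.LibSchE.E4

/-! **E7a.**  The scalar data of a bad matrix `Y` (`N = 2`, bad entry `(2,1)`). -/

open MeasureTheory Set Matrix
open scoped ComplexOrder

namespace Pool.Agent.LibSchE

open Pool.Agent.LibSchP Pool.Agent.LibSchA

/-- `ε = R diag(e₁, e₂) Rᵀ`, `R = !![c, -s; s, c]`, columns `Y_k = (c X_k - s Z_k, s X_k + c Z_k)`,
`Y Yᵀ = ε^(2-2a)`; the entry `(2,1)` of `ε^(2a-1) Y` is negative; `Y₁₁ ≤ Y₂₂`. -/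
structure BDat (a e₁ e₂ c s : ℝ) (X Z : Fin 2 → ℝ) : Prop where
  ha : 0 < a
  ha' : 2 * a < 1
  he₂ : 0 < e₂
  he : e₂ < e₁
  hc : 0 < c
  hs : 0 < s
  hcs : c ^ 2 + s ^ 2 = 1
  hX : X 0 ^ 2 + X 1 ^ 2 = e₁ ^ (2 - 2 * a)
  hZ : Z 0 ^ 2 + Z 1 ^ 2 = e₂ ^ (2 - 2 * a)
  hXZ : X 0 * Z 0 + X 1 * Z 1 = 0
  hX0 : 0 < X 0
  hX1 : 0 < X 1
  hZ0 : Z 0 < 0
  hZ1 : 0 < Z 1
  h21 : 0 ≤ s * X 0 + c * Z 0
  bad : e₁ ^ (2 * a - 1) * (s * X 0) + e₂ ^ (2 * a - 1) * (c * Z 0) < 0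
  had : c * X 0 - s * Z 0 ≤ s * X 1 + c * Z 1

/-- `g₂⁺`, `g₂⁻` for `g₂ = ph e₁ e₂ (s X₀) (c Z₀)` -/
noncomputable def fp (e₁ e₂ q₁ q₂ ν : ℝ) : ℝ := max (ph e₁ e₂ q₁ q₂ ν) 0
noncomputable def fm (e₁ e₂ q₁ q₂ ν : ℝ) : ℝ := max (-ph e₁ e₂ q₁ q₂ ν) 0

variable {a e₁ e₂ c s : ℝ} {X Z : Fin 2 → ℝ}

/-- a combination of the three sums -/
theorem E7a_two (D : BDat a e₁ e₂ c s X Z) (A B C : ℝ) :
    (A * X 0 ^ 2 + B * (X 0 * Z 0) + C * Z 0 ^ 2) + (A * X 1 ^ 2 + B * (X 1 * Z 1) + C * Z 1 ^ 2) =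
      A * e₁ ^ (2 - 2 * a) + C * e₂ ^ (2 - 2 * a) := by
  linear_combination A * D.hX + C * D.hZ + B * D.hXZ

/-- sums: as `LibSchA.sum_res`, `sum_11`, `sum_22`, `sum_12` (`d₁ = d₂ = 1`, `N = 2`) -/
theorem bsum_res (D : BDat a e₁ e₂ c s X Z) :
    (res a e₁ e₂ (c * X 0) (-(s * Z 0)) + res a e₁ e₂ (s * X 0) (c * Z 0)) +
      (res a e₁ e₂ (c * X 1) (-(s * Z 1)) + res a e₁ e₂ (s * X 1) (c * Z 1)) =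
      (1 - 2 * a) * (e₁ ^ 2 + e₂ ^ 2) := by
  have he₁ : 0 < e₁ := D.he₂.trans D.he
  have p1 := A3_pow2 a e₁ he₁
  have p2 := A3_pow2 a e₂ D.he₂
  have hk : ∀ x z : ℝ, res a e₁ e₂ (c * x) (-(s * z)) + res a e₁ e₂ (s * x) (c * z) =
      (-(e₁ ^ 2 * ((2 * a - 1) * e₁ ^ (2 * a - 1 - 1)))) * x ^ 2 + 0 * (x * z) +
        (-(e₂ ^ 2 * ((2 * a - 1) * e₂ ^ (2 * a - 1 - 1)))) * z ^ 2 := by
    intro x z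
    unfold res
    rw [A3_dd_self, A3_dd_self]
    linear_combination (-(x ^ 2 * e₁ ^ 2 * ((2 * a - 1) * e₁ ^ (2 * a - 1 - 1)))
      - z ^ 2 * e₂ ^ 2 * ((2 * a - 1) * e₂ ^ (2 * a - 1 - 1))) * D.hcs
  rw [hk (X 0) (Z 0), hk (X 1) (Z 1), E7a_two D]
  linear_combination ((1 - 2 * a) * e₁ ^ 2) * p1 + ((1 - 2 * a) * e₂ ^ 2) * p2

theorem bsum_11 (D : BDat a e₁ e₂ c s X Z) :
    ker a e₁ e₂ (c * X 0) (-(s * Z 0)) (c * X 0) (-(s * Z 0)) 1 1 +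
      ker a e₁ e₂ (c * X 1) (-(s * Z 1)) (c * X 1) (-(s * Z 1)) 1 1 =
      2 * a * (c ^ 2 * e₁ + s ^ 2 * e₂) := by
  have he₁ : 0 < e₁ := D.he₂.trans D.he
  have p1 := A3_pow a e₁ he₁
  have p2 := A3_pow a e₂ D.he₂
  have h := E7a_two D (c ^ 2 * (2 * a * e₁ ^ (2 * a - 1))) (-(2 * (c * s)) * dd (2 * a) e₁ e₂)
    (s ^ 2 * (2 * a * e₂ ^ (2 * a - 1)))
  rw [A3_ker_one, A3_ker_one]
  linear_combination h + (2 * a * c ^ 2) * p1 + (2 * a * s ^ 2) * p2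

theorem bsum_22 (D : BDat a e₁ e₂ c s X Z) :
    ker a e₁ e₂ (s * X 0) (c * Z 0) (s * X 0) (c * Z 0) 1 1 +
      ker a e₁ e₂ (s * X 1) (c * Z 1) (s * X 1) (c * Z 1) 1 1 =
      2 * a * (s ^ 2 * e₁ + c ^ 2 * e₂) := by
  have he₁ : 0 < e₁ := D.he₂.trans D.he
  have p1 := A3_pow a e₁ he₁
  have p2 := A3_pow a e₂ D.he₂
  have h := E7a_two D (s ^ 2 * (2 * a * e₁ ^ (2 * a - 1))) (2 * (c * s) * dd (2 * a) e₁ e₂)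
    (c ^ 2 * (2 * a * e₂ ^ (2 * a - 1)))
  rw [A3_ker_one, A3_ker_one]
  linear_combination h + (2 * a * s ^ 2) * p1 + (2 * a * c ^ 2) * p2

theorem bsum_12 (D : BDat a e₁ e₂ c s X Z) :
    ker a e₁ e₂ (c * X 0) (-(s * Z 0)) (s * X 0) (c * Z 0) 1 1 +
      ker a e₁ e₂ (c * X 1) (-(s * Z 1)) (s * X 1) (c * Z 1) 1 1 =
      2 * a * (c * s * (e₁ - e₂)) := by
  have he₁ : 0 < e₁ := D.he₂.trans D.he
  have p1 := A3_pow a e₁ he₁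
  have p2 := A3_pow a e₂ D.he₂
  have h := E7a_two D (c * s * (2 * a * e₁ ^ (2 * a - 1))) ((c ^ 2 - s ^ 2) * dd (2 * a) e₁ e₂)
    (-(c * s) * (2 * a * e₂ ^ (2 * a - 1)))
  rw [A3_ker_one, A3_ker_one]
  linear_combination h + (2 * a * c * s) * p1 - (2 * a * c * s) * p2

end Pool.Agent.LibSchE
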