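import Pool.Agent.LibSchE.E7a

/-! **E7b.**  The truncated functions. -/

open MeasureTheory Set Matrix
open scoped ComplexOrder

namespace Pool.Agent.LibSchE

open Pool.Agent.LibSchP Pool.Agent.LibSchA

variable {a e₁ e₂ : ℝ}

theorem E7b_ph_eq {q₁ q₂ : ℝ} (he₁ : 0 < e₁) (he₂ : 0 < e₂) (hc : 0 < q₁ + q₂) (ν : ℝ)
    (hν : 0 < ν) : ph e₁ e₂ q₁ q₂ ν =
      ((q₁ + q₂) * ν / ((ν + e₁) * (ν + e₂))) *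
        (ν - -(q₁ * e₂ + q₂ * e₁) / (q₁ + q₂)) := by
  unfold ph
  have h1 : ν + e₁ ≠ 0 := by positivity
  have h2 : ν + e₂ ≠ 0 := by positivity
  have h3 : q₁ + q₂ ≠ 0 := hc.ne'
  field_simp
  ring

/-- for `ν > 0`: `ph e₁ e₂ q₁ q₂ ν = ν (c₀ ν - n₀)/((ν+e₁)(ν+e₂))`, `c₀ = q₁ + q₂`,
`n₀ = -(q₁ e₂ + q₂ e₁)`; if `c₀ > 0`: `fp = ff e₁ e₂ (n₀/c₀) c₀` -/
theorem fp_eq {q₁ q₂ : ℝ} (he₁ : 0 < e₁) (he₂ : 0 < e₂) (hc : 0 < q₁ + q₂) (ν : ℝ)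
    (hν : 0 < ν) : fp e₁ e₂ q₁ q₂ ν = ff e₁ e₂ (-(q₁ * e₂ + q₂ * e₁) / (q₁ + q₂)) (q₁ + q₂) ν := by
  unfold fp ff
  rw [E7b_ph_eq he₁ he₂ hc ν hν]
  have hA : 0 ≤ (q₁ + q₂) * ν / ((ν + e₁) * (ν + e₂)) := by positivity
  have h := mul_max_of_nonneg (ν - -(q₁ * e₂ + q₂ * e₁) / (q₁ + q₂)) 0 hA
  rw [mul_zero] at h
  rw [← h]
  ring

theorem fm_eq {q₁ q₂ : ℝ} (he₁ : 0 < e₁) (he₂ : 0 < e₂) (hc : 0 < q₁ + q₂) (ν : ℝ)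
    (hν : 0 < ν) : fm e₁ e₂ q₁ q₂ ν = mm e₁ e₂ (-(q₁ * e₂ + q₂ * e₁) / (q₁ + q₂)) (q₁ + q₂) ν := by
  unfold fm mm
  rw [E7b_ph_eq he₁ he₂ hc ν hν]
  have hA : 0 ≤ (q₁ + q₂) * ν / ((ν + e₁) * (ν + e₂)) := by positivity
  have h := mul_max_of_nonneg (-(q₁ * e₂ + q₂ * e₁) / (q₁ + q₂) - ν) 0 hA
  rw [mul_zero] at h
  rw [← mul_neg, neg_sub, ← h]
  ring

/-- if `c₀ = 0`, `fp = 0` on `(0,∞)` -/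
theorem fp_zero {q₁ q₂ : ℝ} (he₁ : 0 < e₁) (he₂ : 0 < e₂) (hc : q₁ + q₂ = 0)
    (hn : q₁ * e₂ + q₂ * e₁ ≤ 0) (ν : ℝ) (hν : 0 < ν) : fp e₁ e₂ q₁ q₂ ν = 0 := by
  unfold fp
  refine max_eq_right ?_
  have h1 : ν + e₁ ≠ 0 := by positivity
  have h2 : ν + e₂ ≠ 0 := by positivity
  have h3 : ph e₁ e₂ q₁ q₂ ν = (ν / ((ν + e₁) * (ν + e₂))) * (q₁ * e₂ + q₂ * e₁) := by
    unfold ph
    have h4 : q₂ = -q₁ := by linarith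
    subst h4
    field_simp
    ring
  rw [h3]
  exact mul_nonpos_of_nonneg_of_nonpos (by positivity) hn

theorem E7b_meas (e₁ e₂ q₁ q₂ : ℝ) : Measurable (ph e₁ e₂ q₁ q₂) := by
  unfold ph
  fun_prop

theorem Zc.fp (q₁ q₂ : ℝ) (he₁ : 0 < e₁) (he₂ : 0 < e₂) : Zc (fp e₁ e₂ q₁ q₂) := by
  obtain ⟨C, hC⟩ := (Zc.ph e₁ e₂ q₁ q₂ he₁ he₂).bd
  refine ⟨?_, C, fun ν hν => ?_⟩
  · unfold Pool.Agent.LibSchE.fp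
    exact (E7b_meas e₁ e₂ q₁ q₂).max measurable_const
  · refine le_trans ?_ (hC ν hν)
    unfold Pool.Agent.LibSchE.fp
    rw [abs_of_nonneg (le_max_right _ _)]
    exact max_le (le_abs_self _) (abs_nonneg _)

theorem Zc.fm (q₁ q₂ : ℝ) (he₁ : 0 < e₁) (he₂ : 0 < e₂) : Zc (fm e₁ e₂ q₁ q₂) := by
  obtain ⟨C, hC⟩ := (Zc.ph e₁ e₂ q₁ q₂ he₁ he₂).bd
  refine ⟨?_, C, fun ν hν => ?_⟩
  · unfold Pool.Agent.LibSchE.fm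
    exact (E7b_meas e₁ e₂ q₁ q₂).neg.max measurable_const
  · refine le_trans ?_ (hC ν hν)
    unfold Pool.Agent.LibSchE.fm
    rw [abs_of_nonneg (le_max_right _ _)]
    exact max_le (neg_le_abs _) (abs_nonneg _)

/-- `0 ≤ c₀`: `m` is zero for large `ν` or `O(1/ν)` -/
theorem Ic.fm {q₁ q₂ : ℝ} (he₁ : 0 < e₁) (he₂ : 0 < e₂) (hc : 0 ≤ q₁ + q₂) :
    Ic (fm e₁ e₂ q₁ q₂) := by
  obtain ⟨C, hC⟩ := (Ic.ph e₁ e₂ q₁ q₂ (q₁ + q₂) he₁ he₂ rfl).bd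
  refine ⟨?_, C, fun ν hν => ?_⟩
  · unfold Pool.Agent.LibSchE.fm
    exact (E7b_meas e₁ e₂ q₁ q₂).neg.max measurable_const
  · refine le_trans ?_ (hC ν hν)
    unfold Pool.Agent.LibSchE.fm
    rw [abs_of_nonneg (le_max_right _ _)]
    refine max_le ?_ (abs_nonneg _)
    refine le_trans ?_ (le_abs_self _)
    show -LibSchE.ph e₁ e₂ q₁ q₂ ν ≤ q₁ + q₂ - LibSchE.ph e₁ e₂ q₁ q₂ ν
    linarith

theorem Ic.fp {q₁ q₂ : ℝ} (he₁ : 0 < e₁) (he₂ : 0 < e₂) (hc : 0 ≤ q₁ + q₂) :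
    Ic (fun ν => (q₁ + q₂) - fp e₁ e₂ q₁ q₂ ν) := by
  obtain ⟨C, hC⟩ := (Ic.ph e₁ e₂ q₁ q₂ (q₁ + q₂) he₁ he₂ rfl).bd
  refine ⟨?_, C, fun ν hν => ?_⟩
  · unfold Pool.Agent.LibSchE.fp
    exact measurable_const.sub ((E7b_meas e₁ e₂ q₁ q₂).max measurable_const)
  · refine le_trans ?_ (hC ν hν)
    show |q₁ + q₂ - LibSchE.fp e₁ e₂ q₁ q₂ ν| ≤ |q₁ + q₂ - LibSchE.ph e₁ e₂ q₁ q₂ ν|
    unfold Pool.Agent.LibSchE.fp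
    rcases le_total 0 (LibSchE.ph e₁ e₂ q₁ q₂ ν) with h | h
    · rw [max_eq_left h]
    · rw [max_eq_right h, sub_zero, abs_of_nonneg hc]
      refine le_trans ?_ (le_abs_self _)
      linarith

end Pool.Agent.LibSchE
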