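import Pool.Agent.LibSchE.E7b

/-! **E7c.**  (II) and (E22) for the truncated functions. -/

open MeasureTheory Set Matrix
open scoped ComplexOrder

namespace Pool.Agent.LibSchE

open Pool.Agent.LibSchP Pool.Agent.LibSchA

variable {a e₁ e₂ : ℝ}

theorem E7c_mono {l s c₀ : ℝ} (hl : 0 < l) (hs : 0 < s) (hc : 0 ≤ c₀) :
    MonotoneOn (fun r : ℝ => c₀ * max (r - s) 0 / (r + l)) (Ioi 0) := by
  intro x hx y hy hxy
  have hx0 : (0 : ℝ) < x := hx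
  have hy0 : (0 : ℝ) < y := hy
  show c₀ * max (x - s) 0 / (x + l) ≤ c₀ * max (y - s) 0 / (y + l)
  rcases le_total x s with h | h
  · rw [max_eq_right (by linarith : x - s ≤ 0), mul_zero, zero_div]
    have : 0 ≤ max (y - s) 0 := le_max_right _ _
    positivity
  · rw [max_eq_left (by linarith : 0 ≤ x - s), max_eq_left (by linarith : 0 ≤ y - s),
      div_le_div_iff₀ (by linarith) (by linarith)]
    nlinarith [mul_nonneg hc (mul_nonneg (sub_nonneg.2 hxy) (add_pos hl hs).le)]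

theorem E7c_bdd {l s c₀ : ℝ} (hl : 0 < l) (hs : 0 < s) (hc : 0 ≤ c₀) (r : ℝ) (hr : 0 < r) :
    c₀ * max (r - s) 0 / (r + l) ≤ c₀ := by
  rw [div_le_iff₀ (by linarith)]
  apply mul_le_mul_of_nonneg_left _ hc
  apply max_le <;> linarith

theorem E7c_nn {l s c₀ : ℝ} (hl : 0 < l) (hc : 0 ≤ c₀) (r : ℝ) (hr : 0 < r) :
    0 ≤ c₀ * max (r - s) 0 / (r + l) := by
  have : 0 ≤ max (r - s) 0 := le_max_right _ _
  positivity

theorem E7c_ff1 {l₁ l₂ : ℝ} (h₁ : 0 < l₁) (h₂ : 0 < l₂) (s c₀ r : ℝ) (hr : 0 < r) :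
    ff l₁ l₂ s c₀ r = c₀ * max (r - s) 0 / (r + l₂) * (r / (r + l₁)) := by
  unfold ff
  have e1 : r + l₁ ≠ 0 := by positivity
  have e2 : r + l₂ ≠ 0 := by positivity
  field_simp

theorem E7c_ff2 {l₁ l₂ : ℝ} (h₁ : 0 < l₁) (h₂ : 0 < l₂) (s c₀ r : ℝ) (hr : 0 < r) :
    ff l₁ l₂ s c₀ r = c₀ * max (r - s) 0 / (r + l₁) * (r / (r + l₂)) := by
  unfold ff
  have e1 : r + l₁ ≠ 0 := by positivity
  have e2 : r + l₂ ≠ 0 := by positivity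
  field_simp

/-- **(II)** for `g = ph e₁ e₂ p₁ p₂`, `p₁, p₂ ≥ 0`, and `f = g₂⁺`.  `c₀ > 0`:
`f ν = (c₀ (ν-ν*)⁺/(ν+e₂)) ν/(ν+e₁) = (c₀ (ν-ν*)⁺/(ν+e₁)) ν/(ν+e₂)`: `II_normal` twice. -/
theorem II_col {p₁ p₂ q₁ q₂ : ℝ} (h0 : 0 < a) (h1 : 2 * a < 1) (he₁ : 0 < e₁) (he₂ : 0 < e₂)
    (hp₁ : 0 ≤ p₁) (hp₂ : 0 ≤ p₂) (hc : 0 ≤ q₁ + q₂) (hn : q₁ * e₂ + q₂ * e₁ < 0) :
    ∃ M P : ℝ, 0 ≤ M ∧ 0 ≤ P ∧ M + P = kn a (ph e₁ e₂ p₁ p₂) (fp e₁ e₂ q₁ q₂) 1 1 ∧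
      ∀ x y : ℝ, 0 < x → 0 < y →
        |kn a (ph e₁ e₂ p₁ p₂) (fp e₁ e₂ q₁ q₂) x y| ≤ M * x + P * y := by
  rcases hc.eq_or_lt with h | hc'
  · have hz : ∀ x y : ℝ, 0 < y → kn a (ph e₁ e₂ p₁ p₂) (fp e₁ e₂ q₁ q₂) x y = 0 := by
      intro x y hy
      unfold kn
      rw [setIntegral_congr_fun (g := fun _ => (0 : ℝ)) measurableSet_Ioi, integral_zero, mul_zero]
      intro r hr
      have hr0 : (0 : ℝ) < r := hr
      show r ^ (2 * a - 2) * (ph e₁ e₂ p₁ p₂ (r / x) * fp e₁ e₂ q₁ q₂ (r / y)) = 0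
      rw [fp_zero he₁ he₂ h.symm hn.le (r / y) (div_pos hr0 hy)]
      ring
    refine ⟨0, 0, le_rfl, le_rfl, ?_, fun x y _ hy => ?_⟩
    · rw [hz 1 1 one_pos, add_zero]
    · rw [hz x y hy, abs_zero, zero_mul, zero_mul, add_zero]
  · set s : ℝ := -(q₁ * e₂ + q₂ * e₁) / (q₁ + q₂) with hsdef
    set c₀ : ℝ := q₁ + q₂ with hc₀
    have hs : 0 < s := div_pos (by linarith) hc'
    obtain ⟨i1, M₁, P₁, hM₁, hP₁, hMP₁, hB₁⟩ := II_normal a e₁ c₀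
      (fun r => c₀ * max (r - s) 0 / (r + e₂)) (fp e₁ e₂ q₁ q₂) (fun r => r / (r + e₁)) h0 h1 he₁
      (fun r hr => E7c_nn he₂ hc r hr) (E7c_mono he₂ hs hc) (fun r hr => E7c_bdd he₂ hs hc r hr)
      (fun r hr => by
        rw [fp_eq he₁ he₂ hc' r hr]
        exact E7c_ff1 he₁ he₂ s c₀ r hr) (fun r _ => rfl)
    obtain ⟨i2, M₂, P₂, hM₂, hP₂, hMP₂, hB₂⟩ := II_normal a e₂ c₀
      (fun r => c₀ * max (r - s) 0 / (r + e₁)) (fp e₁ e₂ q₁ q₂) (fun r => r / (r + e₂)) h0 h1 he₂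
      (fun r hr => E7c_nn he₁ hc r hr) (E7c_mono he₁ hs hc) (fun r hr => E7c_bdd he₁ hs hc r hr)
      (fun r hr => by
        rw [fp_eq he₁ he₂ hc' r hr]
        exact E7c_ff2 he₁ he₂ s c₀ r hr) (fun r _ => rfl)
    have hsplit : ∀ x y : ℝ, 0 < x → 0 < y →
        (∫ r in Ioi (0 : ℝ), r ^ (2 * a - 2) *
          (ph e₁ e₂ p₁ p₂ (r / x) * fp e₁ e₂ q₁ q₂ (r / y))) =
        p₁ * (∫ r in Ioi (0 : ℝ), r ^ (2 * a - 2) *
          (fp e₁ e₂ q₁ q₂ (r / y) * ((r / x) / (r / x + e₁)))) +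
        p₂ * (∫ r in Ioi (0 : ℝ), r ^ (2 * a - 2) *
          (fp e₁ e₂ q₁ q₂ (r / y) * ((r / x) / (r / x + e₂)))) := by
      intro x y hx hy
      rw [← integral_const_mul, ← integral_const_mul,
        ← integral_add ((i1 y x hy hx).const_mul p₁) ((i2 y x hy hx).const_mul p₂)]
      refine setIntegral_congr_fun measurableSet_Ioi fun r _ => ?_
      show r ^ (2 * a - 2) * (ph e₁ e₂ p₁ p₂ (r / x) * fp e₁ e₂ q₁ q₂ (r / y)) = _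
      unfold ph
      ring
    refine ⟨p₁ * P₁ + p₂ * P₂, p₁ * M₁ + p₂ * M₂, by positivity, by positivity, ?_,
      fun x y hx hy => ?_⟩
    · unfold kn
      rw [hsplit 1 1 one_pos one_pos]
      simp only [div_one, mul_one, Real.one_rpow, one_mul]
      rw [← hMP₁, ← hMP₂]
      ring
    · unfold kn
      rw [hsplit x y hx hy]
      obtain ⟨b1, b1'⟩ := hB₁ y x hy hx
      obtain ⟨b2, b2'⟩ := hB₂ y x hy hx
      rw [mul_comm y x] at b1 b1' b2 b2'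
      have e3 : (x * y) ^ (1 - a) * (p₁ * (∫ r in Ioi (0 : ℝ), r ^ (2 * a - 2) *
          (fp e₁ e₂ q₁ q₂ (r / y) * ((r / x) / (r / x + e₁)))) +
          p₂ * (∫ r in Ioi (0 : ℝ), r ^ (2 * a - 2) *
          (fp e₁ e₂ q₁ q₂ (r / y) * ((r / x) / (r / x + e₂))))) =
          p₁ * ((x * y) ^ (1 - a) * (∫ r in Ioi (0 : ℝ), r ^ (2 * a - 2) *
          (fp e₁ e₂ q₁ q₂ (r / y) * ((r / x) / (r / x + e₁))))) +
          p₂ * ((x * y) ^ (1 - a) * (∫ r in Ioi (0 : ℝ), r ^ (2 * a - 2) *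
          (fp e₁ e₂ q₁ q₂ (r / y) * ((r / x) / (r / x + e₂))))) := by ring
      rw [e3, abs_of_nonneg (add_nonneg (mul_nonneg hp₁ b1) (mul_nonneg hp₂ b2))]
      calc _ ≤ p₁ * (M₁ * y + P₁ * x) + p₂ * (M₂ * y + P₂ * x) :=
            add_le_add (mul_le_mul_of_nonneg_left b1' hp₁) (mul_le_mul_of_nonneg_left b2' hp₂)
        _ = _ := by ring

theorem E7c_kn_nn {q₁ q₂ x y : ℝ} (hx : 0 < x) (hy : 0 < y) :
    0 ≤ kn a (fp e₁ e₂ q₁ q₂) (fm e₁ e₂ q₁ q₂) x y := by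
  unfold kn
  refine mul_nonneg (Real.rpow_nonneg (by positivity) _)
    (setIntegral_nonneg measurableSet_Ioi fun r hr => ?_)
  exact mul_nonneg (Real.rpow_nonneg (le_of_lt hr) _)
    (mul_nonneg (le_max_right _ _) (le_max_right _ _))

/-- **(E22)** for `ψ = fp`, `χ = fm`, `k = kd (c₀ - ψ) χ 1 1` (`LibSchE.E22`, `K2_le`, `K2_ge`;
`c₀ = 0`: everything is `0`) -/
theorem E22_col {q₁ q₂ e : ℝ} (h0 : 0 < a) (h1 : 2 * a < 1) (he₂ : 0 < e₂) (he₁ : 0 < e₁)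
    (hc : 0 ≤ q₁ + q₂) (hn : q₁ * e₂ + q₂ * e₁ < 0) (he : 0 < e) (hel : e ≤ e₁) :
    0 ≤ kd a (fun ν => (q₁ + q₂) - fp e₁ e₂ q₁ q₂ ν) (fm e₁ e₂ q₁ q₂) 1 1 ∧
    ∀ x y : ℝ, 0 < x → 0 < y →
      2 * e * kn a (fp e₁ e₂ q₁ q₂) (fm e₁ e₂ q₁ q₂) x y ^ 2 ≤
        kn a (fp e₁ e₂ q₁ q₂) (fp e₁ e₂ q₁ q₂) 1 1 *
          (kd a (fun ν => (q₁ + q₂) - fp e₁ e₂ q₁ q₂ ν) (fm e₁ e₂ q₁ q₂) 1 1 / 2) *
          ((1 - a) * x ^ 2 + (1 + a) * y ^ 2 - 2 * (x ^ (1 - a) * y ^ (1 + a))) ∧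
      kd a (fun ν => (q₁ + q₂) - fp e₁ e₂ q₁ q₂ ν) (fm e₁ e₂ q₁ q₂) x y ≤
        kd a (fun ν => (q₁ + q₂) - fp e₁ e₂ q₁ q₂ ν) (fm e₁ e₂ q₁ q₂) 1 1 *
          (x ^ (1 - a) * y ^ (1 + a)) ∧
      e * x * kn a (fp e₁ e₂ q₁ q₂) (fm e₁ e₂ q₁ q₂) x y ≤
        kd a (fun ν => (q₁ + q₂) - fp e₁ e₂ q₁ q₂ ν) (fm e₁ e₂ q₁ q₂) x y ∧
      0 ≤ kn a (fp e₁ e₂ q₁ q₂) (fm e₁ e₂ q₁ q₂) x y := by
  rcases hc.eq_or_lt with h | hc'
  · have hz : ∀ r : ℝ, 0 < r → fp e₁ e₂ q₁ q₂ r = 0 :=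
      fun r hr => fp_zero he₁ he₂ h.symm hn.le r hr
    have k1 : ∀ x y : ℝ, 0 < x →
        kd a (fun ν => (q₁ + q₂) - fp e₁ e₂ q₁ q₂ ν) (fm e₁ e₂ q₁ q₂) x y = 0 := by
      intro x y hx
      unfold kd
      rw [setIntegral_congr_fun (g := fun _ => (0 : ℝ)) measurableSet_Ioi, integral_zero, mul_zero]
      intro r hr
      have hr0 : (0 : ℝ) < r := hr
      show r ^ (2 * a - 1) * (((q₁ + q₂) - fp e₁ e₂ q₁ q₂ (r / x)) * fm e₁ e₂ q₁ q₂ (r / y)) = 0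
      rw [hz _ (div_pos hr0 hx), ← h]
      ring
    have k2 : ∀ (φ : ℝ → ℝ) (x y : ℝ), 0 < x → kn a (fp e₁ e₂ q₁ q₂) φ x y = 0 := by
      intro φ x y hx
      unfold kn
      rw [setIntegral_congr_fun (g := fun _ => (0 : ℝ)) measurableSet_Ioi, integral_zero, mul_zero]
      intro r hr
      have hr0 : (0 : ℝ) < r := hr
      show r ^ (2 * a - 2) * (fp e₁ e₂ q₁ q₂ (r / x) * φ (r / y)) = 0
      rw [hz _ (div_pos hr0 hx)]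
      ring
    refine ⟨by rw [k1 1 1 one_pos], fun x y hx hy => ⟨?_, ?_, ?_, ?_⟩⟩
    · rw [k2 _ x y hx, k2 _ 1 1 one_pos]
      simp
    · rw [k1 x y hx, k1 1 1 one_pos, zero_mul]
    · rw [k1 x y hx, k2 _ x y hx, mul_zero]
    · rw [k2 _ x y hx]
  · set s : ℝ := -(q₁ * e₂ + q₂ * e₁) / (q₁ + q₂) with hsdef
    have hs : 0 < s := div_pos (by linarith) hc'
    have hf : ∀ r : ℝ, 0 < r → fp e₁ e₂ q₁ q₂ r = ff e₁ e₂ s (q₁ + q₂) r :=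
      fun r hr => fp_eq he₁ he₂ hc' r hr
    have hm : ∀ r : ℝ, 0 < r → fm e₁ e₂ q₁ q₂ r = mm e₁ e₂ s (q₁ + q₂) r :=
      fun r hr => fm_eq he₁ he₂ hc' r hr
    have k1 : ∀ x y : ℝ, 0 < x → 0 < y →
        kd a (fun ν => (q₁ + q₂) - fp e₁ e₂ q₁ q₂ ν) (fm e₁ e₂ q₁ q₂) x y =
          K2 a e₁ e₂ s (q₁ + q₂) x y := by
      intro x y hx hy
      unfold kd K2
      congr 1
      refine setIntegral_congr_fun measurableSet_Ioi fun r hr => ?_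
      have hr0 : (0 : ℝ) < r := hr
      show r ^ (2 * a - 1) * (((q₁ + q₂) - fp e₁ e₂ q₁ q₂ (r / x)) * fm e₁ e₂ q₁ q₂ (r / y)) = _
      rw [hf _ (div_pos hr0 hx), hm _ (div_pos hr0 hy)]
    have k2' : kd a (fun ν => (q₁ + q₂) - fp e₁ e₂ q₁ q₂ ν) (fm e₁ e₂ q₁ q₂) 1 1 =
        k2 a e₁ e₂ s (q₁ + q₂) := by
      unfold kd k2
      rw [mul_one, Real.one_rpow, one_mul, ← integral_const_mul]
      refine setIntegral_congr_fun measurableSet_Ioi fun r hr => ?_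
      have hr0 : (0 : ℝ) < r := hr
      show r ^ (2 * a - 1) * (((q₁ + q₂) - fp e₁ e₂ q₁ q₂ (r / 1)) * fm e₁ e₂ q₁ q₂ (r / 1)) = _
      rw [div_one, hf _ hr0, hm _ hr0]
      rcases le_total r s with h | h
      · rw [ff_zero h]
        ring
      · rw [mm_zero h]
        ring
    have k3 : ∀ x y : ℝ, 0 < x → 0 < y → kn a (fp e₁ e₂ q₁ q₂) (fm e₁ e₂ q₁ q₂) x y =
        Kfm a e₁ e₂ s (q₁ + q₂) x y := by
      intro x y hx hy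
      unfold kn Kfm
      congr 1
      refine setIntegral_congr_fun measurableSet_Ioi fun r hr => ?_
      have hr0 : (0 : ℝ) < r := hr
      show r ^ (2 * a - 2) * (fp e₁ e₂ q₁ q₂ (r / x) * fm e₁ e₂ q₁ q₂ (r / y)) = _
      rw [hf _ (div_pos hr0 hx), hm _ (div_pos hr0 hy)]
    have k4 : kn a (fp e₁ e₂ q₁ q₂) (fp e₁ e₂ q₁ q₂) 1 1 = rff a e₁ e₂ s (q₁ + q₂) := by
      unfold kn rff
      rw [mul_one, Real.one_rpow, one_mul]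
      refine setIntegral_congr_fun measurableSet_Ioi fun r hr => ?_
      have hr0 : (0 : ℝ) < r := hr
      show r ^ (2 * a - 2) * (fp e₁ e₂ q₁ q₂ (r / 1) * fp e₁ e₂ q₁ q₂ (r / 1)) = _
      rw [div_one, hf _ hr0]
      ring
    refine ⟨by rw [k2']; exact k2_nonneg he₁ he₂ hc, fun x y hx hy => ⟨?_, ?_, ?_, ?_⟩⟩
    · rw [k3 x y hx hy, k4, k2']
      exact E22 h0 h1 he₁ he₂ hs hc e he hel x y hx hy
    · rw [k1 x y hx hy, k2']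
      exact K2_le h0 h1 he₁ he₂ hs hc x y hx hy
    · rw [k1 x y hx hy, k3 x y hx hy]
      exact K2_ge h0 h1 he₁ he₂ hs hc e he.le hel x y hx hy
    · exact E7c_kn_nn hx hy

end Pool.Agent.LibSchE
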