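import Pool.Agent.LibSchE.E7
import Pool.Agent.LibSchE.E4

/-! **E8a.**  (PD+) and the relations between the two columns. -/

open MeasureTheory Set Matrix
open scoped ComplexOrder

namespace Pool.Agent.LibSchE

open Pool.Agent.LibSchP Pool.Agent.LibSchA

variable {a e₁ e₂ c s : ℝ} {X Z : Fin 2 → ℝ}

/-- powers of `w = e^(a-1/2)` -/
theorem E8a_w {a e : ℝ} (he : 0 < e) : 0 < e ^ (a - 1 / 2) ∧
    e ^ (2 * a - 1) = (e ^ (a - 1 / 2)) ^ 2 ∧ e ^ (2 * a) = (e ^ (a - 1 / 2)) ^ 2 * e ∧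
    e ^ (2 - 2 * a) * (e ^ (a - 1 / 2)) ^ 2 = e := by
  have h1 : (e ^ (a - 1 / 2)) ^ 2 = e ^ (2 * a - 1) := by
    rw [← Real.rpow_natCast, ← Real.rpow_mul he.le]
    congr 1
    push_cast
    ring
  refine ⟨Real.rpow_pos_of_pos he _, h1.symm, ?_, ?_⟩
  · rw [h1, ← Real.rpow_add_one he.ne']
    congr 1
    ring
  · rw [h1, ← Real.rpow_add he]
    have : 2 - 2 * a + (2 * a - 1) = 1 := by ring
    rw [this, Real.rpow_one]

/-- `√e₁ w₂ Z₁ = √e₂ w₁ X₀`, `√e₁ w₂ Z₀ = -√e₂ w₁ X₁` -/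
theorem E8a_rel (D : BDat a e₁ e₂ c s X Z) :
    √e₁ * (e₂ ^ (a - 1 / 2) * Z 1) = √e₂ * (e₁ ^ (a - 1 / 2) * X 0) ∧
    √e₁ * (e₂ ^ (a - 1 / 2) * Z 0) = -(√e₂ * (e₁ ^ (a - 1 / 2) * X 1)) := by
  have he₂ := D.he₂
  have he₁ : 0 < e₁ := he₂.trans D.he
  obtain ⟨w1, -, -, k1⟩ := E8a_w (a := a) he₁
  obtain ⟨w2, -, -, k2⟩ := E8a_w (a := a) he₂
  set u := e₁ ^ (a - 1 / 2)
  set v := e₂ ^ (a - 1 / 2)
  have s1 : 0 < √e₁ := Real.sqrt_pos.2 he₁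
  have s2 : 0 < √e₂ := Real.sqrt_pos.2 he₂
  have q1 : √e₁ ^ 2 = e₁ := Real.sq_sqrt he₁.le
  have q2 : √e₂ ^ 2 = e₂ := Real.sq_sqrt he₂.le
  have hX := D.hX
  have hZ := D.hZ
  have h := D.hXZ
  have hE1 : 0 < e₁ ^ (2 - 2 * a) := Real.rpow_pos_of_pos he₁ _
  have hE2 : 0 < e₂ ^ (2 - 2 * a) := Real.rpow_pos_of_pos he₂ _
  have hsq : Z 1 ^ 2 * e₁ ^ (2 - 2 * a) = X 0 ^ 2 * e₂ ^ (2 - 2 * a) := by
    rw [← hX, ← hZ]
    linear_combination (X 1 * Z 1 - X 0 * Z 0) * h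
  have hsq0 : Z 0 ^ 2 * e₁ ^ (2 - 2 * a) = X 1 ^ 2 * e₂ ^ (2 - 2 * a) := by
    rw [← hX, ← hZ]
    linear_combination (X 0 * Z 0 - X 1 * Z 1) * h
  have e1 : (√e₁ * (v * Z 1)) ^ 2 = (√e₂ * (u * X 0)) ^ 2 := by
    have : (√e₁ * (v * Z 1)) ^ 2 = e₁ * v ^ 2 * Z 1 ^ 2 := by rw [mul_pow, mul_pow, q1]; ring
    rw [this]
    have : (√e₂ * (u * X 0)) ^ 2 = e₂ * u ^ 2 * X 0 ^ 2 := by
      rw [mul_pow, mul_pow, q2]; ring
    rw [this]
    have h3 : e₁ * v ^ 2 * Z 1 ^ 2 = u ^ 2 * v ^ 2 * (Z 1 ^ 2 * e₁ ^ (2 - 2 * a)) := by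
      nth_rewrite 1 [← k1]; ring
    have h4 : e₂ * u ^ 2 * X 0 ^ 2 = u ^ 2 * v ^ 2 * (X 0 ^ 2 * e₂ ^ (2 - 2 * a)) := by
      nth_rewrite 1 [← k2]; ring
    rw [h3, h4, hsq]
  have e0 : (√e₁ * (v * -Z 0)) ^ 2 = (√e₂ * (u * X 1)) ^ 2 := by
    have : (√e₁ * (v * -Z 0)) ^ 2 = e₁ * v ^ 2 * Z 0 ^ 2 := by
      rw [mul_pow, mul_pow, q1]; ring
    rw [this]
    have : (√e₂ * (u * X 1)) ^ 2 = e₂ * u ^ 2 * X 1 ^ 2 := by
      rw [mul_pow, mul_pow, q2]; ring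
    rw [this]
    have h3 : e₁ * v ^ 2 * Z 0 ^ 2 = u ^ 2 * v ^ 2 * (Z 0 ^ 2 * e₁ ^ (2 - 2 * a)) := by
      nth_rewrite 1 [← k1]; ring
    have h4 : e₂ * u ^ 2 * X 1 ^ 2 = u ^ 2 * v ^ 2 * (X 1 ^ 2 * e₂ ^ (2 - 2 * a)) := by
      nth_rewrite 1 [← k2]; ring
    rw [h3, h4, hsq0]
  have hz1 := D.hZ1
  have hz0 := D.hZ0
  have hx0 := D.hX0
  have hx1 := D.hX1
  constructor
  · exact (pow_left_inj₀ (by positivity) (by positivity) two_ne_zero).1 e1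
  · have hz0' : 0 < -Z 0 := by linarith
    have := (pow_left_inj₀ (by positivity) (by positivity) two_ne_zero).1 e0
    linarith

/-- `s w₁ X₀ ≤ c w₁ X₁`, i.e. `s X₀ ≤ c X₁`, from the bad entry -/
theorem E8a_bad (D : BDat a e₁ e₂ c s X Z) : s * X 0 < c * X 1 := by
  have he₂ := D.he₂
  have he₁ : 0 < e₁ := he₂.trans D.he
  obtain ⟨w1, m1, n1, k1⟩ := E8a_w (a := a) he₁
  obtain ⟨w2, m2, n2, k2⟩ := E8a_w (a := a) he₂
  have hb := D.bad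
  obtain ⟨-, r0⟩ := E8a_rel D
  have hpow : e₂ ^ (2 * a) < e₁ ^ (2 * a) :=
    Real.rpow_lt_rpow he₂.le D.he (by linarith [D.ha])
  rw [m1, m2] at hb
  rw [n1, n2] at hpow
  set u := e₁ ^ (a - 1 / 2)
  set v := e₂ ^ (a - 1 / 2)
  have s1 : 0 < √e₁ := Real.sqrt_pos.2 he₁
  have s2 : 0 < √e₂ := Real.sqrt_pos.2 he₂
  have q1 : √e₁ ^ 2 = e₁ := Real.sq_sqrt he₁.le
  have q2 : √e₂ ^ 2 = e₂ := Real.sq_sqrt he₂.le
  -- `v √e₂ < u √e₁`
  have h1 : v * √e₂ < u * √e₁ := by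
    have : (v * √e₂) ^ 2 < (u * √e₁) ^ 2 := by rw [mul_pow, mul_pow, q1, q2]; exact hpow
    exact lt_of_pow_lt_pow_left₀ 2 (by positivity) this
  -- multiply `hb` by `√e₁`
  have h2 : √e₁ * (u ^ 2 * (s * X 0)) < v * c * (√e₂ * (u * X 1)) := by
    have h3 := mul_lt_mul_of_pos_left hb s1
    have h4 : √e₁ * (u ^ 2 * (s * X 0) + v ^ 2 * (c * Z 0)) =
        √e₁ * (u ^ 2 * (s * X 0)) + v * c * (√e₁ * (v * Z 0)) := by ring
    rw [h4, r0, mul_zero] at h3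
    linarith
  have h5 : u * √e₁ * (u * (s * X 0)) < u * √e₁ * (u * (c * X 1)) := by
    have hx1 := D.hX1
    have hc := D.hc
    have h6 : v * c * (√e₂ * (u * X 1)) ≤ u * √e₁ * (u * (c * X 1)) := by
      have h7 : v * c * (√e₂ * (u * X 1)) = (v * √e₂) * (u * (c * X 1)) := by ring
      rw [h7]
      exact mul_le_mul_of_nonneg_right h1.le (by positivity)
    calc u * √e₁ * (u * (s * X 0)) = √e₁ * (u ^ 2 * (s * X 0)) := by ring
      _ < _ := h2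
      _ ≤ _ := h6
  have h8 := lt_of_mul_lt_mul_left h5 (by positivity)
  exact lt_of_mul_lt_mul_left h8 w1.le

/-- **(PD+)** -/
theorem pd_plus (D : BDat a e₁ e₂ c s X Z) :
    C1 e₁ e₂ (c * X 1) (-(s * Z 1)) (s * X 1) (c * Z 1) * (e₁ * e₂) ^ (a - 1 / 2) ≤
      C0 a e₁ e₂ (c * X 1) (-(s * Z 1)) (s * X 1) (c * Z 1) := by
  have he₂ := D.he₂
  have he := D.he
  have he₁ : 0 < e₁ := he₂.trans he
  obtain ⟨w1, m1, n1, k1⟩ := E8a_w (a := a) he₁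
  obtain ⟨w2, m2, n2, k2⟩ := E8a_w (a := a) he₂
  obtain ⟨r1, -⟩ := E8a_rel D
  have hbad := E8a_bad D
  have hcs := D.hcs
  have hc := D.hc
  have hs := D.hs
  have hx0 := D.hX0
  have hx1 := D.hX1
  have hz1 := D.hZ1
  unfold C0 C1
  rw [m1, m2, n1, n2, Real.mul_rpow he₁.le he₂.le]
  set u := e₁ ^ (a - 1 / 2)
  set v := e₂ ^ (a - 1 / 2)
  set x := X 0
  set y := X 1
  set z := Z 1
  have s1 : 0 < √e₁ := Real.sqrt_pos.2 he₁
  have s2 : 0 < √e₂ := Real.sqrt_pos.2 he₂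
  have q1 : √e₁ ^ 2 = e₁ := Real.sq_sqrt he₁.le
  have q2 : √e₂ ^ 2 = e₂ := Real.sq_sqrt he₂.le
  have hss : √e₂ < √e₁ := Real.sqrt_lt_sqrt he₂.le he
  set A := √e₁
  set B := √e₂
  have hd : 0 < e₁ - e₂ := sub_pos.mpr he
  rw [← sub_nonneg]
  have key : 0 ≤ (c * s) * (u * y) ^ 2 - (c * s) * (v * z) ^ 2 +
      (u * y) * (v * z) * ((u ^ 2 * e₁ + v ^ 2 * e₂) / (u * v) - 2 * (c ^ 2 * e₂ + s ^ 2 * e₁)) /
        (e₁ - e₂) := by
    -- AM-GM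
    have h1 : 2 * (A * B) ≤ (u ^ 2 * e₁ + v ^ 2 * e₂) / (u * v) := by
      rw [le_div_iff₀ (by positivity), ← q1, ← q2]
      linarith [sq_nonneg (u * A - v * B)]
    have h2 : 0 ≤ (u * y) * (v * z) := by positivity
    have h3 : (u * y) * (v * z) * (2 * (A * B) - 2 * (c ^ 2 * e₂ + s ^ 2 * e₁)) / (e₁ - e₂) ≤
        (u * y) * (v * z) * ((u ^ 2 * e₁ + v ^ 2 * e₂) / (u * v) -
          2 * (c ^ 2 * e₂ + s ^ 2 * e₁)) / (e₁ - e₂) := by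
      gcongr
    refine le_trans ?_ (add_le_add_right h3 _)
    have h4 : (2 * (A * B) - 2 * (c ^ 2 * e₂ + s ^ 2 * e₁)) / (e₁ - e₂) =
        2 * (c ^ 2 * B - s ^ 2 * A) / (A + B) := by
      rw [div_eq_div_iff hd.ne' (by positivity), ← q1, ← q2]
      have : s ^ 2 = 1 - c ^ 2 := by linarith
      rw [this]
      ring
    rw [mul_div_assoc, h4]
    -- `v z = (B/A) u x`
    have h5 : v * z = B / A * (u * x) := by
      field_simp
      linear_combination r1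
    rw [h5]
    have h6 : (c * s) * (u * y) ^ 2 - (c * s) * (B / A * (u * x)) ^ 2 +
        (u * y) * (B / A * (u * x)) * (2 * (c ^ 2 * B - s ^ 2 * A) / (A + B)) =
        u ^ 2 * ((y * s) * (c * y - (2 * B / (A + B)) * (s * x)) +
          (B / A) * x * c * ((2 * B / (A + B)) * (c * y) - (B / A) * (s * x))) := by
      field_simp
      ring
    rw [h6]
    have h7 : 2 * B / (A + B) ≤ 1 := by rw [div_le_one (by positivity)]; linarith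
    have h8 : B / A ≤ 2 * B / (A + B) := by
      rw [div_le_div_iff₀ s1 (by positivity)]
      have := mul_lt_mul_of_pos_left hss s2
      linarith
    have h9 : (2 * B / (A + B)) * (s * x) ≤ c * y := by
      have : (2 * B / (A + B)) * (s * x) ≤ 1 * (s * x) :=
        mul_le_mul_of_nonneg_right h7 (by positivity)
      linarith
    have h10 : (B / A) * (s * x) ≤ (2 * B / (A + B)) * (c * y) := by
      have h11 : (B / A) * (s * x) ≤ (2 * B / (A + B)) * (s * x) :=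
        mul_le_mul_of_nonneg_right h8 (by positivity)
      have h12 : (2 * B / (A + B)) * (s * x) ≤ (2 * B / (A + B)) * (c * y) :=
        mul_le_mul_of_nonneg_left hbad.le (by positivity)
      linarith
    have h13 : 0 ≤ (y * s) * (c * y - (2 * B / (A + B)) * (s * x)) :=
      mul_nonneg (by positivity) (by linarith)
    have h14 : 0 ≤ (B / A) * x * c * ((2 * B / (A + B)) * (c * y) - (B / A) * (s * x)) :=
      mul_nonneg (by positivity) (by linarith)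
    positivity
  refine le_trans key (le_of_eq ?_)
  field_simp
  have : s ^ 2 = 1 - c ^ 2 := by linarith
  ring_nf
  rw [this]
  ring

end Pool.Agent.LibSchE
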