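import Pool.Agent.LibSchE.E7

/-! **E8b.**  Lemmas N and Y (helper43): comparison of the truncated kernels with `ρ = 1`. -/

open MeasureTheory Set

namespace Pool.Agent.LibSchE

open Pool.Agent.LibSchP Pool.Agent.LibSchA

variable {a e₁ e₂ q ρ G κ : ℝ}

theorem e8b_lin {F f₁ f₂ f₃ f₄ : ℝ → ℝ} (c₁ c₂ c₃ c₄ : ℝ)
    (hF : ∀ t, F t = c₁ * f₁ t + c₂ * f₂ t + c₃ * f₃ t + c₄ * f₄ t)
    (i1 : IntegrableOn f₁ (Ioi 0)) (i2 : IntegrableOn f₂ (Ioi 0)) (i3 : IntegrableOn f₃ (Ioi 0))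
    (i4 : IntegrableOn f₄ (Ioi 0)) :
    ∫ t in Ioi (0 : ℝ), F t = c₁ * (∫ t in Ioi (0 : ℝ), f₁ t) + c₂ * (∫ t in Ioi (0 : ℝ), f₂ t) +
      c₃ * (∫ t in Ioi (0 : ℝ), f₃ t) + c₄ * ∫ t in Ioi (0 : ℝ), f₄ t := by
  have j1 : IntegrableOn (fun t => c₁ * f₁ t) (Ioi 0) := i1.const_mul c₁
  have j2 : IntegrableOn (fun t => c₂ * f₂ t) (Ioi 0) := i2.const_mul c₂
  have j3 : IntegrableOn (fun t => c₃ * f₃ t) (Ioi 0) := i3.const_mul c₃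
  have j4 : IntegrableOn (fun t => c₄ * f₄ t) (Ioi 0) := i4.const_mul c₄
  have j12 : IntegrableOn (fun t => c₁ * f₁ t + c₂ * f₂ t) (Ioi 0) := j1.add j2
  have j123 : IntegrableOn (fun t => c₁ * f₁ t + c₂ * f₂ t + c₃ * f₃ t) (Ioi 0) := j12.add j3
  simp_rw [hF]
  rw [integral_add j123 j4, integral_add j12 j3, integral_add j1 j2, integral_const_mul,
    integral_const_mul, integral_const_mul, integral_const_mul]

/-- Chebyshev's integral inequality, oppositely ordered functions -/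
theorem e8b_cheb {w f g : ℝ → ℝ} (hw : ∀ t, 0 < t → 0 ≤ w t)
    (hfg : ∀ s t, 0 < s → 0 < t → (f s - f t) * (g s - g t) ≤ 0)
    (i0 : IntegrableOn w (Ioi 0)) (i1 : IntegrableOn (fun t => w t * f t) (Ioi 0))
    (i2 : IntegrableOn (fun t => w t * g t) (Ioi 0))
    (i3 : IntegrableOn (fun t => w t * (f t * g t)) (Ioi 0)) :
    (∫ t in Ioi (0 : ℝ), w t * (f t * g t)) * (∫ t in Ioi (0 : ℝ), w t) ≤
      (∫ t in Ioi (0 : ℝ), w t * f t) * ∫ t in Ioi (0 : ℝ), w t * g t := by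
  set W := ∫ t in Ioi (0 : ℝ), w t
  set F := ∫ t in Ioi (0 : ℝ), w t * f t
  set K := ∫ t in Ioi (0 : ℝ), w t * g t
  set A := ∫ t in Ioi (0 : ℝ), w t * (f t * g t)
  have h1 : ∀ s, 0 < s → f s * g s * W - f s * K - g s * F + A ≤ 0 := by
    intro s hs
    have e : ∫ t in Ioi (0 : ℝ), w t * ((f s - f t) * (g s - g t)) =
        f s * g s * W - f s * K - g s * F + A := by
      rw [e8b_lin (f s * g s) (-f s) (-g s) 1 (fun t => by ring) i0 i2 i1 i3]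
      ring
    rw [← e]
    refine setIntegral_nonpos measurableSet_Ioi fun t ht => ?_
    exact mul_nonpos_of_nonneg_of_nonpos (hw t ht) (hfg s t hs ht)
  have h2 : ∫ s in Ioi (0 : ℝ), w s * (f s * g s * W - f s * K - g s * F + A) ≤ 0 :=
    setIntegral_nonpos measurableSet_Ioi fun t ht =>
      mul_nonpos_of_nonneg_of_nonpos (hw t ht) (h1 t ht)
  have e2 : ∫ s in Ioi (0 : ℝ), w s * (f s * g s * W - f s * K - g s * F + A) =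
      A * W - F * K - K * F + W * A := by
    rw [e8b_lin W (-K) (-F) A (fun t => by ring) i3 i1 i2 i0]
    ring
  rw [e2] at h2
  linarith

/-- the Möbius substitution `ν = e₂ G t/(e₂ + κ t)` -/
theorem e8b_cov (he₂ : 0 < e₂) (hG : 0 < G) (hκ : 0 ≤ κ) (F : ℝ → ℝ)
    (hF : ∀ ν, 0 < ν → e₂ * G ≤ κ * ν → F ν = 0) :
    ∫ ν in Ioi (0 : ℝ), F ν = ∫ t in Ioi (0 : ℝ),
      e₂ ^ 2 * G / (e₂ + κ * t) ^ 2 * F (e₂ * G * t / (e₂ + κ * t)) := by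
  set M : ℝ → ℝ := fun t => e₂ * G * t / (e₂ + κ * t)
  have hpos : ∀ t ∈ Ioi (0 : ℝ), 0 < e₂ + κ * t := fun t ht => by
    have : 0 ≤ κ * t := mul_nonneg hκ (le_of_lt ht)
    linarith
  have hder : ∀ t ∈ Ioi (0 : ℝ), HasDerivWithinAt M (e₂ ^ 2 * G / (e₂ + κ * t) ^ 2) (Ioi 0) t := by
    intro t ht
    have h := hpos t ht
    have d1 : HasDerivAt (fun t : ℝ => e₂ * G * t) (e₂ * G) t := by
      simpa using (hasDerivAt_id t).const_mul (e₂ * G)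
    have d2 : HasDerivAt (fun t : ℝ => e₂ + κ * t) κ t := by
      simpa using ((hasDerivAt_id t).const_mul κ).const_add e₂
    have d3 := (d1.div d2 h.ne').hasDerivWithinAt (s := Ioi 0)
    refine d3.congr_deriv ?_
    congr 1
    ring
  have hinj : InjOn M (Ioi 0) := by
    intro x hx y hy hxy
    have h1 := hpos x hx
    have h2 := hpos y hy
    have h3 : e₂ * G * x * (e₂ + κ * y) = e₂ * G * y * (e₂ + κ * x) :=
      (div_eq_div_iff h1.ne' h2.ne').1 hxy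
    have h4 : e₂ ^ 2 * G * x = e₂ ^ 2 * G * y := by linear_combination h3
    exact mul_left_cancel₀ (by positivity) h4
  have himg : M '' (Ioi 0) = {ν | 0 < ν ∧ κ * ν < e₂ * G} := by
    ext ν
    constructor
    · rintro ⟨t, ht, rfl⟩
      have h := hpos t ht
      have ht' : 0 < t := ht
      refine ⟨by show 0 < e₂ * G * t / (e₂ + κ * t); positivity, ?_⟩
      show κ * (e₂ * G * t / (e₂ + κ * t)) < e₂ * G
      rw [← mul_div_assoc, div_lt_iff₀ h]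
      nlinarith [mul_pos (mul_pos he₂ hG) he₂]
    · rintro ⟨h1, h2⟩
      have h3 : 0 < e₂ * G - κ * ν := by linarith
      refine ⟨e₂ * ν / (e₂ * G - κ * ν), mem_Ioi.2 (by positivity), ?_⟩
      show e₂ * G * (e₂ * ν / (e₂ * G - κ * ν)) / (e₂ + κ * (e₂ * ν / (e₂ * G - κ * ν))) = ν
      have h4 : e₂ + κ * (e₂ * ν / (e₂ * G - κ * ν)) = e₂ ^ 2 * G / (e₂ * G - κ * ν) := by
        rw [eq_div_iff h3.ne', add_mul, mul_assoc, div_mul_cancel₀ _ h3.ne']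
        ring
      rw [h4]
      have h5 : e₂ * G * (e₂ * ν / (e₂ * G - κ * ν)) = ν * (e₂ ^ 2 * G / (e₂ * G - κ * ν)) := by
        ring
      rw [h5, mul_div_cancel_right₀ _ (by positivity)]
  have h1 : ∫ ν in Ioi (0 : ℝ), F ν = ∫ ν in M '' (Ioi 0), F ν := by
    rw [himg]
    refine setIntegral_eq_of_subset_of_forall_sdiff_eq_zero measurableSet_Ioi
      (fun ν hν => hν.1) fun ν hν => ?_
    refine hF ν hν.1 ?_
    by_contra hcon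
    exact hν.2 ⟨hν.1, not_le.1 hcon⟩
  rw [h1, integral_image_eq_integral_abs_deriv_smul measurableSet_Ioi hder hinj]
  refine setIntegral_congr_fun measurableSet_Ioi fun t ht => ?_
  have h := hpos t ht
  show |e₂ ^ 2 * G / (e₂ + κ * t) ^ 2| • F (M t) = _
  rw [abs_of_nonneg (by positivity), smul_eq_mul]

noncomputable def bR (e₁ e₂ κ t : ℝ) : ℝ := e₂ * (e₁ + t) + κ * (e₁ - e₂) * t

noncomputable def bH (e₁ e₂ q κ t : ℝ) : ℝ := 1 / bR e₁ e₂ κ t + q / (e₂ * (e₂ + t))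

noncomputable def bP (a e₂ κ t : ℝ) : ℝ := t ^ (2 * a) * (e₂ + κ * t) ^ (-(2 * a))

noncomputable def bw (a e₁ e₂ q κ t : ℝ) : ℝ :=
  bP a e₂ κ t * (bH e₁ e₂ q κ t / ((e₂ + t) * bR e₁ e₂ κ t))

noncomputable def bv (a e₁ e₂ κ t : ℝ) : ℝ := bP a e₂ κ t * (1 / ((e₂ + t) * bR e₁ e₂ κ t)) ^ 2

theorem bR_ge (he : e₂ < e₁) (hκ : 0 ≤ κ) {t : ℝ} (ht : 0 < t) :
    e₂ * (e₁ + t) ≤ bR e₁ e₂ κ t := by
  unfold bR
  have : 0 ≤ κ * (e₁ - e₂) * t := mul_nonneg (mul_nonneg hκ (by linarith)) ht.le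
  linarith

theorem bR_pos (he₂ : 0 < e₂) (he : e₂ < e₁) (hκ : 0 ≤ κ) {t : ℝ} (ht : 0 < t) :
    0 < bR e₁ e₂ κ t :=
  lt_of_lt_of_le (mul_pos he₂ (by linarith)) (bR_ge he hκ ht)

/-- the power factor -/
theorem e8b_pow (he₂ : 0 < e₂) (hG : 0 < G) (hκ : 0 ≤ κ) {t : ℝ} (ht : 0 < t) :
    e₂ ^ 2 * G / (e₂ + κ * t) ^ 2 * (e₂ * G * t / (e₂ + κ * t)) ^ (2 * a - 2) *
      (G * t * e₂) ^ 2 = (e₂ * G) ^ (2 * a) * G * e₂ ^ 2 * bP a e₂ κ t := by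
  have hS : 0 < e₂ + κ * t := by
    have := mul_nonneg hκ ht.le
    linarith
  have h1 : (e₂ * G * t / (e₂ + κ * t)) ^ (2 * a - 2) =
      (e₂ * G) ^ (2 * a) / (e₂ * G) ^ 2 * (t ^ (2 * a) / t ^ 2) /
        ((e₂ + κ * t) ^ (2 * a) / (e₂ + κ * t) ^ 2) := by
    rw [Real.div_rpow (by positivity) hS.le, Real.mul_rpow (by positivity) ht.le,
      Real.rpow_sub (by positivity), Real.rpow_sub ht, Real.rpow_sub hS]
    norm_cast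
  have h2 : (e₂ + κ * t) ^ (2 * a) ≠ 0 := (Real.rpow_pos_of_pos hS _).ne'
  rw [h1, bP, Real.rpow_neg hS.le]
  field_simp

theorem e8b_ph (he₂ : 0 < e₂) (he : e₂ < e₁) (hG : 0 < G) (hκ : 0 ≤ κ) (hGκ : G + κ = 1)
    {t : ℝ} (ht : 0 < t) (p : ℝ) : ph e₁ e₂ p q (e₂ * G * t / (e₂ + κ * t)) =
      G * t * e₂ * (p / bR e₁ e₂ κ t + q / (e₂ * (e₂ + t))) := by
  have hS : 0 < e₂ + κ * t := by
    have := mul_nonneg hκ ht.le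
    linarith
  have hR := bR_pos (e₁ := e₁) he₂ he hκ ht
  have h1 : e₂ * G * t / (e₂ + κ * t) + e₁ = bR e₁ e₂ κ t / (e₂ + κ * t) := by
    rw [eq_div_iff hS.ne', add_mul, div_mul_cancel₀ _ hS.ne']
    unfold bR
    rw [← sub_eq_zero]
    linear_combination (e₂ * t) * hGκ
  have h2 : e₂ * G * t / (e₂ + κ * t) + e₂ = e₂ * (e₂ + t) / (e₂ + κ * t) := by
    rw [eq_div_iff hS.ne', add_mul, div_mul_cancel₀ _ hS.ne']
    linear_combination (e₂ * t) * hGκ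
  unfold ph
  rw [h1, h2]
  field_simp

theorem e8b_fm (he₂ : 0 < e₂) (he : e₂ < e₁) (hG : 0 < G) (hκ : 0 ≤ κ) (hGκ : G + κ = 1)
    (hρ : e₂ < ρ * e₁) (hρG : ρ * (e₁ - e₂) * G = ρ * e₁ - e₂) {t : ℝ} (ht : 0 < t) :
    fm e₁ e₂ 1 (-ρ) (e₂ * G * t / (e₂ + κ * t)) =
      G * t * e₂ * ((ρ * e₁ - e₂) / ((e₂ + t) * bR e₁ e₂ κ t)) := by
  have hR := bR_pos (e₁ := e₁) he₂ he hκ ht
  unfold fm
  rw [e8b_ph he₂ he hG hκ hGκ ht]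
  have h1 : -(G * t * e₂ * (1 / bR e₁ e₂ κ t + -ρ / (e₂ * (e₂ + t)))) =
      G * t * e₂ * ((ρ * e₁ - e₂) / ((e₂ + t) * bR e₁ e₂ κ t)) := by
    have h2 : -(1 / bR e₁ e₂ κ t + -ρ / (e₂ * (e₂ + t))) =
        (ρ * e₁ - e₂) / ((e₂ + t) * bR e₁ e₂ κ t) := by
      field_simp
      unfold bR
      rw [← sub_eq_zero]
      linear_combination (t * ρ * (e₁ - e₂)) * hGκ - t * hρG
    rw [← h2]
    ring
  rw [h1]
  have : 0 < ρ * e₁ - e₂ := by linarith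
  exact max_eq_left (by positivity)

theorem e8b_fm0 (he₂ : 0 < e₂) (he : e₂ < e₁) (hGκ : G + κ = 1) (hρ0 : 0 < ρ)
    (hρG : ρ * (e₁ - e₂) * G = ρ * e₁ - e₂) {ν : ℝ} (hν : 0 < ν) (h : e₂ * G ≤ κ * ν) :
    fm e₁ e₂ 1 (-ρ) ν = 0 := by
  unfold fm ph
  refine max_eq_right ?_
  have h1 : 0 < ν + e₁ := by linarith
  have h2 : 0 < ν + e₂ := by linarith
  have h3 : ρ * e₁ - e₂ ≤ (1 - ρ) * ν := by
    have h4 : 0 ≤ ρ * (e₁ - e₂) := mul_nonneg hρ0.le (by linarith)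
    have h5 := mul_le_mul_of_nonneg_left h h4
    have h6 : e₂ * (ρ * e₁ - e₂) ≤ e₂ * ((1 - ρ) * ν) := by
      have e1 : e₂ * (ρ * e₁ - e₂) = ρ * (e₁ - e₂) * (e₂ * G) := by
        linear_combination (-e₂) * hρG
      have e2 : e₂ * ((1 - ρ) * ν) = ρ * (e₁ - e₂) * (κ * ν) := by
        linear_combination (-(ρ * (e₁ - e₂) * ν)) * hGκ + ν * hρG
      rw [e1, e2]
      exact h5
    exact le_of_mul_le_mul_left h6 he₂
  rw [neg_nonpos]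
  have h7 : 1 * (ν / (ν + e₁)) + -ρ * (ν / (ν + e₂)) =
      ν * ((1 - ρ) * ν - (ρ * e₁ - e₂)) / ((ν + e₁) * (ν + e₂)) := by
    field_simp
    ring
  rw [h7]
  exact div_nonneg (mul_nonneg hν.le (by linarith)) (by positivity)

/-- `⟨h, m_ρ⟩` -/
theorem e8b_hm (he₂ : 0 < e₂) (he : e₂ < e₁) (hG : 0 < G) (hκ : 0 ≤ κ) (hGκ : G + κ = 1)
    (hρ : e₂ < ρ * e₁) (hρ0 : 0 < ρ) (hρG : ρ * (e₁ - e₂) * G = ρ * e₁ - e₂) :
    kn a (ph e₁ e₂ 1 q) (fm e₁ e₂ 1 (-ρ)) 1 1 =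
      (e₂ * G) ^ (2 * a) * G * e₂ ^ 2 * (ρ * e₁ - e₂) *
        ∫ t in Ioi (0 : ℝ), bw a e₁ e₂ q κ t := by
  rw [e1c_kn1, e8b_cov he₂ hG hκ, ← integral_const_mul]
  · refine setIntegral_congr_fun measurableSet_Ioi fun t ht => ?_
    have ht' : 0 < t := ht
    have hR := bR_pos (e₁ := e₁) he₂ he hκ ht'
    show e₂ ^ 2 * G / (e₂ + κ * t) ^ 2 * ((e₂ * G * t / (e₂ + κ * t)) ^ (2 * a - 2) *
      (ph e₁ e₂ 1 q (e₂ * G * t / (e₂ + κ * t)) * fm e₁ e₂ 1 (-ρ) (e₂ * G * t / (e₂ + κ * t)))) =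
      (e₂ * G) ^ (2 * a) * G * e₂ ^ 2 * (ρ * e₁ - e₂) * bw a e₁ e₂ q κ t
    rw [e8b_ph he₂ he hG hκ hGκ ht', e8b_fm he₂ he hG hκ hGκ hρ hρG ht']
    have h := e8b_pow (a := a) he₂ hG hκ ht'
    unfold bw bH
    linear_combination ((1 / bR e₁ e₂ κ t + q / (e₂ * (e₂ + t))) *
      ((ρ * e₁ - e₂) / ((e₂ + t) * bR e₁ e₂ κ t))) * h
  · intro ν hν h
    rw [e8b_fm0 he₂ he hGκ hρ0 hρG hν h]
    ring

/-- `⟨m_ρ, m_ρ⟩` -/
theorem e8b_mm (he₂ : 0 < e₂) (he : e₂ < e₁) (hG : 0 < G) (hκ : 0 ≤ κ) (hGκ : G + κ = 1)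
    (hρ : e₂ < ρ * e₁) (hρ0 : 0 < ρ) (hρG : ρ * (e₁ - e₂) * G = ρ * e₁ - e₂) :
    kn a (fm e₁ e₂ 1 (-ρ)) (fm e₁ e₂ 1 (-ρ)) 1 1 =
      (e₂ * G) ^ (2 * a) * G * e₂ ^ 2 * (ρ * e₁ - e₂) ^ 2 *
        ∫ t in Ioi (0 : ℝ), bv a e₁ e₂ κ t := by
  rw [e1c_kn1, e8b_cov he₂ hG hκ, ← integral_const_mul]
  · refine setIntegral_congr_fun measurableSet_Ioi fun t ht => ?_
    have ht' : 0 < t := ht
    have hR := bR_pos (e₁ := e₁) he₂ he hκ ht'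
    show e₂ ^ 2 * G / (e₂ + κ * t) ^ 2 * ((e₂ * G * t / (e₂ + κ * t)) ^ (2 * a - 2) *
      (fm e₁ e₂ 1 (-ρ) (e₂ * G * t / (e₂ + κ * t)) *
        fm e₁ e₂ 1 (-ρ) (e₂ * G * t / (e₂ + κ * t)))) =
      (e₂ * G) ^ (2 * a) * G * e₂ ^ 2 * (ρ * e₁ - e₂) ^ 2 * bv a e₁ e₂ κ t
    rw [e8b_fm he₂ he hG hκ hGκ hρ hρG ht']
    have h := e8b_pow (a := a) he₂ hG hκ ht'
    unfold bv
    have h2 : (ρ * e₁ - e₂) / ((e₂ + t) * bR e₁ e₂ κ t) =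
      (ρ * e₁ - e₂) * (1 / ((e₂ + t) * bR e₁ e₂ κ t)) := by ring
    rw [h2]
    linear_combination ((ρ * e₁ - e₂) * (1 / ((e₂ + t) * bR e₁ e₂ κ t))) ^ 2 * h
  · intro ν hν h
    rw [e8b_fm0 he₂ he hGκ hρ0 hρG hν h]
    ring

/-- integrability by comparison -/
theorem e8b_itg (h0 : 0 < a) (h1 : 2 * a < 1) (he₂ : 0 < e₂) {F : ℝ → ℝ} (hF : Measurable F)
    (C : ℝ) (hb : ∀ t, 0 < t → |F t| ≤ C * (t ^ (2 * a) / (e₂ + t) ^ 2)) :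
    IntegrableOn F (Ioi 0) := by
  have hz : Zc (ph e₂ e₂ 0 1) := Zc.ph e₂ e₂ 0 1 he₂ he₂
  have hi := e1c_kn1_int h0 h1 hz hz
  refine Integrable.mono' (hi.const_mul C) hF.aestronglyMeasurable ?_
  refine (ae_restrict_iff' measurableSet_Ioi).2 (Filter.Eventually.of_forall fun t ht => ?_)
  have ht' : 0 < t := ht
  have h2 := hb t ht'
  rw [Real.norm_eq_abs]
  refine h2.trans (le_of_eq ?_)
  have h3 : t ^ (2 * a - 2) = t ^ (2 * a) / t ^ 2 := by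
    rw [Real.rpow_sub ht']
    norm_cast
  unfold ph
  rw [h3, add_comm e₂ t]
  field_simp
  ring

/-- oppositely ordered -/
theorem e8b_ord {f g : ℝ → ℝ} (hf : ∀ s t, 0 < s → s ≤ t → f t ≤ f s)
    (hg : ∀ s t, 0 < s → s ≤ t → g s ≤ g t) :
    ∀ s t, 0 < s → 0 < t → (f s - f t) * (g s - g t) ≤ 0 := by
  intro s t hs ht
  rcases le_total s t with h | h
  · exact mul_nonpos_of_nonneg_of_nonpos (by linarith [hf s t hs h]) (by linarith [hg s t hs h])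
  · exact mul_nonpos_of_nonpos_of_nonneg (by linarith [hf t s ht h]) (by linarith [hg t s ht h])

/-- `α = 1/((e₂+t) R H)` -/
noncomputable def bal (e₁ e₂ q κ t : ℝ) : ℝ := 1 / ((e₂ + t) + q * bR e₁ e₂ κ t / e₂)

noncomputable def br1 (a e₂ κ t : ℝ) : ℝ := ((e₂ + κ * t) / e₂) ^ (2 * a)

noncomputable def br2 (e₁ e₂ κ t : ℝ) : ℝ := bR e₁ e₂ κ t / (e₂ * (e₁ + t))

theorem bH_pos (he₂ : 0 < e₂) (he : e₂ < e₁) (hκ : 0 ≤ κ) (hq : 0 ≤ q) {t : ℝ} (ht : 0 < t) :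
    0 < bH e₁ e₂ q κ t := by
  have hR := bR_pos (e₁ := e₁) he₂ he hκ ht
  unfold bH
  positivity

theorem bal_mul (he₂ : 0 < e₂) (he : e₂ < e₁) (hκ : 0 ≤ κ) (hq : 0 ≤ q) {t : ℝ} (ht : 0 < t) :
    bal e₁ e₂ q κ t * ((e₂ + t) * bR e₁ e₂ κ t * bH e₁ e₂ q κ t) = 1 := by
  have hR := bR_pos (e₁ := e₁) he₂ he hκ ht
  have h1 : (e₂ + t) * bR e₁ e₂ κ t * bH e₁ e₂ q κ t = (e₂ + t) + q * bR e₁ e₂ κ t / e₂ := by
    unfold bH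
    field_simp
  have h2 : 0 < (e₂ + t) + q * bR e₁ e₂ κ t / e₂ := by positivity
  unfold bal
  rw [h1, one_div, inv_mul_cancel₀ h2.ne']

theorem bR_zero (t : ℝ) : bR e₁ e₂ 0 t = e₂ * (e₁ + t) := by
  unfold bR
  ring

/-- `w α = v` -/
theorem bw_al (he₂ : 0 < e₂) (he : e₂ < e₁) (hκ : 0 ≤ κ) (hq : 0 ≤ q) {t : ℝ} (ht : 0 < t) :
    bw a e₁ e₂ q κ t * bal e₁ e₂ q κ t = bv a e₁ e₂ κ t := by
  have hR := bR_pos (e₁ := e₁) he₂ he hκ ht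
  have h := bal_mul (e₁ := e₁) he₂ he hκ hq ht
  have h2 : 0 < e₂ + t := by linarith
  unfold bw bv
  have h3 : bH e₁ e₂ q κ t * bal e₁ e₂ q κ t = 1 / ((e₂ + t) * bR e₁ e₂ κ t) := by
    rw [eq_div_iff (by positivity)]
    linear_combination h
  calc bP a e₂ κ t * (bH e₁ e₂ q κ t / ((e₂ + t) * bR e₁ e₂ κ t)) * bal e₁ e₂ q κ t =
      bP a e₂ κ t * ((bH e₁ e₂ q κ t * bal e₁ e₂ q κ t) * (1 / ((e₂ + t) * bR e₁ e₂ κ t))) := by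
        ring
    _ = _ := by rw [h3]; ring

/-- `P r₁ = P₀` -/
theorem bP_r1 (he₂ : 0 < e₂) (hκ : 0 ≤ κ) {t : ℝ} (ht : 0 < t) :
    bP a e₂ κ t * br1 a e₂ κ t = bP a e₂ 0 t := by
  have hS : 0 < e₂ + κ * t := by
    have := mul_nonneg hκ ht.le
    linarith
  unfold bP br1
  rw [Real.div_rpow hS.le he₂.le, zero_mul, add_zero, Real.rpow_neg hS.le, Real.rpow_neg he₂.le]
  have h2 : (e₂ + κ * t) ^ (2 * a) ≠ 0 := (Real.rpow_pos_of_pos hS _).ne'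
  field_simp

theorem bH_le (he₂ : 0 < e₂) (he : e₂ < e₁) (hκ : 0 ≤ κ) {t : ℝ} (ht : 0 < t) :
    bH e₁ e₂ q κ t ≤ bH e₁ e₂ q 0 t := by
  have h1 := bR_ge (e₁ := e₁) (e₂ := e₂) he hκ ht
  have h2 : 0 < e₂ * (e₁ + t) := mul_pos he₂ (by linarith)
  unfold bH
  rw [bR_zero]
  have := one_div_le_one_div_of_le h2 h1
  linarith

/-- `w (α r₂) (r₁ r₂) = v₀` -/
theorem bw_all (he₂ : 0 < e₂) (he : e₂ < e₁) (hκ : 0 ≤ κ) (hq : 0 ≤ q) {t : ℝ} (ht : 0 < t) :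
    bw a e₁ e₂ q κ t * ((bal e₁ e₂ q κ t * br2 e₁ e₂ κ t) * (br1 a e₂ κ t * br2 e₁ e₂ κ t)) =
      bv a e₁ e₂ 0 t := by
  have hR := bR_pos (e₁ := e₁) he₂ he hκ ht
  have h2 : 0 < e₂ + t := by linarith
  have h3 : 0 < e₁ + t := by linarith
  have hw := bw_al (a := a) (e₁ := e₁) he₂ he hκ hq ht
  have hP := bP_r1 (a := a) he₂ hκ ht
  calc bw a e₁ e₂ q κ t * ((bal e₁ e₂ q κ t * br2 e₁ e₂ κ t) * (br1 a e₂ κ t * br2 e₁ e₂ κ t)) =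
      (bw a e₁ e₂ q κ t * bal e₁ e₂ q κ t) * br1 a e₂ κ t * br2 e₁ e₂ κ t ^ 2 := by ring
    _ = (bP a e₂ κ t * br1 a e₂ κ t) *
        ((1 / ((e₂ + t) * bR e₁ e₂ κ t)) * br2 e₁ e₂ κ t) ^ 2 := by rw [hw]; unfold bv; ring
    _ = _ := by
      rw [hP]
      unfold bv br2
      rw [bR_zero]
      congr 2
      field_simp

/-- `w r₁ r₂ ≤ w₀` -/
theorem bw_r12 (he₂ : 0 < e₂) (he : e₂ < e₁) (hκ : 0 ≤ κ) {t : ℝ} (ht : 0 < t) :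
    bw a e₁ e₂ q κ t * (br1 a e₂ κ t * br2 e₁ e₂ κ t) ≤ bw a e₁ e₂ q 0 t := by
  have hR := bR_pos (e₁ := e₁) he₂ he hκ ht
  have h2 : 0 < e₂ + t := by linarith
  have h3 : 0 < e₁ + t := by linarith
  have hP := bP_r1 (a := a) he₂ hκ ht
  have hP0 : 0 ≤ bP a e₂ 0 t := by unfold bP; positivity
  calc bw a e₁ e₂ q κ t * (br1 a e₂ κ t * br2 e₁ e₂ κ t) =
      (bP a e₂ κ t * br1 a e₂ κ t) *
        (bH e₁ e₂ q κ t * (br2 e₁ e₂ κ t / ((e₂ + t) * bR e₁ e₂ κ t))) := by unfold bw; ring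
    _ = bP a e₂ 0 t * (bH e₁ e₂ q κ t * (1 / ((e₂ + t) * bR e₁ e₂ 0 t))) := by
      rw [hP]
      congr 2
      unfold br2
      rw [bR_zero]
      field_simp
    _ ≤ bP a e₂ 0 t * (bH e₁ e₂ q 0 t * (1 / ((e₂ + t) * bR e₁ e₂ 0 t))) := by
      refine mul_le_mul_of_nonneg_left ?_ hP0
      refine mul_le_mul_of_nonneg_right (bH_le he₂ he hκ ht) ?_
      rw [bR_zero]
      positivity
    _ = _ := by unfold bw; ring

theorem bw_nonneg (he₂ : 0 < e₂) (he : e₂ < e₁) (hκ : 0 ≤ κ) (hq : 0 ≤ q) {t : ℝ} (ht : 0 < t) :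
    0 ≤ bw a e₁ e₂ q κ t := by
  have hR := bR_pos (e₁ := e₁) he₂ he hκ ht
  have hH := bH_pos (e₁ := e₁) he₂ he hκ hq ht
  have hS : 0 < e₂ + κ * t := by
    have := mul_nonneg hκ ht.le
    linarith
  unfold bw bP
  positivity

theorem br1_ge (h0 : 0 < a) (he₂ : 0 < e₂) (hκ : 0 ≤ κ) {t : ℝ} (ht : 0 < t) :
    1 ≤ br1 a e₂ κ t := by
  unfold br1
  refine Real.one_le_rpow ?_ (by linarith)
  rw [le_div_iff₀ he₂]
  have := mul_nonneg hκ ht.le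
  linarith

theorem br2_ge (he₂ : 0 < e₂) (he : e₂ < e₁) (hκ : 0 ≤ κ) {t : ℝ} (ht : 0 < t) :
    1 ≤ br2 e₁ e₂ κ t := by
  have h := bR_ge (e₁ := e₁) (e₂ := e₂) he hκ ht
  have h2 : 0 < e₂ * (e₁ + t) := mul_pos he₂ (by linarith)
  unfold br2
  rw [le_div_iff₀ h2]
  linarith

/-- `w ≤ w₀` -/
theorem bw_le (h0 : 0 < a) (he₂ : 0 < e₂) (he : e₂ < e₁) (hκ : 0 ≤ κ) (hq : 0 ≤ q) {t : ℝ}
    (ht : 0 < t) : bw a e₁ e₂ q κ t ≤ bw a e₁ e₂ q 0 t := by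
  have h1 := br1_ge h0 he₂ hκ ht
  have h2 := br2_ge (e₁ := e₁) he₂ he hκ ht
  have h3 := bw_nonneg (a := a) (e₁ := e₁) he₂ he hκ hq ht
  have h4 : 1 ≤ br1 a e₂ κ t * br2 e₁ e₂ κ t := one_le_mul_of_one_le_of_one_le h1 h2
  calc bw a e₁ e₂ q κ t = bw a e₁ e₂ q κ t * 1 := (mul_one _).symm
    _ ≤ bw a e₁ e₂ q κ t * (br1 a e₂ κ t * br2 e₁ e₂ κ t) := mul_le_mul_of_nonneg_left h4 h3
    _ ≤ _ := bw_r12 he₂ he hκ ht

theorem bw_meas : Measurable (bw a e₁ e₂ q κ) := by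
  unfold bw bP bH bR
  fun_prop

theorem bal_meas : Measurable (bal e₁ e₂ q κ) := by
  unfold bal bR
  fun_prop

theorem br1_meas : Measurable (br1 a e₂ κ) := by
  unfold br1
  fun_prop

theorem br2_meas : Measurable (br2 e₁ e₂ κ) := by
  unfold br2 bR
  fun_prop

theorem bal_pos (he₂ : 0 < e₂) (he : e₂ < e₁) (hκ : 0 ≤ κ) (hq : 0 ≤ q) {t : ℝ} (ht : 0 < t) :
    0 < bal e₁ e₂ q κ t := by
  have hR := bR_pos (e₁ := e₁) he₂ he hκ ht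
  unfold bal
  positivity

theorem bal_le (he₂ : 0 < e₂) (he : e₂ < e₁) (hκ : 0 ≤ κ) (hq : 0 ≤ q) {t : ℝ} (ht : 0 < t) :
    bal e₁ e₂ q κ t ≤ 1 / e₂ := by
  have hR := bR_pos (e₁ := e₁) he₂ he hκ ht
  unfold bal
  refine one_div_le_one_div_of_le he₂ ?_
  have : 0 ≤ q * bR e₁ e₂ κ t / e₂ := by positivity
  linarith

/-- the dominating constant -/
noncomputable def bK (a e₂ q : ℝ) : ℝ := e₂ ^ (-(2 * a)) * ((1 + q) / e₂ ^ 2) * (1 / e₂)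

theorem bw0_bd (he₂ : 0 < e₂) (he : e₂ < e₁) (hq : 0 ≤ q) {t : ℝ} (ht : 0 < t) :
    bw a e₁ e₂ q 0 t ≤ bK a e₂ q * (t ^ (2 * a) / (e₂ + t) ^ 2) := by
  have hH : bH e₁ e₂ q 0 t ≤ (1 + q) / e₂ ^ 2 := by
    unfold bH
    rw [bR_zero, add_div]
    have k1 : e₂ ^ 2 ≤ e₂ * (e₁ + t) := by nlinarith
    have k2 : e₂ ^ 2 ≤ e₂ * (e₂ + t) := by nlinarith
    have k3 := one_div_le_one_div_of_le (by positivity) k1
    have k4 : q / (e₂ * (e₂ + t)) ≤ q / e₂ ^ 2 := div_le_div_of_nonneg_left hq (by positivity) k2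
    linarith
  have hH0 : 0 < bH e₁ e₂ q 0 t := bH_pos he₂ he le_rfl hq ht
  have hD : 1 / ((e₂ + t) * bR e₁ e₂ 0 t) ≤ 1 / e₂ * (1 / (e₂ + t) ^ 2) := by
    rw [bR_zero, one_div_mul_one_div]
    refine one_div_le_one_div_of_le (by positivity) ?_
    have : e₂ * (e₂ + t) ^ 2 = (e₂ + t) * (e₂ * (e₂ + t)) := by ring
    rw [this]
    refine mul_le_mul_of_nonneg_left ?_ (by linarith)
    exact mul_le_mul_of_nonneg_left (by linarith) he₂.le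
  unfold bw bP bK
  rw [zero_mul, add_zero]
  have hp : 0 ≤ t ^ (2 * a) * e₂ ^ (-(2 * a)) := by positivity
  calc t ^ (2 * a) * e₂ ^ (-(2 * a)) * (bH e₁ e₂ q 0 t / ((e₂ + t) * bR e₁ e₂ 0 t)) =
      t ^ (2 * a) * e₂ ^ (-(2 * a)) * (bH e₁ e₂ q 0 t * (1 / ((e₂ + t) * bR e₁ e₂ 0 t))) := by ring
    _ ≤ t ^ (2 * a) * e₂ ^ (-(2 * a)) * (((1 + q) / e₂ ^ 2) * (1 / e₂ * (1 / (e₂ + t) ^ 2))) := by
      refine mul_le_mul_of_nonneg_left ?_ hp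
      refine mul_le_mul hH hD ?_ (by positivity)
      rw [bR_zero]
      have : 0 < e₁ := by linarith
      positivity
    _ = _ := by ring

/-- the six integrals -/
theorem b_itg (h0 : 0 < a) (h1 : 2 * a < 1) (he₂ : 0 < e₂) (he : e₂ < e₁) (hκ : 0 ≤ κ)
    (hq : 0 ≤ q) {f : ℝ → ℝ} (hf : Measurable f) (C : ℝ)
    (hb : ∀ t, 0 < t → 0 ≤ f t ∧ f t ≤ C * (br1 a e₂ κ t * br2 e₁ e₂ κ t)) :
    IntegrableOn (fun t => bw a e₁ e₂ q κ t * f t) (Ioi 0) := by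
  refine e8b_itg h0 h1 he₂ (bw_meas.mul hf) (|C| * bK a e₂ q) fun t ht => ?_
  obtain ⟨k1, k2⟩ := hb t ht
  have h3 := bw_nonneg (a := a) (e₁ := e₁) he₂ he hκ hq ht
  have h5 : 1 ≤ br1 a e₂ κ t := br1_ge h0 he₂ hκ ht
  have h6 : 1 ≤ br2 e₁ e₂ κ t := br2_ge (e₁ := e₁) he₂ he hκ ht
  rw [abs_of_nonneg (mul_nonneg h3 k1)]
  have h4 : f t ≤ |C| * (br1 a e₂ κ t * br2 e₁ e₂ κ t) := by
    refine k2.trans (mul_le_mul_of_nonneg_right (le_abs_self C) ?_)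
    positivity
  calc bw a e₁ e₂ q κ t * f t ≤ bw a e₁ e₂ q κ t * (|C| * (br1 a e₂ κ t * br2 e₁ e₂ κ t)) :=
        mul_le_mul_of_nonneg_left h4 h3
    _ = |C| * (bw a e₁ e₂ q κ t * (br1 a e₂ κ t * br2 e₁ e₂ κ t)) := by ring
    _ ≤ |C| * (bK a e₂ q * (t ^ (2 * a) / (e₂ + t) ^ 2)) := by
      refine mul_le_mul_of_nonneg_left ?_ (abs_nonneg C)
      exact (bw_r12 he₂ he hκ ht).trans (bw0_bd he₂ he hq ht)
    _ = _ := by ring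

/-- monotonicity of `r₁` -/
theorem br1_mono (h0 : 0 < a) (he₂ : 0 < e₂) (hκ : 0 ≤ κ) (s t : ℝ) (hs : 0 < s) (hst : s ≤ t) :
    br1 a e₂ κ s ≤ br1 a e₂ κ t := by
  unfold br1
  have h1 : 0 ≤ κ * s := mul_nonneg hκ hs.le
  have h2 : κ * s ≤ κ * t := mul_le_mul_of_nonneg_left hst hκ
  refine Real.rpow_le_rpow (by positivity) ?_ (by linarith)
  exact div_le_div_of_nonneg_right (by linarith) he₂.le

theorem br2_mono (he₂ : 0 < e₂) (he : e₂ < e₁) (hκ : 0 ≤ κ) (s t : ℝ) (hs : 0 < s)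
    (hst : s ≤ t) : br2 e₁ e₂ κ s ≤ br2 e₁ e₂ κ t := by
  unfold br2 bR
  have h1 : 0 < e₁ + s := by linarith
  have h2 : 0 < e₁ + t := by linarith
  rw [div_le_div_iff₀ (by positivity) (by positivity), ← sub_nonneg]
  have : (e₂ * (e₁ + t) + κ * (e₁ - e₂) * t) * (e₂ * (e₁ + s)) -
      (e₂ * (e₁ + s) + κ * (e₁ - e₂) * s) * (e₂ * (e₁ + t)) =
      κ * (e₁ - e₂) * e₂ * e₁ * (t - s) := by ring
  rw [this]
  have h3 : 0 ≤ t - s := by linarith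
  have h4 : 0 < e₁ - e₂ := by linarith
  have h5 : 0 < e₁ := by linarith
  positivity

theorem bal_anti (he₂ : 0 < e₂) (he : e₂ < e₁) (hκ : 0 ≤ κ) (hq : 0 ≤ q) (s t : ℝ) (hs : 0 < s)
    (hst : s ≤ t) : bal e₁ e₂ q κ t ≤ bal e₁ e₂ q κ s := by
  have hR := bR_pos (e₁ := e₁) he₂ he hκ hs
  have h4 : 0 < e₁ - e₂ := by linarith
  have hRR : bR e₁ e₂ κ s ≤ bR e₁ e₂ κ t := by
    unfold bR
    have : 0 ≤ κ * (e₁ - e₂) := by positivity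
    have := mul_le_mul_of_nonneg_left hst this
    nlinarith
  unfold bal
  refine one_div_le_one_div_of_le (by positivity) ?_
  have : q * bR e₁ e₂ κ s / e₂ ≤ q * bR e₁ e₂ κ t / e₂ := by gcongr
  linarith

theorem balr_anti (he₂ : 0 < e₂) (he : e₂ < e₁) (hκ : 0 ≤ κ) (hκ1 : κ ≤ 1) (hq : 0 ≤ q)
    (s t : ℝ) (hs : 0 < s) (hst : s ≤ t) :
    bal e₁ e₂ q κ t * br2 e₁ e₂ κ t ≤ bal e₁ e₂ q κ s * br2 e₁ e₂ κ s := by
  have ht : 0 < t := by linarith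
  have h5 : 0 < e₁ := by linarith
  have key : ∀ x, 0 < x → bal e₁ e₂ q κ x * br2 e₁ e₂ κ x =
      1 / (e₂ * ((e₂ + x) * (e₁ + x) / bR e₁ e₂ κ x) + q * (e₁ + x)) := by
    intro x hx
    have hR := bR_pos (e₁ := e₁) he₂ he hκ hx
    unfold bal br2
    field_simp
  have hRs := bR_pos (e₁ := e₁) he₂ he hκ hs
  have hRt := bR_pos (e₁ := e₁) he₂ he hκ ht
  rw [key s hs, key t ht]
  refine one_div_le_one_div_of_le (by positivity) ?_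
  have h1 : (e₂ + s) * (e₁ + s) / bR e₁ e₂ κ s ≤ (e₂ + t) * (e₁ + t) / bR e₁ e₂ κ t := by
    rw [div_le_div_iff₀ hRs hRt, ← sub_nonneg]
    unfold bR
    have : (e₂ + t) * (e₁ + t) * (e₂ * (e₁ + s) + κ * (e₁ - e₂) * s) -
        (e₂ + s) * (e₁ + s) * (e₂ * (e₁ + t) + κ * (e₁ - e₂) * t) =
        (t - s) * (e₁ * e₂ * (t + s) + e₁ * e₂ ^ 2 + (e₂ + κ * (e₁ - e₂)) * s * t +
          (1 - κ) * (e₁ - e₂) * (e₁ * e₂)) := by ring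
    rw [this]
    have h3 : 0 ≤ t - s := by linarith
    have h4 : 0 < e₁ - e₂ := by linarith
    have h6 : 0 ≤ 1 - κ := by linarith
    positivity
  have h2 : q * (e₁ + s) ≤ q * (e₁ + t) := mul_le_mul_of_nonneg_left (by linarith) hq
  have h3 := mul_le_mul_of_nonneg_left h1 he₂.le
  linarith

/-- **the core of Lemma Y**: `(∫ v₀) (∫ w)² ≤ (∫ v) (∫ w₀)²` -/
theorem e8b_core (h0 : 0 < a) (h1 : 2 * a < 1) (he₂ : 0 < e₂) (he : e₂ < e₁) (hκ : 0 ≤ κ)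
    (hκ1 : κ ≤ 1) (hq : 0 ≤ q) :
    (∫ t in Ioi (0 : ℝ), bv a e₁ e₂ 0 t) * (∫ t in Ioi (0 : ℝ), bw a e₁ e₂ q κ t) ^ 2 ≤
      (∫ t in Ioi (0 : ℝ), bv a e₁ e₂ κ t) * (∫ t in Ioi (0 : ℝ), bw a e₁ e₂ q 0 t) ^ 2 := by
  have k1 : ∀ t, 0 < t → 1 ≤ br1 a e₂ κ t := fun t ht => br1_ge h0 he₂ hκ ht
  have k2 : ∀ t, 0 < t → 1 ≤ br2 e₁ e₂ κ t := fun t ht => br2_ge (e₁ := e₁) he₂ he hκ ht
  have k12 : ∀ t, 0 < t → 1 ≤ br1 a e₂ κ t * br2 e₁ e₂ κ t := fun t ht =>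
    one_le_mul_of_one_le_of_one_le (k1 t ht) (k2 t ht)
  have kal : ∀ t, 0 < t → 0 < bal e₁ e₂ q κ t := fun t ht => bal_pos he₂ he hκ hq ht
  have kal2 : ∀ t, 0 < t → bal e₁ e₂ q κ t ≤ 1 / e₂ := fun t ht => bal_le he₂ he hκ hq ht
  have i0 : IntegrableOn (bw a e₁ e₂ q κ) (Ioi 0) := by
    have := b_itg (f := fun _ => 1) h0 h1 he₂ he hκ hq measurable_const 1 fun t ht =>
      ⟨zero_le_one, by rw [one_mul]; exact k12 t ht⟩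
    simpa using this
  have iw0 : IntegrableOn (bw a e₁ e₂ q 0) (Ioi 0) := by
    have := b_itg (κ := 0) (f := fun _ => 1) h0 h1 he₂ he le_rfl hq measurable_const 1
      fun t ht => ⟨zero_le_one, by
        rw [one_mul]
        exact one_le_mul_of_one_le_of_one_le (br1_ge h0 he₂ le_rfl ht)
          (br2_ge (e₁ := e₁) he₂ he le_rfl ht)⟩
    simpa using this
  have ial : IntegrableOn (fun t => bw a e₁ e₂ q κ t * bal e₁ e₂ q κ t) (Ioi 0) :=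
    b_itg h0 h1 he₂ he hκ hq bal_meas (1 / e₂) fun t ht => ⟨(kal t ht).le, by
      refine (kal2 t ht).trans ?_
      have := mul_le_mul_of_nonneg_left (k12 t ht) (one_div_pos.2 he₂).le
      linarith⟩
  have ir2 : IntegrableOn (fun t => bw a e₁ e₂ q κ t * br2 e₁ e₂ κ t) (Ioi 0) :=
    b_itg h0 h1 he₂ he hκ hq br2_meas 1 fun t ht => ⟨by linarith [k2 t ht], by
      rw [one_mul]
      nlinarith [k1 t ht, k2 t ht]⟩
  have ialr : IntegrableOn (fun t => bw a e₁ e₂ q κ t *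
      (bal e₁ e₂ q κ t * br2 e₁ e₂ κ t)) (Ioi 0) :=
    b_itg h0 h1 he₂ he hκ hq (bal_meas.mul br2_meas) (1 / e₂) fun t ht =>
      ⟨mul_nonneg (kal t ht).le (by linarith [k2 t ht]), by
        have h2 : 0 ≤ br2 e₁ e₂ κ t := by linarith [k2 t ht]
        have h3 : br2 e₁ e₂ κ t ≤ br1 a e₂ κ t * br2 e₁ e₂ κ t := by nlinarith [k1 t ht]
        exact mul_le_mul (kal2 t ht) h3 h2 (one_div_pos.2 he₂).le⟩
  have ir12 : IntegrableOn (fun t => bw a e₁ e₂ q κ t *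
      (br1 a e₂ κ t * br2 e₁ e₂ κ t)) (Ioi 0) :=
    b_itg h0 h1 he₂ he hκ hq (br1_meas.mul br2_meas) 1 fun t ht =>
      ⟨by linarith [k12 t ht], by rw [one_mul]⟩
  have iv0 : IntegrableOn (bv a e₁ e₂ 0) (Ioi 0) := by
    have h := b_itg (κ := 0) (f := bal e₁ e₂ q 0) h0 h1 he₂ he le_rfl hq bal_meas (1 / e₂)
      fun t ht => ⟨(bal_pos he₂ he le_rfl hq ht).le, by
        refine (bal_le he₂ he le_rfl hq ht).trans ?_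
        have h3 : 1 ≤ br1 a e₂ 0 t * br2 e₁ e₂ 0 t :=
          one_le_mul_of_one_le_of_one_le (br1_ge h0 he₂ le_rfl ht)
            (br2_ge (e₁ := e₁) he₂ he le_rfl ht)
        have := mul_le_mul_of_nonneg_left h3 (one_div_pos.2 he₂).le
        linarith⟩
    refine h.congr_fun (fun t ht => ?_) measurableSet_Ioi
    exact bw_al he₂ he le_rfl hq ht
  have iall : IntegrableOn (fun t => bw a e₁ e₂ q κ t *
      ((bal e₁ e₂ q κ t * br2 e₁ e₂ κ t) * (br1 a e₂ κ t * br2 e₁ e₂ κ t))) (Ioi 0) :=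
    iv0.congr_fun (fun t ht => (bw_all he₂ he hκ hq ht).symm) measurableSet_Ioi
  have hwn : ∀ t, 0 < t → 0 ≤ bw a e₁ e₂ q κ t := fun t ht => bw_nonneg he₂ he hκ hq ht
  -- two Chebyshev inequalities
  have c1 := e8b_cheb (w := bw a e₁ e₂ q κ) (f := fun t => bal e₁ e₂ q κ t * br2 e₁ e₂ κ t)
    (g := fun t => br1 a e₂ κ t * br2 e₁ e₂ κ t) hwn
    (e8b_ord (balr_anti he₂ he hκ hκ1 hq) fun s t hs hst =>
      mul_le_mul (br1_mono h0 he₂ hκ s t hs hst) (br2_mono he₂ he hκ s t hs hst)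
        (by linarith [k2 s hs]) (by linarith [k1 t (by linarith)])) i0 ialr ir12 iall
  have c2 := e8b_cheb (w := bw a e₁ e₂ q κ) (f := bal e₁ e₂ q κ) (g := br2 e₁ e₂ κ) hwn
    (e8b_ord (bal_anti he₂ he hκ hq) (br2_mono he₂ he hκ)) i0 ial ir2 ialr
  -- identities
  have e1 : ∫ t in Ioi (0 : ℝ), bw a e₁ e₂ q κ t *
      ((bal e₁ e₂ q κ t * br2 e₁ e₂ κ t) * (br1 a e₂ κ t * br2 e₁ e₂ κ t)) =
      ∫ t in Ioi (0 : ℝ), bv a e₁ e₂ 0 t :=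
    setIntegral_congr_fun measurableSet_Ioi fun t ht => bw_all he₂ he hκ hq ht
  have e2 : ∫ t in Ioi (0 : ℝ), bw a e₁ e₂ q κ t * bal e₁ e₂ q κ t =
      ∫ t in Ioi (0 : ℝ), bv a e₁ e₂ κ t :=
    setIntegral_congr_fun measurableSet_Ioi fun t ht => bw_al he₂ he hκ hq ht
  have l1 : ∫ t in Ioi (0 : ℝ), bw a e₁ e₂ q κ t * (br1 a e₂ κ t * br2 e₁ e₂ κ t) ≤
      ∫ t in Ioi (0 : ℝ), bw a e₁ e₂ q 0 t :=
    setIntegral_mono_on ir12 iw0 measurableSet_Ioi fun t ht => bw_r12 he₂ he hκ ht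
  have l2 : ∫ t in Ioi (0 : ℝ), bw a e₁ e₂ q κ t * br2 e₁ e₂ κ t ≤
      ∫ t in Ioi (0 : ℝ), bw a e₁ e₂ q κ t * (br1 a e₂ κ t * br2 e₁ e₂ κ t) :=
    setIntegral_mono_on ir2 ir12 measurableSet_Ioi fun t ht =>
      mul_le_mul_of_nonneg_left (by nlinarith [k1 t ht, k2 t ht]) (hwn t ht)
  rw [e1] at c1
  rw [e2] at c2
  have pW : 0 ≤ ∫ t in Ioi (0 : ℝ), bw a e₁ e₂ q κ t :=
    setIntegral_nonneg measurableSet_Ioi hwn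
  have pA : 0 ≤ ∫ t in Ioi (0 : ℝ), bv a e₁ e₂ κ t := by
    refine setIntegral_nonneg measurableSet_Ioi fun t ht => ?_
    rw [← bw_al he₂ he hκ hq ht]
    exact mul_nonneg (hwn t ht) (kal t ht).le
  have pR2 : 0 ≤ ∫ t in Ioi (0 : ℝ), bw a e₁ e₂ q κ t * br2 e₁ e₂ κ t :=
    setIntegral_nonneg measurableSet_Ioi fun t ht => mul_nonneg (hwn t ht) (by linarith [k2 t ht])
  have pR12 := pR2.trans l2
  set W := ∫ t in Ioi (0 : ℝ), bw a e₁ e₂ q κ t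
  set A := ∫ t in Ioi (0 : ℝ), bv a e₁ e₂ κ t
  set A0 := ∫ t in Ioi (0 : ℝ), bv a e₁ e₂ 0 t
  set W0 := ∫ t in Ioi (0 : ℝ), bw a e₁ e₂ q 0 t
  set R2 := ∫ t in Ioi (0 : ℝ), bw a e₁ e₂ q κ t * br2 e₁ e₂ κ t
  set R12 := ∫ t in Ioi (0 : ℝ), bw a e₁ e₂ q κ t * (br1 a e₂ κ t * br2 e₁ e₂ κ t)
  set L := ∫ t in Ioi (0 : ℝ), bw a e₁ e₂ q κ t * (bal e₁ e₂ q κ t * br2 e₁ e₂ κ t)
  calc A0 * W ^ 2 = (A0 * W) * W := by ring
    _ ≤ (L * R12) * W := mul_le_mul_of_nonneg_right c1 pW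
    _ = (L * W) * R12 := by ring
    _ ≤ (A * R2) * R12 := mul_le_mul_of_nonneg_right c2 pR12
    _ ≤ (A * W0) * W0 := by
      refine mul_le_mul ?_ l1 pR12 (mul_nonneg pA (pR12.trans l1))
      exact mul_le_mul_of_nonneg_left (l2.trans l1) pA
    _ = _ := by ring

/-- the parameters `G`, `κ = 1 - G` -/
theorem e8b_G (he₂ : 0 < e₂) (he : e₂ < e₁) (hρ : e₂ < ρ * e₁) (hρ1 : ρ ≤ 1) :
    0 < ρ ∧ 0 < (ρ * e₁ - e₂) / (ρ * (e₁ - e₂)) ∧ (ρ * e₁ - e₂) / (ρ * (e₁ - e₂)) ≤ 1 ∧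
      ρ * (e₁ - e₂) * ((ρ * e₁ - e₂) / (ρ * (e₁ - e₂))) = ρ * e₁ - e₂ := by
  have h1 : 0 < e₁ := by linarith
  have h2 : 0 < ρ := by
    by_contra hcon
    have : ρ * e₁ ≤ 0 := mul_nonpos_of_nonpos_of_nonneg (not_lt.1 hcon) h1.le
    linarith
  have h3 : 0 < ρ * (e₁ - e₂) := mul_pos h2 (by linarith)
  refine ⟨h2, div_pos (by linarith) h3, ?_, ?_⟩
  · rw [div_le_one h3]
    nlinarith
  · rw [mul_comm, div_mul_cancel₀ _ h3.ne']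

/-- **Lemma N** -/
theorem lemN (h0 : 0 < a) (h1 : 2 * a < 1) (he₂ : 0 < e₂) (he : e₂ < e₁) (hq : 0 ≤ q)
    (hρ : e₂ < ρ * e₁) (hρ1 : ρ ≤ 1) :
    kn a (ph e₁ e₂ 1 q) (fm e₁ e₂ 1 (-ρ)) 1 1 ≤
      ρ * ((ρ * e₁ - e₂) / (ρ * (e₁ - e₂))) ^ (2 + 2 * a) *
        kn a (ph e₁ e₂ 1 q) (fm e₁ e₂ 1 (-1)) 1 1 := by
  obtain ⟨hρ0, hG, hG1, hρG⟩ := e8b_G he₂ he hρ hρ1
  set G := (ρ * e₁ - e₂) / (ρ * (e₁ - e₂))
  have hκ : 0 ≤ 1 - G := by linarith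
  rw [e8b_hm (G := G) (κ := 1 - G) he₂ he hG hκ (by ring) hρ hρ0 hρG,
    e8b_hm (G := 1) (κ := 0) (ρ := 1) he₂ he one_pos le_rfl (by ring) (by linarith) one_pos
      (by ring)]
  have iw : ∀ κ, 0 ≤ κ → IntegrableOn (bw a e₁ e₂ q κ) (Ioi 0) := by
    intro κ hκ
    have := b_itg (κ := κ) (f := fun _ => 1) h0 h1 he₂ he hκ hq measurable_const 1
      fun t ht => ⟨zero_le_one, by
        rw [one_mul]
        exact one_le_mul_of_one_le_of_one_le (br1_ge h0 he₂ hκ ht)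
          (br2_ge (e₁ := e₁) he₂ he hκ ht)⟩
    simpa using this
  have hl : ∫ t in Ioi (0 : ℝ), bw a e₁ e₂ q (1 - G) t ≤ ∫ t in Ioi (0 : ℝ), bw a e₁ e₂ q 0 t :=
    setIntegral_mono_on (iw _ hκ) (iw 0 le_rfl) measurableSet_Ioi fun t ht =>
      bw_le h0 he₂ he hκ hq ht
  have hp : (e₂ * G) ^ (2 * a) = e₂ ^ (2 * a) * G ^ (2 * a) := Real.mul_rpow he₂.le hG.le
  have hp2 : G ^ (2 + 2 * a) = G ^ 2 * G ^ (2 * a) := by
    rw [Real.rpow_add hG]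
    norm_cast
  rw [hp, hp2, mul_one, one_mul, mul_one, ← hρG]
  have hc : 0 ≤ ρ * (G ^ 2 * G ^ (2 * a)) * (e₂ ^ (2 * a) * e₂ ^ 2 * (e₁ - e₂)) := by
    have : 0 < e₁ - e₂ := by linarith
    positivity
  calc e₂ ^ (2 * a) * G ^ (2 * a) * G * e₂ ^ 2 * (ρ * (e₁ - e₂) * G) *
        ∫ t in Ioi (0 : ℝ), bw a e₁ e₂ q (1 - G) t =
      (ρ * (G ^ 2 * G ^ (2 * a)) * (e₂ ^ (2 * a) * e₂ ^ 2 * (e₁ - e₂))) *
        ∫ t in Ioi (0 : ℝ), bw a e₁ e₂ q (1 - G) t := by ring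
    _ ≤ (ρ * (G ^ 2 * G ^ (2 * a)) * (e₂ ^ (2 * a) * e₂ ^ 2 * (e₁ - e₂))) *
        ∫ t in Ioi (0 : ℝ), bw a e₁ e₂ q 0 t := mul_le_mul_of_nonneg_left hl hc
    _ = _ := by ring

/-- **Lemma Y** -/
theorem lemY (h0 : 0 < a) (h1 : 2 * a < 1) (he₂ : 0 < e₂) (he : e₂ < e₁) (hq : 0 ≤ q)
    (hρ : e₂ < ρ * e₁) (hρ1 : ρ ≤ 1) :
    kn a (fm e₁ e₂ 1 (-1)) (fm e₁ e₂ 1 (-1)) 1 1 *
        kn a (ph e₁ e₂ 1 q) (fm e₁ e₂ 1 (-ρ)) 1 1 ^ 2 ≤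
      ((ρ * e₁ - e₂) / (ρ * (e₁ - e₂))) ^ (1 + 2 * a) *
        kn a (fm e₁ e₂ 1 (-ρ)) (fm e₁ e₂ 1 (-ρ)) 1 1 *
        kn a (ph e₁ e₂ 1 q) (fm e₁ e₂ 1 (-1)) 1 1 ^ 2 := by
  obtain ⟨hρ0, hG, hG1, hρG⟩ := e8b_G he₂ he hρ hρ1
  set G := (ρ * e₁ - e₂) / (ρ * (e₁ - e₂))
  have hκ : 0 ≤ 1 - G := by linarith
  rw [e8b_hm (G := G) (κ := 1 - G) he₂ he hG hκ (by ring) hρ hρ0 hρG,
    e8b_hm (G := 1) (κ := 0) (ρ := 1) he₂ he one_pos le_rfl (by ring) (by linarith) one_pos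
      (by ring),
    e8b_mm (G := G) (κ := 1 - G) he₂ he hG hκ (by ring) hρ hρ0 hρG,
    e8b_mm (G := 1) (κ := 0) (ρ := 1) he₂ he one_pos le_rfl (by ring) (by linarith) one_pos
      (by ring)]
  have hcore := e8b_core (κ := 1 - G) h0 h1 he₂ he hκ (by linarith) hq
  have hp : (e₂ * G) ^ (2 * a) = e₂ ^ (2 * a) * G ^ (2 * a) := Real.mul_rpow he₂.le hG.le
  have hp2 : G ^ (1 + 2 * a) = G * G ^ (2 * a) := by
    rw [Real.rpow_add hG, Real.rpow_one]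
  rw [hp, hp2, mul_one, one_mul, mul_one, ← hρG]
  set W := ∫ t in Ioi (0 : ℝ), bw a e₁ e₂ q (1 - G) t
  set A := ∫ t in Ioi (0 : ℝ), bv a e₁ e₂ (1 - G) t
  set A0 := ∫ t in Ioi (0 : ℝ), bv a e₁ e₂ 0 t
  set W0 := ∫ t in Ioi (0 : ℝ), bw a e₁ e₂ q 0 t
  set p := G ^ (2 * a)
  set w := e₂ ^ (2 * a)
  have hc : 0 ≤ w ^ 3 * e₂ ^ 6 * (e₁ - e₂) ^ 4 * (p ^ 2 * G ^ 4 * ρ ^ 2) := by positivity
  have := mul_le_mul_of_nonneg_left hcore hc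
  calc w * e₂ ^ 2 * (e₁ - e₂) ^ 2 * A0 *
        (w * p * G * e₂ ^ 2 * (ρ * (e₁ - e₂) * G) * W) ^ 2 =
      (w ^ 3 * e₂ ^ 6 * (e₁ - e₂) ^ 4 * (p ^ 2 * G ^ 4 * ρ ^ 2)) * (A0 * W ^ 2) := by ring
    _ ≤ (w ^ 3 * e₂ ^ 6 * (e₁ - e₂) ^ 4 * (p ^ 2 * G ^ 4 * ρ ^ 2)) * (A * W0 ^ 2) := this
    _ = _ := by ring

end Pool.Agent.LibSchE
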