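import Mathlib.Analysis.SpecialFunctions.Pow.Real

/-! **E8k.**  The scalar core (definition). -/

namespace Pool.Agent.LibSchE

/-- the scalar core (section 4), `β = 2a` -/
def E8dCore (a l q ρ : ℝ) : Prop :=
  ∀ n y d b ε j : ℝ, d = (1 - l ^ (2 * a)) / (2 * a * (1 - l)) → b = l ^ (2 * a - 1) →
    ε = l ^ (2 - 2 * a) → j = ((1 + l) * d - 1 - l ^ (2 * a)) / (1 - l) →
    n ≤ (ρ - l) / (1 - l) * ((ρ - l) / (ρ * (1 - l))) * (ε * (d - 1 + q * (b - d))) → 0 ≤ y →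
    1 + (1 + q) ^ 2 * (b - d ^ 2) / (d - 1 + q * (b - d)) ^ 2 ≤
        ((ρ - l) / (ρ * (1 - l))) ^ (1 + 2 * a) * y ^ 2 →
      0 < q * ρ + ε * (ρ - q) * d - ε * l - ε * (ρ + q) * j ∧
      2 * n ≤ q * ρ + ε * (ρ - q) * d - ε * l - ε * (ρ + q) * j ∧
      (q * ρ + ε * (ρ - q) * d - ε * l - ε * (ρ + q) * j) * ((1 - l) * (q * ρ + ε)) ≤
        y * (q * ρ + ε * (ρ - q) * d - ε * l) *
          (q * ρ + ε * (ρ - q) * d - ε * l - ε * (ρ + q) * j - n)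

end Pool.Agent.LibSchE
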