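import Pool.Agent.LibSchE.E5
import Pool.Agent.LibSchE.E7
import Pool.Agent.LibSchE.E4
import Pool.Agent.LibSchE.E8a
import Pool.Agent.LibSchE.E8b
import Pool.Agent.LibSchE.E8k

/-! **E8d.**  (IV): reduction to the scalar core (paper proof: helper43, section 2). -/

open MeasureTheory Set Matrix
open scoped ComplexOrder

namespace Pool.Agent.LibSchE

open Pool.Agent.LibSchP Pool.Agent.LibSchA

/-- two springs `P`, `k` and `Q`, `k` in series -/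
theorem E8d_alg {P Q k t g : ℝ} (hP : 0 < P) (hQ : 0 < Q) (hk : 0 < k) (hg : 0 ≤ g)
    (hgPQ : g ^ 2 ≤ P * Q) (hV : 2 * t ≤ k) (hg' : t * k ≤ g * (k - t)) :
    2 * t ≤ P * k / (P + k) + Q * k / (Q + k) := by
  have hS : 2 * g ≤ P + Q := by
    by_contra h
    rw [not_le] at h
    have h0 : 0 ≤ P + Q := by linarith
    have : (P + Q) ^ 2 < (2 * g) ^ 2 := pow_lt_pow_left₀ h h0 two_ne_zero
    nlinarith [sq_nonneg (P - Q)]
  have hkt : 0 ≤ k - t := by linarith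
  rw [div_add_div _ _ (by positivity) (by positivity), le_div_iff₀ (by positivity)]
  have e : P * k * (Q + k) + (P + k) * (Q * k) - 2 * t * ((P + k) * (Q + k)) =
      2 * (P * Q - g ^ 2) * (k - t) + k * (P + Q - 2 * g) * (k - 2 * t) +
        2 * ((g * (k - t) - t * k) * (g + k)) := by ring
  have h1 : 0 ≤ 2 * (P * Q - g ^ 2) * (k - t) :=
    mul_nonneg (by linarith) hkt
  have h2 : 0 ≤ k * (P + Q - 2 * g) * (k - 2 * t) :=
    mul_nonneg (mul_nonneg hk.le (by linarith)) (by linarith)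
  have h3 : 0 ≤ (g * (k - t) - t * k) * (g + k) := mul_nonneg (by linarith) (by linarith)
  linarith

/-- (IV) from the five numbers: `rA + rB = C e₁₁`, `rm + rD ≤ C e₂₂` -/
theorem E8d_iv {C e₁₁ e₂₂ e₁₂ rA rB rm rD n κ K y : ℝ} (hC : 0 < C) (he₁₁ : 0 < e₁₁)
    (he₂₂ : 0 < e₂₂) (he₁₂ : 0 < e₁₂) (hA : 0 < rA) (hB : 0 < rB) (hm : 0 < rm) (hD : 0 < rD)
    (hn : 0 < n) (hκ : 0 < κ) (hK : 0 ≤ K) (hy : 0 ≤ y) (s₁₁ : rA + rB = C * e₁₁)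
    (s₂₂ : rm + rD ≤ C * e₂₂) (hyn : y ^ 2 * n ^ 2 = rA * rm) (hKBD : K ^ 2 ≤ rB * rD)
    (hV : 2 * n ≤ κ) (hIV : κ * (C * e₁₂) ≤ y * K * (κ - n)) :
    IVh (n * e₁₂) (rA * e₁₁) (rB * e₁₁) (κ * e₁₂) (rm * e₂₂) (rD * e₂₂) := by
  refine ⟨by positivity, by positivity, by positivity, by positivity, by positivity, ?_⟩
  have hP : 0 < rA * rB / C := by positivity
  have hQ : 0 < rm * rD / C := by positivity
  have hk : 0 < κ * e₁₂ := by positivity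
  have hg : 0 ≤ y * n * K / C := by positivity
  have h1 : (y * n * K / C) ^ 2 ≤ rA * rB / C * (rm * rD / C) := by
    have : (y * n * K / C) ^ 2 = rA * rm * K ^ 2 / C ^ 2 := by
      rw [← hyn]
      field_simp
    rw [this]
    have h2 : rA * rB / C * (rm * rD / C) = rA * rm * (rB * rD) / C ^ 2 := by
      field_simp
    rw [h2]
    have h3 : 0 ≤ rA * rm := by positivity
    gcongr
  have h2 : n * e₁₂ * (κ * e₁₂) ≤ y * n * K / C * (κ * e₁₂ - n * e₁₂) := by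
    have e : y * n * K / C * (κ * e₁₂ - n * e₁₂) = n * e₁₂ / C * (y * K * (κ - n)) := by
      field_simp
    have e' : n * e₁₂ * (κ * e₁₂) = n * e₁₂ / C * (κ * (C * e₁₂)) := by
      field_simp
    rw [e, e']
    exact mul_le_mul_of_nonneg_left hIV (by positivity)
  have h0 : 2 * (n * e₁₂) ≤ κ * e₁₂ := by
    have := mul_le_mul_of_nonneg_right hV he₁₂.le
    linarith
  have hmain := E8d_alg hP hQ hk hg h1 h0 h2
  refine hmain.trans (add_le_add (le_of_eq ?_) ?_)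
  · have : 1 / (rA * e₁₁) + 1 / (rB * e₁₁) = C / (rA * rB) := by
      field_simp
      linarith
    rw [this]
    field_simp
    ring
  · have h3 : 1 / (rm * e₂₂) + 1 / (rD * e₂₂) ≤ C / (rm * rD) := by
      rw [div_add_div _ _ (by positivity) (by positivity), div_le_div_iff₀ (by positivity)
        (by positivity)]
      have : (1 * (rD * e₂₂) + rm * e₂₂ * 1) * (rm * rD) = (rm + rD) * (rm * rD * e₂₂) := by ring
      rw [this]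
      have : C * (rm * e₂₂ * (rD * e₂₂)) = C * e₂₂ * (rm * rD * e₂₂) := by ring
      rw [this]
      exact mul_le_mul_of_nonneg_right s₂₂ (by positivity)
    have h4 : rm * rD / C * (κ * e₁₂) / (rm * rD / C + κ * e₁₂) =
        1 / (C / (rm * rD) + 1 / (κ * e₁₂)) := by
      field_simp
      ring
    rw [h4]
    apply one_div_le_one_div_of_le (by positivity)
    linarith

/-! ### Closed forms -/

section closed

variable {a e₁ e₂ : ℝ}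

theorem E8d_pow (he₂ : 0 < e₂) (he : e₂ < e₁) :
    e₁ ^ (2 * a) = e₁ ^ (2 * a - 1) * e₁ ∧
    e₂ ^ (2 * a) = e₁ ^ (2 * a - 1) * e₁ * (e₂ / e₁) ^ (2 * a) ∧
    e₂ ^ (2 * a - 1) = e₁ ^ (2 * a - 1) * (e₂ / e₁) ^ (2 * a - 1) := by
  have he₁ : 0 < e₁ := he₂.trans he
  have hl : 0 < e₂ / e₁ := div_pos he₂ he₁
  have h1 : e₁ ^ (2 * a) = e₁ ^ (2 * a - 1) * e₁ := by
    rw [← Real.rpow_add_one he₁.ne']
    congr 1
    ring
  have h2 : e₂ = e₁ * (e₂ / e₁) := by field_simp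
  refine ⟨h1, ?_, ?_⟩
  · rw [← h1, ← Real.mul_rpow he₁.le hl.le, ← h2]
  · rw [← Real.mul_rpow he₁.le hl.le, ← h2]

theorem E8d_dd (h0 : 0 < a) (he₂ : 0 < e₂) (he : e₂ < e₁) :
    dd (2 * a) e₁ e₂ = 2 * a * e₁ ^ (2 * a - 1) *
      ((1 - (e₂ / e₁) ^ (2 * a)) / (2 * a * (1 - e₂ / e₁))) := by
  have he₁ : 0 < e₁ := he₂.trans he
  obtain ⟨h1, h2, -⟩ := E8d_pow (a := a) he₂ he
  have hd : e₁ - e₂ ≠ 0 := (sub_pos.mpr he).ne'
  have hd' : 1 - e₂ / e₁ ≠ 0 := by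
    rw [one_sub_div he₁.ne']
    exact div_ne_zero hd he₁.ne'
  unfold dd
  rw [if_neg he.ne', h2, h1]
  set W := e₁ ^ (2 * a - 1)
  set u := (e₂ / e₁) ^ (2 * a)
  have h3 : 1 - e₂ / e₁ = (e₁ - e₂) / e₁ := one_sub_div he₁.ne'
  rw [h3]
  field_simp

theorem E8d_ker (p₁ p₂ q₁ q₂ : ℝ) (h0 : 0 < a) (he₂ : 0 < e₂) (he : e₂ < e₁) :
    ker a e₁ e₂ p₁ p₂ q₁ q₂ 1 1 = 2 * a * e₁ ^ (2 * a - 1) * (p₁ * q₁ + (p₁ * q₂ + p₂ * q₁) *
      ((1 - (e₂ / e₁) ^ (2 * a)) / (2 * a * (1 - e₂ / e₁))) +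
      p₂ * q₂ * (e₂ / e₁) ^ (2 * a - 1)) := by
  rw [A3_ker_one, E8d_dd h0 he₂ he, (E8d_pow (a := a) he₂ he).2.2]
  ring

theorem E8d_spr (p₁ p₂ q₁ q₂ : ℝ) (h0 : 0 < a) (he₂ : 0 < e₂) (he : e₂ < e₁) :
    spr a e₁ e₂ p₁ p₂ q₁ q₂ = 2 * a * e₁ ^ (2 * a - 1) * ((p₁ * q₁ + (p₁ * q₂ + p₂ * q₁) *
      ((1 - (e₂ / e₁) ^ (2 * a)) / (2 * a * (1 - e₂ / e₁))) +
      p₂ * q₂ * (e₂ / e₁) ^ (2 * a - 1)) - (p₁ * q₂ - p₂ * q₁) *
        (((1 + e₂ / e₁) * ((1 - (e₂ / e₁) ^ (2 * a)) / (2 * a * (1 - e₂ / e₁))) - 1 -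
          (e₂ / e₁) ^ (2 * a)) / (1 - e₂ / e₁))) := by
  have he₁ : 0 < e₁ := he₂.trans he
  obtain ⟨h1, h2, -⟩ := E8d_pow (a := a) he₂ he
  have hd : e₁ - e₂ ≠ 0 := (sub_pos.mpr he).ne'
  have hAA : AA a e₁ e₂ 1 1 = 2 * a * e₁ ^ (2 * a - 1) *
      (((1 + e₂ / e₁) * ((1 - (e₂ / e₁) ^ (2 * a)) / (2 * a * (1 - e₂ / e₁))) - 1 -
          (e₂ / e₁) ^ (2 * a)) / (1 - e₂ / e₁)) := by
    rw [AA_one a e₁ e₂ he₂ he, E8d_dd h0 he₂ he, h2, h1]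
    set W := e₁ ^ (2 * a - 1)
    set u := (e₂ / e₁) ^ (2 * a)
    set d := (1 - u) / (2 * a * (1 - e₂ / e₁))
    have h3 : 1 - e₂ / e₁ = (e₁ - e₂) / e₁ := one_sub_div he₁.ne'
    rw [h3]
    field_simp
    ring
  unfold spr
  rw [hAA, E8d_ker p₁ p₂ q₁ q₂ h0 he₂ he]
  ring

/-- homogeneity of `kn` -/
theorem E8d_smul {φ ψ φ' ψ' : ℝ → ℝ} {t t' : ℝ} (h : ∀ ν, 0 < ν → φ' ν = t * φ ν)
    (h' : ∀ ν, 0 < ν → ψ' ν = t' * ψ ν) : kn a φ' ψ' 1 1 = t * t' * kn a φ ψ 1 1 := by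
  rw [e1c_kn1, e1c_kn1, ← integral_const_mul]
  refine setIntegral_congr_fun measurableSet_Ioi fun r hr => ?_
  have hr0 : (0 : ℝ) < r := hr
  show r ^ (2 * a - 2) * (φ' r * ψ' r) = t * t' * (r ^ (2 * a - 2) * (φ r * ψ r))
  rw [h r hr0, h' r hr0]
  ring

theorem E8d_ph_smul (t p₁ p₂ ν : ℝ) : ph e₁ e₂ (t * p₁) (t * p₂) ν = t * ph e₁ e₂ p₁ p₂ ν := by
  unfold ph
  ring

theorem E8d_fm_smul {t : ℝ} (ht : 0 ≤ t) (p₁ p₂ ν : ℝ) :
    fm e₁ e₂ (t * p₁) (t * p₂) ν = t * fm e₁ e₂ p₁ p₂ ν := by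
  unfold fm
  rw [E8d_ph_smul, mul_max_of_nonneg _ _ ht, mul_zero, mul_neg]

theorem E8d_fm_one (he₂ : 0 < e₂) (he : e₂ < e₁) (ν : ℝ) (hν : 0 < ν) :
    fm e₁ e₂ 1 (-1) ν = ph e₁ e₂ (-1) 1 ν := by
  have he₁ : 0 < e₁ := he₂.trans he
  unfold fm
  have h1 : -ph e₁ e₂ 1 (-1) ν = ph e₁ e₂ (-1) 1 ν := by
    unfold ph
    ring
  rw [h1]
  refine max_eq_left ?_
  unfold ph
  have : ν / (ν + e₁) ≤ ν / (ν + e₂) := by
    apply div_le_div_of_nonneg_left hν.le (by positivity)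
    linarith
  linarith

theorem E8d_fm_pos {ρ ν : ℝ} (he₂ : 0 < e₂) (he : e₂ < e₁) (hρ1 : 0 ≤ ρ) (hν : 0 < ν)
    (hν' : ν < ρ * e₁ - e₂) : 0 < fm e₁ e₂ 1 (-ρ) ν := by
  have he₁ : 0 < e₁ := he₂.trans he
  unfold fm
  refine lt_max_of_lt_left ?_
  have : -ph e₁ e₂ 1 (-ρ) ν = ν * ((ρ * e₁ - e₂) - (1 - ρ) * ν) / ((ν + e₁) * (ν + e₂)) := by
    unfold ph
    have h2 : ν + e₁ ≠ 0 := by positivity
    have h3 : ν + e₂ ≠ 0 := by positivity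
    field_simp
    ring
  rw [this]
  have h4 : 0 ≤ ρ * ν := mul_nonneg hρ1 hν.le
  have h6 : 0 < (ρ * e₁ - e₂) - (1 - ρ) * ν := by linarith
  positivity

/-- positivity of the integrals -/
theorem E8d_pos {φ : ℝ → ℝ} {ρ : ℝ} (h0 : 0 < a) (h1 : 2 * a < 1) (he₂ : 0 < e₂) (he : e₂ < e₁)
    (hρ : e₂ < ρ * e₁) (hρ1 : 0 ≤ ρ) (hφ : Zc φ) (h : ∀ ν, 0 < ν → 0 ≤ φ ν)
    (h' : ∀ ν, 0 < ν → ν < ρ * e₁ - e₂ → 0 < φ ν) :
    0 < kn a φ (fm e₁ e₂ 1 (-ρ)) 1 1 := by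
  have he₁ : 0 < e₁ := he₂.trans he
  have hm := Zc.fm (e₁ := e₁) (e₂ := e₂) 1 (-ρ) he₁ he₂
  have hint := e1c_kn1_int h0 h1 hφ hm
  rw [e1c_kn1, setIntegral_pos_iff_support_of_nonneg_ae ?_ hint]
  · refine lt_of_lt_of_le ?_ (measure_mono (s := Ioo 0 (ρ * e₁ - e₂)) ?_)
    · rw [Real.volume_Ioo, ENNReal.ofReal_pos]
      linarith
    · intro ν hν
      refine ⟨?_, hν.1⟩
      have h2 := h' ν hν.1 hν.2
      have h3 := E8d_fm_pos he₂ he hρ1 hν.1 hν.2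
      have h4 : 0 < ν ^ (2 * a - 2) := Real.rpow_pos_of_pos hν.1 _
      show ν ^ (2 * a - 2) * (φ ν * fm e₁ e₂ 1 (-ρ) ν) ≠ 0
      positivity
  · rw [Filter.EventuallyLE, ae_restrict_iff' measurableSet_Ioi]
    refine Filter.Eventually.of_forall fun ν hν => ?_
    have hν0 : (0 : ℝ) < ν := hν
    exact mul_nonneg (Real.rpow_nonneg hν0.le _) (mul_nonneg (h ν hν0) (le_max_right _ _))

end closed

/-! ### The data -/

section data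

variable {a e₁ e₂ c s : ℝ} {X Z : Fin 2 → ℝ}

theorem E8d_Z (D : BDat a e₁ e₂ c s X Z) :
    Z 1 = (e₂ / e₁) ^ (1 - a) * X 0 ∧ Z 0 = -((e₂ / e₁) ^ (1 - a) * X 1) := by
  have he₂ := D.he₂
  have he₁ : 0 < e₁ := he₂.trans D.he
  obtain ⟨r1, r2⟩ := E8a_rel D
  have w1 : 0 < e₁ ^ (a - 1 / 2) := Real.rpow_pos_of_pos he₁ _
  have w2 : 0 < e₂ ^ (a - 1 / 2) := Real.rpow_pos_of_pos he₂ _
  have s1 : 0 < √e₁ := Real.sqrt_pos.2 he₁
  have s2 : 0 < √e₂ := Real.sqrt_pos.2 he₂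
  have k1 : e₁ ^ (1 - a) * e₁ ^ (a - 1 / 2) = √e₁ := by
    rw [← Real.rpow_add he₁, Real.sqrt_eq_rpow]
    congr 1
    ring
  have k2 : e₂ ^ (1 - a) * e₂ ^ (a - 1 / 2) = √e₂ := by
    rw [← Real.rpow_add he₂, Real.sqrt_eq_rpow]
    congr 1
    ring
  have h1 : 0 < e₁ ^ (1 - a) := Real.rpow_pos_of_pos he₁ _
  have h2 : 0 < e₂ ^ (1 - a) := Real.rpow_pos_of_pos he₂ _
  rw [Real.div_rpow he₂.le he₁.le]
  rw [← k1, ← k2] at r1 r2
  set A := e₁ ^ (1 - a)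
  set B := e₂ ^ (1 - a)
  set u := e₁ ^ (a - 1 / 2)
  set v := e₂ ^ (a - 1 / 2)
  constructor
  · have : u * v * (A * Z 1) = u * v * (B * X 0) := by linear_combination r1
    have := mul_left_cancel₀ (mul_pos w1 w2).ne' this
    field_simp
    linarith
  · have : u * v * (A * Z 0) = u * v * (-(B * X 1)) := by linear_combination r2
    have := mul_left_cancel₀ (mul_pos w1 w2).ne' this
    field_simp
    linarith

/-- the range of `q`, `ρ` -/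
theorem E8d_range (D : BDat a e₁ e₂ c s X Z) :
    (e₂ / e₁) ^ (1 - a) ≤ s * (e₂ / e₁) ^ (1 - a) * X 1 / (c * X 0) ∧
    (e₂ / e₁) ^ (1 - 2 * a) ≤ c * (e₂ / e₁) ^ (1 - a) * X 1 / (s * X 0) ∧
    c * (e₂ / e₁) ^ (1 - a) * X 1 / (s * X 0) ≤ 1 := by
  have h0 := D.ha
  have h1 := D.ha'
  have he₂ := D.he₂
  have he := D.he
  have he₁ : 0 < e₁ := he₂.trans he
  have hc := D.hc
  have hs := D.hs
  have hx0 := D.hX0
  have hx1 := D.hX1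
  obtain ⟨z1, z0⟩ := E8d_Z D
  have hl0 : 0 < e₂ / e₁ := div_pos he₂ he₁
  have hl1 : e₂ / e₁ < 1 := by rw [div_lt_one he₁]; exact he
  have hτ0 : 0 < (e₂ / e₁) ^ (1 - a) := Real.rpow_pos_of_pos hl0 _
  have hτ1 : (e₂ / e₁) ^ (1 - a) < 1 := Real.rpow_lt_one hl0.le hl1 (by linarith)
  have hhad := D.had
  have hbad := D.bad
  have h21 := D.h21
  rw [z0] at h21
  rw [z1, z0] at hhad
  rw [z0, (E8d_pow (a := a) he₂ he).2.2] at hbad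
  have hW0 : 0 < e₁ ^ (2 * a - 1) := Real.rpow_pos_of_pos he₁ _
  have hb : (e₂ / e₁) ^ (1 - 2 * a) * (e₂ / e₁) ^ (2 * a - 1) = 1 := by
    rw [← Real.rpow_add hl0]
    have : 1 - 2 * a + (2 * a - 1) = 0 := by ring
    rw [this, Real.rpow_zero]
  have hb0 : 0 < (e₂ / e₁) ^ (1 - 2 * a) := Real.rpow_pos_of_pos hl0 _
  set τ := (e₂ / e₁) ^ (1 - a)
  set W := e₁ ^ (2 * a - 1)
  set B := (e₂ / e₁) ^ (1 - 2 * a)
  set b := (e₂ / e₁) ^ (2 * a - 1)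
  refine ⟨?_, ?_, ?_⟩
  · rw [le_div_iff₀ (by positivity)]
    have h2 : (1 - τ) * (c * X 0) ≤ (1 - τ) * (s * X 1) := by linarith
    have h3 := le_of_mul_le_mul_left h2 (by linarith)
    have h4 := mul_le_mul_of_nonneg_left h3 hτ0.le
    linarith
  · rw [le_div_iff₀ (by positivity)]
    have h2 : W * (s * X 0 - b * (c * τ * X 1)) < 0 := by linarith
    have h3 : s * X 0 - b * (c * τ * X 1) < 0 := by
      by_contra hh
      rw [not_lt] at hh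
      exact absurd (mul_nonneg hW0.le hh) (not_le.mpr h2)
    have h4 := mul_lt_mul_of_pos_left h3 hb0
    rw [mul_zero] at h4
    have h5 : B * (s * X 0 - b * (c * τ * X 1)) = B * (s * X 0) - (B * b) * (c * τ * X 1) := by ring
    rw [h5, hb] at h4
    linarith
  · rw [div_le_one (by positivity)]
    linarith

/-- (IV) from the scalar core; `q = s τ X₁/(c X₀)`, `ρ = c τ X₁/(s X₀)` -/
theorem E8d_main (D : BDat a e₁ e₂ c s X Z) {l τ q ρ d b ε j : ℝ} (hl : l = e₂ / e₁)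
    (hτ : τ = l ^ (1 - a)) (hdd : d = (1 - l ^ (2 * a)) / (2 * a * (1 - l)))
    (hb : b = l ^ (2 * a - 1)) (hε : ε = l ^ (2 - 2 * a))
    (hj : j = ((1 + l) * d - 1 - l ^ (2 * a)) / (1 - l))
    (hq : q = s * τ * X 1 / (c * X 0)) (hρ : ρ = c * τ * X 1 / (s * X 0))
    (hlρ : l < ρ) (hρ1 : ρ ≤ 1)
    (hcore : ∀ n y : ℝ, n ≤ (ρ - l) / (1 - l) * ((ρ - l) / (ρ * (1 - l))) *
      (ε * (d - 1 + q * (b - d))) → 0 ≤ y →
      1 + (1 + q) ^ 2 * (b - d ^ 2) / (d - 1 + q * (b - d)) ^ 2 ≤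
        ((ρ - l) / (ρ * (1 - l))) ^ (1 + 2 * a) * y ^ 2 →
      0 < q * ρ + ε * (ρ - q) * d - ε * l - ε * (ρ + q) * j ∧
      2 * n ≤ q * ρ + ε * (ρ - q) * d - ε * l - ε * (ρ + q) * j ∧
      (q * ρ + ε * (ρ - q) * d - ε * l - ε * (ρ + q) * j) * ((1 - l) * (q * ρ + ε)) ≤
        y * (q * ρ + ε * (ρ - q) * d - ε * l) *
          (q * ρ + ε * (ρ - q) * d - ε * l - ε * (ρ + q) * j - n)) :
    IVh (kn a (ph e₁ e₂ (c * X 0) (-(s * Z 0))) (fm e₁ e₂ (s * X 0) (c * Z 0)) 1 1 *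
        (c * s * (e₁ - e₂)))
      (kn a (ph e₁ e₂ (c * X 0) (-(s * Z 0))) (ph e₁ e₂ (c * X 0) (-(s * Z 0))) 1 1 *
        (c ^ 2 * e₁ + s ^ 2 * e₂))
      (cst (2 * a) * ker a e₁ e₂ (c * X 1) (-(s * Z 1)) (c * X 1) (-(s * Z 1)) 1 1 *
        (c ^ 2 * e₁ + s ^ 2 * e₂))
      (cst (2 * a) * spr a e₁ e₂ (c * X 1) (-(s * Z 1)) (s * X 1) (c * Z 1) *
        (c * s * (e₁ - e₂)))
      (kn a (fm e₁ e₂ (s * X 0) (c * Z 0)) (fm e₁ e₂ (s * X 0) (c * Z 0)) 1 1 *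
        (s ^ 2 * e₁ + c ^ 2 * e₂))
      (cst (2 * a) * ker a e₁ e₂ (s * X 1) (c * Z 1) (s * X 1) (c * Z 1) 1 1 *
        (s ^ 2 * e₁ + c ^ 2 * e₂)) := by
  have h0 := D.ha
  have h1 := D.ha'
  have he₂ := D.he₂
  have he := D.he
  have he₁ : 0 < e₁ := he₂.trans he
  have hc := D.hc
  have hs := D.hs
  have hcs := D.hcs
  have hx0 := D.hX0
  have hx1 := D.hX1
  have hd : 0 < e₁ - e₂ := sub_pos.mpr he
  obtain ⟨z1, z0⟩ := E8d_Z D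
  have hX := D.hX
  have hl0 : 0 < l := by rw [hl]; positivity
  have hl1 : l < 1 := by rw [hl, div_lt_one he₁]; exact he
  have hδ : 0 < 1 - l := by linarith
  have hτ0 : 0 < τ := by rw [hτ]; exact Real.rpow_pos_of_pos hl0 _
  have hb0 : 0 < b := by rw [hb]; exact Real.rpow_pos_of_pos hl0 _
  have hε0 : 0 < ε := by rw [hε]; exact Real.rpow_pos_of_pos hl0 _
  have hτε : τ ^ 2 = ε := by
    rw [hτ, hε, ← Real.rpow_natCast, ← Real.rpow_mul hl0.le]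
    congr 1
    push_cast
    ring
  have hεb : ε * b = l := by
    rw [hb, hε, ← Real.rpow_add hl0]
    have : 2 - 2 * a + (2 * a - 1) = 1 := by ring
    rw [this, Real.rpow_one]
  have hu1 : l ^ (2 * a) < 1 := Real.rpow_lt_one hl0.le hl1 (by linarith)
  have hd0 : 0 < d := by
    rw [hdd]
    have : 0 < 1 - l ^ (2 * a) := by linarith
    positivity
  have he₂l : e₂ = l * e₁ := by rw [hl]; field_simp
  rw [← hl, ← hτ] at z1 z0
  have hcst := cst_pos (2 * a) (by linarith) h1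
  set W := e₁ ^ (2 * a - 1) with hW
  set w := e₁ ^ (2 - 2 * a) with hw
  have hW0 : 0 < W := Real.rpow_pos_of_pos he₁ _
  have hw0 : 0 < w := Real.rpow_pos_of_pos he₁ _
  have hWw : W * w = e₁ := by
    rw [hW, hw, ← Real.rpow_add he₁]
    have : 2 * a - 1 + (2 - 2 * a) = 1 := by ring
    rw [this, Real.rpow_one]
  have hq0 : 0 < q := by rw [hq]; positivity
  have hρ0 : 0 < ρ := by rw [hρ]; positivity
  have hlρ' : e₂ < ρ * e₁ := by rw [he₂l]; exact mul_lt_mul_of_pos_right hlρ he₁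
  -- closed forms
  have kerf : ∀ p₁ p₂ q₁ q₂ : ℝ, ker a e₁ e₂ p₁ p₂ q₁ q₂ 1 1 =
      2 * a * W * (p₁ * q₁ + (p₁ * q₂ + p₂ * q₁) * d + p₂ * q₂ * b) := by
    intro p₁ p₂ q₁ q₂
    rw [E8d_ker p₁ p₂ q₁ q₂ h0 he₂ he, ← hl, ← hdd, ← hb]
  have sprf : ∀ p₁ p₂ q₁ q₂ : ℝ, spr a e₁ e₂ p₁ p₂ q₁ q₂ =
      2 * a * W * ((p₁ * q₁ + (p₁ * q₂ + p₂ * q₁) * d + p₂ * q₂ * b) -
        (p₁ * q₂ - p₂ * q₁) * j) := by
    intro p₁ p₂ q₁ q₂
    rw [E8d_spr p₁ p₂ q₁ q₂ h0 he₂ he, ← hl, ← hdd, ← hb, ← hj]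
  have knf : ∀ p₁ p₂ q₁ q₂ : ℝ, kn a (ph e₁ e₂ p₁ p₂) (ph e₁ e₂ q₁ q₂) 1 1 =
      cst (2 * a) * ker a e₁ e₂ p₁ p₂ q₁ q₂ 1 1 := fun p₁ p₂ q₁ q₂ =>
    kn_ph p₁ p₂ q₁ q₂ h0 h1 he₁ he₂ one_pos one_pos
  -- the functions
  have f1 : ∀ ν, 0 < ν → ph e₁ e₂ (c * X 0) (-(s * Z 0)) ν = (c * X 0) * ph e₁ e₂ 1 q ν := by
    intro ν _
    rw [← E8d_ph_smul]
    congr 1
    · ring
    · rw [z0, hq]; field_simp
  have f2 : ∀ ν, 0 < ν → fm e₁ e₂ (s * X 0) (c * Z 0) ν =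
      (s * X 0) * fm e₁ e₂ 1 (-ρ) ν := by
    intro ν _
    rw [← E8d_fm_smul (by positivity)]
    congr 1
    · ring
    · rw [z0, hρ]; field_simp
  set khh := kn a (ph e₁ e₂ 1 q) (ph e₁ e₂ 1 q) 1 1 with hkhh
  set khm := kn a (ph e₁ e₂ 1 q) (fm e₁ e₂ 1 (-ρ)) 1 1 with hkhm
  set kmm := kn a (fm e₁ e₂ 1 (-ρ)) (fm e₁ e₂ 1 (-ρ)) 1 1 with hkmm
  have e11 : kn a (ph e₁ e₂ (c * X 0) (-(s * Z 0))) (ph e₁ e₂ (c * X 0) (-(s * Z 0))) 1 1 =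
      (c * X 0) * (c * X 0) * khh := E8d_smul f1 f1
  have e12 : kn a (ph e₁ e₂ (c * X 0) (-(s * Z 0))) (fm e₁ e₂ (s * X 0) (c * Z 0)) 1 1 =
      (c * X 0) * (s * X 0) * khm := E8d_smul f1 f2
  have e22 : kn a (fm e₁ e₂ (s * X 0) (c * Z 0)) (fm e₁ e₂ (s * X 0) (c * Z 0)) 1 1 =
      (s * X 0) * (s * X 0) * kmm := E8d_smul f2 f2
  -- values
  have vhh : khh = cst (2 * a) * (2 * a * W) * (1 + 2 * q * d + q ^ 2 * b) := by
    rw [hkhh, knf, kerf]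
    ring
  have vhm1 : kn a (ph e₁ e₂ 1 q) (fm e₁ e₂ 1 (-1)) 1 1 =
      cst (2 * a) * (2 * a * W) * (d - 1 + q * (b - d)) := by
    rw [kn_congr a (φ' := ph e₁ e₂ 1 q) (ψ' := ph e₁ e₂ (-1) 1) (fun _ _ => rfl)
      (E8d_fm_one he₂ he) one_pos one_pos, knf, kerf]
    ring
  have vmm1 : kn a (fm e₁ e₂ 1 (-1)) (fm e₁ e₂ 1 (-1)) 1 1 =
      cst (2 * a) * (2 * a * W) * (1 - 2 * d + b) := by
    rw [kn_congr a (φ' := ph e₁ e₂ (-1) 1) (ψ' := ph e₁ e₂ (-1) 1)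
      (E8d_fm_one he₂ he) (E8d_fm_one he₂ he) one_pos one_pos, knf, kerf]
    ring
  have hk0 : 0 < cst (2 * a) * (2 * a * W) := by positivity
  have hh : ∀ ν : ℝ, 0 < ν → 0 < ph e₁ e₂ 1 q ν := by
    intro ν hν
    unfold ph
    positivity
  have hZh := Zc.ph e₁ e₂ 1 q he₁ he₂
  have hZm := Zc.fm (e₁ := e₁) (e₂ := e₂) 1 (-ρ) he₁ he₂
  have phm : 0 < khm := E8d_pos h0 h1 he₂ he hlρ' hρ0.le hZh (fun ν hν => (hh ν hν).le)
    (fun ν hν _ => hh ν hν)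
  have phm1 : 0 < kn a (ph e₁ e₂ 1 q) (fm e₁ e₂ 1 (-1)) 1 1 :=
    E8d_pos h0 h1 he₂ he (by rw [one_mul]; exact he) zero_le_one hZh
      (fun ν hν => (hh ν hν).le) (fun ν hν _ => hh ν hν)
  have hn1 : 0 < d - 1 + q * (b - d) := by
    rw [vhm1] at phm1
    exact (mul_pos_iff_of_pos_left hk0).1 phm1
  have pmm : 0 < kmm := E8d_pos h0 h1 he₂ he hlρ' hρ0.le hZm
    (fun ν _ => le_max_right _ _) (fun ν hν hν' => E8d_fm_pos he₂ he hρ0.le hν hν')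
  have hh0 : 0 < 1 + 2 * q * d + q ^ 2 * b := by positivity
  have phh : 0 < khh := by rw [vhh]; positivity
  -- the Lemmas N and Y
  have hN := lemN h0 h1 he₂ he hq0.le hlρ' hρ1
  have hY := lemY h0 h1 he₂ he hq0.le hlρ' hρ1
  have hG : (ρ * e₁ - e₂) / (ρ * (e₁ - e₂)) = (ρ - l) / (ρ * (1 - l)) := by
    rw [he₂l]
    have h2 : e₁ - l * e₁ ≠ 0 := by rw [← he₂l]; exact hd.ne'
    field_simp
  rw [hG, ← hkhm, vhm1] at hN hY
  rw [← hkmm, vmm1] at hY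
  set κ₀ := cst (2 * a) * (2 * a * W) with hκ₀
  set G := (ρ - l) / (ρ * (1 - l)) with hGd
  set n₁ := d - 1 + q * (b - d) with hn₁
  have hρl : 0 < ρ - l := by linarith
  have hG0 : 0 < G := by rw [hGd]; positivity
  have hG1 : G ≤ 1 := by
    rw [hGd, div_le_one (by positivity)]
    have h5 : ρ * l ≤ 1 * l := mul_le_mul_of_nonneg_right hρ1 hl0.le
    linarith
  have hG2 : G ^ (2 + 2 * a) ≤ G ^ 2 := by
    have := Real.rpow_le_rpow_of_exponent_ge hG0 hG1 (show (2 : ℝ) ≤ 2 + 2 * a by linarith)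
    rwa [Real.rpow_two] at this
  have hρG : (ρ - l) / (1 - l) = ρ * G := by
    rw [hGd]
    field_simp
  have hn' : ε * khm / κ₀ ≤ (ρ - l) / (1 - l) * G * (ε * n₁) := by
    rw [div_le_iff₀ hk0, hρG]
    calc ε * khm ≤ ε * (ρ * G ^ (2 + 2 * a) * (κ₀ * n₁)) := mul_le_mul_of_nonneg_left hN hε0.le
      _ ≤ ε * (ρ * G ^ 2 * (κ₀ * n₁)) := by
          have : 0 < κ₀ * n₁ := by positivity
          gcongr
      _ = _ := by ring
  have hy0 : 0 ≤ √(khh * kmm) / khm := by positivity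
  have hy2 : (√(khh * kmm) / khm) ^ 2 = khh * kmm / khm ^ 2 := by
    rw [div_pow, Real.sq_sqrt (by positivity)]
  have hy : 1 + (1 + q) ^ 2 * (b - d ^ 2) / n₁ ^ 2 ≤
      G ^ (1 + 2 * a) * (√(khh * kmm) / khm) ^ 2 := by
    have h3 : 1 + (1 + q) ^ 2 * (b - d ^ 2) / n₁ ^ 2 =
        (1 + 2 * q * d + q ^ 2 * b) * (1 - 2 * d + b) / n₁ ^ 2 := by
      field_simp
      rw [hn₁]
      ring
    rw [h3, hy2, ← mul_div_assoc, div_le_div_iff₀ (by positivity) (by positivity), vhh]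
    have h4 : (1 - 2 * d + b) * khm ^ 2 ≤ G ^ (1 + 2 * a) * kmm * (κ₀ * n₁ ^ 2) := by
      have h5 : κ₀ * ((1 - 2 * d + b) * khm ^ 2) ≤
          κ₀ * (G ^ (1 + 2 * a) * kmm * (κ₀ * n₁ ^ 2)) := by linarith
      exact le_of_mul_le_mul_left h5 hk0
    have h6 := mul_le_mul_of_nonneg_left h4 hh0.le
    linarith
  obtain ⟨hk, hV, hIV⟩ := hcore _ _ hn' hy0 hy
  -- scaling
  have hqρ : q * ρ * X 0 ^ 2 = ε * X 1 ^ 2 := by
    rw [hq, hρ, ← hτε]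
    field_simp
  have hm : c * s * (ρ - q) * X 0 = (c ^ 2 - s ^ 2) * (τ * X 1) := by
    rw [hq, hρ]
    field_simp
  have hp : c * s * (ρ + q) * X 0 = τ * X 1 := by
    have : c * s * (ρ + q) * X 0 = (c ^ 2 + s ^ 2) * (τ * X 1) := by
      rw [hq, hρ]
      field_simp
    rw [this, hcs, one_mul]
  obtain ⟨Λ, hΛ⟩ : ∃ Λ, Λ = c * s * X 0 ^ 2 / (ε * w) := ⟨_, rfl⟩
  have hΛ0 : 0 < Λ := by rw [hΛ]; positivity
  have hΛ' : ε * w * Λ = c * s * X 0 ^ 2 := by rw [hΛ]; field_simp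
  set K := q * ρ + ε * (ρ - q) * d - ε * l with hK
  have sE : c * s * (e₁ - e₂) = e₁ * Λ * ((1 - l) * (q * ρ + ε)) := by
    have h3 : ε * w * (c * s * (e₁ - e₂)) = ε * w * (e₁ * Λ * ((1 - l) * (q * ρ + ε))) := by
      rw [he₂l, ← hX]
      linear_combination (-(e₁ * (1 - l) * (q * ρ + ε))) * (hX ▸ hΛ' : ε * (X 0 ^ 2 + X 1 ^ 2) * Λ = c * s * X 0 ^ 2) - c * s * e₁ * (1 - l) * hqρ
    exact mul_left_cancel₀ (by positivity) h3
  have sK : ker a e₁ e₂ (c * X 1) (-(s * Z 1)) (s * X 1) (c * Z 1) 1 1 =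
      2 * a * (e₁ * Λ * K) := by
    rw [kerf]
    have h3 : ε * (W * (c * X 1 * (s * X 1) + (c * X 1 * (c * Z 1) + -(s * Z 1) * (s * X 1)) * d +
        -(s * Z 1) * (c * Z 1) * b)) = ε * (e₁ * Λ * K) := by
      rw [← hWw, hK, z1]
      linear_combination (-(W * (q * ρ + ε * (ρ - q) * d - ε * l))) * hΛ' - W * c * s * hqρ -
        W * ε * d * X 0 * hm - W * c * s * X 0 ^ 2 * ε * hεb - W * c * s * X 0 ^ 2 * ε * b * hτε
    have := mul_left_cancel₀ hε0.ne' h3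
    linear_combination (2 * a) * this
  have sS : spr a e₁ e₂ (c * X 1) (-(s * Z 1)) (s * X 1) (c * Z 1) =
      2 * a * (e₁ * Λ * (K - ε * (ρ + q) * j)) := by
    rw [sprf]
    have h3 : ε * (W * ((c * X 1 * (s * X 1) + (c * X 1 * (c * Z 1) + -(s * Z 1) * (s * X 1)) * d +
        -(s * Z 1) * (c * Z 1) * b) - (c * X 1 * (c * Z 1) - -(s * Z 1) * (s * X 1)) * j)) =
        ε * (e₁ * Λ * (K - ε * (ρ + q) * j)) := by
      rw [← hWw, hK, z1]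
      linear_combination (-(W * (q * ρ + ε * (ρ - q) * d - ε * l - ε * (ρ + q) * j))) * hΛ' -
        W * c * s * hqρ - W * ε * d * X 0 * hm - W * c * s * X 0 ^ 2 * ε * hεb -
        W * c * s * X 0 ^ 2 * ε * b * hτε + W * ε * j * X 0 * hp - W * ε * j * X 0 * X 1 * τ * hcs
    have := mul_left_cancel₀ hε0.ne' h3
    linear_combination (2 * a) * this
  have sn : (c * X 0) * (s * X 0) * khm = cst (2 * a) * (2 * a) * (e₁ * Λ * (ε * khm / κ₀)) := by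
    have h3 : cst (2 * a) * (2 * a) * (e₁ * Λ * (ε * khm / κ₀)) = (ε * w * Λ) * khm := by
      rw [hκ₀, ← hWw]
      field_simp
    rw [h3, hΛ']
    ring
  have hj0 : 0 ≤ ε * (ρ + q) * j := by
    have h3 := ker_sub_spr_nonneg h0 h1 he₂ he (p₁ := c * X 1) (p₂ := -(s * Z 1))
      (q₁ := s * X 1) (q₂ := c * Z 1) (by rw [z1]; positivity) (by
        rw [z1, neg_mul]
        exact neg_nonpos.mpr (by positivity))
    rw [sK, sS] at h3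
    have h4 : 0 ≤ 2 * a * (e₁ * Λ) * (ε * (ρ + q) * j) := by linarith
    exact nonneg_of_mul_nonneg_right h4 (by positivity)
  have hK0 : 0 < K := by linarith
  have hrB := kn_self_nonneg a (ph e₁ e₂ (c * X 1) (-(s * Z 1)))
  have hrD := kn_self_nonneg a (ph e₁ e₂ (s * X 1) (c * Z 1))
  have hCS := kn_cs h0 h1 (Zc.ph e₁ e₂ (c * X 1) (-(s * Z 1)) he₁ he₂)
    (Zc.ph e₁ e₂ (s * X 1) (c * Z 1) he₁ he₂)
  rw [knf] at hrB hrD
  rw [knf, knf, knf] at hCS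
  have hKp : 0 < cst (2 * a) * ker a e₁ e₂ (c * X 1) (-(s * Z 1)) (s * X 1) (c * Z 1) 1 1 := by
    rw [sK]
    positivity
  have hBD := lt_of_lt_of_le (pow_pos hKp 2) hCS
  have hB0 : 0 < cst (2 * a) * ker a e₁ e₂ (c * X 1) (-(s * Z 1)) (c * X 1) (-(s * Z 1)) 1 1 := by
    rcases hrB.eq_or_lt with h | h
    · rw [← h, zero_mul] at hBD
      exact absurd hBD (lt_irrefl _)
    · exact h
  have hD0 : 0 < cst (2 * a) * ker a e₁ e₂ (s * X 1) (c * Z 1) (s * X 1) (c * Z 1) 1 1 := by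
    rcases hrD.eq_or_lt with h | h
    · rw [← h, mul_zero] at hBD
      exact absurd hBD (lt_irrefl _)
    · exact h
  have s11 := bsum_11 D
  have s22 := bsum_22 D
  have hsplit := kn_split h0 h1 (Zc.fp (s * X 0) (c * Z 0) he₁ he₂)
    (Zc.fm (s * X 0) (c * Z 0) he₁ he₂) (G := ph e₁ e₂ (s * X 0) (c * Z 0))
    (fun ν _ => by
      unfold fp fm
      rcases le_total 0 (ph e₁ e₂ (s * X 0) (c * Z 0) ν) with h | h
      · rw [max_eq_left h, max_eq_right (by linarith)]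
        ring
      · rw [max_eq_right h, max_eq_left (by linarith)]
        ring)
    (fun ν _ => by
      unfold fp fm
      rcases le_total 0 (ph e₁ e₂ (s * X 0) (c * Z 0) ν) with h | h
      · rw [max_eq_right (a := -ph e₁ e₂ (s * X 0) (c * Z 0) ν) (by linarith), mul_zero]
      · rw [max_eq_right h, zero_mul])
  have hfp := kn_self_nonneg a (fp e₁ e₂ (s * X 0) (c * Z 0))
  rw [knf] at hsplit
  refine E8d_iv (C := cst (2 * a) * (2 * a))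
    (K := cst (2 * a) * ker a e₁ e₂ (c * X 1) (-(s * Z 1)) (s * X 1) (c * Z 1) 1 1)
    (y := √(khh * kmm) / khm) (by positivity) (by positivity) (by positivity) (by positivity)
    (by rw [e11]; positivity) hB0 (by rw [e22]; positivity) hD0 (by rw [e12]; positivity)
    ?_ hKp.le hy0 ?_ ?_ ?_ hCS ?_ ?_
  · rw [sS]
    positivity
  · rw [knf]
    linear_combination (cst (2 * a)) * s11
  · have : cst (2 * a) * (2 * a) * (s ^ 2 * e₁ + c ^ 2 * e₂) =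
        cst (2 * a) * (ker a e₁ e₂ (s * X 0) (c * Z 0) (s * X 0) (c * Z 0) 1 1 +
          ker a e₁ e₂ (s * X 1) (c * Z 1) (s * X 1) (c * Z 1) 1 1) := by
      rw [s22]
      ring
    rw [this]
    linarith
  · rw [hy2, e11, e12, e22]
    field_simp
  · rw [e12, sn, sS]
    have h3 : 0 < cst (2 * a) * (2 * a) * (e₁ * Λ) := by positivity
    have h4 := mul_le_mul_of_nonneg_left hV h3.le
    linarith
  · rw [e12, sn, sS, sK, sE]
    have h3 : 0 < (cst (2 * a) * (2 * a) * (e₁ * Λ)) ^ 2 := by positivity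
    have h4 := mul_le_mul_of_nonneg_left hIV h3.le
    linarith

/-- **(IV)** from the core -/
theorem iv_of_core (hcore : ∀ l q ρ : ℝ, 0 < l → l < 1 → l ^ (1 - a) ≤ q → l ^ (1 - 2 * a) ≤ ρ →
      ρ ≤ 1 → E8dCore a l q ρ) (D : BDat a e₁ e₂ c s X Z) :
    IVh (kn a (ph e₁ e₂ (c * X 0) (-(s * Z 0))) (fm e₁ e₂ (s * X 0) (c * Z 0)) 1 1 *
        (c * s * (e₁ - e₂)))
      (kn a (ph e₁ e₂ (c * X 0) (-(s * Z 0))) (ph e₁ e₂ (c * X 0) (-(s * Z 0))) 1 1 *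
        (c ^ 2 * e₁ + s ^ 2 * e₂))
      (cst (2 * a) * ker a e₁ e₂ (c * X 1) (-(s * Z 1)) (c * X 1) (-(s * Z 1)) 1 1 *
        (c ^ 2 * e₁ + s ^ 2 * e₂))
      (cst (2 * a) * spr a e₁ e₂ (c * X 1) (-(s * Z 1)) (s * X 1) (c * Z 1) *
        (c * s * (e₁ - e₂)))
      (kn a (fm e₁ e₂ (s * X 0) (c * Z 0)) (fm e₁ e₂ (s * X 0) (c * Z 0)) 1 1 *
        (s ^ 2 * e₁ + c ^ 2 * e₂))
      (cst (2 * a) * ker a e₁ e₂ (s * X 1) (c * Z 1) (s * X 1) (c * Z 1) 1 1 *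
        (s ^ 2 * e₁ + c ^ 2 * e₂)) := by
  have he₁ : 0 < e₁ := D.he₂.trans D.he
  have hl0 : 0 < e₂ / e₁ := div_pos D.he₂ he₁
  have hl1 : e₂ / e₁ < 1 := by rw [div_lt_one he₁]; exact D.he
  obtain ⟨r1, r2, r3⟩ := E8d_range D
  have r4 : e₂ / e₁ < (e₂ / e₁) ^ (1 - 2 * a) := by
    have := Real.rpow_lt_rpow_of_exponent_gt hl0 hl1 (show 1 - 2 * a < 1 by linarith [D.ha])
    rwa [Real.rpow_one] at this
  exact E8d_main D rfl rfl rfl rfl rfl rfl rfl rfl (r4.trans_le r2) r3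
    (fun n y h1 h2 h3 => hcore _ _ _ hl0 hl1 r1 r2 r3 n y _ _ _ _ rfl rfl rfl rfl h1 h2 h3)

end data

end Pool.Agent.LibSchE
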