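import Pool.Agent.LibSchE.E8g2

/-! **E8g3.**  The end point inequalities and the core. -/

namespace Pool.Agent.LibSchE

/-- **the two ends** in the variables `g = s/p`, `v = p²`, `R = q p²/s²` -/
theorem E8g_main {g p v l d R q : ℝ} (hg : 0 < g) (hg1 : g < 1) (hp : 0 < p) (hp1 : p < 1)
    (hv : v = p ^ 2) (hl : l = g ^ 2 * v) (hq : q = g ^ 2 * R) (hR : p ≤ R)
    (b1 : (1 + v) / (1 + l) ≤ d) (b2 : 3 * d ≤ 2 / g + (1 + v) / (1 + l))
    (b3 : 2 * (1 - g) * (1 - g * v) / (3 * g ^ 2 * (1 + l)) ≤ 1 / g ^ 2 - d ^ 2)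
    (hdb : 2 * d ≤ 1 + 1 / g ^ 2) :
    ∃ Rr : ℝ, 0 ≤ Rr ∧ Rr ^ 2 ≤ 1 + (1 + q) ^ 2 * (1 / g ^ 2 - d ^ 2) /
        (d - 1 + q * (1 / g ^ 2 - d)) ^ 2 ∧
      (q * (1 / g ^ 2) + l + (1 + g * p * (1 - v)) / 2 * (1 - l) *
          ((l * (1 / g ^ 2) - l) / (1 - l)) ^ 2 / 4 ≤
        Rr * ((1 - g ^ 2 * l * (d - 1 + q * (1 / g ^ 2 - d)) / (q + g ^ 2 * l * (1 - q) * d -
            g ^ 2 * l * l - g ^ 2 * l * (1 + q) * ((d - 1 - l * (1 / g ^ 2 - d)) / (1 - l)))) *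
          (q * (1 / g ^ 2) + l + l * (d - 1 + q * (1 / g ^ 2 - d)) / (1 - l)))) ∧
      ((1 - (1 + g * p * (1 - v)) / 2 * ((l * (1 / g ^ 2) - l) / (1 - l))) *
            (q * (1 / g ^ 2) + l + (1 - l) * ((l * (1 / g ^ 2) - l) / (1 - l))) +
          (1 + g * p * (1 - v)) / 2 * (1 - l) * ((l * (1 / g ^ 2) - l) / (1 - l)) ^ 2 / 4 ≤
        Rr * ((1 - g ^ 2 * l * (d - 1 + q * (1 / g ^ 2 - d)) / (q + g ^ 2 * l * (1 - q) * d -
            g ^ 2 * l * l - g ^ 2 * l * (1 + q) * ((d - 1 - l * (1 / g ^ 2 - d)) / (1 - l))) +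
            g ^ 2 * l * (d - 1 + q * (1 / g ^ 2 - d)) / (q + g ^ 2 * l * (1 - q) * d -
            g ^ 2 * l * l - g ^ 2 * l * (1 + q) * ((d - 1 - l * (1 / g ^ 2 - d)) / (1 - l))) *
            ((l * (1 / g ^ 2) - l) / (1 - l))) *
          (q * (1 / g ^ 2) + l + l * (d - 1 + q * (1 / g ^ 2 - d)) / (1 - l) -
            (q * d + l) * ((l * (1 / g ^ 2) - l) / (1 - l))))) := by
  have hv0 : 0 < v := by rw [hv]; positivity
  have hvp : v ≤ p := by rw [hv, sq]; exact mul_le_of_le_one_left hp.le hp1.le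
  have hv1 : v < 1 := by linarith
  have hg2 : g ^ 2 < 1 := pow_lt_one₀ hg.le hg1 two_ne_zero
  have hl0 : 0 < l := by rw [hl]; positivity
  have hlv : l < v := by rw [hl]; exact mul_lt_of_lt_one_left hv0 hg2
  have hl1 : l < 1 := hlv.trans hv1
  have hδ : 0 < 1 - l := by linarith
  have hR0 : 0 < R := lt_of_lt_of_le hp hR
  have hq0 : 0 < q := by rw [hq]; positivity
  have hRl : 0 < R + l := by linarith
  have hRv : 0 < R + v := by linarith
  have hgv : g * v < 1 := mul_lt_one_of_nonneg_of_lt_one_left hg.le hg1 hv1.le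
  have hgv0 : 0 < 1 - g * v := by linarith
  have h1g : 0 < 1 - g := by linarith
  have hlvR : l * v ≤ R := by
    have h3 : l * v ≤ 1 * v := mul_le_mul_of_nonneg_right hl1.le hv0.le
    linarith
  have hgg : 1 < 1 / g ^ 2 := by rw [lt_div_iff₀ (by positivity)]; linarith
  have hd1 : 1 < d := by
    refine lt_of_lt_of_le ?_ b1
    rw [lt_div_iff₀ (by linarith)]
    linarith
  have hn₁e : d - 1 + q * (1 / g ^ 2 - d) = d - 1 + R - q * d := by
    have : q * (1 / g ^ 2) = R := by rw [hq]; field_simp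
    rw [mul_sub, this]
    ring
  have hn₁ : 0 < d - 1 + R - q * d := by
    rw [← hn₁e]
    have h3 : 0 < 1 / g ^ 2 - d := by linarith
    have := mul_pos hq0 h3
    linarith
  have hj₀ : 0 ≤ (1 + l) * d - 1 - v := by
    rw [div_le_iff₀ (by linarith)] at b1
    linarith
  have hq1 : R < 1 → q ≤ 1 := by
    intro h3
    rw [hq]
    exact mul_le_one₀ hg2.le hR0.le h3.le
  obtain ⟨cj, cn1, cn2⟩ := E8g_bd hg hg1 hv0 hv1 hl hq hR0.le b1 b2
  -- `h`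
  have hhb : 0 ≤ v * (1 - g ^ 2) / (1 - l) ∧ v * (1 - g ^ 2) / (1 - l) ≤ 1 ∧
      (1 - l) * (v * (1 - g ^ 2) / (1 - l)) = v - l := by
    have e : v * (1 - g ^ 2) = v - l := by rw [hl]; ring
    rw [e]
    refine ⟨div_nonneg (by linarith) hδ.le, ?_, ?_⟩
    · rw [div_le_one hδ]
      linarith
    · rw [mul_comm, div_mul_cancel₀ _ hδ.ne']
  obtain ⟨h, hh⟩ : ∃ h, h = v * (1 - g ^ 2) / (1 - l) := ⟨_, rfl⟩
  rw [← hh] at hhb
  obtain ⟨hh0, hh1, hδh⟩ := hhb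
  -- the true `n`, `j`
  obtain ⟨n, hn⟩ : ∃ n, n = l * (d - 1 + R - q * d) / ((1 - l) * (R + l)) := ⟨_, rfl⟩
  obtain ⟨j, hj⟩ : ∃ j, j = l * ((1 + q) * ((1 + l) * d - 1 - v)) / ((1 - l) ^ 2 * (R + l)) :=
    ⟨_, rfl⟩
  have hn0 : 0 < n := by rw [hn]; positivity
  have hj0 : 0 ≤ j := by rw [hj]; positivity
  obtain ⟨j', hj'⟩ : ∃ j', j' = 2 * g * v * (1 - g) * (1 - g * v) * (1 + q) /
    (3 * (1 - l) ^ 2 * (R + l)) := ⟨_, rfl⟩
  have hjj : j ≤ j' := by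
    have e1 : j' = l * ((1 + q) * (2 * (1 - g) * (1 - g * v) / (3 * g))) /
        ((1 - l) ^ 2 * (R + l)) := by
      have e0 : l * ((1 + q) * (2 * (1 - g) * (1 - g * v) / (3 * g))) =
          2 * g * v * (1 - g) * (1 - g * v) * (1 + q) / 3 := by
        rw [hl]
        field_simp
      rw [hj', e0]
      rw [div_div]
      congr 1
      ring
    rw [e1, hj]
    exact div_le_div_of_nonneg_right (mul_le_mul_of_nonneg_left cj hl0.le) (by positivity)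
  -- bound of `n`
  have hnn : ∀ br : ℝ, d - 1 + R - q * d ≤ (1 - g) * br / (3 * g * (1 + l)) →
      n ≤ g * v * (1 - g) * br / (3 * (1 + l) * (1 - l) * (R + l)) := by
    intro br hbr
    have e1 : g * v * (1 - g) * br / (3 * (1 + l) * (1 - l) * (R + l)) =
        l * ((1 - g) * br / (3 * g * (1 + l))) / ((1 - l) * (R + l)) := by
      have : l * ((1 - g) * br / (3 * g * (1 + l))) = g * v * (1 - g) * br / (3 * (1 + l)) := by
        rw [← mul_div_assoc]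
        have e2 : l * ((1 - g) * br) = g * (g * v * (1 - g) * br) := by rw [hl]; ring
        rw [e2, mul_assoc 3 g (1 + l), mul_left_comm 3 g (1 + l),
          mul_div_mul_left _ _ hg.ne']
      rw [this, div_div]
      congr 1
      ring
    rw [e1, hn]
    exact div_le_div_of_nonneg_right (mul_le_mul_of_nonneg_left hbr hl0.le) (by positivity)
  -- the data with `cq = 1`
  obtain ⟨br, hbr⟩ : ∃ br, br = 3 * g * (1 + g) * (R + v) + 2 * (1 - g * v) := ⟨_, rfl⟩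
  have hbr0 : 0 < br := by rw [hbr]; positivity
  rw [← hbr] at cn1
  obtain ⟨z, hz⟩ : ∃ z, z = 6 * (1 - g * v) * (1 + l) * (1 + q) ^ 2 / ((1 - g) * br ^ 2) :=
    ⟨_, rfl⟩
  have hz0 : 0 ≤ z := by rw [hz]; positivity
  obtain ⟨n', hn'⟩ : ∃ n', n' = g * v * (1 - g) * br / (3 * (1 + l) * (1 - l) * (R + l)) :=
    ⟨_, rfl⟩
  have hnn1 : n ≤ n' := by
    rw [hn']
    exact hnn br cn1
  obtain ⟨hj1, C1⟩ := E8g_C1 hg hg1 hp1 hv0 hv1 (hvp.trans hR) hl hl1 hl0 hq hbr hz hz0 hn' hj'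
    hn0 hnn1 hj0 hjj
  have hjle : 0 ≤ 1 - j := sub_nonneg.2 (hjj.trans hj1)
  have hpos : 0 < 1 + n - j := by
    have : 0 < (1 - j) + n := add_pos_of_nonneg_of_pos hjle hn0
    rwa [show (1 - j) + n = 1 + n - j by ring] at this
  rcases lt_or_ge R 1 with hR1 | hR1
  · -- lower range
    have hq1' := hq1 hR1
    have h1q : 0 ≤ 1 - q := sub_nonneg.2 hq1'
    have cn2' := cn2 hq1'
    obtain ⟨br2, hbr2⟩ : ∃ br, br = 3 * g * (1 + g) * (R + v) + 2 * (1 - g * v) * (1 - q) :=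
      ⟨_, rfl⟩
    rw [← hbr2] at cn2'
    have hbr20 : 0 < br2 := by rw [hbr2]; positivity
    have hbb : br2 ≤ br := by
      rw [hbr, hbr2]
      refine add_le_add_right ?_ _
      have h3 : 2 * (1 - g * v) * (1 - q) ≤ 2 * (1 - g * v) * 1 :=
        mul_le_mul_of_nonneg_left (sub_le_self 1 hq0.le) (by positivity)
      rwa [mul_one] at h3
    obtain ⟨z2, hz2⟩ : ∃ z, z = 6 * (1 - g * v) * (1 + l) * (1 + q) ^ 2 / ((1 - g) * br2 ^ 2) :=
      ⟨_, rfl⟩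
    have hz20 : 0 ≤ z2 := by rw [hz2]; positivity
    obtain ⟨n2, hn2⟩ : ∃ n', n' = g * v * (1 - g) * br2 / (3 * (1 + l) * (1 - l) * (R + l)) :=
      ⟨_, rfl⟩
    have hnn2 : n ≤ n2 := by
      rw [hn2]
      exact hnn br2 cn2'
    have hzz : z ≤ z2 := by
      rw [hz, hz2]
      refine div_le_div_of_nonneg_left (by positivity) (by positivity) ?_
      exact mul_le_mul_of_nonneg_left (pow_le_pow_left₀ hbr20.le hbb 2) h1g.le
    have Cb := E8g_lo hg hg1 hp hp1 hv hv0 hR hR1 hlvR hl hl1 hl0 hq hh hh0 hh1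
      (lt_trans one_pos hd1) hbr2 hz2 hz20 hn2 hj' hj1 hn0 hnn2 hjj b1
    have hR2 := E8g_z (q := q) hg hg1 hl0 hgv0.le hbr20 hz2 hn₁ cn2' b3
    have hC1' := C1.trans (mul_le_mul_of_nonneg_right (E8g_Rmono hz0 hzz)
      (mul_nonneg hjle (add_pos one_pos hn0).le))
    clear C1 hbr hz hn' hj' hbr2 hz2 hn2 cn1 cn2 cj cn2' hnn
    refine ⟨(4 + 3 * z2) / (4 + z2), by positivity, ?_, ?_⟩
    · rw [hn₁e]
      exact (E8g_R hz20).trans (by simpa using hR2)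
    · exact E8g_conv hg hg1 hv0 hv1 hl hq hR0 hn hj hh hpos (by positivity) hC1' Cb
  · -- upper range
    have Cb := E8g_hi hg hg1 hv0 hv1 hvp hR1 hl hl1 hl0 hq hh hh0 hh1 hδh hbr hz hz0 hn' hj'
      hj1 hn0 hnn1 hjj b2
    have hR2 := E8g_z (q := q) hg hg1 hl0 hgv0.le hbr0 hz hn₁ cn1 b3
    clear hbr hz hn' hj' cn1 cn2 cj hnn
    refine ⟨(4 + 3 * z) / (4 + z), by positivity, ?_, ?_⟩
    · rw [hn₁e]
      exact (E8g_R hz0).trans (by simpa using hR2)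
    · exact E8g_conv hg hg1 hv0 hv1 hl hq hR0 hn hj hh hpos (by positivity) C1 Cb

/-- **the core** -/
theorem core_all {a : ℝ} (h0 : 0 < a) (h1 : 2 * a < 1) (l q ρ : ℝ) (hl : 0 < l) (hl1 : l < 1)
    (hq : l ^ (1 - a) ≤ q) (hρ : l ^ (1 - 2 * a) ≤ ρ) (hρ1 : ρ ≤ 1) : E8dCore a l q ρ := by
  refine core_of h0 h1 ?_ l q ρ hl hl1 hq hρ hρ1
  intro s p d q hs hsp hp1 b1 b2 b3 b4 hq
  have hp : 0 < p := hs.trans hsp
  obtain ⟨g, hg⟩ : ∃ g, g = s / p := ⟨_, rfl⟩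
  have hsg : s = g * p := by rw [hg]; field_simp
  have hg0 : 0 < g := by rw [hg]; positivity
  have hg1 : g < 1 := by rw [hg, div_lt_one hp]; exact hsp
  have hs1 : s < 1 := hsp.trans hp1
  have e1 : p ^ 2 / s ^ 2 = 1 / g ^ 2 := by rw [hsg]; field_simp
  have e2 : s ^ 4 / p ^ 2 = g ^ 2 * s ^ 2 := by rw [hsg]; field_simp
  have e3 : p / s = 1 / g := by rw [hsg]; field_simp
  have hl : s ^ 2 = g ^ 2 * p ^ 2 := by rw [hsg]; ring
  have hlm := E8f_hlm hs hsp hp1 b2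
  rw [e1] at b3 hlm ⊢
  rw [e2]
  have b2' : 3 * d ≤ 2 / g + (1 + p ^ 2) / (1 + s ^ 2) := by
    rw [e3] at b2
    have : 2 * (1 / g) = 2 / g := by ring
    linarith
  have b3' : 2 * (1 - g) * (1 - g * p ^ 2) / (3 * g ^ 2 * (1 + s ^ 2)) ≤ 1 / g ^ 2 - d ^ 2 := by
    refine le_trans (le_of_eq ?_) b3
    have h3 : 3 * s ^ 2 * (1 + s ^ 2) = p ^ 2 * (3 * g ^ 2 * (1 + s ^ 2)) := by
      rw [hl]; ring
    have h4 : 2 * p * (p - s) * (1 - p * s) = p ^ 2 * (2 * (1 - g) * (1 - g * p ^ 2)) := by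
      rw [hsg]; ring
    rw [h3, h4, mul_div_mul_left _ _ (by positivity)]
  obtain ⟨Rr, r0, r1, r2, r3⟩ := E8g_main (q := q) (R := q * (1 / g ^ 2)) hg0 hg1 hp hp1 rfl hl
    (by field_simp) (by
      rw [mul_one_div, le_div_iff₀ (by positivity)]
      have : s ^ 2 / p = p * g ^ 2 := by rw [hsg]; field_simp
      linarith) b1 b2' b3' hlm
  refine ⟨Rr, (1 + g * p * (1 - p ^ 2)) / 2, r0, r1, ?_, ?_, r2, r3⟩
  · have : 0 ≤ 1 - p ^ 2 := by
      have := pow_lt_one₀ hp.le hp1 two_ne_zero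
      linarith
    positivity
  · have h3 : g * p * (1 - p ^ 2) ≤ 2 * a := by
      rw [← hsg]
      have hs2 : 0 ≤ s ^ 2 := sq_nonneg s
      rw [div_le_iff₀ (by linarith [pow_lt_one₀ hs.le (hsp.trans hp1) two_ne_zero])] at b4
      have : 2 * a * (1 - s ^ 2) ≤ 2 * a * 1 :=
        mul_le_mul_of_nonneg_left (by linarith) (by linarith)
      linarith
    linarith

end Pool.Agent.LibSchE
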