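import Pool.Agent.LibSchE.E5
import Pool.Agent.LibSchE.E7
import Pool.Agent.LibSchE.E4
import Pool.Agent.LibSchE.E8a
import Pool.Agent.LibSchE.E8d
import Pool.Agent.LibSchE.E8g3

/-! **E8.**  The scalar inequalities (IV) and (PD+) (paper proof: helper43). -/

open MeasureTheory Set Matrix
open scoped ComplexOrder

namespace Pool.Agent.LibSchE

open Pool.Agent.LibSchP Pool.Agent.LibSchA

variable {a e₁ e₂ c s : ℝ} {X Z : Fin 2 → ℝ}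

/-- **(IV)** -/
theorem iv_main (D : BDat a e₁ e₂ c s X Z) :
    IVh (kn a (ph e₁ e₂ (c * X 0) (-(s * Z 0))) (fm e₁ e₂ (s * X 0) (c * Z 0)) 1 1 *
        (c * s * (e₁ - e₂)))
      (kn a (ph e₁ e₂ (c * X 0) (-(s * Z 0))) (ph e₁ e₂ (c * X 0) (-(s * Z 0))) 1 1 *
        (c ^ 2 * e₁ + s ^ 2 * e₂))
      (cst (2 * a) * ker a e₁ e₂ (c * X 1) (-(s * Z 1)) (c * X 1) (-(s * Z 1)) 1 1 *
        (c ^ 2 * e₁ + s ^ 2 * e₂))
      (cst (2 * a) * spr a e₁ e₂ (c * X 1) (-(s * Z 1)) (s * X 1) (c * Z 1) *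
        (c * s * (e₁ - e₂)))
      (kn a (fm e₁ e₂ (s * X 0) (c * Z 0)) (fm e₁ e₂ (s * X 0) (c * Z 0)) 1 1 *
        (s ^ 2 * e₁ + c ^ 2 * e₂))
      (cst (2 * a) * ker a e₁ e₂ (s * X 1) (c * Z 1) (s * X 1) (c * Z 1) 1 1 *
        (s ^ 2 * e₁ + c ^ 2 * e₂)) :=
  iv_of_core (fun l q ρ hl hl1 hq hρ hρ1 => core_all D.ha D.ha' l q ρ hl hl1 hq hρ hρ1) D

end Pool.Agent.LibSchE
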