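import Mathlib.Analysis.SpecialFunctions.Trigonometric.DerivHyp
import Mathlib.Analysis.SpecialFunctions.Log.Deriv
import Mathlib.Analysis.SpecialFunctions.Pow.Real
import Mathlib.Analysis.Calculus.Deriv.MeanValue

/-! **E8c.**  Classical bounds for the logarithmic-mean quotient (helper43, section 4). -/

open Set

namespace Pool.Agent.LibSchE

theorem e8c_pos {f f' : ℝ → ℝ} (hd : ∀ x, HasDerivAt f (f' x) x) (h0 : 0 ≤ f 0)
    (hn : ∀ x, 0 ≤ x → 0 ≤ f' x) {t : ℝ} (ht : 0 ≤ t) : 0 ≤ f t := by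
  have hm : MonotoneOn f (Ici 0) := by
    refine monotoneOn_of_deriv_nonneg (convex_Ici 0)
      (fun x _ => (hd x).continuousAt.continuousWithinAt)
      (fun x _ => (hd x).differentiableAt.differentiableWithinAt) fun x hx => ?_
    rw [(hd x).deriv]
    rw [interior_Ici] at hx
    exact hn x (le_of_lt hx)
  exact h0.trans (hm (by simp) ht ht)

theorem e8c_1 {t : ℝ} (ht : 0 ≤ t) : 0 ≤ t * Real.cosh t - Real.sinh t := by
  refine e8c_pos (f := fun t => t * Real.cosh t - Real.sinh t) (f' := fun t => t * Real.sinh t)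
    (fun x => ?_) (by simp) (fun x hx => mul_nonneg hx (Real.sinh_nonneg_iff.2 hx)) ht
  have h : HasDerivAt (fun t => t * Real.cosh t - Real.sinh t)
      (1 * Real.cosh x + x * Real.sinh x - Real.cosh x) x :=
    ((hasDerivAt_id x).mul (Real.hasDerivAt_cosh x)).sub (Real.hasDerivAt_sinh x)
  exact h.congr_deriv (by ring)

theorem e8c_2 {t : ℝ} (ht : 0 ≤ t) : 0 ≤ 2 - 2 * Real.cosh t + t * Real.sinh t := by
  refine e8c_pos (f := fun t => 2 - 2 * Real.cosh t + t * Real.sinh t)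
    (f' := fun t => t * Real.cosh t - Real.sinh t)
    (fun x => ?_) (by simp) (fun x hx => e8c_1 hx) ht
  have h : HasDerivAt (fun t => 2 - 2 * Real.cosh t + t * Real.sinh t)
      (-(2 * Real.sinh x) + (1 * Real.sinh x + x * Real.cosh x)) x :=
    (((Real.hasDerivAt_cosh x).const_mul 2).const_sub 2).add
      ((hasDerivAt_id x).mul (Real.hasDerivAt_sinh x))
  exact h.congr_deriv (by ring)

theorem e8c_3 {t : ℝ} (ht : 0 ≤ t) : 0 ≤ t * (Real.cosh t + 2) - 3 * Real.sinh t := by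
  refine e8c_pos (f := fun t => t * (Real.cosh t + 2) - 3 * Real.sinh t)
    (f' := fun t => 2 - 2 * Real.cosh t + t * Real.sinh t)
    (fun x => ?_) (by simp) (fun x hx => e8c_2 hx) ht
  have h : HasDerivAt (fun t => t * (Real.cosh t + 2) - 3 * Real.sinh t)
      (1 * (Real.cosh x + 2) + x * Real.sinh x - 3 * Real.cosh x) x :=
    ((hasDerivAt_id x).mul ((Real.hasDerivAt_cosh x).add_const 2)).sub
      ((Real.hasDerivAt_sinh x).const_mul 3)
  exact h.congr_deriv (by ring)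

/-- `3 x cosh² x - 3 sinh x cosh x - x sinh² x ≥ 0` -/
theorem e8c_4 {x : ℝ} (hx : 0 ≤ x) :
    0 ≤ 3 * x * Real.cosh x ^ 2 - 3 * (Real.sinh x * Real.cosh x) - x * Real.sinh x ^ 2 := by
  have h := e8c_3 (t := 2 * x) (by linarith)
  rw [Real.cosh_two_mul, Real.sinh_two_mul] at h
  have h1 := Real.cosh_sq x
  nlinarith

/-- `x ≤ sinh x cosh x` -/
theorem e8c_5 {x : ℝ} (hx : 0 ≤ x) : x ≤ Real.sinh x * Real.cosh x := by
  have h1 : x ≤ Real.sinh x := Real.self_le_sinh_iff.2 hx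
  have h2 : 1 ≤ Real.cosh x := Real.one_le_cosh x
  nlinarith

/-- `sinh³ x / (x³ cosh x)` is increasing -/
theorem e8c_S {x r : ℝ} (hx : 0 < x) (hxr : x ≤ r) :
    Real.sinh x ^ 3 * (r ^ 3 * Real.cosh r) ≤ Real.sinh r ^ 3 * (x ^ 3 * Real.cosh x) := by
  have hder : ∀ y, 0 < y → HasDerivAt
      (fun y => 3 * Real.log (Real.sinh y) - 3 * Real.log y - Real.log (Real.cosh y))
      (3 * (Real.cosh y / Real.sinh y) - 3 * y⁻¹ - Real.sinh y / Real.cosh y) y := by
    intro y hy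
    have h1 : 0 < Real.sinh y := Real.sinh_pos_iff.2 hy
    have h2 : 0 < Real.cosh y := Real.cosh_pos y
    exact ((((Real.hasDerivAt_sinh y).log h1.ne').const_mul 3).sub
      ((Real.hasDerivAt_log hy.ne').const_mul 3)).sub ((Real.hasDerivAt_cosh y).log h2.ne')
  have hm : MonotoneOn
      (fun y => 3 * Real.log (Real.sinh y) - 3 * Real.log y - Real.log (Real.cosh y)) (Ioi 0) := by
    refine monotoneOn_of_deriv_nonneg (convex_Ioi 0)
      (fun y hy => (hder y hy).continuousAt.continuousWithinAt)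
      (fun y hy => (hder y (interior_subset hy)).differentiableAt.differentiableWithinAt)
      fun y hy => ?_
    have hy' : 0 < y := interior_subset hy
    rw [(hder y hy').deriv]
    have h1 : 0 < Real.sinh y := Real.sinh_pos_iff.2 hy'
    have h2 : 0 < Real.cosh y := Real.cosh_pos y
    have e : 3 * (Real.cosh y / Real.sinh y) - 3 * y⁻¹ - Real.sinh y / Real.cosh y =
        (3 * y * Real.cosh y ^ 2 - 3 * (Real.sinh y * Real.cosh y) - y * Real.sinh y ^ 2) /
          (y * Real.sinh y * Real.cosh y) := by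
      field_simp
    rw [e]
    exact div_nonneg (e8c_4 hy'.le) (by positivity)
  have hr : 0 < r := lt_of_lt_of_le hx hxr
  have h := hm hx hr hxr
  have sx : 0 < Real.sinh x := Real.sinh_pos_iff.2 hx
  have sr : 0 < Real.sinh r := Real.sinh_pos_iff.2 hr
  have cx : 0 < Real.cosh x := Real.cosh_pos x
  have cr : 0 < Real.cosh r := Real.cosh_pos r
  rw [← Real.log_le_log_iff (by positivity) (by positivity),
    Real.log_mul (by positivity) (by positivity), Real.log_mul (by positivity) (by positivity),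
    Real.log_mul (by positivity) (by positivity), Real.log_mul (by positivity) (by positivity),
    Real.log_pow, Real.log_pow, Real.log_pow, Real.log_pow]
  push_cast
  simp only at h
  linarith

/-- `tanh x / x` is decreasing -/
theorem e8c_T {x r : ℝ} (hx : 0 < x) (hxr : x ≤ r) :
    Real.sinh r * (x * Real.cosh x) ≤ Real.sinh x * (r * Real.cosh r) := by
  have hder : ∀ y, 0 < y → HasDerivAt
      (fun y => Real.log (Real.sinh y) - Real.log y - Real.log (Real.cosh y))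
      (Real.cosh y / Real.sinh y - y⁻¹ - Real.sinh y / Real.cosh y) y := by
    intro y hy
    have h1 : 0 < Real.sinh y := Real.sinh_pos_iff.2 hy
    have h2 : 0 < Real.cosh y := Real.cosh_pos y
    exact (((Real.hasDerivAt_sinh y).log h1.ne').sub
      (Real.hasDerivAt_log hy.ne')).sub ((Real.hasDerivAt_cosh y).log h2.ne')
  have hm : AntitoneOn
      (fun y => Real.log (Real.sinh y) - Real.log y - Real.log (Real.cosh y)) (Ioi 0) := by
    refine antitoneOn_of_deriv_nonpos (convex_Ioi 0)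
      (fun y hy => (hder y hy).continuousAt.continuousWithinAt)
      (fun y hy => (hder y (interior_subset hy)).differentiableAt.differentiableWithinAt)
      fun y hy => ?_
    have hy' : 0 < y := interior_subset hy
    rw [(hder y hy').deriv]
    have h1 : 0 < Real.sinh y := Real.sinh_pos_iff.2 hy'
    have h2 : 0 < Real.cosh y := Real.cosh_pos y
    have e : Real.cosh y / Real.sinh y - y⁻¹ - Real.sinh y / Real.cosh y =
        -((Real.sinh y * Real.cosh y - y * (Real.cosh y ^ 2 - Real.sinh y ^ 2)) /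
          (y * Real.sinh y * Real.cosh y)) := by
      field_simp
      ring
    rw [e, Real.cosh_sq_sub_sinh_sq, mul_one]
    have h3 := e8c_5 hy'.le
    have : 0 ≤ (Real.sinh y * Real.cosh y - y) / (y * Real.sinh y * Real.cosh y) :=
      div_nonneg (by linarith) (by positivity)
    linarith
  have hr : 0 < r := lt_of_lt_of_le hx hxr
  have h := hm hx hr hxr
  have sx : 0 < Real.sinh x := Real.sinh_pos_iff.2 hx
  have sr : 0 < Real.sinh r := Real.sinh_pos_iff.2 hr
  have cx : 0 < Real.cosh x := Real.cosh_pos x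
  have cr : 0 < Real.cosh r := Real.cosh_pos r
  rw [← Real.log_le_log_iff (by positivity) (by positivity),
    Real.log_mul (by positivity) (by positivity), Real.log_mul (by positivity) (by positivity),
    Real.log_mul (by positivity) (by positivity), Real.log_mul (by positivity) (by positivity)]
  simp only at h
  linarith

/-- the data `s = e^(-r)`, `p = e^(-β r)` -/
theorem e8c_data {β s p : ℝ} (hβ : 0 < β) (hβ1 : β < 1) (hs : 0 < s) (hs1 : s < 1)
    (hp : p = s ^ β) : ∃ r x : ℝ, 0 < x ∧ x ≤ r ∧ x = β * r ∧ s * Real.exp r = 1 ∧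
      p * Real.exp x = 1 ∧ 1 - s ^ 2 = 2 * s * Real.sinh r ∧ 1 + s ^ 2 = 2 * s * Real.cosh r ∧
      1 - p ^ 2 = 2 * p * Real.sinh x ∧ 1 + p ^ 2 = 2 * p * Real.cosh x ∧ 0 < p ∧ p < 1 ∧
      s < p := by
  have hr : 0 < -Real.log s := by
    have := Real.log_neg hs hs1
    linarith
  have e1 : s * Real.exp (-Real.log s) = 1 := by
    rw [Real.exp_neg, Real.exp_log hs, mul_inv_cancel₀ hs.ne']
  have hp' : p = Real.exp (-(β * -Real.log s)) := by
    rw [hp, Real.rpow_def_of_pos hs]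
    congr 1
    ring
  have e2 : p * Real.exp (β * -Real.log s) = 1 := by
    rw [hp', ← Real.exp_add, neg_add_cancel, Real.exp_zero]
  have hs' : s = Real.exp (-(-Real.log s)) := by rw [neg_neg, Real.exp_log hs]
  have gen : ∀ y z : ℝ, z = Real.exp (-y) → 1 - z ^ 2 = 2 * z * Real.sinh y ∧
      1 + z ^ 2 = 2 * z * Real.cosh y := by
    intro y z hz
    have h1 : z * Real.exp y = 1 := by rw [hz, ← Real.exp_add, neg_add_cancel, Real.exp_zero]
    rw [Real.sinh_eq, Real.cosh_eq, ← hz]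
    constructor
    · linear_combination -h1
    · linear_combination -h1
  obtain ⟨a1, a2⟩ := gen _ _ hs'
  obtain ⟨b1, b2⟩ := gen _ _ hp'
  refine ⟨-Real.log s, β * -Real.log s, mul_pos hβ hr, ?_, rfl, e1, e2, a1, a2, b1, b2, ?_, ?_,
    ?_⟩
  · nlinarith
  · rw [hp']; exact Real.exp_pos _
  · rw [hp]; exact Real.rpow_lt_one hs.le hs1 hβ
  · rw [hp]
    calc s = s ^ (1 : ℝ) := (Real.rpow_one s).symm
      _ < s ^ β := Real.rpow_lt_rpow_of_exponent_gt hs hs1 hβ1

/-- **(B1)** `(1+p²)/(1+s²) ≤ d` -/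
theorem bd1 {β s p d : ℝ} (hβ : 0 < β) (hβ1 : β < 1) (hs : 0 < s) (hs1 : s < 1)
    (hp : p = s ^ β) (hd : d = (1 - p ^ 2) / (β * (1 - s ^ 2))) :
    (1 + p ^ 2) / (1 + s ^ 2) ≤ d := by
  obtain ⟨r, x, hx, hxr, hxb, -, -, h1, h2, h3, h4, hp0, -, -⟩ := e8c_data hβ hβ1 hs hs1 hp
  have hr : 0 < r := by linarith
  have hT := e8c_T hx hxr
  have sr : 0 < Real.sinh r := Real.sinh_pos_iff.2 hr
  have cr : 0 < Real.cosh r := Real.cosh_pos r
  rw [hd, h1, h2, h3, h4, div_le_div_iff₀ (by positivity) (by positivity)]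
  have h5 : β * (Real.sinh r * Real.cosh x) ≤ Real.sinh x * Real.cosh r := by
    rw [hxb] at hT ⊢
    have : r * (β * (Real.sinh r * Real.cosh (β * r))) ≤
        r * (Real.sinh (β * r) * Real.cosh r) := by linarith
    exact le_of_mul_le_mul_left this hr
  have h6 : 0 < 4 * (p * s) := by positivity
  have := mul_le_mul_of_nonneg_left h5 h6.le
  linarith

/-- `S³ ≤ w`, for `S = (s/p) d`, `w = (s/p) (1+p²)/(1+s²)` -/
theorem bdS {β s p d : ℝ} (hβ : 0 < β) (hβ1 : β < 1) (hs : 0 < s) (hs1 : s < 1)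
    (hp : p = s ^ β) (hd : d = (1 - p ^ 2) / (β * (1 - s ^ 2))) :
    (s / p * d) ^ 3 ≤ s / p * ((1 + p ^ 2) / (1 + s ^ 2)) := by
  obtain ⟨r, x, hx, hxr, hxb, -, -, h1, h2, h3, h4, hp0, -, -⟩ := e8c_data hβ hβ1 hs hs1 hp
  have hr : 0 < r := by linarith
  have hS := e8c_S hx hxr
  have sr : 0 < Real.sinh r := Real.sinh_pos_iff.2 hr
  have cr : 0 < Real.cosh r := Real.cosh_pos r
  have e1 : s / p * d = Real.sinh x / (β * Real.sinh r) := by
    rw [hd, h1, h3]
    field_simp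
  have e2 : s / p * ((1 + p ^ 2) / (1 + s ^ 2)) = Real.cosh x / Real.cosh r := by
    rw [h2, h4]
    field_simp
  rw [e1, e2, div_pow, div_le_div_iff₀ (by positivity) cr]
  have h5 : r ^ 3 * (Real.sinh x ^ 3 * Real.cosh r) ≤
      r ^ 3 * (Real.cosh x * (β * Real.sinh r) ^ 3) := by
    rw [hxb] at hS ⊢
    calc r ^ 3 * (Real.sinh (β * r) ^ 3 * Real.cosh r) =
        Real.sinh (β * r) ^ 3 * (r ^ 3 * Real.cosh r) := by ring
      _ ≤ _ := hS
      _ = _ := by ring
  exact le_of_mul_le_mul_left h5 (by positivity)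

/-- **(B2)** `3 d ≤ 2 p/s + (1+p²)/(1+s²)` -/
theorem bd2 {β s p d : ℝ} (hβ : 0 < β) (hβ1 : β < 1) (hs : 0 < s) (hs1 : s < 1)
    (hp : p = s ^ β) (hd : d = (1 - p ^ 2) / (β * (1 - s ^ 2))) :
    3 * d ≤ 2 * (p / s) + (1 + p ^ 2) / (1 + s ^ 2) := by
  have h := bdS hβ hβ1 hs hs1 hp hd
  obtain ⟨r, x, hx, hxr, hxb, -, -, h1, h2, h3, h4, hp0, hp1, -⟩ := e8c_data hβ hβ1 hs hs1 hp
  have hd0 : 0 ≤ d := by
    rw [hd]
    have : 0 ≤ 1 - p ^ 2 := by nlinarith
    have : 0 < 1 - s ^ 2 := by nlinarith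
    positivity
  set S := s / p * d
  have hS0 : 0 ≤ S := by positivity
  have h5 : 3 * S ≤ 2 + S ^ 3 := by nlinarith [sq_nonneg (S - 1), mul_nonneg hS0 (sq_nonneg (S - 1))]
  have h6 : 3 * S ≤ 2 + s / p * ((1 + p ^ 2) / (1 + s ^ 2)) := by linarith
  have h7 := mul_le_mul_of_nonneg_left h6 (by positivity : (0:ℝ) ≤ p / s)
  have e1 : p / s * (3 * S) = 3 * d := by
    simp only [S]
    field_simp
  have e2 : p / s * (2 + s / p * ((1 + p ^ 2) / (1 + s ^ 2))) =
      2 * (p / s) + (1 + p ^ 2) / (1 + s ^ 2) := by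
    field_simp
  rw [e1, e2] at h7
  exact h7

/-- **(B3)** `2p(p-s)(1-ps)/(3 s² (1+s²)) ≤ p²/s² - d²` -/
theorem bd3 {β s p d : ℝ} (hβ : 0 < β) (hβ1 : β < 1) (hs : 0 < s) (hs1 : s < 1)
    (hp : p = s ^ β) (hd : d = (1 - p ^ 2) / (β * (1 - s ^ 2))) :
    2 * p * (p - s) * (1 - p * s) / (3 * s ^ 2 * (1 + s ^ 2)) ≤ p ^ 2 / s ^ 2 - d ^ 2 := by
  have h := bdS hβ hβ1 hs hs1 hp hd
  obtain ⟨r, x, hx, hxr, hxb, -, -, h1, h2, h3, h4, hp0, hp1, -⟩ := e8c_data hβ hβ1 hs hs1 hp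
  have hd0 : 0 ≤ d := by
    rw [hd]
    have : 0 ≤ 1 - p ^ 2 := by nlinarith
    have : 0 < 1 - s ^ 2 := by nlinarith
    positivity
  set S := s / p * d
  have hS0 : 0 ≤ S := by positivity
  have h5 : 3 * S ^ 2 ≤ 1 + 2 * S ^ 3 := by
    nlinarith [sq_nonneg (S - 1), mul_nonneg hS0 (sq_nonneg (S - 1))]
  have h6 : 3 * S ^ 2 ≤ 1 + 2 * (s / p * ((1 + p ^ 2) / (1 + s ^ 2))) := by linarith
  have e1 : 2 * p * (p - s) * (1 - p * s) / (3 * s ^ 2 * (1 + s ^ 2)) =
      (p / s) ^ 2 * ((2 / 3) * (1 - s / p * ((1 + p ^ 2) / (1 + s ^ 2)))) := by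
    field_simp
    ring
  have e2 : p ^ 2 / s ^ 2 - d ^ 2 = (p / s) ^ 2 * (1 - S ^ 2) := by
    simp only [S]
    field_simp
  rw [e1, e2]
  refine mul_le_mul_of_nonneg_left ?_ (by positivity)
  linarith

/-- **(B4)** `s (1-p²)/(1-s²) ≤ β` -/
theorem bd4 {β s p : ℝ} (hβ : 0 < β) (hβ1 : β < 1) (hs : 0 < s) (hs1 : s < 1)
    (hp : p = s ^ β) : s * (1 - p ^ 2) / (1 - s ^ 2) ≤ β := by
  obtain ⟨r, x, hx, hxr, hxb, -, hpx, h1, h2, h3, h4, hp0, hp1, -⟩ := e8c_data hβ hβ1 hs hs1 hp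
  have hr : 0 < r := by linarith
  have sr : r ≤ Real.sinh r := Real.self_le_sinh_iff.2 hr.le
  have h5 : 1 - p ^ 2 ≤ 2 * x := by
    have h6 := Real.add_one_le_exp (-(2 * x))
    have h7 : p ^ 2 = Real.exp (-(2 * x)) := by
      have : p = Real.exp (-x) := by
        rw [Real.exp_neg]
        exact eq_inv_of_mul_eq_one_left hpx
      rw [this, ← Real.exp_nat_mul]
      congr 1
      push_cast
      ring
    rw [h7]
    linarith
  have h8 : 0 < 1 - s ^ 2 := by nlinarith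
  rw [div_le_iff₀ h8, h1]
  calc s * (1 - p ^ 2) ≤ s * (2 * x) := mul_le_mul_of_nonneg_left h5 hs.le
    _ = β * (2 * s * r) := by rw [hxb]; ring
    _ ≤ β * (2 * s * Real.sinh r) := by gcongr

end Pool.Agent.LibSchE
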