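import Mathlib
import Pool.Agent.LibSchE.E8k

/-! **E8e.**  The scalar core: reduction to two end point inequalities (helper43, section 4). -/

open MeasureTheory Set Matrix

namespace Pool.Agent.LibSchE

/-- concave left side, right side below its tangent: the two ends -/
theorem E8e_ends {R ν P₀ P₁ k D₀ δ h hm : ℝ} (hR : 0 ≤ R) (hν : 0 ≤ ν) (hP₁ : 0 ≤ P₁) (hk : 0 ≤ k)
    (hδ : 0 ≤ δ) (h0 : 0 ≤ h) (h1 : h ≤ hm) (hm0 : 0 < hm)
    (C1 : D₀ + k * δ * hm ^ 2 / 4 ≤ R * ((1 - ν) * P₀))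
    (Cb : (1 - k * hm) * (D₀ + δ * hm) + k * δ * hm ^ 2 / 4 ≤
      R * ((1 - ν + ν * hm) * (P₀ - P₁ * hm))) :
    (1 - k * h) * (D₀ + δ * h) ≤ R * ((1 - ν + ν * h) * (P₀ - P₁ * h)) := by
  obtain ⟨t, rfl⟩ : ∃ t, h = t * hm := ⟨h / hm, by field_simp⟩
  have ht0 : 0 ≤ t := by
    by_contra hh
    rw [not_le] at hh
    have := mul_neg_of_neg_of_pos hh hm0
    linarith
  have ht1 : t ≤ 1 := by
    by_contra hh
    rw [not_le] at hh
    have := mul_lt_mul_of_pos_right hh hm0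
    linarith
  have e1 : R * ((1 - ν + ν * (t * hm)) * (P₀ - P₁ * (t * hm))) =
      (1 - t) * (R * ((1 - ν) * P₀)) + t * (R * ((1 - ν + ν * hm) * (P₀ - P₁ * hm))) +
        R * ν * P₁ * (t * (1 - t)) * hm ^ 2 := by ring
  have e2 : (1 - k * (t * hm)) * (D₀ + δ * (t * hm)) =
      (1 - t) * (D₀ + k * δ * hm ^ 2 / 4) +
        t * ((1 - k * hm) * (D₀ + δ * hm) + k * δ * hm ^ 2 / 4) -
          k * δ * hm ^ 2 * (1 / 2 - t) ^ 2 := by ring
  have h2 := mul_le_mul_of_nonneg_left C1 (sub_nonneg.2 ht1)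
  have h3 := mul_le_mul_of_nonneg_left Cb ht0
  have h4 : 0 ≤ R * ν * P₁ * (t * (1 - t)) * hm ^ 2 :=
    mul_nonneg (mul_nonneg (mul_nonneg (mul_nonneg hR hν) hP₁)
      (mul_nonneg ht0 (sub_nonneg.2 ht1))) (sq_nonneg _)
  have h5 : 0 ≤ k * δ * hm ^ 2 * (1 / 2 - t) ^ 2 := by positivity
  rw [e1, e2]
  linarith

/-- the reduction; `λ = d - 1`, `μ = b - d` -/
theorem E8e_red {β l q ρ n y d b ε j R k : ℝ} (hβ : 0 < β) (hβ1 : β < 1) (hl : 0 < l) (hl1 : l < 1)
    (hq : 0 < q) (hρb : 1 ≤ ρ * b) (hρ1 : ρ ≤ 1) (hb : 1 < b) (hu : l * b < 1)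
    (hε : 0 < ε) (hεb : ε * b = l)
    (hd : 0 < d) (hj : j = (d - 1 - l * (b - d)) / (1 - l)) (hj0 : l * (b - d) ≤ d - 1)
    (hlm : d - 1 ≤ b - d) (hn1 : 0 < d - 1 + q * (b - d))
    (hν : 2 * (ε * (d - 1 + q * (b - d))) ≤ q + ε * (1 - q) * d - ε * l - ε * (1 + q) * j)
    (hR : 0 ≤ R) (hR2 : R ^ 2 ≤ 1 + (1 + q) ^ 2 * (b - d ^ 2) / (d - 1 + q * (b - d)) ^ 2)
    (hk : 0 ≤ k) (hk1 : k ≤ (1 + β) / 2)
    (C1 : q * b + l + k * (1 - l) * ((l * b - l) / (1 - l)) ^ 2 / 4 ≤
      R * ((1 - ε * (d - 1 + q * (b - d)) / (q + ε * (1 - q) * d - ε * l - ε * (1 + q) * j)) *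
        (q * b + l + l * (d - 1 + q * (b - d)) / (1 - l))))
    (Cb : (1 - k * ((l * b - l) / (1 - l))) * (q * b + l + (1 - l) * ((l * b - l) / (1 - l))) +
        k * (1 - l) * ((l * b - l) / (1 - l)) ^ 2 / 4 ≤
      R * ((1 - ε * (d - 1 + q * (b - d)) / (q + ε * (1 - q) * d - ε * l - ε * (1 + q) * j) +
          ε * (d - 1 + q * (b - d)) / (q + ε * (1 - q) * d - ε * l - ε * (1 + q) * j) *
            ((l * b - l) / (1 - l))) *
        (q * b + l + l * (d - 1 + q * (b - d)) / (1 - l) -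
          (q * d + l) * ((l * b - l) / (1 - l)))))
    (hn : n ≤ (ρ - l) / (1 - l) * ((ρ - l) / (ρ * (1 - l))) * (ε * (d - 1 + q * (b - d))))
    (hy : 0 ≤ y) (hy2 : 1 + (1 + q) ^ 2 * (b - d ^ 2) / (d - 1 + q * (b - d)) ^ 2 ≤
        ((ρ - l) / (ρ * (1 - l))) ^ (1 + β) * y ^ 2) :
      0 < q * ρ + ε * (ρ - q) * d - ε * l - ε * (ρ + q) * j ∧
      2 * n ≤ q * ρ + ε * (ρ - q) * d - ε * l - ε * (ρ + q) * j ∧
      (q * ρ + ε * (ρ - q) * d - ε * l - ε * (ρ + q) * j) * ((1 - l) * (q * ρ + ε)) ≤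
        y * (q * ρ + ε * (ρ - q) * d - ε * l) *
          (q * ρ + ε * (ρ - q) * d - ε * l - ε * (ρ + q) * j - n) := by
  have hδ : 0 < 1 - l := by linarith
  have hb0 : 0 < b := by linarith
  have hρ0 : 0 < ρ := by
    by_contra hh
    rw [not_lt] at hh
    have := mul_nonpos_of_nonpos_of_nonneg hh hb0.le
    linarith
  have hlb1 : l < ρ := by
    have h2 : l * b < ρ * b := by linarith
    exact lt_of_mul_lt_mul_right h2 hb0.le
  set n₁ := d - 1 + q * (b - d) with hn₁
  set κ₁ := q + ε * (1 - q) * d - ε * l - ε * (1 + q) * j with hκ₁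
  have hεn : 0 < ε * n₁ := by positivity
  have hκ₁0 : 0 < κ₁ := by linarith
  set ν := ε * n₁ / κ₁ with hνd
  have hν0 : 0 < ν := by positivity
  have hν2 : ν ≤ 1 / 2 := by
    rw [hνd, div_le_iff₀ hκ₁0]
    linarith
  have hνκ : ν * κ₁ = ε * n₁ := by rw [hνd]; field_simp
  set G := (ρ - l) / (ρ * (1 - l)) with hG
  have hG0 : 0 < G := by
    have : 0 < ρ - l := by linarith
    positivity
  have hG1 : G ≤ 1 := by
    rw [hG, div_le_one (by positivity)]
    have : ρ * l ≤ 1 * l := mul_le_mul_of_nonneg_right hρ1 hl.le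
    linarith
  set h := 1 - G with hh
  have hh0 : 0 ≤ h := by linarith
  have hρG : ρ * G * (1 - l) = ρ - l := by
    rw [hG]
    field_simp
  have hgG : (ρ - l) / (1 - l) = ρ * G := by
    rw [div_eq_iff hδ.ne']
    linarith
  have hρh : ρ * (l + (1 - l) * h) = l := by
    rw [hh]
    linear_combination -hρG
  set hm := (l * b - l) / (1 - l) with hhm
  have hm0 : 0 < hm := by
    have : 0 < l * b - l := by
      have := mul_lt_mul_of_pos_left hb hl
      linarith
    positivity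
  have hmδ : hm * (1 - l) = l * b - l := by rw [hhm]; field_simp
  have hhm' : h ≤ hm := by
    have h2 : l + (1 - l) * h ≤ l * b := by
      have h3 : ρ * (l + (1 - l) * h) ≤ ρ * (l * b) := by
        rw [hρh]
        have := mul_le_mul_of_nonneg_left hρb hl.le
        linarith
      exact le_of_mul_le_mul_left h3 hρ0
    have h4 : (1 - l) * h ≤ (1 - l) * hm := by linarith
    exact le_of_mul_le_mul_left h4 hδ
  have hj' : j * (1 - l) = d - 1 - l * (b - d) := by rw [hj]; field_simp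
  have hjn : 0 ≤ j := by rw [hj]; exact div_nonneg (by linarith) hδ.le
  -- `kap` is affine in `ρ`
  set K := q * ρ + ε * (ρ - q) * d - ε * l with hK
  set κ := K - ε * (ρ + q) * j with hκ
  have hκl : ρ * G * κ₁ ≤ κ := by
    have e : (1 - l) * ((1 - l) * (κ - ρ * G * κ₁)) =
        (1 - ρ) * (ε * (q + l ^ 2) * ((b - d) - (d - 1))) := by
      rw [hκ, hK, hκ₁]
      have h2 : (1 - l) * ((1 - l) * (q * ρ + ε * (ρ - q) * d - ε * l - ε * (ρ + q) * j -
          ρ * G * (q + ε * (1 - q) * d - ε * l - ε * (1 + q) * j))) =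
          (1 - l) * ((1 - l) * (q * ρ + ε * (ρ - q) * d - ε * l) -
          (ρ * G * (1 - l)) * (q + ε * (1 - q) * d - ε * l)) - (j * (1 - l)) *
          ((1 - l) * (ε * (ρ + q)) - (ρ * G * (1 - l)) * (ε * (1 + q))) := by ring
      rw [h2, hj', hρG]
      linear_combination (-(1 - ρ) * (1 - l) * q) * hεb
    have h3 : 0 ≤ (1 - ρ) * (ε * (q + l ^ 2) * ((b - d) - (d - 1))) :=
      mul_nonneg (by linarith) (mul_nonneg (by positivity) (by linarith))
    rw [← e] at h3
    have h4 := nonneg_of_mul_nonneg_right (nonneg_of_mul_nonneg_right h3 hδ) hδ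
    linarith
  have hκ0 : 0 < κ := lt_of_lt_of_le (by positivity) hκl
  have hK0 : κ ≤ K := by
    have : 0 ≤ ε * (ρ + q) * j := by positivity
    linarith
  have hKpos : 0 < K := hκ0.trans_le hK0
  rw [hgG] at hn
  have hn2 : n ≤ G * ν * κ := by
    calc n ≤ ρ * G * G * (ε * n₁) := hn
      _ = G * ν * (ρ * G * κ₁) := by rw [← hνκ]; ring
      _ ≤ G * ν * κ := mul_le_mul_of_nonneg_left hκl (by positivity)
  have hGν : G * ν ≤ 1 / 2 := by
    calc G * ν ≤ 1 * ν := mul_le_mul_of_nonneg_right hG1 hν0.le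
      _ ≤ 1 / 2 := by linarith
  refine ⟨hκ0, ?_, ?_⟩
  · have : G * ν * κ ≤ 1 / 2 * κ := mul_le_mul_of_nonneg_right hGν hκ0.le
    linarith
  · -- the end point inequalities
    have hends := E8e_ends hR hν0.le (by positivity : (0 : ℝ) ≤ q * d + l) hk hδ.le hh0 hhm' hm0 C1 Cb
    -- scaling
    have s1 : (1 - l) * ρ * (q * b + l + l * n₁ / (1 - l) - (q * d + l) * h) = b * K := by
      have e1 : (1 - l) * ρ * (q * b + l + l * n₁ / (1 - l) - (q * d + l) * h) =
          ρ * ((1 - l) * (q * b + l) + l * n₁) - (q * d + l) * (ρ * (l + (1 - l) * h)) +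
            (q * d + l) * (ρ * l) := by
        field_simp
        ring
      rw [e1, hρh, hn₁, hK]
      linear_combination (l - (ρ - q) * d) * hεb
    have s2 : ρ * (q * b + l + (1 - l) * h) = b * (q * ρ + ε) := by
      linear_combination hρh - hεb
    have hmain : (1 - k * h) * ((1 - l) * (q * ρ + ε)) ≤ R * ((1 - G * ν) * K) := by
      have h2 := mul_le_mul_of_nonneg_left hends (mul_pos hδ hρ0).le
      have h3 : (1 - l) * ρ * ((1 - k * h) * (q * b + l + (1 - l) * h)) =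
          b * ((1 - k * h) * ((1 - l) * (q * ρ + ε))) := by
        linear_combination ((1 - l) * (1 - k * h)) * s2
      have h4 : (1 - l) * ρ * (R * ((1 - ν + ν * h) *
          (q * b + l + l * n₁ / (1 - l) - (q * d + l) * h))) = b * (R * ((1 - G * ν) * K)) := by
        have h5 : 1 - ν + ν * h = 1 - G * ν := by rw [hh]; ring
        rw [h5]
        linear_combination (R * (1 - G * ν)) * s1
      rw [h3, h4] at h2
      exact le_of_mul_le_mul_left h2 hb0
    -- the power of `G`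
    obtain ⟨t, ht⟩ : ∃ t, t = G ^ ((1 + β) / 2) := ⟨_, rfl⟩
    have ht0 : 0 < t := by rw [ht]; exact Real.rpow_pos_of_pos hG0 _
    have ht2 : G ^ (1 + β) = t ^ 2 := by
      rw [ht, ← Real.rpow_natCast, ← Real.rpow_mul hG0.le]
      congr 1
      push_cast
      ring
    have ht1 : t ≤ 1 - k * h := by
      have h2 : t ≤ 1 + (1 + β) / 2 * (-h) := by
        have h3 := rpow_one_add_le_one_add_mul_self (s := -h) (by linarith)
          (p := (1 + β) / 2) (by linarith) (by linarith)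
        have h4 : 1 + -h = G := by rw [hh]; ring
        rw [h4] at h3
        rw [ht]
        exact h3
      have h5 := mul_le_mul_of_nonneg_right hk1 hh0
      linarith
    have hRy : R ≤ t * y := by
      rw [ht2] at hy2
      have h2 : R ^ 2 ≤ (t * y) ^ 2 := by
        rw [mul_pow]
        exact hR2.trans hy2
      exact le_of_sq_le_sq h2 (by positivity)
    have h6 : 0 ≤ 1 - G * ν := by linarith
    have hE0 : 0 ≤ (1 - l) * (q * ρ + ε) := by positivity
    have h7 : t * (κ * ((1 - l) * (q * ρ + ε))) ≤ t * (y * K * (κ - n)) := by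
      calc t * (κ * ((1 - l) * (q * ρ + ε)))
          ≤ (1 - k * h) * (κ * ((1 - l) * (q * ρ + ε))) :=
            mul_le_mul_of_nonneg_right ht1 (mul_nonneg hκ0.le hE0)
        _ = κ * ((1 - k * h) * ((1 - l) * (q * ρ + ε))) := by ring
        _ ≤ κ * (R * ((1 - G * ν) * K)) := mul_le_mul_of_nonneg_left hmain hκ0.le
        _ = R * (K * ((1 - G * ν) * κ)) := by ring
        _ ≤ (t * y) * (K * ((1 - G * ν) * κ)) :=
            mul_le_mul_of_nonneg_right hRy (mul_nonneg hKpos.le (mul_nonneg h6 hκ0.le))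
        _ = (t * y * K) * (κ - G * ν * κ) := by ring
        _ ≤ (t * y * K) * (κ - n) := by
            refine mul_le_mul_of_nonneg_left (by linarith) ?_
            exact mul_nonneg (mul_nonneg ht0.le hy) hKpos.le
        _ = _ := by ring
    exact le_of_mul_le_mul_left h7 ht0

end Pool.Agent.LibSchE
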