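import Pool.Agent.LibSchE.E8e
import Pool.Agent.LibSchE.E8c

/-! **E8f.**  The scalar core: elementary bounds. -/

open MeasureTheory Set Matrix

namespace Pool.Agent.LibSchE

theorem E8f_param {s p : ℝ} (hs : 0 < s) (hsp : s < p) (hp : p < 1) :
    ∃ A C : ℝ, 0 < A ∧ 0 < C ∧ s = 1 / (1 + A) ∧ p = (1 + A + C) / ((1 + A) * (1 + C)) := by
  have h1 : 0 < p - s := by linarith
  have h2 : 0 < 1 - p := by linarith
  have h3 : 0 < 1 - s := by linarith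
  refine ⟨(1 - s) / s, (1 - p) / (p - s), by positivity, by positivity, ?_, ?_⟩
  · have : 1 + (1 - s) / s = 1 / s := by field_simp; ring
    rw [this, one_div_one_div]
  · have e1 : 1 + (1 - s) / s = 1 / s := by field_simp; ring
    have e2 : 1 + (1 - p) / (p - s) = (1 - s) / (p - s) := by
      rw [eq_div_iff h1.ne', add_mul, div_mul_cancel₀ _ h1.ne']
      ring
    rw [e1, e2]
    have : 1 / s + (1 - p) / (p - s) = (1 / s) * ((1 - s) / (p - s)) * p := by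
      field_simp
      ring
    rw [this]
    field_simp

theorem E8f_poly1 {s p : ℝ} (hs : 0 < s) (hsp : s < p) (hp : p < 1) :
    0 ≤ 3 * (1 + s ^ 2) * (s ^ 2 * p * (3 - 3 * s ^ 2 + s ^ 4) + s ^ 4 +
      p ^ 2 * (1 - 3 * s ^ 2 + 3 * s ^ 4 + p * s ^ 2)) -
      2 * (s ^ 4 + p) * (2 * p * s * (1 + s ^ 2) + s ^ 2 * (1 + p ^ 2)) := by
  obtain ⟨A, C, hA, hC, rfl, rfl⟩ := E8f_param hs hsp hp
  have e : 3 * (1 + (1 / (1 + A)) ^ 2) * ((1 / (1 + A)) ^ 2 * ((1 + A + C) / ((1 + A) * (1 + C))) *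
      (3 - 3 * (1 / (1 + A)) ^ 2 + (1 / (1 + A)) ^ 4) + (1 / (1 + A)) ^ 4 +
      ((1 + A + C) / ((1 + A) * (1 + C))) ^ 2 * (1 - 3 * (1 / (1 + A)) ^ 2 +
        3 * (1 / (1 + A)) ^ 4 + ((1 + A + C) / ((1 + A) * (1 + C))) * (1 / (1 + A)) ^ 2)) -
      2 * ((1 / (1 + A)) ^ 4 + ((1 + A + C) / ((1 + A) * (1 + C)))) *
        (2 * ((1 + A + C) / ((1 + A) * (1 + C))) * (1 / (1 + A)) * (1 + (1 / (1 + A)) ^ 2) +
          (1 / (1 + A)) ^ 2 * (1 + ((1 + A + C) / ((1 + A) * (1 + C))) ^ 2)) =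
      (16*A^2 + 72*A^2*C + 104*A^2*C^2 + 48*A^2*C^3 + 96*A^3 + 396*A^3*C + 520*A^3*C^2 +
        216*A^3*C^3 + 278*A^4 + 1010*A^4*C + 1170*A^4*C^2 + 420*A^4*C^3 + 510*A^5 + 1575*A^5*C +
        1560*A^5*C^2 + 462*A^5*C^3 + 640*A^6 + 1646*A^6*C + 1350*A^6*C^2 + 312*A^6*C^3 +
        556*A^7 + 1183*A^7*C + 774*A^7*C^2 + 129*A^7*C^3 + 329*A^8 + 579*A^8*C + 286*A^8*C^2 +
        30*A^8*C^3 + 127*A^9 + 185*A^9*C + 62*A^9*C^2 + 3*A^9*C^3 + 29*A^10 + 35*A^10*C +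
        6*A^10*C^2 + 3*A^11 + 3*A^11*C) / ((1 + A) ^ 11 * (1 + C) ^ 3) := by
    field_simp
    ring
  rw [e]
  positivity

/-- `2 ε n₁ ≤ κ(1)` -/
theorem E8f_hnu {s p d q : ℝ} (hs : 0 < s) (hsp : s < p) (hp : p < 1)
    (h2 : 3 * d ≤ 2 * (p / s) + (1 + p ^ 2) / (1 + s ^ 2)) (hdb : 2 * d ≤ 1 + p ^ 2 / s ^ 2)
    (hq : s ^ 2 / p ≤ q) :
    2 * (s ^ 4 / p ^ 2 * (d - 1 + q * (p ^ 2 / s ^ 2 - d))) ≤
      q + s ^ 4 / p ^ 2 * (1 - q) * d - s ^ 4 / p ^ 2 * s ^ 2 -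
        s ^ 4 / p ^ 2 * (1 + q) * ((d - 1 - s ^ 2 * (p ^ 2 / s ^ 2 - d)) / (1 - s ^ 2)) := by
  have hp0 : 0 < p := hs.trans hsp
  have hs1 : s < 1 := hsp.trans hp
  have hδ : 0 < 1 - s ^ 2 := by
    have := pow_lt_one₀ hs.le hs1 two_ne_zero
    linarith
  have hb : s ^ 2 * (p ^ 2 / s ^ 2) = p ^ 2 := by field_simp
  -- `A`
  have hA : 0 ≤ s ^ 2 + p ^ 2 / s ^ 2 * (1 - 3 * s ^ 2 + 3 * s ^ 4) - 2 * s ^ 4 * d := by
    have h3 : s ^ 4 * (2 * d) ≤ s ^ 4 * (1 + p ^ 2 / s ^ 2) :=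
      mul_le_mul_of_nonneg_left hdb (by positivity)
    have h4 : 0 ≤ (1 - s ^ 2) * (s ^ 2 + p ^ 2 / s ^ 2 * (1 - 2 * s ^ 2)) := by
      refine mul_nonneg hδ.le ?_
      have h5 : s ^ 2 + p ^ 2 / s ^ 2 * (1 - 2 * s ^ 2) =
          ((s ^ 2 * s ^ 2 + (1 - 2 * s ^ 2)) + (1 - p ^ 2) * (2 * s ^ 2 - 1)) / s ^ 2 := by
        field_simp
        ring
      rw [h5]
      refine div_nonneg ?_ (by positivity)
      have h6 : (s ^ 2 * s ^ 2 + (1 - 2 * s ^ 2)) + (1 - p ^ 2) * (2 * s ^ 2 - 1) =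
          (1 - p ^ 2) * s ^ 4 + p ^ 2 * (1 - s ^ 2) ^ 2 := by ring
      rw [h6]
      have h7 : 0 ≤ 1 - p ^ 2 := by
        have := pow_lt_one₀ hp0.le hp two_ne_zero
        linarith
      positivity
    linarith
  -- `A + p B`
  have hAB : 0 ≤ s ^ 2 + p ^ 2 / s ^ 2 * (1 - 3 * s ^ 2 + 3 * s ^ 4 + p * s ^ 2) +
      p * (3 - 3 * s ^ 2 + s ^ 4) - 2 * (s ^ 4 + p) * d := by
    have h3 : 2 * (s ^ 4 + p) * (3 * d) ≤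
        2 * (s ^ 4 + p) * (2 * (p / s) + (1 + p ^ 2) / (1 + s ^ 2)) :=
      mul_le_mul_of_nonneg_left h2 (by positivity)
    have h4 := E8f_poly1 hs hsp hp
    have h5 : 0 ≤ 3 * (s ^ 2 + p ^ 2 / s ^ 2 * (1 - 3 * s ^ 2 + 3 * s ^ 4 + p * s ^ 2) +
      p * (3 - 3 * s ^ 2 + s ^ 4)) -
        2 * (s ^ 4 + p) * (2 * (p / s) + (1 + p ^ 2) / (1 + s ^ 2)) := by
      have h6 : 3 * (s ^ 2 + p ^ 2 / s ^ 2 * (1 - 3 * s ^ 2 + 3 * s ^ 4 + p * s ^ 2) +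
          p * (3 - 3 * s ^ 2 + s ^ 4)) -
          2 * (s ^ 4 + p) * (2 * (p / s) + (1 + p ^ 2) / (1 + s ^ 2)) =
          (3 * (1 + s ^ 2) * (s ^ 2 * p * (3 - 3 * s ^ 2 + s ^ 4) + s ^ 4 +
      p ^ 2 * (1 - 3 * s ^ 2 + 3 * s ^ 4 + p * s ^ 2)) -
      2 * (s ^ 4 + p) * (2 * p * s * (1 + s ^ 2) + s ^ 2 * (1 + p ^ 2))) /
        (s ^ 2 * (1 + s ^ 2)) := by
        field_simp
        ring
      rw [h6]
      exact div_nonneg h4 (by positivity)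
    linarith
  have e : (q + s ^ 4 / p ^ 2 * (1 - q) * d - s ^ 4 / p ^ 2 * s ^ 2 -
        s ^ 4 / p ^ 2 * (1 + q) * ((d - 1 - s ^ 2 * (p ^ 2 / s ^ 2 - d)) / (1 - s ^ 2))) -
      2 * (s ^ 4 / p ^ 2 * (d - 1 + q * (p ^ 2 / s ^ 2 - d))) =
      s ^ 2 / (p ^ 2 * (1 - s ^ 2)) * ((q - s ^ 2 / p) *
        (s ^ 2 + p ^ 2 / s ^ 2 * (1 - 3 * s ^ 2 + 3 * s ^ 4) - 2 * s ^ 4 * d) +
        s ^ 2 / p * (s ^ 2 + p ^ 2 / s ^ 2 * (1 - 3 * s ^ 2 + 3 * s ^ 4 + p * s ^ 2) +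
      p * (3 - 3 * s ^ 2 + s ^ 4) - 2 * (s ^ 4 + p) * d)) := by
    field_simp
    ring
  have h8 : 0 ≤ s ^ 2 / (p ^ 2 * (1 - s ^ 2)) * ((q - s ^ 2 / p) *
        (s ^ 2 + p ^ 2 / s ^ 2 * (1 - 3 * s ^ 2 + 3 * s ^ 4) - 2 * s ^ 4 * d) +
        s ^ 2 / p * (s ^ 2 + p ^ 2 / s ^ 2 * (1 - 3 * s ^ 2 + 3 * s ^ 4 + p * s ^ 2) +
      p * (3 - 3 * s ^ 2 + s ^ 4) - 2 * (s ^ 4 + p) * d)) := by
    refine mul_nonneg (by positivity) (add_nonneg (mul_nonneg (sub_nonneg.2 hq) hA)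
      (mul_nonneg (by positivity) hAB))
  linarith

theorem E8f_hlm {s p d : ℝ} (hs : 0 < s) (hsp : s < p) (hp : p < 1)
    (h2 : 3 * d ≤ 2 * (p / s) + (1 + p ^ 2) / (1 + s ^ 2)) : 2 * d ≤ 1 + p ^ 2 / s ^ 2 := by
  have hp0 : 0 < p := hs.trans hsp
  have hs1 : s < 1 := hsp.trans hp
  have h3 : 2 * (p / s) ≤ 1 + p ^ 2 / s ^ 2 := by
    have : 0 ≤ (p / s - 1) ^ 2 := sq_nonneg _
    have e : (p / s - 1) ^ 2 = 1 + p ^ 2 / s ^ 2 - 2 * (p / s) := by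
      field_simp
      ring
    linarith
  have h4 : (1 + p ^ 2) / (1 + s ^ 2) ≤ (1 + p ^ 2 / s ^ 2) / 2 := by
    rw [div_le_div_iff₀ (by positivity) (by positivity)]
    have e : (1 + p ^ 2 / s ^ 2) * (1 + s ^ 2) - (1 + p ^ 2) * 2 =
        (p ^ 2 - s ^ 2) * (1 - s ^ 2) / s ^ 2 := by
      field_simp
      ring
    have h5 : 0 ≤ (p ^ 2 - s ^ 2) * (1 - s ^ 2) / s ^ 2 := by
      have : 0 ≤ p ^ 2 - s ^ 2 := by
        have := pow_lt_pow_left₀ hsp hs.le two_ne_zero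
        linarith
      have : 0 ≤ 1 - s ^ 2 := by
        have := pow_lt_one₀ hs.le hs1 two_ne_zero
        linarith
      positivity
    linarith
  linarith

/-- the data in terms of `s = √l`, `p = s^β` -/
theorem E8f_data {a l : ℝ} (h0 : 0 < a) (h1 : 2 * a < 1) (hl : 0 < l) (hl1 : l < 1) :
    ∃ s p : ℝ, 0 < s ∧ s < 1 ∧ s < p ∧ p < 1 ∧ p = s ^ (2 * a) ∧ l = s ^ 2 ∧
      l ^ (2 * a) = p ^ 2 ∧ l ^ (2 * a - 1) = p ^ 2 / s ^ 2 ∧ l ^ (2 - 2 * a) = s ^ 4 / p ^ 2 ∧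
      l ^ (1 - a) = s ^ 2 / p ∧ l ^ (1 - 2 * a) = s ^ 2 / p ^ 2 := by
  have hs : 0 < √l := Real.sqrt_pos.2 hl
  have hs1 : √l < 1 := by
    rw [Real.sqrt_lt' one_pos]
    linarith
  have hl' : l = √l ^ 2 := (Real.sq_sqrt hl.le).symm
  set s := √l
  have hp : 0 < s ^ (2 * a) := Real.rpow_pos_of_pos hs _
  have hp2 : l ^ a = s ^ (2 * a) := by
    rw [hl', ← Real.rpow_natCast, ← Real.rpow_mul hs.le]
    norm_num
  have hu : l ^ (2 * a) = (s ^ (2 * a)) ^ 2 := by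
    rw [← hp2, ← Real.rpow_natCast, ← Real.rpow_mul hl.le]
    congr 1
    push_cast
    ring
  refine ⟨s, s ^ (2 * a), hs, hs1, ?_, Real.rpow_lt_one hs.le hs1 (by linarith), rfl, hl', hu,
    ?_, ?_, ?_, ?_⟩
  · have := Real.rpow_lt_rpow_of_exponent_gt hs hs1 (show 2 * a < 1 by linarith)
    rwa [Real.rpow_one] at this
  · rw [Real.rpow_sub_one hl.ne', hu, ← hl']
  · have : 2 - 2 * a = (2 : ℝ) - 2 * a := rfl
    rw [Real.rpow_sub hl, hu, Real.rpow_two]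
    congr 1
    rw [hl']
    ring
  · rw [Real.rpow_sub hl, hp2, Real.rpow_one, ← hl']
  · rw [Real.rpow_sub hl, hu, Real.rpow_one, ← hl']

/-- **the core**, from the two end point inequalities -/
theorem core_of {a : ℝ} (h0 : 0 < a) (h1 : 2 * a < 1)
    (hends : ∀ s p d q : ℝ, 0 < s → s < p → p < 1 → (1 + p ^ 2) / (1 + s ^ 2) ≤ d →
      3 * d ≤ 2 * (p / s) + (1 + p ^ 2) / (1 + s ^ 2) →
      2 * p * (p - s) * (1 - p * s) / (3 * s ^ 2 * (1 + s ^ 2)) ≤ p ^ 2 / s ^ 2 - d ^ 2 →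
      s * (1 - p ^ 2) / (1 - s ^ 2) ≤ 2 * a → s ^ 2 / p ≤ q →
      ∃ R k : ℝ, 0 ≤ R ∧ R ^ 2 ≤ 1 + (1 + q) ^ 2 * (p ^ 2 / s ^ 2 - d ^ 2) /
          (d - 1 + q * (p ^ 2 / s ^ 2 - d)) ^ 2 ∧ 0 ≤ k ∧ k ≤ (1 + 2 * a) / 2 ∧
        (q * (p ^ 2 / s ^ 2) + s ^ 2 + k * (1 - s ^ 2) *
          ((s ^ 2 * (p ^ 2 / s ^ 2) - s ^ 2) / (1 - s ^ 2)) ^ 2 / 4 ≤
        R * ((1 - s ^ 4 / p ^ 2 * (d - 1 + q * (p ^ 2 / s ^ 2 - d)) / (q + s ^ 4 / p ^ 2 * (1 - q) * d -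
            s ^ 4 / p ^ 2 * s ^ 2 - s ^ 4 / p ^ 2 * (1 + q) *
              ((d - 1 - s ^ 2 * (p ^ 2 / s ^ 2 - d)) / (1 - s ^ 2)))) *
          (q * (p ^ 2 / s ^ 2) + s ^ 2 + s ^ 2 * (d - 1 + q * (p ^ 2 / s ^ 2 - d)) /
            (1 - s ^ 2)))) ∧
        ((1 - k * ((s ^ 2 * (p ^ 2 / s ^ 2) - s ^ 2) / (1 - s ^ 2))) *
            (q * (p ^ 2 / s ^ 2) + s ^ 2 + (1 - s ^ 2) *
              ((s ^ 2 * (p ^ 2 / s ^ 2) - s ^ 2) / (1 - s ^ 2))) +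
          k * (1 - s ^ 2) * ((s ^ 2 * (p ^ 2 / s ^ 2) - s ^ 2) / (1 - s ^ 2)) ^ 2 / 4 ≤
        R * ((1 - s ^ 4 / p ^ 2 * (d - 1 + q * (p ^ 2 / s ^ 2 - d)) / (q + s ^ 4 / p ^ 2 * (1 - q) * d -
            s ^ 4 / p ^ 2 * s ^ 2 - s ^ 4 / p ^ 2 * (1 + q) *
              ((d - 1 - s ^ 2 * (p ^ 2 / s ^ 2 - d)) / (1 - s ^ 2))) +
            s ^ 4 / p ^ 2 * (d - 1 + q * (p ^ 2 / s ^ 2 - d)) / (q + s ^ 4 / p ^ 2 * (1 - q) * d -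
            s ^ 4 / p ^ 2 * s ^ 2 - s ^ 4 / p ^ 2 * (1 + q) *
              ((d - 1 - s ^ 2 * (p ^ 2 / s ^ 2 - d)) / (1 - s ^ 2))) *
            ((s ^ 2 * (p ^ 2 / s ^ 2) - s ^ 2) / (1 - s ^ 2))) *
          (q * (p ^ 2 / s ^ 2) + s ^ 2 + s ^ 2 * (d - 1 + q * (p ^ 2 / s ^ 2 - d)) / (1 - s ^ 2) -
            (q * d + s ^ 2) * ((s ^ 2 * (p ^ 2 / s ^ 2) - s ^ 2) / (1 - s ^ 2))))))
    (l q ρ : ℝ) (hl : 0 < l) (hl1 : l < 1) (hq : l ^ (1 - a) ≤ q) (hρ : l ^ (1 - 2 * a) ≤ ρ)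
    (hρ1 : ρ ≤ 1) : E8dCore a l q ρ := by
  obtain ⟨s, p, hs, hs1, hsp, hp1, hps, e0, e1, e2, e3, e4, e5⟩ := E8f_data h0 h1 hl hl1
  have hp0 : 0 < p := hs.trans hsp
  intro n y d b ε j hd hb hε hj hn hy hy2
  rw [e2] at hb
  rw [e3] at hε
  rw [e1] at hd hj
  rw [e4] at hq
  rw [e5] at hρ
  subst e0
  have hδ : 0 < 1 - s ^ 2 := by linarith
  have b1 := bd1 (by linarith) h1 hs hs1 hps hd
  have b2 := bd2 (by linarith) h1 hs hs1 hps hd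
  have b3 := bd3 (by linarith) h1 hs hs1 hps hd
  have b4 := bd4 (by linarith) h1 hs hs1 hps
  have hlm := E8f_hlm hs hsp hp1 b2
  have hν := E8f_hnu hs hsp hp1 b2 hlm hq
  obtain ⟨R, k, hR, hR2, hk, hk1, hC1, hCb⟩ := hends s p d q hs hsp hp1 b1 b2 b3 b4 hq
  have hb1 : 1 < p ^ 2 / s ^ 2 := by
    rw [one_lt_div (by positivity)]
    exact pow_lt_pow_left₀ hsp hs.le two_ne_zero
  have hd1 : 1 < d := by
    refine lt_of_lt_of_le ?_ b1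
    rw [one_lt_div (by positivity)]
    have := pow_lt_pow_left₀ hsp hs.le two_ne_zero
    linarith
  have hq0 : 0 < q := lt_of_lt_of_le (by positivity) hq
  have hbm : 0 < p ^ 2 / s ^ 2 - d := by linarith
  have hj' : j = (d - 1 - s ^ 2 * (p ^ 2 / s ^ 2 - d)) / (1 - s ^ 2) := by
    rw [hj]
    congr 1
    field_simp
    ring
  subst hb hε
  refine E8e_red (β := 2 * a) (R := R) (k := k) (by linarith) h1 hl hl1 hq0 ?_ hρ1 hb1 ?_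
    (by positivity) ?_ (by linarith) hj' ?_ (by linarith) ?_ ?_ hR hR2 hk hk1 ?_ ?_ hn hy hy2
  · have h3 := mul_le_mul_of_nonneg_right hρ (show 0 ≤ p ^ 2 / s ^ 2 by positivity)
    have h4 : s ^ 2 / p ^ 2 * (p ^ 2 / s ^ 2) = 1 := by field_simp
    linarith
  · have : s ^ 2 * (p ^ 2 / s ^ 2) = p ^ 2 := by field_simp
    rw [this]
    have h9 := pow_lt_one₀ hp0.le hp1 two_ne_zero
    linarith
  · field_simp
  · have h3 : s ^ 2 * (p ^ 2 / s ^ 2) = p ^ 2 := by field_simp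
    rw [div_le_iff₀ (by positivity)] at b1
    linarith
  · have := mul_pos hq0 hbm
    linarith
  · rw [hj']
    exact hν
  · rw [hj']
    exact hC1
  · rw [hj']
    exact hCb

end Pool.Agent.LibSchE
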