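import Pool.Agent.LibSchE.E8f

/-! **E8g.**  The end point inequalities from the polynomial inequalities (helper43, section 4). -/

namespace Pool.Agent.LibSchE

/-- monotonicity, `C1` -/
theorem E8g_m1 {A R n n' j j' : ℝ} (hR : 0 ≤ R) (hn : 0 < n) (hn' : n ≤ n')
    (hj : 0 ≤ j) (hj' : j ≤ j') (hj1 : j' ≤ 1) (h : A * (1 + n' - j') ≤ R * ((1 - j') * (1 + n'))) :
    A * (1 + n - j) ≤ R * ((1 - j) * (1 + n)) := by
  have h1 : 0 < 1 + n' - j' := by linarith
  have h2 : 0 < 1 + n - j := by linarith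
  have key : 0 ≤ (1 - j) * (1 + n) * (1 + n' - j') - (1 - j') * (1 + n') * (1 + n - j) := by
    have e : (1 - j) * (1 + n) * (1 + n' - j') - (1 - j') * (1 + n') * (1 + n - j) =
        n * (j' - j) * (1 + n) + (n' - n) * j * (1 - j) + (n' - n) * (j' - j) * (1 + n - j) := by
      ring
    rw [e]
    have h3 : 0 ≤ j' - j := by linarith
    have h4 : 0 ≤ n' - n := by linarith
    have h5 : 0 ≤ 1 - j := by linarith
    positivity
  have h3 : A * (1 + n - j) * (1 + n' - j') ≤ R * ((1 - j) * (1 + n)) * (1 + n' - j') := by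
    have h4 := mul_le_mul_of_nonneg_right h h2.le
    have h5 := mul_nonneg hR key
    nlinarith
  exact le_of_mul_le_mul_right h3 h1

/-- monotonicity, `Cb` -/
theorem E8g_m2 {A R n n' j j' h κ κ' : ℝ} (hR : 0 ≤ R) (hn : 0 < n) (hn' : n ≤ n')
    (hj' : j ≤ j') (hj1 : j' ≤ 1) (hh0 : 0 ≤ h) (hh : h ≤ 1) (hκ0 : 0 ≤ κ)
    (hκ : κ' ≤ κ) (H : A * (1 + n' - j') ≤ R * ((1 - j' + n' * h) * κ')) :
    A * (1 + n - j) ≤ R * ((1 - j + n * h) * κ) := by
  have h1 : 0 < 1 + n' - j' := by linarith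
  have h2 : 0 < 1 + n - j := by linarith
  have h6 : 0 ≤ 1 - j' + n' * h := by
    have : 0 ≤ n' * h := mul_nonneg (by linarith) hh0
    linarith
  have key : 0 ≤ (1 - j + n * h) * (1 + n' - j') - (1 - j' + n' * h) * (1 + n - j) := by
    have e : (1 - j + n * h) * (1 + n' - j') - (1 - j' + n' * h) * (1 + n - j) =
        (1 - h) * ((n' - n) * (1 - j) + n * (j' - j)) := by ring
    rw [e]
    have h3 : 0 ≤ j' - j := by linarith
    have h4 : 0 ≤ n' - n := by linarith
    have h5 : 0 ≤ 1 - j := by linarith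
    have h7 : 0 ≤ 1 - h := by linarith
    positivity
  have h3 : A * (1 + n - j) * (1 + n' - j') ≤ R * ((1 - j + n * h) * κ) * (1 + n' - j') := by
    have h4 := mul_le_mul_of_nonneg_right H h2.le
    have h5 := mul_nonneg (mul_nonneg hR hκ0) key
    have h7 : R * ((1 - j' + n' * h) * κ') * (1 + n - j) ≤
        R * ((1 - j' + n' * h) * κ) * (1 + n - j) := by
      refine mul_le_mul_of_nonneg_right ?_ h2.le
      exact mul_le_mul_of_nonneg_left (mul_le_mul_of_nonneg_left hκ h6) hR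
    calc A * (1 + n - j) * (1 + n' - j') = A * (1 + n' - j') * (1 + n - j) := by ring
      _ ≤ _ := h4
      _ ≤ _ := h7
      _ ≤ _ := by linarith
  exact le_of_mul_le_mul_right h3 h1

theorem E8g_R {z : ℝ} (hz : 0 ≤ z) : ((4 + 3 * z) / (4 + z)) ^ 2 ≤ 1 + z := by
  rw [div_pow, div_le_iff₀ (by positivity)]
  have : (1 + z) * (4 + z) ^ 2 - (4 + 3 * z) ^ 2 = z ^ 3 := by ring
  have h := pow_nonneg hz 3
  linarith

/-- the bounds on `n₁`, `j`, `z` -/
theorem E8g_bd {g v l d R q : ℝ} (hg : 0 < g) (hg1 : g < 1) (hv : 0 < v) (hv1 : v < 1)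
    (hl : l = g ^ 2 * v) (hq : q = g ^ 2 * R) (hR : 0 ≤ R)
    (b1 : (1 + v) / (1 + l) ≤ d) (b2 : 3 * d ≤ 2 / g + (1 + v) / (1 + l)) :
    (1 + q) * ((1 + l) * d - 1 - v) ≤ (1 + q) * (2 * (1 - g) * (1 - g * v) / (3 * g)) ∧
    d - 1 + R - q * d ≤ (1 - g) * (3 * g * (1 + g) * (R + v) + 2 * (1 - g * v)) /
      (3 * g * (1 + l)) ∧
    (q ≤ 1 → d - 1 + R - q * d ≤ (1 - g) * (3 * g * (1 + g) * (R + v) +
      2 * (1 - g * v) * (1 - q)) / (3 * g * (1 + l))) := by
  have hl0 : 0 < 1 + l := by rw [hl]; positivity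
  have hq0 : 0 ≤ q := by rw [hq]; positivity
  have hdd : (1 + l) * d - (1 + v) ≤ 2 * (1 - g) * (1 - g * v) / (3 * g) := by
    have h1 := mul_le_mul_of_nonneg_left b2 hl0.le
    have e1 : (1 + l) * (2 / g + (1 + v) / (1 + l)) = 2 * (1 + l) / g + (1 + v) := by
      field_simp
    rw [e1] at h1
    have e2 : 2 * (1 - g) * (1 - g * v) / (3 * g) = (2 * (1 + l) / g - 2 * (1 + v)) / 3 := by
      rw [hl]
      field_simp
      ring
    rw [e2]
    linarith
  have hd0 : 0 ≤ (1 + l) * d - (1 + v) := by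
    rw [div_le_iff₀ hl0] at b1
    linarith
  have e3 : (1 + l) * (d - 1 + R - q * d) =
      (1 - q) * ((1 + l) * d - (1 + v)) + (1 - g ^ 2) * (R + v) := by
    rw [hq, hl]
    ring
  refine ⟨?_, ?_, ?_⟩
  · refine mul_le_mul_of_nonneg_left ?_ (by positivity)
    linarith
  · rw [le_div_iff₀ (by positivity)]
    have h2 : (1 + l) * (d - 1 + R - q * d) ≤
        2 * (1 - g) * (1 - g * v) / (3 * g) + (1 - g ^ 2) * (R + v) := by
      rw [e3]
      have : (1 - q) * ((1 + l) * d - (1 + v)) ≤ 1 * ((1 + l) * d - (1 + v)) :=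
        mul_le_mul_of_nonneg_right (by linarith) hd0
      linarith
    have h3 := mul_le_mul_of_nonneg_left h2 (by positivity : (0:ℝ) ≤ 3 * g)
    have e4 : 3 * g * (2 * (1 - g) * (1 - g * v) / (3 * g) + (1 - g ^ 2) * (R + v)) =
        (1 - g) * (3 * g * (1 + g) * (R + v) + 2 * (1 - g * v)) := by
      field_simp
      ring
    rw [e4] at h3
    linarith
  · intro hq1
    rw [le_div_iff₀ (by positivity)]
    have h2 : (1 + l) * (d - 1 + R - q * d) ≤
        (1 - q) * (2 * (1 - g) * (1 - g * v) / (3 * g)) + (1 - g ^ 2) * (R + v) := by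
      rw [e3]
      have : (1 - q) * ((1 + l) * d - (1 + v)) ≤
          (1 - q) * (2 * (1 - g) * (1 - g * v) / (3 * g)) :=
        mul_le_mul_of_nonneg_left hdd (by linarith)
      linarith
    have h3 := mul_le_mul_of_nonneg_left h2 (by positivity : (0:ℝ) ≤ 3 * g)
    have e4 : 3 * g * ((1 - q) * (2 * (1 - g) * (1 - g * v) / (3 * g)) +
        (1 - g ^ 2) * (R + v)) =
        (1 - g) * (3 * g * (1 + g) * (R + v) + 2 * (1 - g * v) * (1 - q)) := by
      field_simp
      ring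
    rw [e4] at h3
    linarith

/-- the two ends in terms of the normalised quantities `n = l n₁/E`, `j = l (1+q) j₀/E`,
`E = (1-l)(R+l)` -/
theorem E8g_conv {g v l d R q k Rr n j h : ℝ} (hg : 0 < g) (hg1 : g < 1) (hv : 0 < v)
    (hv1 : v < 1) (hl : l = g ^ 2 * v) (hq : q = g ^ 2 * R) (hR : 0 < R)
    (hn : n = l * (d - 1 + R - q * d) / ((1 - l) * (R + l)))
    (hj : j = l * ((1 + q) * ((1 + l) * d - 1 - v)) / ((1 - l) ^ 2 * (R + l)))
    (hh : h = v * (1 - g ^ 2) / (1 - l)) (hpos : 0 < 1 + n - j) (hRr : 0 ≤ Rr)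
    (H1 : (1 + k * (v - l) ^ 2 / (4 * (1 - l) * (R + l))) * (1 + n - j) ≤
      Rr * ((1 - j) * (1 + n)))
    (H2 : (1 - k * h + k * h ^ 2 * (1 - l) / (4 * (R + v))) * (1 + n - j) ≤
      Rr * ((1 - j + n * h) * ((R - l * v - d * l * (R - 1)) / ((1 - l) * (R + v))))) :
    (q * (1 / g ^ 2) + l + k * (1 - l) * ((l * (1 / g ^ 2) - l) / (1 - l)) ^ 2 / 4 ≤
        Rr * ((1 - g ^ 2 * l * (d - 1 + q * (1 / g ^ 2 - d)) / (q + g ^ 2 * l * (1 - q) * d -
            g ^ 2 * l * l - g ^ 2 * l * (1 + q) * ((d - 1 - l * (1 / g ^ 2 - d)) / (1 - l)))) *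
          (q * (1 / g ^ 2) + l + l * (d - 1 + q * (1 / g ^ 2 - d)) / (1 - l)))) ∧
    ((1 - k * ((l * (1 / g ^ 2) - l) / (1 - l))) *
            (q * (1 / g ^ 2) + l + (1 - l) * ((l * (1 / g ^ 2) - l) / (1 - l))) +
          k * (1 - l) * ((l * (1 / g ^ 2) - l) / (1 - l)) ^ 2 / 4 ≤
        Rr * ((1 - g ^ 2 * l * (d - 1 + q * (1 / g ^ 2 - d)) / (q + g ^ 2 * l * (1 - q) * d -
            g ^ 2 * l * l - g ^ 2 * l * (1 + q) * ((d - 1 - l * (1 / g ^ 2 - d)) / (1 - l))) +
            g ^ 2 * l * (d - 1 + q * (1 / g ^ 2 - d)) / (q + g ^ 2 * l * (1 - q) * d -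
            g ^ 2 * l * l - g ^ 2 * l * (1 + q) * ((d - 1 - l * (1 / g ^ 2 - d)) / (1 - l))) *
            ((l * (1 / g ^ 2) - l) / (1 - l))) *
          (q * (1 / g ^ 2) + l + l * (d - 1 + q * (1 / g ^ 2 - d)) / (1 - l) -
            (q * d + l) * ((l * (1 / g ^ 2) - l) / (1 - l))))) := by
  have hgv : g ^ 2 * v < 1 := by
    have : g ^ 2 < 1 := by nlinarith
    nlinarith
  have hδ : 0 < 1 - l := by rw [hl]; linarith
  have hl0 : 0 < l := by rw [hl]; positivity
  have hRl : 0 < R + l := by linarith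
  have hRv : 0 < R + v := by linarith
  have a1 : q * (1 / g ^ 2) = R := by rw [hq]; field_simp
  have a2 : l * (1 / g ^ 2) = v := by rw [hl]; field_simp
  have a3 : q * (1 / g ^ 2 - d) = R - q * d := by rw [mul_sub, a1]
  have a4 : l * (1 / g ^ 2 - d) = v - l * d := by rw [mul_sub, a2]
  have a5 : v - l = v * (1 - g ^ 2) := by rw [hl]; ring
  rw [a3, a4, a1, a2]
  have hn' : n * ((1 - l) * (R + l)) = l * (d - 1 + R - q * d) := by rw [hn]; field_simp
  have hj' : j * ((1 - l) * (R + l)) = l * ((1 + q) * ((1 + l) * d - 1 - v)) / (1 - l) := by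
    rw [hj]; field_simp
  have hh' : h = (v - l) / (1 - l) := by rw [hh, a5]
  rw [← hh']
  have hhm : (1 - l) * h = v - l := by rw [hh']; field_simp
  set E := (1 - l) * (R + l) with hE
  have hE0 : 0 < E := by positivity
  have hκ : q + g ^ 2 * l * (1 - q) * d - g ^ 2 * l * l -
      g ^ 2 * l * (1 + q) * ((d - 1 - (v - l * d)) / (1 - l)) = g ^ 2 * (E * (1 + n - j)) := by
    have e1 : g ^ 2 * (E * (1 + n - j)) = g ^ 2 * (E + n * E - j * E) := by ring
    rw [e1, hn', hj', hE, hq]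
    field_simp
    ring
  have hν : g ^ 2 * l * (d - 1 + (R - q * d)) / (q + g ^ 2 * l * (1 - q) * d - g ^ 2 * l * l -
      g ^ 2 * l * (1 + q) * ((d - 1 - (v - l * d)) / (1 - l))) = n / (1 + n - j) := by
    rw [hκ, div_eq_div_iff (by positivity) hpos.ne']
    have e1 : n * (g ^ 2 * (E * (1 + n - j))) = (n * E) * (g ^ 2 * (1 + n - j)) := by ring
    rw [e1, hn']
    ring
  rw [hν]
  have e5 : l * (d - 1 + (R - q * d)) / (1 - l) = n * (R + l) := by
    rw [div_eq_iff hδ.ne']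
    have : n * (R + l) * (1 - l) = n * E := by rw [hE]; ring
    rw [this, hn']
    ring
  rw [e5]
  constructor
  · have e6 : (1 - n / (1 + n - j)) * (R + l + n * (R + l)) =
        (R + l) * ((1 - j) * (1 + n)) / (1 + n - j) := by
      field_simp
      ring
    rw [e6]
    have e7 : R + l + k * (1 - l) * h ^ 2 / 4 =
        (R + l) * (1 + k * (v - l) ^ 2 / (4 * (1 - l) * (R + l))) := by
      rw [← hhm]
      field_simp
    rw [e7, ← mul_div_assoc, le_div_iff₀ hpos]
    have := mul_le_mul_of_nonneg_left H1 hRl.le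
    linarith
  · have e8 : R + l + n * (R + l) - (q * d + l) * h =
        (R - l * v - d * l * (R - 1)) / (1 - l) := by
      rw [eq_div_iff hδ.ne']
      have e9 : (R + l + n * (R + l) - (q * d + l) * h) * (1 - l) =
          (R + l) * (1 - l) + n * E - (q * d + l) * ((1 - l) * h) := by rw [hE]; ring
      rw [e9, hn', hhm, hq]
      have : g ^ 2 * R * v = l * R := by rw [hl]; ring
      linear_combination (-d) * this
    have e10 : (1 - n / (1 + n - j) + n / (1 + n - j) * h) = (1 - j + n * h) / (1 + n - j) := by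
      field_simp
      ring
    rw [e8, e10]
    have e11 : (1 - k * h) * (R + l + (1 - l) * h) + k * (1 - l) * h ^ 2 / 4 =
        (R + v) * (1 - k * h + k * h ^ 2 * (1 - l) / (4 * (R + v))) := by
      rw [hhm]
      field_simp
      ring
    rw [e11]
    have e12 : Rr * ((1 - j + n * h) / (1 + n - j) *
        ((R - l * v - d * l * (R - 1)) / (1 - l))) =
        (R + v) * (Rr * ((1 - j + n * h) *
          ((R - l * v - d * l * (R - 1)) / ((1 - l) * (R + v))))) / (1 + n - j) := by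
      field_simp
    rw [e12, le_div_iff₀ hpos]
    have := mul_le_mul_of_nonneg_left H2 hRv.le
    linarith

end Pool.Agent.LibSchE
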