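import Pool.Agent.LibSchE.E8hi
import Pool.Agent.LibSchE.E8p1

/-! **(Cb)**, `1 ≤ R`, in the variables `g, v, R`. -/

namespace Pool.Agent.LibSchE

open NP

theorem PCbhi {g v R l q h br z n j k : ℝ} (hg : 0 < g) (hg1 : g < 1) (hv : 0 < v) (hv1 : v < 1)
    (hR : 1 ≤ R) (hl : l = g ^ 2 * v) (hq : q = g ^ 2 * R) (hh : h = v * (1 - g ^ 2) / (1 - l))
    (hbr : br = 3 * g * (1 + g) * (R + v) + 2 * (1 - g * v))
    (hz : z = 6 * (1 - g * v) * (1 + l) * (1 + q) ^ 2 / ((1 - g) * br ^ 2))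
    (hn : n = g * v * (1 - g) * br / (3 * (1 + l) * (1 - l) * (R + l)))
    (hj : j = 2 * g * v * (1 - g) * (1 - g * v) * (1 + q) / (3 * (1 - l) ^ 2 * (R + l)))
    (hk : k = (1 + g * v * (1 - v)) / 2) :
    (4 + z) * (1 - k * h + k * h ^ 2 * (1 - l) / (4 * (R + v))) * (1 + n - j) ≤
      (4 + 3 * z) * (1 - j + n * h) *
        ((R - l * v - (2 / g + (1 + v) / (1 + l)) / 3 * l * (R - 1)) / ((1 - l) * (R + v))) ∧
      0 ≤ 1 - j + n * h ∧ 0 ≤ 1 + n - j := by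
  obtain ⟨a, ha, rfl⟩ := ex_inv hg hg1
  obtain ⟨c, hc, rfl⟩ := ex_inv hv hv1
  obtain ⟨x, hx, rfl⟩ : ∃ x, 0 ≤ x ∧ R = 1 + x := ⟨R - 1, by linarith, by ring⟩
  have P := hi_poly ha.le hc.le hx
  have S := hi_poly_sgn ha.le hc.le hx
  -- positivity of the blocks
  have w1 : 0 < 1 + a := by linarith
  have w2 : 0 < 1 + c := by linarith
  have m1 : 0 < (1 + a) * (1 + c) - 1 := by
    have e : (1 + a) * (1 + c) - 1 = a + c + a * c := by ring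
    rw [e]
    positivity
  have m2 : 0 < (1 + a) ^ 2 * (1 + c) - 1 := by
    have e : (1 + a) ^ 2 * (1 + c) - 1 = c * (1 + a) ^ 2 + a ^ 2 + 2 * a := by ring
    rw [e]
    positivity
  have hRL : 0 < (1 + a) ^ 2 * (1 + c) * (1 + x) + 1 := by positivity
  have hRV : 0 < (1 + c) * (1 + x) + 1 := by positivity
  have hp2 : 0 < (1 + a) ^ 2 * (1 + c) + 1 := by positivity
  have hl' : l = 1 / ((1 + a) ^ 2 * (1 + c)) := by rw [hl]; field_simp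
  have hgv : 1 - 1 / (1 + a) * (1 / (1 + c)) = ((1 + a) * (1 + c) - 1) / ((1 + a) * (1 + c)) := by
    field_simp
  have h1l : 1 + l = ((1 + a) ^ 2 * (1 + c) + 1) / ((1 + a) ^ 2 * (1 + c)) := by
    rw [hl']; field_simp
  have h1l' : 1 - l = ((1 + a) ^ 2 * (1 + c) - 1) / ((1 + a) ^ 2 * (1 + c)) := by
    rw [hl']; field_simp
  have hRl : 1 + x + l = ((1 + a) ^ 2 * (1 + c) * (1 + x) + 1) / ((1 + a) ^ 2 * (1 + c)) := by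
    rw [hl']; field_simp
  have hRv : 1 + x + 1 / (1 + c) = ((1 + c) * (1 + x) + 1) / (1 + c) := by
    field_simp
  have h1q : 1 + q = ((1 + a) ^ 2 + (1 + x)) / (1 + a) ^ 2 := by
    rw [hq]; field_simp
  have h1g : 1 - 1 / (1 + a) = a / (1 + a) := by field_simp; ring
  have hbr' : br = (3 * ((1 + a) + 1) * ((1 + c) * (1 + x) + 1) +
      2 * (1 + a) * ((1 + a) * (1 + c) - 1)) / ((1 + a) ^ 2 * (1 + c)) := by
    rw [hbr, hgv, hRv]; field_simp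
  have hh' : h = a * ((1 + a) + 1) / ((1 + a) ^ 2 * (1 + c) - 1) := by
    rw [hh, h1l']; field_simp; ring
  have hk' : k = ((1 + a) * (1 + c) ^ 2 + c) / (2 * ((1 + a) * (1 + c) ^ 2)) := by
    rw [hk]; field_simp; ring
  have hK : 1 + x - l * (1 / (1 + c)) - (2 / (1 / (1 + a)) + (1 + 1 / (1 + c)) / (1 + l)) / 3 * l *
      (1 + x - 1) = (3 * ((1 + a) ^ 2 * (1 + c) + 1) * ((1 + a) ^ 2 * (1 + c) ^ 2 * (1 + x) - 1) -
      x * (1 + a) * (1 + c) * (2 * ((1 + a) ^ 2 * (1 + c) + 1) + ((1 + c) + 1) * (1 + a))) /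
      (3 * ((1 + a) ^ 2 * (1 + c) + 1) * ((1 + a) ^ 2 * (1 + c) ^ 2)) := by
    rw [h1l, hl']; field_simp; ring
  rw [hK]
  clear hl' hbr hk hK hh
  rw [hgv, h1l, h1q, h1g, hbr'] at hz
  rw [h1l, h1l', h1g, hRl, hbr'] at hn
  rw [h1l', h1g, hRl, hgv, h1q] at hj
  rw [h1l', hRv, hk', hh']
  clear h1l h1l' h1g hRl hRv hbr' hgv h1q hk' hl hq
  have hBR : 0 < 3 * ((1 + a) + 1) * ((1 + c) * (1 + x) + 1) +
      2 * (1 + a) * ((1 + a) * (1 + c) - 1) := by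
    have := mul_pos w1 m1
    positivity
  obtain ⟨KE, hKEe⟩ : ∃ KE, KE = 3 * ((1 + a) ^ 2 * (1 + c) + 1) *
      ((1 + a) ^ 2 * (1 + c) ^ 2 * (1 + x) - 1) -
      x * (1 + a) * (1 + c) * (2 * ((1 + a) ^ 2 * (1 + c) + 1) + ((1 + c) + 1) * (1 + a)) :=
    ⟨_, rfl⟩
  rw [← hKEe] at P ⊢
  obtain ⟨BR, hBRe⟩ : ∃ BR, BR = 3 * ((1 + a) + 1) * ((1 + c) * (1 + x) + 1) +
      2 * (1 + a) * ((1 + a) * (1 + c) - 1) := ⟨_, rfl⟩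
  rw [← hBRe] at P S hz hn hBR
  obtain ⟨RL, hRLe⟩ : ∃ RL, RL = (1 + a) ^ 2 * (1 + c) * (1 + x) + 1 := ⟨_, rfl⟩
  rw [← hRLe] at P S hn hj hRL
  obtain ⟨RV, hRVe⟩ : ∃ RV, RV = (1 + c) * (1 + x) + 1 := ⟨_, rfl⟩
  rw [← hRVe] at P hRV ⊢
  obtain ⟨QQ, hQQe⟩ : ∃ QQ, QQ = (1 + a) ^ 2 + (1 + x) := ⟨_, rfl⟩
  rw [← hQQe] at P S hz hj
  obtain ⟨M1, hM1e⟩ : ∃ M1, M1 = (1 + a) * (1 + c) - 1 := ⟨_, rfl⟩
  rw [← hM1e] at P S hz hj m1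
  obtain ⟨M2, hM2e⟩ : ∃ M2, M2 = (1 + a) ^ 2 * (1 + c) - 1 := ⟨_, rfl⟩
  rw [← hM2e] at P S hn hj m2 ⊢
  rw [← hM2e] at hh'
  obtain ⟨P2, hP2e⟩ : ∃ P2, P2 = (1 + a) ^ 2 * (1 + c) + 1 := ⟨_, rfl⟩
  rw [← hP2e] at P S hz hn hp2 ⊢
  clear hKEe hBRe hRLe hRVe hQQe hM1e hM2e hP2e
  generalize hW : 1 + a = W at *
  generalize hV : 1 + c = V at *
  -- the quantities
  obtain ⟨ZN, hZN⟩ : ∃ ZN, ZN = 6 * M1 * P2 * QQ ^ 2 := ⟨_, rfl⟩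
  obtain ⟨ZD, hZD⟩ : ∃ ZD, ZD = a * BR ^ 2 * W ^ 2 := ⟨_, rfl⟩
  obtain ⟨DE, hDE⟩ : ∃ DE, DE = 3 * P2 * M2 ^ 2 * RL := ⟨_, rfl⟩
  obtain ⟨NN, hNN⟩ : ∃ NN, NN = a * BR * W ^ 2 * V * M2 := ⟨_, rfl⟩
  obtain ⟨JJ, hJJ⟩ : ∃ JJ, JJ = 2 * a * M1 * QQ * W * V * P2 := ⟨_, rfl⟩
  obtain ⟨KN, hKN⟩ : ∃ KN, KN = W * V ^ 2 + c := ⟨_, rfl⟩
  have ZD0 : 0 < ZD := by rw [hZD]; positivity
  have DE0 : 0 < DE := by rw [hDE]; positivity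
  have ez : z = ZN / ZD := by
    rw [hz, hZN, hZD]; field_simp
  have en : n = NN / DE := by
    rw [hn, hNN, hDE]; field_simp
  have ej : j = JJ / DE := by
    rw [hj, hJJ, hDE]; field_simp
  rw [← hZN, ← hZD, ← hDE, ← hNN, ← hJJ, ← hKN] at P
  rw [← hDE, ← hNN, ← hJJ] at S
  rw [← hKN]
  have e1 : 4 + z = (4 * ZD + ZN) / ZD := by rw [ez]; field_simp
  have e2 : 4 + 3 * z = (4 * ZD + 3 * ZN) / ZD := by rw [ez]; field_simp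
  have e3 : 1 - j + n * (a * (W + 1) / M2) =
      (DE - JJ + a * (W + 1) * (a * BR * W ^ 2 * V)) / DE := by
    rw [ej, en, hNN]; field_simp
  have e5 : 1 + n - j = (DE + NN - JJ) / DE := by rw [en, ej]; field_simp
  obtain ⟨RH, hRH⟩ : ∃ RH, RH = 8 * W ^ 3 * V ^ 2 * M2 * RV - 4 * KN * (a * (W + 1)) * W ^ 2 * RV +
      KN * (a * (W + 1)) ^ 2 := ⟨_, rfl⟩
  have e6 : 1 - KN / (2 * (W * V ^ 2)) * (a * (W + 1) / M2) +
      KN / (2 * (W * V ^ 2)) * (a * (W + 1) / M2) ^ 2 * (M2 / (W ^ 2 * V)) / (4 * (RV / V)) =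
      RH / (8 * W ^ 3 * V ^ 2 * M2 * RV) := by
    rw [hRH]; field_simp; ring
  have e7 : KE / (3 * P2 * (W ^ 2 * V ^ 2)) / (M2 / (W ^ 2 * V) * (RV / V)) =
      KE / (3 * P2 * M2 * RV) := by
    field_simp
  rw [← hRH] at P
  refine ⟨?_, ?_, ?_⟩
  · rw [e1, e2, e3, e5, e6, e7]
    have f1 : (4 * ZD + ZN) / ZD * (RH / (8 * W ^ 3 * V ^ 2 * M2 * RV)) * ((DE + NN - JJ) / DE) =
        ((4 * ZD + ZN) * (DE + NN - JJ) * (RH * (3 * P2))) /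
          (ZD * DE * (8 * W ^ 3 * V ^ 2 * M2 * RV * (3 * P2))) := by
      field_simp
    have f2 : (4 * ZD + 3 * ZN) / ZD * ((DE - JJ + a * (W + 1) * (a * BR * W ^ 2 * V)) / DE) *
        (KE / (3 * P2 * M2 * RV)) =
        ((4 * ZD + 3 * ZN) * (DE - JJ + a * (W + 1) * (a * BR * W ^ 2 * V)) *
          (KE * (8 * W ^ 3 * V ^ 2))) /
          (ZD * DE * (8 * W ^ 3 * V ^ 2 * M2 * RV * (3 * P2))) := by
      field_simp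
    rw [f1, f2]
    exact div_le_div_of_nonneg_right P (by positivity)
  · rw [e3]; exact div_nonneg S.1 DE0.le
  · rw [e5]; exact div_nonneg S.2 DE0.le

end Pool.Agent.LibSchE
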