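import Pool.Agent.LibSchE.E8lo
import Pool.Agent.LibSchE.E8p1

/-! **(Cb)**, `p ≤ R < 1`, in the variables `g, p, R` (`v = p²`). -/

namespace Pool.Agent.LibSchE

open NP

theorem PCblo {g p v R l q h br z n j k : ℝ} (hg : 0 < g) (hg1 : g < 1) (hp : 0 < p) (hp1 : p < 1)
    (hv : v = p ^ 2) (hR : p ≤ R) (hR1 : R < 1) (hl : l = g ^ 2 * v) (hq : q = g ^ 2 * R)
    (hh : h = v * (1 - g ^ 2) / (1 - l))
    (hbr : br = 3 * g * (1 + g) * (R + v) + 2 * (1 - g * v) * (1 - q))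
    (hz : z = 6 * (1 - g * v) * (1 + l) * (1 + q) ^ 2 / ((1 - g) * br ^ 2))
    (hn : n = g * v * (1 - g) * br / (3 * (1 + l) * (1 - l) * (R + l)))
    (hj : j = 2 * g * v * (1 - g) * (1 - g * v) * (1 + q) / (3 * (1 - l) ^ 2 * (R + l)))
    (hk : k = (1 + g * p * (1 - v)) / 2) :
    (4 + z) * (1 - k * h + k * h ^ 2 * (1 - l) / (4 * (R + v))) * (1 + n - j) ≤
      (4 + 3 * z) * (1 - j + n * h) * (1 - h * (1 + R * l) / ((1 + l) * (R + v))) ∧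
      0 ≤ 1 - j + n * h ∧ 0 ≤ 1 + n - j := by
  subst hv
  obtain ⟨a, ha, rfl⟩ := ex_inv hg hg1
  obtain ⟨c, hc, rfl⟩ := ex_inv hp hp1
  have w1 : 0 < 1 + a := by linarith
  have w2 : 0 < 1 + c := by linarith
  obtain ⟨x, hx, rfl⟩ : ∃ x, 0 ≤ x ∧ R = ((1 + x) + c * x) / ((1 + c) * (1 + x)) := by
    have h1 : 0 < (1 + c) * (1 - R) := mul_pos w2 (by linarith)
    rw [div_le_iff₀ w2] at hR
    refine ⟨(R * (1 + c) - 1) / ((1 + c) * (1 - R)), div_nonneg (by linarith) h1.le, ?_⟩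
    have h2 : 1 - R ≠ 0 := by linarith
    have e1 : 1 + (R * (1 + c) - 1) / ((1 + c) * (1 - R)) = c / ((1 + c) * (1 - R)) := by
      field_simp
      ring
    have e2 : c / ((1 + c) * (1 - R)) + c * ((R * (1 + c) - 1) / ((1 + c) * (1 - R))) =
        c * (R * (1 + c)) / ((1 + c) * (1 - R)) := by
      field_simp
      ring
    rw [e1, e2]
    field_simp
  have w3 : 0 < 1 + x := by linarith
  have P := lo_poly ha.le hc.le hx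
  have S := lo_poly_sgn ha.le hc.le hx
  -- positivity of the blocks
  have m1 : 0 < (1 + a) * (1 + c) ^ 2 - 1 := by
    have e : (1 + a) * (1 + c) ^ 2 - 1 = a * (1 + c) ^ 2 + 2 * c + c ^ 2 := by ring
    rw [e]
    positivity
  have m2 : 0 < (1 + a) ^ 2 * (1 + c) ^ 2 - 1 := by
    have e : (1 + a) ^ 2 * (1 + c) ^ 2 - 1 = (a ^ 2 + 2 * a) * (1 + c) ^ 2 + 2 * c + c ^ 2 := by
      ring
    rw [e]
    positivity
  have hRC : 0 < (1 + x) + c * x := by positivity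
  have hqm : 0 ≤ (1 + a) ^ 2 * (1 + c) * (1 + x) - ((1 + x) + c * x) := by
    have e : (1 + a) ^ 2 * (1 + c) * (1 + x) - ((1 + x) + c * x) =
        (a ^ 2 + 2 * a) * (1 + c) * (1 + x) + c := by ring
    rw [e]
    positivity
  have hRL : 0 < (1 + a) ^ 2 * (1 + c) * ((1 + x) + c * x) + (1 + x) := by positivity
  have hRV : 0 < (1 + c) * ((1 + x) + c * x) + (1 + x) := by positivity
  have hp2 : 0 < (1 + a) ^ 2 * (1 + c) ^ 2 + 1 := by positivity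
  have hl' : l = 1 / ((1 + a) ^ 2 * (1 + c) ^ 2) := by rw [hl]; field_simp
  have hgv : 1 - 1 / (1 + a) * (1 / (1 + c)) ^ 2 =
      ((1 + a) * (1 + c) ^ 2 - 1) / ((1 + a) * (1 + c) ^ 2) := by
    field_simp
  have h1l : 1 + l = ((1 + a) ^ 2 * (1 + c) ^ 2 + 1) / ((1 + a) ^ 2 * (1 + c) ^ 2) := by
    rw [hl']; field_simp
  have h1l' : 1 - l = ((1 + a) ^ 2 * (1 + c) ^ 2 - 1) / ((1 + a) ^ 2 * (1 + c) ^ 2) := by
    rw [hl']; field_simp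
  have hRl : ((1 + x) + c * x) / ((1 + c) * (1 + x)) + l =
      ((1 + a) ^ 2 * (1 + c) * ((1 + x) + c * x) + (1 + x)) /
        ((1 + a) ^ 2 * (1 + c) ^ 2 * (1 + x)) := by
    rw [hl']; field_simp
  have hRv : ((1 + x) + c * x) / ((1 + c) * (1 + x)) + (1 / (1 + c)) ^ 2 =
      ((1 + c) * ((1 + x) + c * x) + (1 + x)) / ((1 + c) ^ 2 * (1 + x)) := by
    field_simp
  have h1q : 1 + q = ((1 + a) ^ 2 * (1 + c) * (1 + x) + ((1 + x) + c * x)) /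
      ((1 + a) ^ 2 * (1 + c) * (1 + x)) := by
    rw [hq]; field_simp
  have h1q' : 1 - q = ((1 + a) ^ 2 * (1 + c) * (1 + x) - ((1 + x) + c * x)) /
      ((1 + a) ^ 2 * (1 + c) * (1 + x)) := by
    rw [hq]; field_simp
  have h1g : 1 - 1 / (1 + a) = a / (1 + a) := by field_simp; ring
  have hbr' : br = (3 * ((1 + a) + 1) * (1 + a) * (1 + c) *
      ((1 + c) * ((1 + x) + c * x) + (1 + x)) + 2 * ((1 + a) * (1 + c) ^ 2 - 1) *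
      ((1 + a) ^ 2 * (1 + c) * (1 + x) - ((1 + x) + c * x))) /
      ((1 + a) ^ 3 * (1 + c) ^ 3 * (1 + x)) := by
    rw [hbr, hgv, hRv, h1q']; field_simp
  have hh' : h = a * ((1 + a) + 1) / ((1 + a) ^ 2 * (1 + c) ^ 2 - 1) := by
    rw [hh, h1l']; field_simp; ring
  have hk' : k = ((1 + a) * (1 + c) ^ 3 + c * ((1 + c) + 1)) / (2 * ((1 + a) * (1 + c) ^ 3)) := by
    rw [hk]; field_simp; ring
  have hRR : 1 + ((1 + x) + c * x) / ((1 + c) * (1 + x)) * l =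
      ((1 + a) ^ 2 * (1 + c) ^ 3 * (1 + x) + ((1 + x) + c * x)) /
        ((1 + a) ^ 2 * (1 + c) ^ 3 * (1 + x)) := by
    rw [hl']; field_simp
  clear hl' hbr hk hh h1q'
  rw [hgv, h1l, h1q, h1g, hbr'] at hz
  rw [h1l, h1l', h1g, hRl, hbr'] at hn
  rw [h1l', h1g, hRl, hgv, h1q] at hj
  rw [hRR, h1l, h1l', hRv, hk', hh']
  clear h1l h1l' h1g hRl hRv hbr' hgv h1q hk' hl hq hRR
  have hBR : 0 < 3 * ((1 + a) + 1) * (1 + a) * (1 + c) *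
      ((1 + c) * ((1 + x) + c * x) + (1 + x)) + 2 * ((1 + a) * (1 + c) ^ 2 - 1) *
      ((1 + a) ^ 2 * (1 + c) * (1 + x) - ((1 + x) + c * x)) := by
    have h1 := mul_nonneg (mul_nonneg zero_le_two m1.le) hqm
    have h2 : 0 < 3 * ((1 + a) + 1) * (1 + a) * (1 + c) *
      ((1 + c) * ((1 + x) + c * x) + (1 + x)) := by positivity
    linarith
  obtain ⟨BR, hBRe⟩ : ∃ BR, BR = 3 * ((1 + a) + 1) * (1 + a) * (1 + c) *
      ((1 + c) * ((1 + x) + c * x) + (1 + x)) + 2 * ((1 + a) * (1 + c) ^ 2 - 1) *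
      ((1 + a) ^ 2 * (1 + c) * (1 + x) - ((1 + x) + c * x)) := ⟨_, rfl⟩
  rw [← hBRe] at P S hz hn hBR
  obtain ⟨RL, hRLe⟩ : ∃ RL, RL = (1 + a) ^ 2 * (1 + c) * ((1 + x) + c * x) + (1 + x) := ⟨_, rfl⟩
  rw [← hRLe] at P S hn hj hRL
  obtain ⟨RV, hRVe⟩ : ∃ RV, RV = (1 + c) * ((1 + x) + c * x) + (1 + x) := ⟨_, rfl⟩
  rw [← hRVe] at P hRV ⊢
  obtain ⟨QQ, hQQe⟩ : ∃ QQ, QQ = (1 + a) ^ 2 * (1 + c) * (1 + x) + ((1 + x) + c * x) := ⟨_, rfl⟩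
  rw [← hQQe] at P S hz hj
  obtain ⟨RR, hRRe⟩ : ∃ RR, RR = (1 + a) ^ 2 * (1 + c) ^ 3 * (1 + x) + ((1 + x) + c * x) := ⟨_, rfl⟩
  rw [← hRRe] at P ⊢
  obtain ⟨M1, hM1e⟩ : ∃ M1, M1 = (1 + a) * (1 + c) ^ 2 - 1 := ⟨_, rfl⟩
  rw [← hM1e] at P S hz hj m1
  obtain ⟨M2, hM2e⟩ : ∃ M2, M2 = (1 + a) ^ 2 * (1 + c) ^ 2 - 1 := ⟨_, rfl⟩
  rw [← hM2e] at P S hn hj m2 hh' ⊢
  obtain ⟨P2, hP2e⟩ : ∃ P2, P2 = (1 + a) ^ 2 * (1 + c) ^ 2 + 1 := ⟨_, rfl⟩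
  rw [← hP2e] at P S hz hn hp2 ⊢
  clear hBRe hRLe hRVe hQQe hM1e hM2e hP2e hRRe hqm hRC hR hR1
  generalize hW : 1 + a = W at *
  generalize hV : 1 + c = V at *
  generalize hU : 1 + x = U at *
  -- the quantities
  obtain ⟨ZN, hZN⟩ : ∃ ZN, ZN = 6 * M1 * P2 * QQ ^ 2 := ⟨_, rfl⟩
  obtain ⟨ZD, hZD⟩ : ∃ ZD, ZD = a * BR ^ 2 := ⟨_, rfl⟩
  obtain ⟨DE, hDE⟩ : ∃ DE, DE = 3 * P2 * M2 ^ 2 * RL := ⟨_, rfl⟩
  obtain ⟨NN, hNN⟩ : ∃ NN, NN = a * BR * W * V * M2 := ⟨_, rfl⟩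
  obtain ⟨JJ, hJJ⟩ : ∃ JJ, JJ = 2 * a * M1 * QQ * W * V * P2 := ⟨_, rfl⟩
  obtain ⟨KN, hKN⟩ : ∃ KN, KN = W * V ^ 3 + c * (V + 1) := ⟨_, rfl⟩
  have ZD0 : 0 < ZD := by rw [hZD]; positivity
  have DE0 : 0 < DE := by rw [hDE]; positivity
  have ez : z = ZN / ZD := by
    rw [hz, hZN, hZD]; field_simp
  have en : n = NN / DE := by
    rw [hn, hNN, hDE]; field_simp
  have ej : j = JJ / DE := by
    rw [hj, hJJ, hDE]; field_simp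
  rw [← hZN, ← hZD, ← hDE, ← hNN, ← hJJ, ← hKN] at P
  rw [← hDE, ← hNN, ← hJJ] at S
  rw [← hKN]
  have e1 : 4 + z = (4 * ZD + ZN) / ZD := by rw [ez]; field_simp
  have e2 : 4 + 3 * z = (4 * ZD + 3 * ZN) / ZD := by rw [ez]; field_simp
  have e3 : 1 - j + n * (a * (W + 1) / M2) =
      (DE - JJ + a * BR * W * V * (a * (W + 1))) / DE := by
    rw [ej, en, hNN]; field_simp
  have e5 : 1 + n - j = (DE + NN - JJ) / DE := by rw [en, ej]; field_simp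
  obtain ⟨RH, hRH⟩ : ∃ RH, RH = 8 * W ^ 3 * V ^ 3 * M2 * RV - 4 * KN * (a * (W + 1)) * W ^ 2 * RV +
      KN * (a * (W + 1)) ^ 2 * U := ⟨_, rfl⟩
  have e6 : 1 - KN / (2 * (W * V ^ 3)) * (a * (W + 1) / M2) +
      KN / (2 * (W * V ^ 3)) * (a * (W + 1) / M2) ^ 2 * (M2 / (W ^ 2 * V ^ 2)) /
        (4 * (RV / (V ^ 2 * U))) = RH / (8 * W ^ 3 * V ^ 3 * M2 * RV) := by
    rw [hRH]; field_simp; ring
  obtain ⟨KE, hKE⟩ : ∃ KE, KE = M2 * P2 * RV - a * (W + 1) * V * RR := ⟨_, rfl⟩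
  have e7 : 1 - a * (W + 1) / M2 * (RR / (W ^ 2 * V ^ 3 * U)) /
      (P2 / (W ^ 2 * V ^ 2) * (RV / (V ^ 2 * U))) = KE / (P2 * M2 * RV) := by
    rw [hKE]; field_simp
  rw [← hRH, ← hKE] at P
  refine ⟨?_, ?_, ?_⟩
  · rw [e1, e2, e3, e5, e6, e7]
    have f1 : (4 * ZD + ZN) / ZD * (RH / (8 * W ^ 3 * V ^ 3 * M2 * RV)) * ((DE + NN - JJ) / DE) =
        ((4 * ZD + ZN) * (DE + NN - JJ) * (RH * P2)) /
          (ZD * DE * (8 * W ^ 3 * V ^ 3 * M2 * RV * P2)) := by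
      field_simp
    have f2 : (4 * ZD + 3 * ZN) / ZD * ((DE - JJ + a * BR * W * V * (a * (W + 1))) / DE) *
        (KE / (P2 * M2 * RV)) =
        ((4 * ZD + 3 * ZN) * (DE - JJ + a * BR * W * V * (a * (W + 1))) *
          (KE * (8 * W ^ 3 * V ^ 3))) /
          (ZD * DE * (8 * W ^ 3 * V ^ 3 * M2 * RV * P2)) := by
      field_simp
    rw [f1, f2]
    exact div_le_div_of_nonneg_right P (by positivity)
  · rw [e3]; exact div_nonneg S.1 DE0.le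
  · rw [e5]; exact div_nonneg S.2 DE0.le

end Pool.Agent.LibSchE
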