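import Pool.Agent.LibSchE.E8g
import Pool.Agent.LibSchE.E8p1
import Pool.Agent.LibSchE.E8p2
import Pool.Agent.LibSchE.E8p3

/-! **E8g2.**  The end point inequalities, assembled from `PC1`, `PCbhi`, `PCblo`. -/

namespace Pool.Agent.LibSchE

/-- dividing by `4 + z` -/
theorem E8g_div {z A B C : ℝ} (hz : 0 ≤ z) (h : (4 + z) * A * B ≤ (4 + 3 * z) * C) :
    A * B ≤ (4 + 3 * z) / (4 + z) * C := by
  rw [div_mul_eq_mul_div, le_div_iff₀ (by linarith)]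
  linarith

theorem E8g_Rmono {z z' : ℝ} (hz : 0 ≤ z) (h : z ≤ z') :
    (4 + 3 * z) / (4 + z) ≤ (4 + 3 * z') / (4 + z') := by
  rw [div_le_div_iff₀ (by linarith) (by linarith)]
  nlinarith

/-- monotonicity of the left side of `(Cb)` in `k` -/
theorem E8g_kmono {k k' h l v R : ℝ} (hk : k' ≤ k) (hh0 : 0 ≤ h) (hδh : (1 - l) * h = v - l)
    (hl : 0 < l) (hv : 0 < v) (hR : 0 < R) :
    1 - k * h + k * h ^ 2 * (1 - l) / (4 * (R + v)) ≤
      1 - k' * h + k' * h ^ 2 * (1 - l) / (4 * (R + v)) := by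
  have h1 : h ^ 2 * (1 - l) / (4 * (R + v)) ≤ h := by
    rw [div_le_iff₀ (by linarith)]
    have : h ^ 2 * (1 - l) = h * (v - l) := by rw [← hδh]; ring
    rw [this]
    exact mul_le_mul_of_nonneg_left (by linarith) hh0
  have h2 : (k - k') * (h ^ 2 * (1 - l) / (4 * (R + v))) ≤ (k - k') * h :=
    mul_le_mul_of_nonneg_left h1 (by linarith)
  have e1 : k * h ^ 2 * (1 - l) / (4 * (R + v)) = k * (h ^ 2 * (1 - l) / (4 * (R + v))) := by ring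
  have e2 : k' * h ^ 2 * (1 - l) / (4 * (R + v)) = k' * (h ^ 2 * (1 - l) / (4 * (R + v))) := by
    ring
  rw [e1, e2]
  linarith

/-- the lower bound of `z` -/
theorem E8g_z {g l q d B br z n₁ : ℝ} (hg : 0 < g) (hg1 : g < 1)
    (hl0 : 0 < l) (hB : 0 ≤ B) (hbr : 0 < br)
    (hz : z = 6 * B * (1 + l) * (1 + q) ^ 2 / ((1 - g) * br ^ 2)) (hn0 : 0 < n₁)
    (hn : n₁ ≤ (1 - g) * br / (3 * g * (1 + l)))
    (b3 : 2 * (1 - g) * B / (3 * g ^ 2 * (1 + l)) ≤ 1 / g ^ 2 - d ^ 2) :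
    z ≤ (1 + q) ^ 2 * (1 / g ^ 2 - d ^ 2) / n₁ ^ 2 := by
  have h1 : 0 < 1 - g := by linarith
  rw [le_div_iff₀ (by positivity)]
  have h2 : n₁ ^ 2 ≤ ((1 - g) * br / (3 * g * (1 + l))) ^ 2 := pow_le_pow_left₀ hn0.le hn 2
  have hz0 : 0 ≤ z := by rw [hz]; positivity
  calc z * n₁ ^ 2 ≤ z * ((1 - g) * br / (3 * g * (1 + l))) ^ 2 := mul_le_mul_of_nonneg_left h2 hz0
    _ = (1 + q) ^ 2 * (2 * (1 - g) * B / (3 * g ^ 2 * (1 + l))) := by
      rw [hz]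
      field_simp
      ring
    _ ≤ _ := mul_le_mul_of_nonneg_left b3 (by positivity)

/-- `C1` -/
theorem E8g_C1 {g p v l R q z br n n' j j' : ℝ} (hg : 0 < g) (hg1 : g < 1) (hp1 : p < 1)
    (hv0 : 0 < v) (hv1 : v < 1) (hvR : v ≤ R) (hl : l = g ^ 2 * v) (hl1 : l < 1) (hl0 : 0 < l)
    (hq : q = g ^ 2 * R) (hbr : br = 3 * g * (1 + g) * (R + v) + 2 * (1 - g * v))
    (hz : z = 6 * (1 - g * v) * (1 + l) * (1 + q) ^ 2 / ((1 - g) * br ^ 2)) (hz0 : 0 ≤ z)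
    (hn' : n' = g * v * (1 - g) * br / (3 * (1 + l) * (1 - l) * (R + l)))
    (hj' : j' = 2 * g * v * (1 - g) * (1 - g * v) * (1 + q) / (3 * (1 - l) ^ 2 * (R + l)))
    (hn0 : 0 < n) (hnn : n ≤ n') (hj0 : 0 ≤ j) (hjj : j ≤ j') :
    j' ≤ 1 ∧ (1 + (1 + g * p * (1 - v)) / 2 * (v - l) ^ 2 / (4 * (1 - l) * (R + l))) *
      (1 + n - j) ≤ (4 + 3 * z) / (4 + z) * ((1 - j) * (1 + n)) := by
  obtain ⟨P1, P1j, -⟩ := PC1 hg hg1 hv0 hv1 hvR hl hq hbr hz hn' hj' rfl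
  have hj1 : j' ≤ 1 := sub_nonneg.1 P1j
  have h3 := E8g_div hz0 (C := (1 - j') * (1 + n')) (le_of_le_of_eq P1 (mul_assoc _ _ _))
  clear P1 P1j
  refine ⟨hj1, ?_⟩
  have h4 := E8g_m1 (by positivity) hn0 hnn hj0 hjj hj1 h3
  clear h3 hz hbr hn' hj'
  refine le_trans (mul_le_mul_of_nonneg_right ?_ (by linarith)) h4
  have h6 : g * p * (1 - v) ≤ g * (1 - v) := by
    have h7 : g * p ≤ g * 1 := mul_le_mul_of_nonneg_left hp1.le hg.le
    have := mul_le_mul_of_nonneg_right h7 (sub_nonneg.2 hv1.le)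
    rwa [mul_one] at this
  have h8 : 0 < 1 - l := sub_pos.2 hl1
  have h9 : 0 < R + l := by linarith
  have h10 : (1 + g * p * (1 - v)) / 2 ≤ (1 + g * (1 - v)) / 2 := by linarith
  have h7 : (1 + g * p * (1 - v)) / 2 * (v - l) ^ 2 / (4 * (1 - l) * (R + l)) ≤
      (1 + g * (1 - v)) / 2 * (v - l) ^ 2 / (4 * (1 - l) * (R + l)) :=
    div_le_div_of_nonneg_right (mul_le_mul_of_nonneg_right h10 (sq_nonneg _)) (by positivity)
  exact add_le_add_right h7 _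

/-- `Cb`, lower range -/
theorem E8g_lo {g p v l R q z br n n' j j' h d : ℝ} (hg : 0 < g) (hg1 : g < 1) (hp : 0 < p)
    (hp1 : p < 1) (hv : v = p ^ 2) (hv0 : 0 < v) (hR : p ≤ R) (hR1 : R < 1) (hlv : l * v ≤ R)
    (hl : l = g ^ 2 * v) (hl1 : l < 1)
    (hl0 : 0 < l) (hq : q = g ^ 2 * R) (hh : h = v * (1 - g ^ 2) / (1 - l)) (hh0 : 0 ≤ h)
    (hh1 : h ≤ 1) (hd0 : 0 < d)
    (hbr : br = 3 * g * (1 + g) * (R + v) + 2 * (1 - g * v) * (1 - q))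
    (hz : z = 6 * (1 - g * v) * (1 + l) * (1 + q) ^ 2 / ((1 - g) * br ^ 2)) (hz0 : 0 ≤ z)
    (hn' : n' = g * v * (1 - g) * br / (3 * (1 + l) * (1 - l) * (R + l)))
    (hj' : j' = 2 * g * v * (1 - g) * (1 - g * v) * (1 + q) / (3 * (1 - l) ^ 2 * (R + l)))
    (hj1 : j' ≤ 1) (hn0 : 0 < n) (hnn : n ≤ n') (hjj : j ≤ j')
    (b1 : (1 + v) / (1 + l) ≤ d) :
    (1 - (1 + g * p * (1 - v)) / 2 * h + (1 + g * p * (1 - v)) / 2 * h ^ 2 * (1 - l) /
        (4 * (R + v))) * (1 + n - j) ≤ (4 + 3 * z) / (4 + z) *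
      ((1 - j + n * h) * ((R - l * v - d * l * (R - 1)) / ((1 - l) * (R + v)))) := by
  obtain ⟨P2, -, -⟩ := PCblo hg hg1 hp hp1 hv hR hR1 hl hq hh hbr hz hn' hj' rfl
  have h3 := E8g_div hz0 (C := (1 - j' + n' * h) * (1 - h * (1 + R * l) / ((1 + l) * (R + v))))
    (le_of_le_of_eq P2 (mul_assoc _ _ _))
  clear P2 hbr hz hn' hj'
  have hR0 : 0 < R := lt_of_lt_of_le hp hR
  have hRv : 0 < R + v := add_pos hR0 hv0
  have hδ : 0 < 1 - l := sub_pos.2 hl1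
  have hκR : 0 < (1 - l) * (R + v) := mul_pos hδ hRv
  have hκ0 : 0 ≤ (R - l * v - d * l * (R - 1)) / ((1 - l) * (R + v)) := by
    refine div_nonneg ?_ hκR.le
    have h4 : 0 ≤ d * l * (1 - R) := mul_nonneg (mul_pos hd0 hl0).le (sub_nonneg.2 hR1.le)
    clear h3
    linarith
  have hκ : 1 - h * (1 + R * l) / ((1 + l) * (R + v)) ≤
      (R - l * v - d * l * (R - 1)) / ((1 - l) * (R + v)) := by
    clear h3 hnn hjj hj1 hn0
    have e1 : 1 - h * (1 + R * l) / ((1 + l) * (R + v)) =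
        (R - l * v - (1 + v) / (1 + l) * l * (R - 1)) / ((1 - l) * (R + v)) := by
      have e0 : v * (1 - g ^ 2) = v - l := by rw [hl]; ring
      rw [hh, e0]
      have h1l : 1 + l ≠ 0 := by positivity
      field_simp
      ring
    rw [e1]
    refine div_le_div_of_nonneg_right ?_ hκR.le
    have h3 : (1 + v) / (1 + l) * (l * (1 - R)) ≤ d * (l * (1 - R)) :=
      mul_le_mul_of_nonneg_right b1 (mul_nonneg hl0.le (sub_nonneg.2 hR1.le))
    linarith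
  exact E8g_m2 (by positivity) hn0 hnn hjj hj1 hh0 hh1 hκ0 hκ h3

/-- `Cb`, upper range -/
theorem E8g_hi {g p v l R q z br n n' j j' h d : ℝ} (hg : 0 < g) (hg1 : g < 1)
    (hv0 : 0 < v) (hv1 : v < 1) (hvp : v ≤ p) (hR1 : 1 ≤ R)
    (hl : l = g ^ 2 * v) (hl1 : l < 1)
    (hl0 : 0 < l) (hq : q = g ^ 2 * R) (hh : h = v * (1 - g ^ 2) / (1 - l)) (hh0 : 0 ≤ h)
    (hh1 : h ≤ 1) (hδh : (1 - l) * h = v - l)
    (hbr : br = 3 * g * (1 + g) * (R + v) + 2 * (1 - g * v))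
    (hz : z = 6 * (1 - g * v) * (1 + l) * (1 + q) ^ 2 / ((1 - g) * br ^ 2)) (hz0 : 0 ≤ z)
    (hn' : n' = g * v * (1 - g) * br / (3 * (1 + l) * (1 - l) * (R + l)))
    (hj' : j' = 2 * g * v * (1 - g) * (1 - g * v) * (1 + q) / (3 * (1 - l) ^ 2 * (R + l)))
    (hj1 : j' ≤ 1) (hn0 : 0 < n) (hnn : n ≤ n') (hjj : j ≤ j')
    (b2 : 3 * d ≤ 2 / g + (1 + v) / (1 + l)) :
    (1 - (1 + g * p * (1 - v)) / 2 * h + (1 + g * p * (1 - v)) / 2 * h ^ 2 * (1 - l) /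
        (4 * (R + v))) * (1 + n - j) ≤ (4 + 3 * z) / (4 + z) *
      ((1 - j + n * h) * ((R - l * v - d * l * (R - 1)) / ((1 - l) * (R + v)))) := by
  obtain ⟨P2, -, -⟩ := PCbhi hg hg1 hv0 hv1 hR1 hl hq hh hbr hz hn' hj' rfl
  have h3 := E8g_div hz0 (C := (1 - j' + n' * h) *
      ((R - l * v - (2 / g + (1 + v) / (1 + l)) / 3 * l * (R - 1)) / ((1 - l) * (R + v))))
    (le_of_le_of_eq P2 (mul_assoc _ _ _))
  clear P2 hbr hz hn' hj'
  have hR0 : 0 < R := lt_of_lt_of_le one_pos hR1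
  have hRv : 0 < R + v := add_pos hR0 hv0
  have hδ : 0 < 1 - l := sub_pos.2 hl1
  have hκR : 0 < (1 - l) * (R + v) := mul_pos hδ hRv
  have hdhi : d ≤ (2 / g + (1 + v) / (1 + l)) / 3 := by
    clear h3
    linarith
  have hld : d * l ≤ 1 := by
    clear h3
    have h4 : 2 / g * l = 2 * (g * v) := by
      rw [hl]
      field_simp
    have hlv1 : l * v ≤ 1 := mul_le_one₀ hl1.le hv0.le hv1.le
    have h5 : (1 + v) / (1 + l) * l ≤ 1 := by
      rw [div_mul_eq_mul_div, div_le_one (by positivity)]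
      linarith
    have h6 : g * v ≤ 1 := mul_le_one₀ hg1.le hv0.le hv1.le
    have h7 := mul_le_mul_of_nonneg_right b2 hl0.le
    rw [add_mul, h4] at h7
    linarith
  have hκ0 : 0 ≤ (R - l * v - d * l * (R - 1)) / ((1 - l) * (R + v)) := by
    clear h3
    refine div_nonneg ?_ hκR.le
    have h3 : d * l * (R - 1) ≤ 1 * (R - 1) := mul_le_mul_of_nonneg_right hld (sub_nonneg.2 hR1)
    have h4 : l * v ≤ 1 := mul_le_one₀ hl1.le hv0.le hv1.le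
    linarith
  have hκ : (R - l * v - (2 / g + (1 + v) / (1 + l)) / 3 * l * (R - 1)) /
      ((1 - l) * (R + v)) ≤ (R - l * v - d * l * (R - 1)) / ((1 - l) * (R + v)) := by
    clear h3
    refine div_le_div_of_nonneg_right ?_ hκR.le
    have h3 : d * (l * (R - 1)) ≤ (2 / g + (1 + v) / (1 + l)) / 3 * (l * (R - 1)) :=
      mul_le_mul_of_nonneg_right hdhi (mul_nonneg hl0.le (sub_nonneg.2 hR1))
    linarith
  have h4 := E8g_m2 (by positivity) hn0 hnn hjj hj1 hh0 hh1 hκ0 hκ h3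
  clear h3 hκ hκ0 hld hdhi b2
  have h5 : 1 - (1 + g * p * (1 - v)) / 2 * h +
        (1 + g * p * (1 - v)) / 2 * h ^ 2 * (1 - l) / (4 * (R + v)) ≤
      1 - (1 + g * v * (1 - v)) / 2 * h +
        (1 + g * v * (1 - v)) / 2 * h ^ 2 * (1 - l) / (4 * (R + v)) := by
    refine E8g_kmono ?_ hh0 hδh hl0 hv0 hR0
    have h7 : g * v ≤ g * p := mul_le_mul_of_nonneg_left hvp hg.le
    have h8 := mul_le_mul_of_nonneg_right h7 (sub_nonneg.2 hv1.le)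
    clear h4
    linarith
  have hpos : 0 ≤ 1 + n - j := by
    clear h4 h5
    linarith
  exact (mul_le_mul_of_nonneg_right h5 hpos).trans h4

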