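import Pool.Agent.LibSchE.E2
import Pool.Agent.LibSchE.E8

/-! **E9a.**  The main inequality in the gauge `E₁₂ ≥ 0` (`N = 2`, bad entry `(2,1)`). -/

open MeasureTheory Set Matrix
open scoped ComplexOrder

namespace Pool.Agent.LibSchE

open Pool.Agent.LibSchP Pool.Agent.LibSchA

theorem E9a_bad {a e₁ e₂ c s : ℝ} {X Z : Fin 2 → ℝ} (D : BDat a e₁ e₂ c s X Z) :
    s * X 0 * e₂ + c * Z 0 * e₁ < 0 := by
  have he₁ : 0 < e₁ := lt_trans D.he₂ D.he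
  have hsX : 0 < s * X 0 := mul_pos D.hs D.hX0
  have hcZ : c * Z 0 < 0 := mul_neg_of_pos_of_neg D.hc D.hZ0
  have hb := D.bad
  -- `(e₁/e₂)^(2a) ≥ 1`
  have h1 : e₂ ^ (2 * a) ≤ e₁ ^ (2 * a) :=
    Real.rpow_le_rpow D.he₂.le D.he.le (by linarith [D.ha])
  have p1 : e₁ ^ (2 * a) = e₁ ^ (2 * a - 1) * e₁ := by
    rw [← Real.rpow_add_one he₁.ne']
    congr 1
    ring
  have p2 : e₂ ^ (2 * a) = e₂ ^ (2 * a - 1) * e₂ := by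
    rw [← Real.rpow_add_one D.he₂.ne']
    congr 1
    ring
  have q1 : 0 < e₁ ^ (2 * a) := Real.rpow_pos_of_pos he₁ _
  have q2 : 0 < e₂ ^ (2 * a) := Real.rpow_pos_of_pos D.he₂ _
  -- multiply `bad` by `e₁ e₂`
  have h2 : e₁ ^ (2 * a) * (s * X 0 * e₂) + e₂ ^ (2 * a) * (c * Z 0 * e₁) < 0 := by
    have h3 := mul_neg_of_neg_of_pos hb (mul_pos he₁ D.he₂)
    rw [p1, p2]
    calc _ = (e₁ ^ (2 * a - 1) * (s * X 0) + e₂ ^ (2 * a - 1) * (c * Z 0)) * (e₁ * e₂) := by ring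
      _ < 0 := h3
  have h4 : e₂ ^ (2 * a) * (s * X 0 * e₂) ≤ e₁ ^ (2 * a) * (s * X 0 * e₂) :=
    mul_le_mul_of_nonneg_right h1 (mul_pos hsX D.he₂).le
  have h5 : e₂ ^ (2 * a) * (s * X 0 * e₂ + c * Z 0 * e₁) < 0 := by
    rw [mul_add]
    linarith
  by_contra hcon
  have := mul_nonneg q2.le (not_lt.1 hcon)
  linarith

theorem E9a_h11 {m : Type} (E : Matrix (m ⊕ m) (m ⊕ m) ℂ) (h : E.IsHermitian) :
    E.toBlocks₁₁.IsHermitian := by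
  ext i j
  have := h.apply (Sum.inl i) (Sum.inl j)
  simpa [Matrix.toBlocks₁₁] using this

theorem E9a_h22 {m : Type} (E : Matrix (m ⊕ m) (m ⊕ m) ℂ) (h : E.IsHermitian) :
    E.toBlocks₂₂.IsHermitian := by
  ext i j
  have := h.apply (Sum.inr i) (Sum.inr j)
  simpa [Matrix.toBlocks₂₂] using this

theorem E9a_split (x : ℝ) : x = max x 0 - max (-x) 0 := by
  rcases le_total 0 x with h | h
  · rw [max_eq_left h, max_eq_right (by linarith)]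
    ring
  · rw [max_eq_right h, max_eq_left (by linarith)]
    ring

theorem E9a_prod (x : ℝ) : max x 0 * max (-x) 0 = 0 := by
  rcases le_total 0 x with h | h
  · rw [max_eq_right (by linarith : -x ≤ 0), mul_zero]
  · rw [max_eq_right h, zero_mul]

/-- **main inequality, bad case, in the gauge `E₁₂ ≥ 0`.**  `main_sum` with `G₁ 0 = tf g (A₀)`,
`G₂ 0 = tf f (C) - tf m (A₀)`, `G₁ 1 = tf b`, `G₂ 1 = tf d - tf 0`; `col_itg`, `bad_col` (with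
`II_col`, `E22_col`, `e = e₂₂ = s² e₁ + c² e₂ ≤ e₁`, `k = kd (c₀ - f) m 1 1`), `good_colW`
(`pd_plus`), `kn_split`, `kn_split'`, `kd_split`, `bsum_*`, `oper` with
`C = 2 a cst(2a)`, `κ = cst(2a) spr`, `α = cst(2a) (ker - spr) + ρ_fg`, `n = ρ_mg`. -/
theorem bad_gauge {m : Type} {n : Fin 2 → Type} [Fintype m] [DecidableEq m]
    [∀ k, Fintype (n k)] [∀ k, DecidableEq (n k)] {κ κ' : Fin 2 → Type} [∀ k, Fintype (κ k)]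
    [∀ k, DecidableEq (κ k)] [∀ k, Fintype (κ' k)] [∀ k, DecidableEq (κ' k)]
    {a e₁ e₂ c s : ℝ} {X Z : Fin 2 → ℝ} (D : BDat a e₁ e₂ c s X Z)
    (A B : ∀ k, Matrix m (n k) ℂ)
    (U : ∀ k, Matrix m (κ k) ℂ) (V : ∀ k, Matrix (n k) (κ k) ℂ) (θ : ∀ k, κ k → ℝ)
    (U' : ∀ k, Matrix m (κ' k) ℂ) (V' : ∀ k, Matrix (n k) (κ' k) ℂ) (θ' : ∀ k, κ' k → ℝ)
    (hA : ∀ k, BlkD a (c * X k - s * Z k) (A k) (U k) (V k) (θ k))
    (hB : ∀ k, BlkD a (s * X k + c * Z k) (B k) (U' k) (V' k) (θ' k))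
    (W : Matrix (m ⊕ m) (m ⊕ m) ℂ) (hW : W ∈ unitaryGroup (m ⊕ m) ℂ)
    (x μ : m ⊕ m → ℝ) (hμ : ∀ i, 0 ≤ μ i) (hT : LibSch.blk A B * (LibSch.blk A B)ᴴ = ud W x)
    (hH : (ud W μ).toBlocks₁₂.PosSemidef) :
    ∑ i, x i * μ i ^ (2 * a) ≤ (1 - 2 * a) * (e₁ ^ 2 + e₂ ^ 2) +
      a * (fr (ud W μ) + (e₁ ^ 2 + e₂ ^ 2)) := by
  have h0 := D.ha
  have h1 := D.ha'
  have he₂ := D.he₂
  have he₁ : 0 < e₁ := lt_trans D.he₂ D.he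
  have hc := D.hc
  have hs := D.hs
  have hC : 0 < cst (2 * a) := cst_pos (2 * a) (by linarith) h1
  -- signs
  have hgp₁ : 0 ≤ c * X 0 := (mul_pos hc D.hX0).le
  have hgp₂ : 0 ≤ -(s * Z 0) := by nlinarith [mul_pos hs (neg_pos.2 D.hZ0)]
  have hc0 : 0 ≤ s * X 0 + c * Z 0 := D.h21
  have hn : s * X 0 * e₂ + c * Z 0 * e₁ < 0 := E9a_bad D
  have h12 : 0 ≤ (c * X 1) * (c * Z 1) :=
    (mul_pos (mul_pos hc D.hX1) (mul_pos hc D.hZ1)).le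
  have h21 : -(s * Z 1) * (s * X 1) ≤ 0 := by
    nlinarith [mul_pos (mul_pos hs D.hZ1) (mul_pos hs D.hX1)]
  -- blocks
  have hE := ud_isHermitian W μ
  have h11H : (ud W μ).toBlocks₁₁.IsHermitian := E9a_h11 _ hE
  have h22H : (ud W μ).toBlocks₂₂.IsHermitian := E9a_h22 _ hE
  have h12H : (ud W μ).toBlocks₁₂.IsHermitian := hH.1
  have hfr := fr_toBlocks (ud W μ) hE
  -- functions
  have zg : Zc (ph e₁ e₂ (c * X 0) (-(s * Z 0))) := Zc.ph _ _ _ _ he₁ he₂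
  have zb : Zc (ph e₁ e₂ (c * X 1) (-(s * Z 1))) := Zc.ph _ _ _ _ he₁ he₂
  have zd : Zc (ph e₁ e₂ (s * X 1) (c * Z 1)) := Zc.ph _ _ _ _ he₁ he₂
  have zf : Zc (fp e₁ e₂ (s * X 0) (c * Z 0)) := Zc.fp _ _ he₁ he₂
  have zm : Zc (fm e₁ e₂ (s * X 0) (c * Z 0)) := Zc.fm _ _ he₁ he₂
  have ig : Ic (fun ν => (c * X 0 - s * Z 0) - ph e₁ e₂ (c * X 0) (-(s * Z 0)) ν) :=
    Ic.ph _ _ _ _ _ he₁ he₂ (by ring)
  have ib : Ic (fun ν => (c * X 1 - s * Z 1) - ph e₁ e₂ (c * X 1) (-(s * Z 1)) ν) :=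
    Ic.ph _ _ _ _ _ he₁ he₂ (by ring)
  have id' : Ic (fun ν => (s * X 1 + c * Z 1) - ph e₁ e₂ (s * X 1) (c * Z 1) ν) :=
    Ic.ph _ _ _ _ _ he₁ he₂ rfl
  have if' : Ic (fun ν => (s * X 0 + c * Z 0) - fp e₁ e₂ (s * X 0) (c * Z 0) ν) :=
    Ic.fp he₁ he₂ hc0
  have im : Ic (fm e₁ e₂ (s * X 0) (c * Z 0)) := Ic.fm he₁ he₂ hc0
  -- columns
  have i0 := col_itg h0 h1 zg zf zm ig if' im (hA 0) (hB 0) (ud W μ).toBlocks₁₁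
    (ud W μ).toBlocks₂₂ (ud W μ).toBlocks₁₂ h12H h22H
  have i1 := col_itg h0 h1 zb zd Zc.zero ib id' Ic.zero (hA 1) (hB 1) (ud W μ).toBlocks₁₁
    (ud W μ).toBlocks₂₂ (ud W μ).toBlocks₁₂ h12H h22H
  have hmain := main_sum h0 h1 A B
    (fun k r => tf a (![ph e₁ e₂ (c * X 0) (-(s * Z 0)), ph e₁ e₂ (c * X 1) (-(s * Z 1))] k)
      (U k) (V k) (θ k) r)
    (fun k r => tf a (![fp e₁ e₂ (s * X 0) (c * Z 0), ph e₁ e₂ (s * X 1) (c * Z 1)] k)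
      (U' k) (V' k) (θ' k) r -
      tf a (![fm e₁ e₂ (s * X 0) (c * Z 0), fun _ => 0] k) (U k) (V k) (θ k) r)
    (fun k => colW a (c * X k - s * Z k) (s * X k + c * Z k)
      (![ph e₁ e₂ (c * X 0) (-(s * Z 0)), ph e₁ e₂ (c * X 1) (-(s * Z 1))] k)
      (![fp e₁ e₂ (s * X 0) (c * Z 0), ph e₁ e₂ (s * X 1) (c * Z 1)] k)
      (![fm e₁ e₂ (s * X 0) (c * Z 0), fun _ => 0] k) (U k) (V k) (θ k) (U' k) (V' k) (θ' k)
      (ud W μ).toBlocks₁₁ (ud W μ).toBlocks₂₂ (ud W μ).toBlocks₁₂) W hW x μ hμ hT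
    (by
      intro k
      fin_cases k
      · exact i0
      · exact i1)
  rw [Fin.sum_univ_two] at hmain
  simp only [Matrix.cons_val_zero, Matrix.cons_val_one] at hmain
  -- bounds
  obtain ⟨hk, hE22⟩ := E22_col (a := a) (e := s ^ 2 * e₁ + c ^ 2 * e₂) h0 h1 he₂ he₁ hc0 hn
    (by positivity) (by
      have : s ^ 2 * e₁ + c ^ 2 * e₂ ≤ s ^ 2 * e₁ + c ^ 2 * e₁ := by
        have := mul_le_mul_of_nonneg_left D.he.le (sq_nonneg c)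
        linarith
      have h3 : s ^ 2 * e₁ + c ^ 2 * e₁ = e₁ := by
        have : s ^ 2 * e₁ + c ^ 2 * e₁ = (c ^ 2 + s ^ 2) * e₁ := by ring
        rw [this, D.hcs, one_mul]
      linarith)
  have b0 := bad_col (y := c * X 0 - s * Z 0) h0 h1 (by positivity) hk
    (II_col h0 h1 he₁ he₂ hgp₁ hgp₂ hc0 hn)
    (fun x y hx hy => (hE22 x y hx hy).1) (fun x y hx hy => (hE22 x y hx hy).2.1)
    (fun x y hx hy => (hE22 x y hx hy).2.2.1) (fun x y hx hy => (hE22 x y hx hy).2.2.2)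
    (hA 0).hU (hA 0).hV (hB 0).hU (hB 0).hV (hA 0).hθ (hB 0).hθ (hA 0).hsum (hB 0).hsum
    (ud W μ).toBlocks₁₁ (ud W μ).toBlocks₂₂ (ud W μ).toBlocks₁₂ h22H
  have b1 := good_colW h0 h1 he₂ D.he h12 h21 (pd_plus D) (U 1) (V 1) (θ 1) (U' 1) (V' 1) (θ' 1)
    (hA 1).hU (hA 1).hV (hB 1).hU (hB 1).hV (hA 1).hθ (hB 1).hθ (hA 1).hsum (hB 1).hsum
    (ud W μ).toBlocks₁₁ (ud W μ).toBlocks₂₂ (ud W μ).toBlocks₁₂ hH
  rw [show c * X 1 + -(s * Z 1) = c * X 1 - s * Z 1 by ring] at b1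
  -- splittings
  have hG : ∀ ν, 0 < ν → ph e₁ e₂ (s * X 0) (c * Z 0) ν =
      fp e₁ e₂ (s * X 0) (c * Z 0) ν - fm e₁ e₂ (s * X 0) (c * Z 0) ν := by
    intro ν _
    exact E9a_split _
  have hfm : ∀ ν, 0 < ν → fp e₁ e₂ (s * X 0) (c * Z 0) ν * fm e₁ e₂ (s * X 0) (c * Z 0) ν = 0 := by
    intro ν _
    exact E9a_prod _
  have s1 := kn_split h0 h1 zf zm hG hfm
  have s2 := kn_split' h0 h1 zg zf zm hG
  have s3 := kd_split h0 h1 if' im hG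
  rw [kn_ph _ _ _ _ h0 h1 he₁ he₂ one_pos one_pos] at s1 s2
  rw [kd_ph _ _ _ h0 h1 he₁ he₂ rfl] at s3
  have s4 : kn a (ph e₁ e₂ (c * X 0) (-(s * Z 0))) (ph e₁ e₂ (c * X 0) (-(s * Z 0))) 1 1 =
      cst (2 * a) * ker a e₁ e₂ (c * X 0) (-(s * Z 0)) (c * X 0) (-(s * Z 0)) 1 1 :=
    kn_ph _ _ _ _ h0 h1 he₁ he₂ one_pos one_pos
  have s5 : kd a (fun ν => (c * X 0 - s * Z 0) - ph e₁ e₂ (c * X 0) (-(s * Z 0)) ν)
      (fun ν => (c * X 0 - s * Z 0) - ph e₁ e₂ (c * X 0) (-(s * Z 0)) ν) 1 1 =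
      cst (2 * a) * res a e₁ e₂ (c * X 0) (-(s * Z 0)) :=
    kd_ph _ _ _ h0 h1 he₁ he₂ (by ring)
  have t0 := bsum_res D
  have t1 := bsum_11 D
  have t2 := bsum_22 D
  have t3 := bsum_12 D
  have hfpos : 0 ≤ kn a (fp e₁ e₂ (s * X 0) (c * Z 0)) (fp e₁ e₂ (s * X 0) (c * Z 0)) 1 1 :=
    kn_self_nonneg _ _
  have hgf : 0 ≤ kn a (ph e₁ e₂ (c * X 0) (-(s * Z 0))) (fp e₁ e₂ (s * X 0) (c * Z 0)) 1 1 := by
    obtain ⟨M, P, hM, hP, hMP, -⟩ := II_col (a := a) h0 h1 he₁ he₂ hgp₁ hgp₂ hc0 hn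
    rw [← hMP]
    linarith
  have hks := ker_sub_spr_nonneg h0 h1 he₂ D.he h12 h21
  have hα : 0 ≤ cst (2 * a) * (ker a e₁ e₂ (c * X 1) (-(s * Z 1)) (s * X 1) (c * Z 1) 1 1 -
      spr a e₁ e₂ (c * X 1) (-(s * Z 1)) (s * X 1) (c * Z 1)) +
      kn a (ph e₁ e₂ (c * X 0) (-(s * Z 0))) (fp e₁ e₂ (s * X 0) (c * Z 0)) 1 1 :=
    add_nonneg (mul_nonneg hC.le hks) hgf
  have e12pos : 0 < c * s * (e₁ - e₂) := mul_pos (mul_pos hc hs) (by linarith [D.he])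
  have o := oper (C := 2 * a * cst (2 * a)) (e₁₁ := c ^ 2 * e₁ + s ^ 2 * e₂)
    (e₂₂ := s ^ 2 * e₁ + c ^ 2 * e₂) (e₁₂ := c * s * (e₁ - e₂)) (by positivity) (by positivity)
    e12pos hfpos hα (iv_main D)
    (by
      rw [s4, ← mul_add, t1]
      ring)
    (by
      rw [s1, ← mul_add, t2]
      ring)
    (by
      have e : cst (2 * a) * spr a e₁ e₂ (c * X 1) (-(s * Z 1)) (s * X 1) (c * Z 1) +
          (cst (2 * a) * (ker a e₁ e₂ (c * X 1) (-(s * Z 1)) (s * X 1) (c * Z 1) 1 1 -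
            spr a e₁ e₂ (c * X 1) (-(s * Z 1)) (s * X 1) (c * Z 1)) +
            kn a (ph e₁ e₂ (c * X 0) (-(s * Z 0))) (fp e₁ e₂ (s * X 0) (c * Z 0)) 1 1) -
          kn a (ph e₁ e₂ (c * X 0) (-(s * Z 0))) (fm e₁ e₂ (s * X 0) (c * Z 0)) 1 1 =
          cst (2 * a) * (ker a e₁ e₂ (c * X 0) (-(s * Z 0)) (s * X 0) (c * Z 0) 1 1 +
            ker a e₁ e₂ (c * X 1) (-(s * Z 1)) (s * X 1) (c * Z 1) 1 1) := by
        linear_combination s2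
      rw [e, t3]
      ring)
    (U 0) (θ 0) (U 1) (θ 1) (U' 1) (θ' 1) (hA 0).hU (hA 1).hU (hB 1).hU (hA 0).hsum (hA 1).hsum
    (hB 1).hsum (ud W μ).toBlocks₁₁ (ud W μ).toBlocks₂₂ (ud W μ).toBlocks₁₂ h11H h22H h12H
  -- conclusion
  have ee : (c ^ 2 * e₁ + s ^ 2 * e₂) ^ 2 + (s ^ 2 * e₁ + c ^ 2 * e₂) ^ 2 +
      2 * (c * s * (e₁ - e₂)) ^ 2 = e₁ ^ 2 + e₂ ^ 2 := by
    have : (c ^ 2 * e₁ + s ^ 2 * e₂) ^ 2 + (s ^ 2 * e₁ + c ^ 2 * e₂) ^ 2 +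
      2 * (c * s * (e₁ - e₂)) ^ 2 = (e₁ ^ 2 + e₂ ^ 2) * (c ^ 2 + s ^ 2) ^ 2 := by ring
    rw [this, D.hcs]
    ring
  rw [ee] at o
  refine le_of_mul_le_mul_left ?_ hC
  refine hmain.trans ?_
  refine (add_le_add b0 b1).trans ?_
  rw [s5, hfr]
  refine le_trans (le_of_eq ?_) ((add_le_add_right o
    (cst (2 * a) * ((1 - 2 * a) * (e₁ ^ 2 + e₂ ^ 2)))).trans (le_of_eq ?_))
  · linear_combination s3 + cst (2 * a) * t0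
  · ring

end Pool.Agent.LibSchE
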