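import Pool.Agent.LibSchE.E6
import Pool.Agent.LibSchE.E9a
import Pool.Agent.LibSchA.B2
import Pool.Agent.LibSchA.B3a

/-! **E9b.**  From the gauge to the claim; existence of the scalar data. -/

open MeasureTheory Set Matrix
open scoped ComplexOrder

namespace Pool.Agent.LibSchE

open Pool.Agent.LibSchP Pool.Agent.LibSchA

/-- auxiliary: the scalar inequality `s Z₁ ≤ c X₁` -/
theorem e9b_scal {c s X0 X1 u Z1 p r P Q e₁ e₂ : ℝ} (hs : 0 < s)
    (hX0 : 0 < X0) (hX1 : 0 < X1) (hu : 0 < u) (hp : 0 < p) (hr : 0 < r)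
    (hQ : 0 < Q) (h1 : p * P = e₁) (h2 : r * Q = e₂) (hlt : e₂ < e₁)
    (hbad : P * (s * X0) < Q * (c * u)) (hX : X0 ^ 2 + X1 ^ 2 = p) (hZ : u ^ 2 + Z1 ^ 2 = r)
    (hXZ : X1 * Z1 = X0 * u) : s * Z1 ≤ c * X1 := by
  have a1 : p * u ^ 2 = r * X1 ^ 2 := by
    rw [← hX, ← hZ]
    linear_combination (-(X0 * u + X1 * Z1)) * hXZ
  have a2 : p * u * Z1 = r * (X0 * X1) := by
    have : X1 * (p * u * Z1) = X1 * (r * (X0 * X1)) := by
      linear_combination p * u * hXZ + X0 * a1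
    exact mul_left_cancel₀ hX1.ne' this
  have a3 : r * (s * X0) < p * (c * u) := by
    have b1 : p * r * (P * (s * X0)) < p * r * (Q * (c * u)) :=
      mul_lt_mul_of_pos_left hbad (mul_pos hp hr)
    have b2 : e₂ * (r * (s * X0)) < e₁ * (r * (s * X0)) :=
      mul_lt_mul_of_pos_right hlt (mul_pos hr (mul_pos hs hX0))
    have b3 : e₂ * (r * (s * X0)) < e₂ * (p * (c * u)) := by
      calc e₂ * (r * (s * X0)) < e₁ * (r * (s * X0)) := b2
        _ = p * r * (P * (s * X0)) := by rw [← h1]; ring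
        _ < p * r * (Q * (c * u)) := b1
        _ = e₂ * (p * (c * u)) := by rw [← h2]; ring
    have he2 : 0 < e₂ := by rw [← h2]; exact mul_pos hr hQ
    exact lt_of_mul_lt_mul_left b3 he2.le
  have a4 : 0 < (p * u) * (c * X1 - s * Z1) := by
    have : (p * u) * (c * X1 - s * Z1) = X1 * (p * (c * u) - r * (s * X0)) := by
      linear_combination (-s) * a2
    rw [this]
    exact mul_pos hX1 (by linarith)
  have a5 : 0 < c * X1 - s * Z1 := (mul_pos_iff_of_pos_left (mul_pos hp hu)).1 a4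
  linarith

/-- auxiliary: the four entries are nonnegative -/
theorem e9b_nonneg {a e₁ e₂ c s : ℝ} {X Z : Fin 2 → ℝ} (D : BDat a e₁ e₂ c s X Z) (k : Fin 2) :
    0 ≤ c * X k - s * Z k ∧ 0 ≤ s * X k + c * Z k := by
  have he1 : 0 < e₁ := D.he₂.trans D.he
  have he2 := D.he₂
  have h1 : e₁ ^ (2 - 2 * a) * e₁ ^ (2 * a - 1) = e₁ := by
    rw [← Real.rpow_add he1]
    have : 2 - 2 * a + (2 * a - 1) = 1 := by ring
    rw [this, Real.rpow_one]
  have h2 : e₂ ^ (2 - 2 * a) * e₂ ^ (2 * a - 1) = e₂ := by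
    rw [← Real.rpow_add he2]
    have : 2 - 2 * a + (2 * a - 1) = 1 := by ring
    rw [this, Real.rpow_one]
  have h3 := e9b_scal (c := c) (u := -Z 0) (Z1 := Z 1) D.hs D.hX0 D.hX1 (neg_pos.2 D.hZ0)
    (Real.rpow_pos_of_pos he1 _) (Real.rpow_pos_of_pos he2 _) (Real.rpow_pos_of_pos he2 _)
    h1 h2 D.he (by linarith [D.bad]) D.hX (by rw [neg_sq]; exact D.hZ) (by linarith [D.hXZ])
  have h4 := mul_pos D.hc D.hX0
  have h5 := mul_pos D.hs (neg_pos.2 D.hZ0)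
  have h6 := mul_pos D.hs D.hX1
  have h7 := mul_pos D.hc D.hZ1
  fin_cases k
  · exact ⟨by show 0 ≤ c * X 0 - s * Z 0; linarith, D.h21⟩
  · exact ⟨by show 0 ≤ c * X 1 - s * Z 1; linarith, by show 0 ≤ s * X 1 + c * Z 1; linarith⟩

/-- `gauge`, `pw_gauge`, `blkD_exists`, `bad_gauge` with `μ = x^(q/4)`; end as in
`LibSchA.main_q`: `τ = pw q T`, `τ ≤ (1-2a) ε² + a (τ + ε²)`. -/
theorem bad_claim {m : Type} {n : Fin 2 → Type} [Fintype m] [DecidableEq m]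
    [∀ k, Fintype (n k)] [∀ k, DecidableEq (n k)]
    {a q e₁ e₂ c s : ℝ} {X Z : Fin 2 → ℝ} (D : BDat a e₁ e₂ c s X Z) (hq : q = 2 / (1 - a))
    (A B : ∀ k, Matrix m (n k) ℂ)
    (hA : ∀ k, LibSch.pw q (A k) ≤ (c * X k - s * Z k) ^ q)
    (hB : ∀ k, LibSch.pw q (B k) ≤ (s * X k + c * Z k) ^ q) :
    LibSch.pw q (LibSch.blk A B) ≤ e₁ ^ 2 + e₂ ^ 2 := by
  have ha1 : a < 1 := by linarith [D.ha, D.ha']
  have ha2 : 0 < 1 - a := by linarith
  have hq0 : 0 < q := by rw [hq]; positivity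
  set T := LibSch.blk A B with hTdef
  obtain ⟨W, hW, x, hx, hT⟩ := ud_exists_nonneg (T * Tᴴ) (posSemidef_self_mul_conjTranspose T)
  have hpw : LibSch.pw q T = ∑ i, x i ^ (q / 2) := by
    rw [← LibSch.pw_conjTranspose q hq0 T]
    exact pw_ud q Tᴴ W hW x (by rw [conjTranspose_conjTranspose]; exact hT)
  have hμ : ∀ i, 0 ≤ x i ^ (q / 4) := fun i => Real.rpow_nonneg (hx i) _
  obtain ⟨Y, hY, W', hW', hT', hH⟩ := gauge A B W hW x (fun i => x i ^ (q / 4)) hT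
  choose κ iF iD U V θ hA' using fun k => blkD_exists a q (c * X k - s * Z k) ha1 hq
    (e9b_nonneg D k).1 (A k) (hA k)
  choose κ' iF' iD' U' V' θ' hB' using fun k => blkD_exists a q (s * X k + c * Z k) ha1 hq
    (e9b_nonneg D k).2 (Yᴴ * B k) (by rw [pw_gauge q Y hY (B k)]; exact hB k)
  have h := bad_gauge D A (fun k => Yᴴ * B k) U V θ U' V' θ' hA' hB' W' hW' x
    (fun i => x i ^ (q / 4)) hμ hT' hH
  have e1 : ∑ i, x i * (x i ^ (q / 4)) ^ (2 * a) = LibSch.pw q T := by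
    rw [hpw]
    refine Finset.sum_congr rfl fun i _ => ?_
    rcases (hx i).eq_or_lt with h0 | h0
    · rw [← h0, zero_mul, Real.zero_rpow (by positivity)]
    · rw [← Real.rpow_mul (hx i)]
      nth_rewrite 1 [← Real.rpow_one (x i)]
      rw [← Real.rpow_add h0]
      congr 1
      rw [hq]
      field_simp
      ring
  have e2 : fr (ud W' fun i => x i ^ (q / 4)) = LibSch.pw q T := by
    rw [fr_ud W' hW', hpw]
    refine Finset.sum_congr rfl fun i _ => ?_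
    rw [← Real.rpow_natCast, ← Real.rpow_mul (hx i)]
    congr 1
    push_cast
    ring
  rw [e1, e2] at h
  have h3 : (1 - a) * LibSch.pw q T ≤ (1 - a) * (e₁ ^ 2 + e₂ ^ 2) := by linarith
  exact le_of_mul_le_mul_left h3 ha2

/-- `e₁ = x^(q/4)`, `e₂ = z^(q/4)`.  `z = 0`: `0^((q-4)/4) = 0`, contradiction; `Z₀ < 0 < c`,
`s X₀ ≥ -c Z₀ > 0`, `X₁ Z₁ = -X₀ Z₀ > 0`, `X₁ ≥ 0`; `x = z` contradicts `y₂ 0 ≥ 0`;
`b3a_pow1`, `b3a_pow2`, `b3a_pow3` (`LibSchA.B3a`). -/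
theorem bdat_exists {c s x z : ℝ} {y₁ y₂ X Z : Fin 2 → ℝ} (D : RDat c s x z y₁ y₂ X Z)
    (q : ℝ) (h2 : 2 < q) (h4 : q < 4)
    (hbad : x ^ ((q - 4) / 4) * (s * X 0) + z ^ ((q - 4) / 4) * (c * Z 0) < 0)
    (had : y₁ 0 ≤ y₂ 1) :
    BDat (1 - 2 / q) (x ^ (q / 4)) (z ^ (q / 4)) c s X Z ∧
      (x ^ (q / 4)) ^ 2 + (z ^ (q / 4)) ^ 2 = x ^ (q / 2) + z ^ (q / 2) := by
  have hq0 : 0 < q := by linarith
  have ha : 0 < 1 - 2 / q := by
    rw [sub_pos, div_lt_one hq0]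
    exact h2
  have ha' : 2 * (1 - 2 / q) < 1 := by
    have : 1 / 2 < 2 / q := by
      rw [div_lt_div_iff₀ two_pos hq0]
      linarith
    linarith
  have hz0 : 0 ≤ z := by
    rw [← D.hZ]
    exact Finset.sum_nonneg fun i _ => sq_nonneg _
  have hx0 : 0 ≤ x := hz0.trans D.hz
  have H₁ : ∀ k, 0 ≤ c * X k - s * Z k := fun k => by
    rw [← D.hy₁ k]
    exact D.h₁ k
  have H₂ : ∀ k, 0 ≤ s * X k + c * Z k := fun k => by
    rw [← D.hy₂ k]
    exact D.h₂ k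
  have hXs : X 0 ^ 2 + X 1 ^ 2 = x := by rw [← D.hX, Fin.sum_univ_two]
  have hZs : Z 0 ^ 2 + Z 1 ^ 2 = z := by rw [← D.hZ, Fin.sum_univ_two]
  have hXZ : X 0 * Z 0 + X 1 * Z 1 = 0 := by rw [← D.hXZ, Fin.sum_univ_two]
  have hH := H₂ 0
  -- `z > 0`
  have hz : 0 < z := by
    rcases hz0.eq_or_lt with hz | hz
    · exfalso
      have hZ0 : ∀ k, Z k = 0 := b3a_zero (by rw [D.hZ, hz])
      rw [hZ0 0] at hbad hH
      have : 0 ≤ x ^ ((q - 4) / 4) := Real.rpow_nonneg hx0 _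
      have h5 : 0 ≤ x ^ ((q - 4) / 4) * (s * X 0) := mul_nonneg this (by linarith)
      linarith
    · exact hz
  have hx : 0 < x := hz.trans_le D.hz
  have hP : 0 < x ^ ((q - 4) / 4) := Real.rpow_pos_of_pos hx _
  have hQ : 0 < z ^ ((q - 4) / 4) := Real.rpow_pos_of_pos hz _
  have hPQ : x ^ ((q - 4) / 4) ≤ z ^ ((q - 4) / 4) :=
    Real.rpow_le_rpow_of_nonpos hz D.hz (by linarith)
  -- `c Z₀ < 0`
  have hcZ : c * Z 0 < 0 := by
    by_contra hcon
    have hcon' : 0 ≤ c * Z 0 := not_lt.1 hcon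
    have h5 : x ^ ((q - 4) / 4) * (c * Z 0) ≤ z ^ ((q - 4) / 4) * (c * Z 0) :=
      mul_le_mul_of_nonneg_right hPQ hcon'
    have h6 : 0 ≤ x ^ ((q - 4) / 4) * (s * X 0 + c * Z 0) := mul_nonneg hP.le hH
    linarith
  have hc : 0 < c := by
    rcases D.hc.eq_or_lt with h | h
    · rw [← h, zero_mul] at hcZ
      exact absurd hcZ (lt_irrefl _)
    · exact h
  have hZ0 : Z 0 < 0 := by
    by_contra hcon
    have := mul_nonneg hc.le (not_lt.1 hcon)
    linarith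
  have hsX : 0 < s * X 0 := by linarith
  have hs : 0 < s := by
    rcases D.hs.eq_or_lt with h | h
    · rw [← h, zero_mul] at hsX
      exact absurd hsX (lt_irrefl _)
    · exact h
  have hX0 : 0 < X 0 := by
    by_contra hcon
    have := mul_nonneg hs.le (neg_nonneg.2 (not_lt.1 hcon))
    linarith
  have hXZ1 : 0 < X 1 * Z 1 := by
    have := mul_pos hX0 (neg_pos.2 hZ0)
    linarith
  have hH1 := H₂ 1
  have hX1 : 0 < X 1 := by
    by_contra hcon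
    have hcon' : X 1 ≤ 0 := not_lt.1 hcon
    have hZ1 : Z 1 < 0 := by
      by_contra h7
      have := mul_nonneg (neg_nonneg.2 hcon') (not_lt.1 h7)
      linarith
    have h8 := mul_nonneg hs.le (neg_nonneg.2 hcon')
    have h9 := mul_pos hc (neg_pos.2 hZ1)
    linarith
  have hZ1 : 0 < Z 1 := by
    by_contra h7
    have := mul_nonneg hX1.le (neg_nonneg.2 (not_lt.1 h7))
    linarith
  have hzx : z < x := by
    rcases D.hz.eq_or_lt with h | h
    · exfalso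
      rw [h] at hbad
      have h6 : 0 ≤ x ^ ((q - 4) / 4) * (s * X 0 + c * Z 0) := mul_nonneg hP.le hH
      linarith
    · exact h
  refine ⟨⟨ha, ha', Real.rpow_pos_of_pos hz _, ?_, hc, hs, D.hcs, ?_, ?_, hXZ, hX0, hX1, hZ0, hZ1,
    hH, ?_, ?_⟩, ?_⟩
  · exact Real.rpow_lt_rpow hz.le hzx (by positivity)
  · rw [b3a_pow1 hx h2, hXs]
  · rw [b3a_pow1 hz h2, hZs]
  · rw [b3a_pow2 hx h2, b3a_pow2 hz h2]
    exact hbad
  · rw [← D.hy₁ 0, ← D.hy₂ 1]
    exact had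
  · rw [b3a_pow3 hx, b3a_pow3 hz]

end Pool.Agent.LibSchE
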