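import Pool.Agent.LibSchE.E9b
import Pool.Agent.LibSchQ.F7
import Pool.Agent.LibSchA.C1

/-! **E9c.**  The claim for four norms. -/

open MeasureTheory Set Matrix
open scoped ComplexOrder

namespace Pool.Agent.LibSchE

open Pool.Agent.LibSchP Pool.Agent.LibSchA

/-- the claim for the norms `a, b, c, d` -/
def Cl (q a b c d : ℝ) : Prop :=
  ∀ (n : Type) [Fintype n] [DecidableEq n] (A B C D : Matrix n n ℂ),
    LibSch.pw q A ≤ a ^ q → LibSch.pw q B ≤ b ^ q →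
    LibSch.pw q C ≤ c ^ q → LibSch.pw q D ≤ d ^ q →
    LibSch.pw q (fromBlocks A B C D) ≤ LibSch.pw q (LibSchQ.m2 a b c d)

/-- `LibSchQ.pw_swap_col`, `LibSchQ.pw_m2_swap_col` -/
theorem Cl.swap_col {q a b c d : ℝ} (h : Cl q b a d c) : Cl q a b c d := by
  intro n _ _ A B C D hA hB hC hD
  have h1 := h n B A D C hB hA hD hC
  rwa [LibSchQ.pw_swap_col, LibSchQ.pw_m2_swap_col] at h1

theorem Cl.swap_row {q a b c d : ℝ} (h : Cl q c d a b) : Cl q a b c d := by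
  intro n _ _ A B C D hA hB hC hD
  have h1 := h n C D A B hC hD hA hB
  rwa [LibSchQ.pw_swap_row, LibSchQ.pw_m2_swap_row] at h1

/-- `LibSch.pw_conjTranspose` -/
theorem Cl.transpose {q a b c d : ℝ} (hq : 0 < q) (h : Cl q a c b d) : Cl q a b c d := by
  intro n _ _ A B C D hA hB hC hD
  have h1 := h n Aᴴ Cᴴ Bᴴ Dᴴ (by rwa [LibSch.pw_conjTranspose q hq])
    (by rwa [LibSch.pw_conjTranspose q hq]) (by rwa [LibSch.pw_conjTranspose q hq])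
    (by rwa [LibSch.pw_conjTranspose q hq])
  have e1 : fromBlocks Aᴴ Cᴴ Bᴴ Dᴴ = (fromBlocks A B C D)ᴴ := by
    rw [fromBlocks_conjTranspose]
  have e2 : LibSchQ.m2 a c b d = (LibSchQ.m2 a b c d)ᴴ := by
    ext i j
    fin_cases i <;> fin_cases j <;> simp [LibSchQ.m2]
  rwa [e1, e2, LibSch.pw_conjTranspose q hq, LibSch.pw_conjTranspose q hq] at h1

/-- `blk` of `Fin 2`-families is `fromBlocks` (`LibSchQ.pw_blk_two`); `mat y₁ y₂ = m2 ...`,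
`LibSchA.mat_pw`. -/
theorem cl_of_blk {q : ℝ} (hq : 0 < q) {y₁ y₂ X Z : Fin 2 → ℝ} {c s x z : ℝ}
    (D : RDat c s x z y₁ y₂ X Z)
    (h : ∀ (n : Type) [Fintype n] [DecidableEq n] (A B : Fin 2 → Matrix n n ℂ),
      (∀ k, LibSch.pw q (A k) ≤ y₁ k ^ q) → (∀ k, LibSch.pw q (B k) ≤ y₂ k ^ q) →
      LibSch.pw q (LibSch.blk (n := fun _ => n) A B) ≤ x ^ (q / 2) + z ^ (q / 2)) :
    Cl q (y₁ 0) (y₁ 1) (y₂ 0) (y₂ 1) := by
  intro n _ _ A B C D' hA hB hC hD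
  have h1 := h n ![A, B] ![C, D']
    (fun k => by fin_cases k <;> simpa using (by assumption))
    (fun k => by fin_cases k <;> simpa using (by assumption))
  rw [LibSchQ.pw_blk_two] at h1
  have e : mat y₁ y₂ = LibSchQ.m2 (y₁ 0) (y₁ 1) (y₂ 0) (y₂ 1) := by
    ext i j
    fin_cases i <;> fin_cases j <;> simp [LibSchQ.m2, mat]
  rw [← mat_pw D q hq, e] at h1
  simpa using h1

/-- no bad entry: `LibSchA.data_q`, `LibSchA.main_q` (as in `LibSchA.final_q`), `cl_of_blk` -/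
theorem cl_good {q : ℝ} (h2 : 2 < q) (h4 : q < 4) {y₁ y₂ X Z : Fin 2 → ℝ} {c s x z : ℝ}
    (D : RDat c s x z y₁ y₂ X Z)
    (g₁ : ∀ k, 0 ≤ x ^ ((q - 4) / 4) * (c * X k) - z ^ ((q - 4) / 4) * (s * Z k))
    (g₂ : ∀ k, 0 ≤ x ^ ((q - 4) / 4) * (s * X k) + z ^ ((q - 4) / 4) * (c * Z k)) :
    Cl q (y₁ 0) (y₁ 1) (y₂ 0) (y₂ 1) := by
  have hq0 : 0 < q := by linarith
  obtain ⟨e₁, e₂, d₁, d₂, S, hΦ⟩ := data_q D q h2 h4 g₁ g₂
  refine cl_of_blk hq0 D fun n _ _ A B hA hB => ?_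
  have key := main_q S (q := q) (by field_simp; ring) A B
    (fun k => by rw [← D.hy₁ k]; exact hA k) (fun k => by rw [← D.hy₂ k]; exact hB k)
  rwa [hΦ] at key

/-- `bdat_exists`, `bad_claim`, `cl_of_blk` -/
theorem cl_bad {q : ℝ} (h2 : 2 < q) (h4 : q < 4) {y₁ y₂ X Z : Fin 2 → ℝ} {c s x z : ℝ}
    (D : RDat c s x z y₁ y₂ X Z)
    (hbad : x ^ ((q - 4) / 4) * (s * X 0) + z ^ ((q - 4) / 4) * (c * Z 0) < 0)
    (had : y₁ 0 ≤ y₂ 1) :
    Cl q (y₁ 0) (y₁ 1) (y₂ 0) (y₂ 1) := by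
  have hq0 : 0 < q := by linarith
  obtain ⟨S, hΦ⟩ := bdat_exists D q h2 h4 hbad had
  refine cl_of_blk hq0 D fun n _ _ A B hA hB => ?_
  have key := bad_claim S (q := q) (by field_simp; ring) A B
    (fun k => by rw [← D.hy₁ k]; exact hA k) (fun k => by rw [← D.hy₂ k]; exact hB k)
  rwa [hΦ] at key

end Pool.Agent.LibSchE
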