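import Pool.Agent.LibSchE.E9c
import Pool.Agent.LibSchQ.F4

/-! **E9d.**  All signs; final theorems. -/

open MeasureTheory Set Matrix
open scoped ComplexOrder

namespace Pool.Agent.LibSchE

open Pool.Agent.LibSchP Pool.Agent.LibSchA

/-- auxiliary: sums and products of the data -/
theorem e9d_sum {c s x z : ℝ} {y₁ y₂ X Z : Fin 2 → ℝ} (D : RDat c s x z y₁ y₂ X Z) :
    x + z = y₁ 0 ^ 2 + y₁ 1 ^ 2 + y₂ 0 ^ 2 + y₂ 1 ^ 2 ∧
      X 0 * Z 1 - X 1 * Z 0 = y₁ 0 * y₂ 1 - y₁ 1 * y₂ 0 ∧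
      x * z = (X 0 * Z 1 - X 1 * Z 0) ^ 2 := by
  have hX := D.hX
  have hZ := D.hZ
  have hXZ := D.hXZ
  have h := D.hcs
  rw [Fin.sum_univ_two] at hX hZ hXZ
  refine ⟨?_, ?_, ?_⟩
  · rw [D.hy₁ 0, D.hy₁ 1, D.hy₂ 0, D.hy₂ 1, ← hX, ← hZ]
    linear_combination (-(X 0 ^ 2 + X 1 ^ 2 + Z 0 ^ 2 + Z 1 ^ 2)) * h
  · rw [D.hy₁ 0, D.hy₁ 1, D.hy₂ 0, D.hy₂ 1]
    linear_combination (-(X 0 * Z 1 - X 1 * Z 0)) * h
  · rw [← hX, ← hZ]
    linear_combination (X 0 * Z 0 + X 1 * Z 1) * hXZ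

/-- `x + z = ∑ y²`, `x z = det²`, `z ≤ x` determine `x`, `z`. -/
theorem rdat_xz {c s x z c' s' x' z' : ℝ} {y₁ y₂ X Z y₁' y₂' X' Z' : Fin 2 → ℝ}
    (D : RDat c s x z y₁ y₂ X Z) (D' : RDat c' s' x' z' y₁' y₂' X' Z')
    (h : y₁ 0 ^ 2 + y₁ 1 ^ 2 + y₂ 0 ^ 2 + y₂ 1 ^ 2 =
      y₁' 0 ^ 2 + y₁' 1 ^ 2 + y₂' 0 ^ 2 + y₂' 1 ^ 2)
    (h' : y₁ 0 * y₂ 1 - y₁ 1 * y₂ 0 = y₁' 0 * y₂' 1 - y₁' 1 * y₂' 0) : x' = x ∧ z' = z := by
  obtain ⟨a1, a2, a3⟩ := e9d_sum D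
  obtain ⟨b1, b2, b3⟩ := e9d_sum D'
  have hs : x' + z' = x + z := by rw [a1, b1, h]
  have hp : x' * z' = x * z := by rw [a3, b3, a2, b2, h']
  have hz := D.hz
  have hz' := D'.hz
  have hd : (x' - z') ^ 2 = (x - z) ^ 2 := by
    linear_combination (x' + z' + (x + z)) * hs - 4 * hp
  have h1 : x' - z' = x - z := by
    have := sq_eq_sq₀ (by linarith : (0 : ℝ) ≤ x' - z') (by linarith : (0 : ℝ) ≤ x - z)
    exact this.1 hd
  constructor <;> linarith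

/-- auxiliary -/
theorem e9d_zero {u v t : ℝ} (h : u ^ 2 + v ^ 2 = t) (ht : t = 0) : u = 0 ∧ v = 0 := by
  have h1 := sq_nonneg u
  have h2 := sq_nonneg v
  exact ⟨(pow_eq_zero_iff two_ne_zero).1 (by linarith),
    (pow_eq_zero_iff two_ne_zero).1 (by linarith)⟩

/-- auxiliary: `t^σ √t = √t^(q/2-1)` -/
theorem e9d_pow {q t : ℝ} (h2 : 2 < q) (ht : 0 ≤ t) :
    t ^ ((q - 4) / 4) * √t = √t ^ (q / 2 - 1) := by
  rcases ht.eq_or_lt with h | h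
  · rw [← h, Real.sqrt_zero, mul_zero, Real.zero_rpow (by linarith)]
  · rw [Real.sqrt_eq_rpow, ← Real.rpow_mul ht, ← Real.rpow_add h]
    congr 1
    ring

/-- `f`, `g` from `LibSchQ.f4_fg` with `p = q/2`, `s₁ = √x`, `s₂ = √z`.  `det Y = X₀Z₁ - X₁Z₀ =
√(xz)`, so `√x (Z₁, -Z₀) = √z (X₀, X₁)` and `√z (-X₁, X₀) = √x (Z₀, Z₁)`: `(f + g √z/√x) = x^σ`,
`(f + g √x/√z) = z^σ`, `σ = (q-4)/4`, and `cof Y = R cof (X; Z)`.  (`z = 0`: `Z = 0`, `g = 0`.) -/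
theorem w_formula {q x z : ℝ} (h2 : 2 < q) (h4 : q < 4) (hz : 0 ≤ z) (hzx : z ≤ x) :
    ∃ f g : ℝ, 0 ≤ g ∧ g ≤ f ∧ ∀ (c s : ℝ) (y₁ y₂ X Z : Fin 2 → ℝ),
      RDat c s x z y₁ y₂ X Z → y₁ 1 * y₂ 0 ≤ y₁ 0 * y₂ 1 →
      x ^ ((q - 4) / 4) * (c * X 0) - z ^ ((q - 4) / 4) * (s * Z 0) = f * y₁ 0 + g * y₂ 1 ∧
      x ^ ((q - 4) / 4) * (c * X 1) - z ^ ((q - 4) / 4) * (s * Z 1) = f * y₁ 1 - g * y₂ 0 ∧
      x ^ ((q - 4) / 4) * (s * X 0) + z ^ ((q - 4) / 4) * (c * Z 0) = f * y₂ 0 - g * y₁ 1 ∧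
      x ^ ((q - 4) / 4) * (s * X 1) + z ^ ((q - 4) / 4) * (c * Z 1) = f * y₂ 1 + g * y₁ 0 := by
  have hx : 0 ≤ x := hz.trans hzx
  have hs₁ : 0 ≤ √x := Real.sqrt_nonneg x
  have hs₂ : 0 ≤ √z := Real.sqrt_nonneg z
  have q₁ : √x ^ 2 = x := Real.sq_sqrt hx
  have q₂ : √z ^ 2 = z := Real.sq_sqrt hz
  obtain ⟨f, g, hg, hgf, F1, F2, -⟩ := LibSchQ.f4_fg (q / 2) (√x) (√z) (by linarith)
    (by linarith) hs₂ (Real.sqrt_le_sqrt hzx)
  refine ⟨f, g, hg, hgf, fun c s y₁ y₂ X Z D hdet => ?_⟩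
  have P₁ := e9d_pow (q := q) h2 hx
  have P₂ := e9d_pow (q := q) h2 hz
  rw [← F1] at P₁
  rw [← F2] at P₂
  obtain ⟨a1, a2, a3⟩ := e9d_sum D
  have hX := D.hX
  have hZ := D.hZ
  have hXZ := D.hXZ
  rw [Fin.sum_univ_two] at hX hZ hXZ
  have hΔ : X 0 * Z 1 - X 1 * Z 0 = √x * √z := by
    have h1 : 0 ≤ X 0 * Z 1 - X 1 * Z 0 := by rw [a2]; linarith
    have h3 : (X 0 * Z 1 - X 1 * Z 0) ^ 2 = (√x * √z) ^ 2 := by
      rw [← a3, mul_pow, q₁, q₂]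
    exact (sq_eq_sq₀ h1 (mul_nonneg hs₁ hs₂)).1 h3
  have hsq : (√x * Z 1 - √z * X 0) ^ 2 + (√x * Z 0 + √z * X 1) ^ 2 = 0 := by
    have h5 : (√x * Z 1 - √z * X 0) ^ 2 + (√x * Z 0 + √z * X 1) ^ 2 =
        √x ^ 2 * (Z 0 ^ 2 + Z 1 ^ 2) + √z ^ 2 * (X 0 ^ 2 + X 1 ^ 2) -
          2 * (√x * √z) * (X 0 * Z 1 - X 1 * Z 0) := by ring
    rw [h5, hX, hZ, hΔ, q₁, q₂]
    have h6 : √x * √z * (√x * √z) = x * z := by
      calc √x * √z * (√x * √z) = √x ^ 2 * √z ^ 2 := by ring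
        _ = x * z := by rw [q₁, q₂]
    linarith
  have k1 : √x * Z 1 = √z * X 0 := by
    have h7 := sq_nonneg (√x * Z 0 + √z * X 1)
    have h8 := sq_nonneg (√x * Z 1 - √z * X 0)
    have h9 : (√x * Z 1 - √z * X 0) ^ 2 = 0 := by linarith
    have := pow_eq_zero_iff (two_ne_zero) |>.1 h9
    linarith
  have k2 : √x * Z 0 = -(√z * X 1) := by
    have h7 := sq_nonneg (√x * Z 0 + √z * X 1)
    have h8 := sq_nonneg (√x * Z 1 - √z * X 0)
    have h9 : (√x * Z 0 + √z * X 1) ^ 2 = 0 := by linarith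
    have := pow_eq_zero_iff (two_ne_zero) |>.1 h9
    linarith
  -- the four identities
  have i12 : x ^ ((q - 4) / 4) * X 0 = f * X 0 + g * Z 1 ∧
      x ^ ((q - 4) / 4) * X 1 = f * X 1 - g * Z 0 := by
    rcases hs₁.eq_or_lt with h0 | hpos
    · have hx0 : x = 0 := by rw [← q₁, ← h0]; ring
      have hz0 : z = 0 := by linarith
      obtain ⟨e1, e2⟩ := e9d_zero hX hx0
      obtain ⟨e3, e4⟩ := e9d_zero hZ hz0
      rw [e1, e2, e3, e4]
      constructor <;> ring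
    · constructor
      · apply mul_left_cancel₀ hpos.ne'
        linear_combination X 0 * P₁ - g * k1
      · apply mul_left_cancel₀ hpos.ne'
        linear_combination X 1 * P₁ + g * k2
  have i34 : z ^ ((q - 4) / 4) * Z 0 = f * Z 0 - g * X 1 ∧
      z ^ ((q - 4) / 4) * Z 1 = f * Z 1 + g * X 0 := by
    rcases hs₂.eq_or_lt with h0 | hpos
    · have hz0 : z = 0 := by rw [← q₂, ← h0]; ring
      obtain ⟨e3, e4⟩ := e9d_zero hZ hz0
      have hgx : g * √x = 0 := by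
        have : z ^ ((q - 4) / 4) * √z = f * √z + g * √x := P₂
        rw [← h0, mul_zero, mul_zero, zero_add] at this
        exact this.symm
      have hgX : g * X 0 = 0 ∧ g * X 1 = 0 := by
        rcases mul_eq_zero.1 hgx with hg0 | hx0
        · rw [hg0]; constructor <;> ring
        · have hx0' : x = 0 := by rw [← q₁, hx0]; ring
          obtain ⟨e1, e2⟩ := e9d_zero hX hx0'
          rw [e1, e2]; constructor <;> ring
      rw [e3, e4]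
      constructor
      · linear_combination hgX.2
      · linear_combination -hgX.1
    · constructor
      · apply mul_left_cancel₀ hpos.ne'
        linear_combination Z 0 * P₂ + g * k2
      · apply mul_left_cancel₀ hpos.ne'
        linear_combination Z 1 * P₂ + g * k1
  obtain ⟨i1, i2⟩ := i12
  obtain ⟨i3, i4⟩ := i34
  rw [D.hy₁ 0, D.hy₁ 1, D.hy₂ 0, D.hy₂ 1]
  refine ⟨?_, ?_, ?_, ?_⟩
  · linear_combination c * i1 - s * i3
  · linear_combination c * i2 - s * i4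
  · linear_combination s * i1 + c * i3
  · linear_combination s * i2 + c * i4

/-- `rdat_exists` for `![a,b]`, `![c,d]`.  If `f c - g b < 0`: `cl_bad` for `a ≤ d`; for `d < a`
apply `cl_bad` to `(d, b, c, a)` (`rdat_xz`, `w_formula`) and use `transpose`, `swap_row`,
`swap_col`.  If `f b - g c < 0`: the same for `(a, c, b, d)` and `transpose`.  Else `cl_good`. -/
theorem cl_pos {q a b c d : ℝ} (h2 : 2 < q) (h4 : q < 4) (ha : 0 ≤ a) (hb : 0 ≤ b) (hc : 0 ≤ c)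
    (hd : 0 ≤ d) (hdet : b * c ≤ a * d) : Cl q a b c d := by
  have hq0 : 0 < q := by linarith
  have ex : ∀ a b c d : ℝ, 0 ≤ a → 0 ≤ b → 0 ≤ c → 0 ≤ d → ∃ (c' s' x z : ℝ)
      (X Z : Fin 2 → ℝ), RDat c' s' x z ![a, b] ![c, d] X Z := by
    intro a b c d ha hb hc hd
    exact rdat_exists _ _ (fun k => by fin_cases k <;> simpa using (by assumption))
      (fun k => by fin_cases k <;> simpa using (by assumption))
  obtain ⟨c₀, s₀, x, z, X, Z, D⟩ := ex a b c d ha hb hc hd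
  have hz : 0 ≤ z := by
    rw [← D.hZ]
    exact Finset.sum_nonneg fun k _ => sq_nonneg _
  obtain ⟨f, g, hg, hgf, F⟩ := w_formula (q := q) h2 h4 hz D.hz
  have hf : 0 ≤ f := hg.trans hgf
  -- the same data for permuted entries
  have ex' : ∀ a' b' c' d' : ℝ, 0 ≤ a' → 0 ≤ b' → 0 ≤ c' → 0 ≤ d' →
      a ^ 2 + b ^ 2 + c ^ 2 + d ^ 2 = a' ^ 2 + b' ^ 2 + c' ^ 2 + d' ^ 2 →
      a * d - b * c = a' * d' - b' * c' → ∃ (c₁ s₁ : ℝ) (X Z : Fin 2 → ℝ),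
        RDat c₁ s₁ x z ![a', b'] ![c', d'] X Z := by
    intro a' b' c' d' ha' hb' hc' hd' h h'
    obtain ⟨c₁, s₁, x', z', X', Z', D'⟩ := ex a' b' c' d' ha' hb' hc' hd'
    obtain ⟨rfl, rfl⟩ := rdat_xz D D' (by simpa using h) (by simpa using h')
    exact ⟨c₁, s₁, X', Z', D'⟩
  have bad : ∀ a' b' c' d' : ℝ, 0 ≤ a' → 0 ≤ b' → 0 ≤ c' → 0 ≤ d' → a' ≤ d' →
      a ^ 2 + b ^ 2 + c ^ 2 + d ^ 2 = a' ^ 2 + b' ^ 2 + c' ^ 2 + d' ^ 2 →
      a * d - b * c = a' * d' - b' * c' → f * c' - g * b' < 0 → Cl q a' b' c' d' := by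
    intro a' b' c' d' ha' hb' hc' hd' had h h' hbad
    obtain ⟨c₁, s₁, X', Z', D'⟩ := ex' a' b' c' d' ha' hb' hc' hd' h h'
    obtain ⟨-, -, f3, -⟩ := F c₁ s₁ _ _ X' Z' D' (by simp; linarith)
    have f3' : x ^ ((q - 4) / 4) * (s₁ * X' 0) + z ^ ((q - 4) / 4) * (c₁ * Z' 0) < 0 := by
      rw [f3]
      simpa using hbad
    exact cl_bad h2 h4 D' f3' (by simpa using had)
  have bad2 : ∀ a' b' c' d' : ℝ, 0 ≤ a' → 0 ≤ b' → 0 ≤ c' → 0 ≤ d' →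
      a ^ 2 + b ^ 2 + c ^ 2 + d ^ 2 = a' ^ 2 + b' ^ 2 + c' ^ 2 + d' ^ 2 →
      a * d - b * c = a' * d' - b' * c' → f * c' - g * b' < 0 → Cl q a' b' c' d' := by
    intro a' b' c' d' ha' hb' hc' hd' h h' hbad
    rcases le_total a' d' with had | had
    · exact bad a' b' c' d' ha' hb' hc' hd' had h h' hbad
    · exact ((bad d' b' c' a' hd' hb' hc' ha' had (by linarith) (by linarith)
        hbad).swap_row.swap_col).transpose hq0
  rcases lt_or_ge (f * c - g * b) 0 with h | h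
  · exact bad2 a b c d ha hb hc hd rfl rfl h
  · rcases lt_or_ge (f * b - g * c) 0 with h' | h'
    · exact (bad2 a c b d ha hc hb hd (by ring) (by ring) h').transpose hq0
    · obtain ⟨f1, f2, f3, f4⟩ := F c₀ s₀ _ _ X Z D (by simpa using hdet)
      have key := cl_good h2 h4 D (fun k => ?_) (fun k => ?_)
      · simpa using key
      · fin_cases k
        · show 0 ≤ x ^ ((q - 4) / 4) * (c₀ * X 0) - z ^ ((q - 4) / 4) * (s₀ * Z 0)
          rw [f1]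
          simp only [cons_val_zero, cons_val_one]
          positivity
        · show 0 ≤ x ^ ((q - 4) / 4) * (c₀ * X 1) - z ^ ((q - 4) / 4) * (s₀ * Z 1)
          rw [f2]
          simpa using h'
      · fin_cases k
        · show 0 ≤ x ^ ((q - 4) / 4) * (s₀ * X 0) + z ^ ((q - 4) / 4) * (c₀ * Z 0)
          rw [f3]
          simpa using h
        · show 0 ≤ x ^ ((q - 4) / 4) * (s₀ * X 1) + z ^ ((q - 4) / 4) * (c₀ * Z 1)
          rw [f4]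
          simp only [cons_val_zero, cons_val_one]
          positivity

theorem four_two (q : ℝ) (h2 : 2 < q) (h4 : q < 4) : LibSchQ.FourQ q := by
  intro n _ _ A B C D a b c d ha hb hc hd hA hB hC hD
  rcases le_total (b * c) (a * d) with h | h
  · exact cl_pos h2 h4 ha hb hc hd h n A B C D hA hB hC hD
  · exact (cl_pos h2 h4 hb ha hd hc h).swap_col n A B C D hA hB hC hD

/-- **`N = 2`, `2 < q < 4`** (`four_two`, `LibSchQ.pad_square`, `pw_blk_two`, `comp_two`) -/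
theorem two_q (q : ℝ) (h2 : 2 < q) (h4 : q < 4)
    {m₁ m₂ : Type} {n : Fin 2 → Type} [Fintype m₁] [DecidableEq m₁] [Fintype m₂]
    [DecidableEq m₂] [∀ k, Fintype (n k)] [∀ k, DecidableEq (n k)]
    (A : ∀ k, Matrix m₁ (n k) ℂ) (B : ∀ k, Matrix m₂ (n k) ℂ) :
    LibSch.sn q (LibSch.blk A B) ≤ LibSch.sn q (LibSch.comp q A B) := by
  have hq : 0 < q := by linarith
  have key := LibSchQ.pad_square q hq (fun a b c d s => s ≤ LibSch.pw q (LibSchQ.m2 a b c d))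
    (fun n _ _ _ A B C D => four_two q h2 h4 n A B C D _ _ _ _ (sn_nonneg' q A)
      (sn_nonneg' q B) (sn_nonneg' q C) (sn_nonneg' q D) (sn_pow q hq A).ge (sn_pow q hq B).ge
      (sn_pow q hq C).ge (sn_pow q hq D).ge) (A 0) (A 1) (B 0) (B 1)
  have key' : LibSch.pw q (LibSch.blk A B) ≤ LibSch.pw q (LibSch.comp q A B) := by
    rw [LibSchQ.comp_two, LibSchQ.pw_blk_two]
    exact key
  exact Real.rpow_le_rpow (LibSch.pw_nonneg q _) key' (by positivity)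

/-- **`N = 2`, `4/3 < p < 2`** (`four_two`, `LibSchQ.final_two`) -/
theorem two_p (p : ℝ) (h1 : 4 / 3 < p) (h2 : p < 2)
    {m₁ m₂ : Type} {n : Fin 2 → Type} [Fintype m₁] [DecidableEq m₁] [Fintype m₂]
    [DecidableEq m₂] [∀ k, Fintype (n k)] [∀ k, DecidableEq (n k)]
    (A : ∀ k, Matrix m₁ (n k) ℂ) (B : ∀ k, Matrix m₂ (n k) ℂ) :
    LibSch.sn p (LibSch.comp p A B) ≤ LibSch.sn p (LibSch.blk A B) := by
  have hp1 : 1 < p := by linarith
  have hpq : p.HolderConjugate (p / (p - 1)) := Real.HolderConjugate.conjExponent hp1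
  have h3 : 0 < p - 1 := by linarith
  have hq2 : 2 < p / (p - 1) := by
    rw [lt_div_iff₀ h3]
    linarith
  have hq4 : p / (p - 1) < 4 := by
    rw [div_lt_iff₀ h3]
    linarith
  exact LibSchQ.final_two p (p / (p - 1)) hpq hq2 (four_two _ hq2 hq4) A B

end Pool.Agent.LibSchE
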