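import Pool.Agent.LibSchE.E9d
import Pool.Agent.LibSchQ.G8
import Pool.Agent.LibSchQ.H1

/-! **F.**  `N = 2`, all exponents. -/

open Matrix
open scoped ComplexOrder

namespace Pool.Agent.LibSchE

open Pool.Agent.LibSchP Pool.Agent.LibSchA

variable {m₁ m₂ : Type} {n : Fin 2 → Type} [Fintype m₁] [DecidableEq m₁] [Fintype m₂]
    [DecidableEq m₂] [∀ k, Fintype (n k)] [∀ k, DecidableEq (n k)]

/-- `N = 2`, `q > 2`, from the statement for square blocks -/
theorem two_of_four (q : ℝ) (h2 : 2 < q) (hF : LibSchQ.FourQ q)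
    (A : ∀ k, Matrix m₁ (n k) ℂ) (B : ∀ k, Matrix m₂ (n k) ℂ) :
    LibSch.sn q (LibSch.blk A B) ≤ LibSch.sn q (LibSch.comp q A B) := by
  have hq : 0 < q := by linarith
  have key := LibSchQ.pad_square q hq (fun a b c d s => s ≤ LibSch.pw q (LibSchQ.m2 a b c d))
    (fun n _ _ _ A B C D => hF n A B C D _ _ _ _ (sn_nonneg' q A)
      (sn_nonneg' q B) (sn_nonneg' q C) (sn_nonneg' q D) (sn_pow q hq A).ge (sn_pow q hq B).ge
      (sn_pow q hq C).ge (sn_pow q hq D).ge) (A 0) (A 1) (B 0) (B 1)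
  have key' : LibSch.pw q (LibSch.blk A B) ≤ LibSch.pw q (LibSch.comp q A B) := by
    rw [LibSchQ.comp_two, LibSchQ.pw_blk_two]
    exact key
  exact Real.rpow_le_rpow (LibSch.pw_nonneg q _) key' (by positivity)

/-- **`N = 2`, all `p ≥ 1`** -/
theorem two_all (p : ℝ) (hp : 1 ≤ p) (A : ∀ k, Matrix m₁ (n k) ℂ) (B : ∀ k, Matrix m₂ (n k) ℂ) :
    LibSch.Holds p A B := by
  rcases le_or_gt p (4 / 3) with h | h
  · exact ⟨fun _ _ => LibSchQ.two_final p hp h A B, fun h3 => absurd h3 (by linarith)⟩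
  · rcases lt_trichotomy p 2 with h2 | h2 | h2
    · exact ⟨fun _ _ => two_p p h h2 A B, fun h3 => absurd h3 (not_le.2 h2)⟩
    · subst h2
      exact LibSchQ.h1_holds_two A B
    · refine ⟨fun _ h3 => absurd h3 (not_le.2 h2), fun _ => ?_⟩
      rcases lt_or_ge p 4 with h4 | h4
      · exact two_q p h2 h4 A B
      · exact two_of_four p h2 (LibSchQ.fourQ_of_four_le p h4) A B

end Pool.Agent.LibSchE
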