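import Pool.Agent.LibSchA.A1

/-! **II.**  The linear majorant of weighted kernels (helper50).
For `h ≥ 0` nondecreasing and bounded the kernel
`wk a e h x y = (x y)^(1-a) ∫ r^(2a) h(r/x) / ((r + e x)(r + e y)) dr`
satisfies `0 ≤ wk ≤ M x + P y` with `M, P ≥ 0`, `M + P = wk 1 1`. -/

open MeasureTheory Set

namespace Pool.Agent.LibSchE

open Pool.Agent.LibSchP Pool.Agent.LibSchA

/-- the weighted kernel -/
noncomputable def wk (a e : ℝ) (h : ℝ → ℝ) (x y : ℝ) : ℝ :=
  (x * y) ^ (1 - a) * ∫ r in Ioi (0 : ℝ), r ^ (2 * a) * h (r / x) / ((r + e * x) * (r + e * y))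

/-- the class of weights -/
structure Wh (h : ℝ → ℝ) : Prop where
  meas : Measurable h
  nn : ∀ r, 0 < r → 0 ≤ h r
  mono : ∀ r s, 0 < r → r ≤ s → h r ≤ h s
  bd : ∃ C, ∀ r, 0 < r → h r ≤ C

/-- integrability against a bounded weight -/
theorem Wh.int {h : ℝ → ℝ} (hh : Wh h) {f : ℝ → ℝ} (hf : IntegrableOn f (Ioi 0)) :
    IntegrableOn (fun r => f r * h r) (Ioi 0) := by
  obtain ⟨C, hC⟩ := hh.bd
  refine Integrable.mono' (hf.norm.const_mul C) ?_ ?_
  · exact hf.aestronglyMeasurable.mul hh.meas.aestronglyMeasurable.restrict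
  · refine (ae_restrict_iff' measurableSet_Ioi).2 (Filter.Eventually.of_forall ?_)
    intro r hr
    have h1 := hh.nn r hr
    have h2 := hC r hr
    rw [norm_mul, Real.norm_of_nonneg h1, mul_comm]
    exact mul_le_mul_of_nonneg_right h2 (norm_nonneg _)

/-- the base kernel inequality -/
theorem base_ker (a y : ℝ) (h0 : 0 < a) (h1 : 2 * a < 1) (hy : 0 < y) :
    y ^ (1 - a) * dd (2 * a) 1 y ≤ a * (1 + y) := by
  obtain ⟨M, P, hM, hP, hs, h⟩ := kernel a 1 1 1 0 1 0 h0 h1 one_pos le_rfl (by simp) (by simp)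
    (by simp) (by simp)
  have e1 : ∀ x y : ℝ, ker a 1 1 1 0 1 0 x y = (x * y) ^ (1 - a) * dd (2 * a) x y := by
    intro x y
    unfold ker
    simp
  have h2 := (h 1 y one_pos hy).2
  have h3 := (h y 1 hy one_pos).2
  rw [e1] at h2 h3
  rw [e1] at hs
  rw [dd_comm] at h3
  have e2 : dd (2 * a) 1 1 = 2 * a := by
    unfold dd
    simp
  rw [e2] at hs
  simp only [mul_one, one_mul, Real.one_rpow] at h2 h3 hs
  nlinarith

/-- `∫ r^(2a)/(e+r)^2` -/
theorem i2_eq (a e : ℝ) (h0 : 0 < a) (h1 : 2 * a < 1) (he : 0 < e) :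
    Itg (fun r => r ^ (2 * a) / ((e + r) * (e + r))) (cst (2 * a) * (2 * a * e ^ (2 * a - 1))) := by
  have h := int_dd (2 * a) e e (by linarith) h1 he he
  refine ⟨h.1, ?_⟩
  rw [h.2]
  unfold dd
  rw [if_pos rfl]

theorem i3_int (a e : ℝ) (h0 : 0 < a) (h1 : 2 * a < 1) (he : 0 < e) :
    IntegrableOn (fun r : ℝ => r ^ (2 * a) / ((e + r) * (e + r)) * (e / (e + r))) (Ioi 0) := by
  have hi := (i2_eq a e h0 h1 he).1
  refine Integrable.mono' hi ?_ ?_
  · refine hi.aestronglyMeasurable.mul ?_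
    refine ContinuousOn.aestronglyMeasurable ?_ measurableSet_Ioi
    intro r hr
    have hr0 : (0 : ℝ) < r := hr
    refine ContinuousAt.continuousWithinAt (ContinuousAt.div ?_ ?_ ?_)
    · fun_prop
    · fun_prop
    · positivity
  · refine (ae_restrict_iff' measurableSet_Ioi).2 (Filter.Eventually.of_forall ?_)
    intro r hr
    have hr0 : (0 : ℝ) < r := hr
    have hp : 0 < r ^ (2 * a) := Real.rpow_pos_of_pos hr0 _
    rw [Real.norm_of_nonneg (by positivity)]
    have h2 : e / (e + r) ≤ 1 := by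
      rw [div_le_one (by positivity)]
      linarith
    calc r ^ (2 * a) / ((e + r) * (e + r)) * (e / (e + r))
        ≤ r ^ (2 * a) / ((e + r) * (e + r)) * 1 := by gcongr
      _ = _ := mul_one _

/-- the mean of `e/(e+r)` is `(1-2a)/2` (integration by parts) -/
theorem i3_eq (a e : ℝ) (h0 : 0 < a) (h1 : 2 * a < 1) (he : 0 < e) :
    Itg (fun r => r ^ (2 * a) / ((e + r) * (e + r)) * (e / (e + r)))
      (cst (2 * a) * (2 * a * e ^ (2 * a - 1)) * ((1 - 2 * a) / 2)) := by
  refine ⟨i3_int a e h0 h1 he, ?_⟩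
  have hI2 := i2_eq a e h0 h1 he
  have hI3 := i3_int a e h0 h1 he
  -- primitive
  have hder : ∀ r ∈ Ioi (0 : ℝ), HasDerivAt (fun r : ℝ => r ^ (2 * a + 1) / ((e + r) * (e + r)))
      ((2 * a - 1) * (r ^ (2 * a) / ((e + r) * (e + r))) +
        2 * (r ^ (2 * a) / ((e + r) * (e + r)) * (e / (e + r)))) r := by
    intro r hr
    have hr0 : (0 : ℝ) < r := hr
    have d1 : HasDerivAt (fun r : ℝ => r ^ (2 * a + 1)) ((2 * a + 1) * r ^ (2 * a + 1 - 1)) r :=
      Real.hasDerivAt_rpow_const (Or.inl hr0.ne')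
    have d2 : HasDerivAt (fun r : ℝ => (e + r) * (e + r)) (1 * (e + r) + (e + r) * 1) r :=
      ((hasDerivAt_id' r).const_add e).mul ((hasDerivAt_id' r).const_add e)
    have hne : (e + r) * (e + r) ≠ 0 := by positivity
    have d3 := d1.div d2 hne
    refine d3.congr_deriv ?_
    have e1 : 2 * a + 1 - 1 = 2 * a := by ring
    have e2 : r ^ (2 * a + 1) = r ^ (2 * a) * r := by
      rw [Real.rpow_add hr0, Real.rpow_one]
    rw [e1, e2]
    have h3 : e + r ≠ 0 := by positivity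
    field_simp
    ring
  have hcont : ContinuousWithinAt (fun r : ℝ => r ^ (2 * a + 1) / ((e + r) * (e + r))) (Ici 0) 0 := by
    refine ContinuousAt.continuousWithinAt (ContinuousAt.div ?_ ?_ ?_)
    · exact Real.continuousAt_rpow_const 0 _ (Or.inr (by linarith))
    · fun_prop
    · positivity
  have htop : Filter.Tendsto (fun r : ℝ => r ^ (2 * a + 1) / ((e + r) * (e + r))) Filter.atTop
      (nhds 0) := by
    have h := tendsto_rpow_neg_atTop (y := 1 - 2 * a) (by linarith)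
    refine squeeze_zero' (g := fun r : ℝ => r ^ (-(1 - 2 * a))) ?_ ?_ h
    · filter_upwards [Filter.eventually_gt_atTop 0] with r hr
      have hp : 0 < r ^ (2 * a + 1) := Real.rpow_pos_of_pos hr _
      positivity
    · filter_upwards [Filter.eventually_gt_atTop 0] with r hr
      have e1 : r ^ (-(1 - 2 * a)) = r ^ (2 * a + 1) / (r * r) := by
        have : -(1 - 2 * a) = (2 * a + 1) - 2 := by ring
        rw [this, Real.rpow_sub hr]
        congr 1
        rw [show (2 : ℝ) = ((2 : ℕ) : ℝ) by norm_num, Real.rpow_natCast]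
        ring
      rw [e1]
      have hp : 0 < r ^ (2 * a + 1) := Real.rpow_pos_of_pos hr _
      gcongr <;> linarith
  have hint := integral_Ioi_of_hasDerivAt_of_tendsto hcont hder
    ((hI2.1.const_mul (2 * a - 1)).add (hI3.const_mul 2)) htop
  rw [integral_add (hI2.1.const_mul (2 * a - 1)) (hI3.const_mul 2), integral_const_mul,
    integral_const_mul, hI2.2] at hint
  have e0 : (0 : ℝ) ^ (2 * a + 1) = 0 := Real.zero_rpow (by linarith)
  rw [e0] at hint
  simp only [zero_div, sub_zero] at hint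
  linarith

/-- the pointwise difference -/
noncomputable def Hf (a e y r : ℝ) : ℝ :=
  y ^ (1 - a) * ((e + r) / (e * y + r)) - (a + e / (e + r)) - (1 - a - e / (e + r)) * y

theorem Hf_down (a e y r s : ℝ) (h0 : 0 < a) (h1 : 2 * a < 1) (he : 0 < e) (hy : 0 < y)
    (hr : 0 < r) (hrs : r ≤ s) (h : 0 ≤ Hf a e y s) : 0 ≤ Hf a e y r := by
  have hs : 0 < s := lt_of_lt_of_le hr hrs
  have key : ∀ u : ℝ, 0 < u → Hf a e y u * (1 + e / (e + u) * (y - 1)) =
      (1 + e / (e + u) * (y - 1)) ^ 2 - (2 + (1 - a) * (y - 1)) * (1 + e / (e + u) * (y - 1))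
        + y ^ (1 - a) := by
    intro u hu
    unfold Hf
    have h2 : e + u ≠ 0 := by positivity
    have h3 : e * y + u ≠ 0 := by positivity
    field_simp
    ring
  have hpos : ∀ u : ℝ, 0 < u → 0 < 1 + e / (e + u) * (y - 1) := by
    intro u hu
    have h2 : 1 + e / (e + u) * (y - 1) = (e * y + u) / (e + u) := by
      have h2 : e + u ≠ 0 := by positivity
      field_simp
      ring
    rw [h2]
    positivity
  have hQ1 : y ^ (1 - a) - 1 - (1 - a) * (y - 1) ≤ 0 := by
    have h2 := rpow_one_add_le_one_add_mul_self (by linarith : -1 ≤ y - 1)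
      (by linarith : 0 ≤ 1 - a) (by linarith)
    have h3 : 1 + (y - 1) = y := by ring
    rw [h3] at h2
    linarith
  set ρ := e / (e + r) with hρ
  set σ := (e / (e + s)) / ρ with hσ
  have hρ0 : 0 < ρ := by positivity
  have hσ0 : 0 < σ := by positivity
  have hσ1 : σ ≤ 1 := by
    rw [hσ, div_le_one hρ0, hρ]
    gcongr
  have hes : e / (e + s) = σ * ρ := by
    rw [hσ]
    field_simp
  have k1 := key s hs
  have k2 := key r hr
  rw [hes] at k1
  have p1 := hpos s hs
  rw [hes] at p1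
  have q1 := mul_nonneg h p1.le
  rw [k1] at q1
  have p2 := hpos r hr
  by_contra hneg
  push Not at hneg
  have q2 : Hf a e y r * (1 + ρ * (y - 1)) < 0 := mul_neg_of_neg_of_pos hneg p2
  rw [k2] at q2
  nlinarith [mul_nonneg (sub_nonneg.mpr hσ1) (sub_nonneg.mpr hQ1), mul_pos hσ0 (neg_pos.mpr q2),
    mul_nonneg (mul_nonneg hσ0.le (sub_nonneg.mpr hσ1)) (sq_nonneg (ρ * (y - 1)))]

/-- `h` and `Hf` are oppositely ordered. -/
theorem Hf_cheb (a e y : ℝ) (h0 : 0 < a) (h1 : 2 * a < 1) (he : 0 < e) (hy : 0 < y) {h : ℝ → ℝ}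
    (hh : Wh h) : ∃ c : ℝ, 0 ≤ c ∧ ∀ r, 0 < r → h r * Hf a e y r ≤ c * Hf a e y r := by
  obtain ⟨C, hC⟩ := hh.bd
  by_cases hS : ∃ r, 0 < r ∧ 0 ≤ Hf a e y r
  · set S : Set ℝ := {t | ∃ r, 0 < r ∧ 0 ≤ Hf a e y r ∧ h r = t} with hSdef
    have hSb : BddAbove S := ⟨C, by
      rintro t ⟨r, hr, _, rfl⟩
      exact hC r hr⟩
    obtain ⟨r₀, hr₀, hr₀'⟩ := hS
    have hne : S.Nonempty := ⟨h r₀, r₀, hr₀, hr₀', rfl⟩
    refine ⟨sSup S, le_trans (hh.nn r₀ hr₀) (le_csSup hSb ⟨r₀, hr₀, hr₀', rfl⟩), ?_⟩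
    intro r hr
    by_cases hH : 0 ≤ Hf a e y r
    · exact mul_le_mul_of_nonneg_right (le_csSup hSb ⟨r, hr, hH, rfl⟩) hH
    · have h2 : sSup S ≤ h r := by
        refine csSup_le hne ?_
        rintro t ⟨r', hr', hH', rfl⟩
        refine hh.mono r' r hr' ?_
        by_contra hlt
        push Not at hlt
        exact hH (Hf_down a e y r r' h0 h1 he hy hr hlt.le hH')
      push Not at hH
      exact mul_le_mul_of_nonpos_right h2 hH.le
  · push Not at hS
    refine ⟨0, le_rfl, fun r hr => ?_⟩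
    rw [zero_mul]
    exact mul_nonpos_of_nonneg_of_nonpos (hh.nn r hr) (hS r hr).le

/-- the weight -/
noncomputable def w0 (a e r : ℝ) : ℝ := r ^ (2 * a) / ((e + r) * (e + r))

theorem w0_nonneg (a e r : ℝ) (he : 0 < e) (hr : 0 < r) : 0 ≤ w0 a e r := by
  unfold w0
  have := Real.rpow_nonneg hr.le (2 * a)
  positivity

/-- `∫ w0 Hf ≤ 0` -/
theorem Hf_itg (a e y : ℝ) (h0 : 0 < a) (h1 : 2 * a < 1) (he : 0 < e) (hy : 0 < y) :
    ∃ v : ℝ, Itg (fun r => w0 a e r * Hf a e y r) v ∧ v ≤ 0 := by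
  have hb := int_dd (2 * a) e (e * y) (by linarith) h1 he (by positivity)
  have i1 : Itg (fun r => r ^ (2 * a) / ((e + r) * (e * y + r)))
      (cst (2 * a) * dd (2 * a) e (e * y)) := ⟨hb.1, hb.2⟩
  have i2 := i2_eq a e h0 h1 he
  have i3 := i3_eq a e h0 h1 he
  have i4 := ((i1.const_mul (y ^ (1 - a))).add (i2.const_mul (-(a + (1 - a) * y)))).add
    (i3.const_mul (y - 1))
  refine ⟨_, i4.congr ?_, ?_⟩
  · intro r hr
    unfold w0 Hf
    have h2 : e + r ≠ 0 := by positivity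
    have h3 : e * y + r ≠ 0 := by positivity
    field_simp
    ring
  · have e1 : dd (2 * a) e (e * y) = e ^ (2 * a - 1) * dd (2 * a) 1 y := by
      have h2 := dd_smul (2 * a) e 1 y he one_pos hy
      rwa [mul_one] at h2
    rw [e1]
    have hc := cst_pos (2 * a) (by linarith) h1
    have hE : 0 < e ^ (2 * a - 1) := Real.rpow_pos_of_pos he _
    have hk := base_ker a y h0 h1 hy
    have h5 := mul_nonneg (mul_pos hc hE).le (sub_nonneg.mpr hk)
    nlinarith

theorem w0_itg (a e : ℝ) (h0 : 0 < a) (h1 : 2 * a < 1) (he : 0 < e) :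
    IntegrableOn (w0 a e) (Ioi 0) := (i2_eq a e h0 h1 he).1

/-- `M` and `P` -/
noncomputable def MM (a e : ℝ) (h : ℝ → ℝ) : ℝ :=
  ∫ r in Ioi (0 : ℝ), w0 a e r * (a + e / (e + r)) * h r

noncomputable def PP (a e : ℝ) (h : ℝ → ℝ) : ℝ :=
  ∫ r in Ioi (0 : ℝ), w0 a e r * (1 - a - e / (e + r)) * h r

theorem wρ_int (a e : ℝ) (h0 : 0 < a) (h1 : 2 * a < 1) (he : 0 < e) (c d : ℝ) :
    IntegrableOn (fun r => w0 a e r * (c + d * (e / (e + r)))) (Ioi 0) := by
  have h2 : IntegrableOn (fun r => c * w0 a e r +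
      d * (r ^ (2 * a) / ((e + r) * (e + r)) * (e / (e + r)))) (Ioi 0) :=
    ((w0_itg a e h0 h1 he).const_mul c).add ((i3_int a e h0 h1 he).const_mul d)
  refine h2.congr_fun (fun r _ => ?_) measurableSet_Ioi
  show c * w0 a e r + d * (r ^ (2 * a) / ((e + r) * (e + r)) * (e / (e + r))) = _
  unfold w0
  ring

theorem MM_nonneg (a e : ℝ) (h0 : 0 < a) (he : 0 < e) {h : ℝ → ℝ}
    (hh : Wh h) : 0 ≤ MM a e h := by
  refine setIntegral_nonneg measurableSet_Ioi fun r hr => ?_
  have hr0 : (0 : ℝ) < r := hr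
  have h2 := w0_nonneg a e r he hr0
  have h3 := hh.nn r hr0
  positivity

theorem PP_nonneg (a e : ℝ) (h0 : 0 < a) (h1 : 2 * a < 1) (he : 0 < e) {h : ℝ → ℝ}
    (hh : Wh h) : 0 ≤ PP a e h := by
  have ha1 : 0 < 1 - a := by linarith
  set r₀ := e * a / (1 - a) with hr₀
  have hr₀0 : 0 < r₀ := by positivity
  have hint : IntegrableOn (fun r => w0 a e r * (1 - a - e / (e + r))) (Ioi 0) := by
    refine (wρ_int a e h0 h1 he (1 - a) (-1)).congr_fun (fun r _ => ?_) measurableSet_Ioi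
    show w0 a e r * (1 - a + -1 * (e / (e + r))) = _
    ring
  have hle : ∫ r in Ioi (0 : ℝ), h r₀ * (w0 a e r * (1 - a - e / (e + r))) ≤ PP a e h := by
    refine setIntegral_mono_on (hint.const_mul _) (hh.int hint) measurableSet_Ioi fun r hr => ?_
    have hr0 : (0 : ℝ) < r := hr
    have h2 := w0_nonneg a e r he hr0
    have e3 : e / (e + r₀) = 1 - a := by
      rw [hr₀]
      field_simp
      ring
    rcases le_total r r₀ with h3 | h3
    · have h4 := hh.mono r r₀ hr0 h3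
      have h5 : e / (e + r₀) ≤ e / (e + r) := by gcongr
      rw [e3] at h5
      nlinarith [mul_nonneg h2 (mul_nonneg (sub_nonneg.mpr h4) (sub_nonneg.mpr h5))]
    · have h4 := hh.mono r₀ r hr₀0 h3
      have h5 : e / (e + r) ≤ e / (e + r₀) := by gcongr
      rw [e3] at h5
      nlinarith [mul_nonneg h2 (mul_nonneg (sub_nonneg.mpr h4) (sub_nonneg.mpr h5))]
  refine le_trans ?_ hle
  rw [integral_const_mul]
  refine mul_nonneg (hh.nn r₀ hr₀0) ?_
  have i2 := i2_eq a e h0 h1 he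
  have i3 := i3_eq a e h0 h1 he
  have i4 := (i2.const_mul (1 - a)).add (i3.const_mul (-1))
  have e5 : ∫ r in Ioi (0 : ℝ), w0 a e r * (1 - a - e / (e + r)) =
      (1 - a) * (cst (2 * a) * (2 * a * e ^ (2 * a - 1))) +
        -1 * (cst (2 * a) * (2 * a * e ^ (2 * a - 1)) * ((1 - 2 * a) / 2)) := by
    rw [← i4.2]
    refine setIntegral_congr_fun measurableSet_Ioi fun r _ => ?_
    show w0 a e r * (1 - a - e / (e + r)) = (1 - a) * (r ^ (2 * a) / ((e + r) * (e + r))) +
      -1 * (r ^ (2 * a) / ((e + r) * (e + r)) * (e / (e + r)))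
    unfold w0
    ring
  rw [e5]
  have hc := cst_pos (2 * a) (by linarith) h1
  have hE : 0 < e ^ (2 * a - 1) := Real.rpow_pos_of_pos he _
  nlinarith [mul_pos (mul_pos hc hE) h0]

theorem ker_int (a e y : ℝ) (h0 : 0 < a) (h1 : 2 * a < 1) (he : 0 < e) (hy : 0 < y) {h : ℝ → ℝ}
    (hh : Wh h) : IntegrableOn (fun r => r ^ (2 * a) * h r / ((r + e) * (r + e * y))) (Ioi 0) := by
  have hb := (int_dd (2 * a) e (e * y) (by linarith) h1 he (by positivity)).1
  refine (hh.int hb).congr_fun (fun r _ => ?_) measurableSet_Ioi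
  show r ^ (2 * a) / ((e + r) * (e * y + r)) * h r = _
  rw [add_comm e r, add_comm (e * y) r]
  ring

theorem core (a e y : ℝ) (h0 : 0 < a) (h1 : 2 * a < 1) (he : 0 < e) (hy : 0 < y) {h : ℝ → ℝ}
    (hh : Wh h) : y ^ (1 - a) * ∫ r in Ioi (0 : ℝ), r ^ (2 * a) * h r / ((r + e) * (r + e * y)) ≤
      MM a e h + PP a e h * y := by
  obtain ⟨c, hc, hch⟩ := Hf_cheb a e y h0 h1 he hy hh
  obtain ⟨v, hv, hv0⟩ := Hf_itg a e y h0 h1 he hy
  have hint1 : IntegrableOn (fun r => w0 a e r * (a + e / (e + r))) (Ioi 0) := by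
    refine (wρ_int a e h0 h1 he a 1).congr_fun (fun r _ => ?_) measurableSet_Ioi
    show w0 a e r * (a + 1 * (e / (e + r))) = _
    ring
  have hint2 : IntegrableOn (fun r => w0 a e r * (1 - a - e / (e + r))) (Ioi 0) := by
    refine (wρ_int a e h0 h1 he (1 - a) (-1)).congr_fun (fun r _ => ?_) measurableSet_Ioi
    show w0 a e r * (1 - a + -1 * (e / (e + r))) = _
    ring
  have hk := (ker_int a e y h0 h1 he hy hh).const_mul (y ^ (1 - a))
  have hM := hh.int hint1
  have hP := (hh.int hint2).const_mul y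
  have hle : ∫ r in Ioi (0 : ℝ), (y ^ (1 - a) * (r ^ (2 * a) * h r / ((r + e) * (r + e * y))) -
      w0 a e r * (a + e / (e + r)) * h r - y * (w0 a e r * (1 - a - e / (e + r)) * h r)) ≤ c * v := by
    rw [← hv.2, ← integral_const_mul]
    refine setIntegral_mono_on ((hk.sub hM).sub hP) (hv.1.const_mul c) measurableSet_Ioi
      fun r hr => ?_
    have hr0 : (0 : ℝ) < r := hr
    have h2 := w0_nonneg a e r he hr0
    have h3 := mul_le_mul_of_nonneg_left (hch r hr0) h2
    refine le_trans (le_of_eq ?_) (h3.trans (le_of_eq ?_))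
    · unfold w0 Hf
      have h4 : e + r ≠ 0 := by positivity
      have h5 : e * y + r ≠ 0 := by positivity
      have h6 : r + e ≠ 0 := by positivity
      have h7 : r + e * y ≠ 0 := by positivity
      rw [add_comm r e, add_comm r (e * y)]
      field_simp
    · ring
  have hsplit : ∫ r in Ioi (0 : ℝ), (y ^ (1 - a) * (r ^ (2 * a) * h r /
      ((r + e) * (r + e * y))) - w0 a e r * (a + e / (e + r)) * h r -
        y * (w0 a e r * (1 - a - e / (e + r)) * h r)) =
      y ^ (1 - a) * (∫ r in Ioi (0 : ℝ), r ^ (2 * a) * h r / ((r + e) * (r + e * y))) -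
        (∫ r in Ioi (0 : ℝ), w0 a e r * (a + e / (e + r)) * h r) -
        y * ∫ r in Ioi (0 : ℝ), w0 a e r * (1 - a - e / (e + r)) * h r := by
    rw [← integral_const_mul, ← integral_const_mul]
    rw [← integral_sub hk hM]
    exact integral_sub (hk.sub hM) hP
  rw [hsplit] at hle
  have h9 : c * v ≤ 0 := mul_nonpos_of_nonneg_of_nonpos hc hv0
  unfold MM PP
  linarith

/-- scaling -/
theorem wk_scale (a e x y : ℝ) (hx : 0 < x) (hy : 0 < y) (h : ℝ → ℝ) :
    wk a e h x y = x * ((y / x) ^ (1 - a) *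
      ∫ r in Ioi (0 : ℝ), r ^ (2 * a) * h r / ((r + e) * (r + e * (y / x)))) := by
  unfold wk
  have h1 := integral_comp_mul_left_Ioi
    (fun r : ℝ => r ^ (2 * a) * h (r / x) / ((r + e * x) * (r + e * y))) 0 hx
  rw [mul_zero] at h1
  have h2 : ∫ r in Ioi (0 : ℝ), r ^ (2 * a) * h (r / x) / ((r + e * x) * (r + e * y)) =
      x * ∫ r in Ioi (0 : ℝ), (x * r) ^ (2 * a) * h (x * r / x) /
        ((x * r + e * x) * (x * r + e * y)) := by
    rw [h1, smul_eq_mul, ← mul_assoc, mul_inv_cancel₀ hx.ne', one_mul]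
  rw [h2]
  have h3 : ∫ r in Ioi (0 : ℝ), (x * r) ^ (2 * a) * h (x * r / x) /
      ((x * r + e * x) * (x * r + e * y)) = x ^ (2 * a - 2) *
      ∫ r in Ioi (0 : ℝ), r ^ (2 * a) * h r / ((r + e) * (r + e * (y / x))) := by
    rw [← integral_const_mul]
    refine setIntegral_congr_fun measurableSet_Ioi fun r hr => ?_
    have hr0 : (0 : ℝ) < r := hr
    show (x * r) ^ (2 * a) * h (x * r / x) / ((x * r + e * x) * (x * r + e * y)) =
      x ^ (2 * a - 2) * (r ^ (2 * a) * h r / ((r + e) * (r + e * (y / x))))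
    rw [Real.mul_rpow hx.le hr0.le, mul_div_cancel_left₀ r hx.ne', Real.rpow_sub hx]
    have e2 : x ^ (2 : ℝ) = x * x := by
      rw [show (2 : ℝ) = ((2 : ℕ) : ℝ) by norm_num, Real.rpow_natCast]
      ring
    rw [e2]
    have e3 : x * r + e * x = x * (r + e) := by ring
    have e4 : x * r + e * y = x * (r + e * (y / x)) := by
      field_simp
    rw [e3, e4]
    have : x * (r + e) * (x * (r + e * (y / x))) = (x * x) * ((r + e) * (r + e * (y / x))) := by
      ring
    rw [this, div_mul_div_comm, mul_assoc]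
  rw [h3]
  have e5 : (x * y) ^ (1 - a) = (x * x) ^ (1 - a) * (y / x) ^ (1 - a) := by
    rw [← Real.mul_rpow (by positivity) (by positivity)]
    congr 1
    field_simp
  have e6 : (x * x) ^ (1 - a) * (x * x ^ (2 * a - 2)) = x := by
    rw [Real.mul_rpow hx.le hx.le]
    nth_rewrite 3 [← Real.rpow_one x]
    rw [← Real.rpow_add hx, ← Real.rpow_add hx, ← Real.rpow_add hx]
    have : 1 - a + (1 - a) + (1 + (2 * a - 2)) = 1 := by ring
    rw [this, Real.rpow_one]
  rw [e5]
  calc (x * x) ^ (1 - a) * (y / x) ^ (1 - a) * (x * (x ^ (2 * a - 2) *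
        ∫ r in Ioi (0 : ℝ), r ^ (2 * a) * h r / ((r + e) * (r + e * (y / x))))) =
      ((x * x) ^ (1 - a) * (x * x ^ (2 * a - 2))) * ((y / x) ^ (1 - a) *
        ∫ r in Ioi (0 : ℝ), r ^ (2 * a) * h r / ((r + e) * (r + e * (y / x)))) := by ring
    _ = _ := by rw [e6]

/-- **(II)** -/
theorem wk_bound (a e : ℝ) (h0 : 0 < a) (h1 : 2 * a < 1) (he : 0 < e) {h : ℝ → ℝ} (hh : Wh h) :
    ∃ M P : ℝ, 0 ≤ M ∧ 0 ≤ P ∧ M + P = wk a e h 1 1 ∧
      ∀ x y : ℝ, 0 < x → 0 < y → 0 ≤ wk a e h x y ∧ wk a e h x y ≤ M * x + P * y := by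
  refine ⟨MM a e h, PP a e h, MM_nonneg a e h0 he hh, PP_nonneg a e h0 h1 he hh, ?_, ?_⟩
  · have hint1 : IntegrableOn (fun r => w0 a e r * (a + e / (e + r))) (Ioi 0) := by
      refine (wρ_int a e h0 h1 he a 1).congr_fun (fun r _ => ?_) measurableSet_Ioi
      show w0 a e r * (a + 1 * (e / (e + r))) = _
      ring
    have hint2 : IntegrableOn (fun r => w0 a e r * (1 - a - e / (e + r))) (Ioi 0) := by
      refine (wρ_int a e h0 h1 he (1 - a) (-1)).congr_fun (fun r _ => ?_) measurableSet_Ioi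
      show w0 a e r * (1 - a + -1 * (e / (e + r))) = _
      ring
    unfold MM PP
    rw [← integral_add (hh.int hint1) (hh.int hint2)]
    unfold wk
    rw [mul_one, Real.one_rpow, one_mul]
    refine setIntegral_congr_fun measurableSet_Ioi fun r _ => ?_
    show w0 a e r * (a + e / (e + r)) * h r + w0 a e r * (1 - a - e / (e + r)) * h r =
      r ^ (2 * a) * h (r / 1) / ((r + e * 1) * (r + e * 1))
    unfold w0
    rw [div_one, mul_one, add_comm r e]
    ring
  · intro x y hx hy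
    constructor
    · unfold wk
      refine mul_nonneg (Real.rpow_nonneg (by positivity) _)
        (setIntegral_nonneg measurableSet_Ioi fun r hr => ?_)
      have hr0 : (0 : ℝ) < r := hr
      have h2 := hh.nn (r / x) (by positivity)
      have h3 := Real.rpow_nonneg hr0.le (2 * a)
      positivity
    · rw [wk_scale a e x y hx hy h]
      have h2 := core a e (y / x) h0 h1 he (by positivity) hh
      have h3 := mul_le_mul_of_nonneg_left h2 hx.le
      refine h3.trans (le_of_eq ?_)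
      field_simp

/-- extension of a monotone weight by `0` -/
theorem Wh.of_monotoneOn {h : ℝ → ℝ} {C : ℝ} (hn : ∀ r, 0 < r → 0 ≤ h r)
    (hm : MonotoneOn h (Ioi 0)) (hC : ∀ r, 0 < r → h r ≤ C) :
    Wh (fun r => if 0 < r then h r else 0) where
  meas := by
    refine Monotone.measurable ?_
    intro r s hrs
    show (if 0 < r then h r else 0) ≤ (if 0 < s then h s else 0)
    split_ifs with h1 h2 h2
    · exact hm h1 h2 hrs
    · exact absurd (lt_of_lt_of_le h1 hrs) h2
    · exact hn s h2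
    · exact le_rfl
  nn := by
    intro r hr
    show 0 ≤ (if 0 < r then h r else 0)
    rw [if_pos hr]
    exact hn r hr
  mono := by
    intro r s hr hrs
    show (if 0 < r then h r else 0) ≤ (if 0 < s then h s else 0)
    rw [if_pos hr, if_pos (lt_of_lt_of_le hr hrs)]
    exact hm hr (lt_of_lt_of_le hr hrs) hrs
  bd := ⟨C, by
    intro r hr
    show (if 0 < r then h r else 0) ≤ C
    rw [if_pos hr]
    exact hC r hr⟩

theorem Wh.scale {h : ℝ → ℝ} (hh : Wh h) (x : ℝ) (hx : 0 < x) : Wh (fun r => h (r / x)) where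
  meas := hh.meas.comp (measurable_id.div_const x)
  nn := fun r hr => hh.nn (r / x) (by positivity)
  mono := fun r s hr hrs => hh.mono (r / x) (s / x) (by positivity) (by gcongr)
  bd := by
    obtain ⟨C, hC⟩ := hh.bd
    exact ⟨C, fun r hr => hC (r / x) (by positivity)⟩

/-- **(II)**, normal form -/
theorem II_normal (a e C : ℝ) (h F G : ℝ → ℝ) (h0 : 0 < a) (h1 : 2 * a < 1) (he : 0 < e)
    (hn : ∀ r, 0 < r → 0 ≤ h r) (hm : MonotoneOn h (Ioi 0)) (hC : ∀ r, 0 < r → h r ≤ C)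
    (hF : ∀ r, 0 < r → F r = h r * (r / (r + e))) (hG : ∀ r, 0 < r → G r = r / (r + e)) :
    (∀ x y : ℝ, 0 < x → 0 < y →
      IntegrableOn (fun r => r ^ (2 * a - 2) * (F (r / x) * G (r / y))) (Ioi 0)) ∧
    ∃ M P : ℝ, 0 ≤ M ∧ 0 ≤ P ∧
      M + P = (∫ r in Ioi (0 : ℝ), r ^ (2 * a - 2) * (F r * G r)) ∧
      ∀ x y : ℝ, 0 < x → 0 < y →
        0 ≤ (x * y) ^ (1 - a) * (∫ r in Ioi (0 : ℝ), r ^ (2 * a - 2) * (F (r / x) * G (r / y))) ∧
        (x * y) ^ (1 - a) * (∫ r in Ioi (0 : ℝ), r ^ (2 * a - 2) * (F (r / x) * G (r / y))) ≤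
          M * x + P * y := by
  have hh := Wh.of_monotoneOn hn hm hC
  set h' : ℝ → ℝ := fun r => if 0 < r then h r else 0 with hh'
  have key : ∀ x y r : ℝ, 0 < x → 0 < y → 0 < r → r ^ (2 * a - 2) * (F (r / x) * G (r / y)) =
      r ^ (2 * a) * h' (r / x) / ((r + e * x) * (r + e * y)) := by
    intro x y r hx hy hr
    have hrx : 0 < r / x := by positivity
    have hry : 0 < r / y := by positivity
    rw [hF _ hrx, hG _ hry, hh']
    simp only [hrx, if_true]
    have e1 : r ^ (2 * a) = r ^ (2 * a - 2) * (r * r) := by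
      rw [Real.rpow_sub hr, show (2 : ℝ) = ((2 : ℕ) : ℝ) by norm_num, Real.rpow_natCast]
      field_simp
    rw [e1]
    have h3 : r + e * x ≠ 0 := by positivity
    have h4 : r + e * y ≠ 0 := by positivity
    have h5 : r / x + e ≠ 0 := by positivity
    have h6 : r / y + e ≠ 0 := by positivity
    field_simp
  have keyI : ∀ x y : ℝ, 0 < x → 0 < y →
      ∫ r in Ioi (0 : ℝ), r ^ (2 * a - 2) * (F (r / x) * G (r / y)) =
      ∫ r in Ioi (0 : ℝ), r ^ (2 * a) * h' (r / x) / ((r + e * x) * (r + e * y)) := fun x y hx hy =>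
    setIntegral_congr_fun measurableSet_Ioi fun r hr => key x y r hx hy hr
  refine ⟨fun x y hx hy => ?_, ?_⟩
  · have hb := (int_dd (2 * a) (e * x) (e * y) (by linarith) h1 (by positivity) (by positivity)).1
    refine ((hh.scale x hx).int hb).congr_fun (fun r hr => ?_) measurableSet_Ioi
    rw [key x y r hx hy hr]
    show r ^ (2 * a) / ((e * x + r) * (e * y + r)) * h' (r / x) = _
    rw [add_comm (e * x) r, add_comm (e * y) r]
    ring
  · obtain ⟨M, P, hM, hP, hs, hb⟩ := wk_bound a e h0 h1 he hh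
    refine ⟨M, P, hM, hP, ?_, ?_⟩
    · rw [hs]
      have h2 := keyI 1 1 one_pos one_pos
      simp only [div_one] at h2
      unfold wk
      rw [mul_one, Real.one_rpow, one_mul, h2]
      simp only [div_one]
    · intro x y hx hy
      have h2 := hb x y hx hy
      unfold wk at h2
      rw [keyI x y hx hy]
      exact h2

end Pool.Agent.LibSchE
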