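import Mathlib

/-! Polynomials with natural coefficients in three variables, for kernel computation. -/

namespace Pool.Agent.LibSchE.NP

/-- scalar multiple -/
noncomputable def scL {α : Type} (f : α → α → α) (a : α) (m : List α) : List α :=
  List.rec (motive := fun _ => List α) [] (fun b _ ih => f a b :: ih) m

noncomputable def addL {α : Type} (f : α → α → α) (l : List α) : List α → List α :=
  List.rec (motive := fun _ => List α → List α) (fun m => m)
    (fun a l ih m => List.rec (motive := fun _ => List α) (a :: l) (fun b m' _ => f a b :: ih m') m) l

noncomputable def mulL {α : Type} (z : α) (f g : α → α → α) (l m : List α) : List α :=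
  List.rec (motive := fun _ => List α) [] (fun a _ ih => addL f (scL g a m) (z :: ih)) l

noncomputable def leL {α : Type} (z : α) (f : α → α → Bool) (l : List α) : List α → Bool :=
  List.rec (motive := fun _ => List α → Bool) (fun _ => true)
    (fun a _ ih m => List.rec (motive := fun _ => Bool) (Bool.and (f a z) (ih []))
      (fun b m' _ => Bool.and (f a b) (ih m')) m) l

abbrev P1 := List ℕ
abbrev P2 := List P1
abbrev P3 := List P2

noncomputable def add1 : P1 → P1 → P1 := addL Nat.add
noncomputable def add2 : P2 → P2 → P2 := addL add1
noncomputable def add3 : P3 → P3 → P3 := addL add2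
noncomputable def mul1 : P1 → P1 → P1 := mulL 0 Nat.add Nat.mul
noncomputable def mul2 : P2 → P2 → P2 := mulL [] add1 mul1
noncomputable def mul3 : P3 → P3 → P3 := mulL [] add2 mul2
noncomputable def le1 : P1 → P1 → Bool := leL 0 Nat.ble
noncomputable def le2 : P2 → P2 → Bool := leL [] le1
noncomputable def le3 : P3 → P3 → Bool := leL [] le2

/-- equality test -/
noncomputable def eqL {α : Type} (f : α → α → Bool) (l : List α) : List α → Bool :=
  List.rec (motive := fun _ => List α → Bool) (fun m => List.rec (motive := fun _ => Bool) true (fun _ _ _ => false) m)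
    (fun a _ ih m => List.rec (motive := fun _ => Bool) false
      (fun b m' _ => Bool.and (f a b) (ih m')) m) l

structure EV {α : Type} (z : α) (add mul : α → α → α) (le : α → α → Bool) (e : α → ℝ) : Prop where
  zero : e z = 0
  add : ∀ a b, e (add a b) = e a + e b
  mul : ∀ a b, e (mul a b) = e a * e b
  nonneg : ∀ a, 0 ≤ e a
  le : ∀ a b, le a b = true → e a ≤ e b

def evL {α : Type} (e : α → ℝ) (x : ℝ) : List α → ℝ
  | [] => 0
  | a :: l => e a + x * evL e x l

theorem EV.list {α : Type} {z : α} {add mul : α → α → α} {le : α → α → Bool} {e : α → ℝ}
    (h : EV z add mul le e) {x : ℝ} (hx : 0 ≤ x) :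
    EV [] (addL add) (mulL z add mul) (leL z le) (evL e x) := by
  have hadd : ∀ a b, evL e x (addL add a b) = evL e x a + evL e x b := by
    intro a
    induction a with
    | nil => intro b; simp [addL, evL]
    | cons a l ih =>
      intro b
      cases b with
      | nil => simp [addL, evL]
      | cons b m =>
        have := ih m
        simp only [addL] at this
        simp only [addL, evL, h.add, this]
        ring
  have hsc : ∀ a m, evL e x (scL mul a m) = e a * evL e x m := by
    intro a m
    induction m with
    | nil => simp [scL, evL]
    | cons b m ih =>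
      simp only [scL] at ih
      simp only [scL, evL, h.mul, ih]
      ring
  have hnn : ∀ a, 0 ≤ evL e x a := by
    intro a
    induction a with
    | nil => simp [evL]
    | cons a l ih =>
      simp only [evL]
      have := h.nonneg a
      positivity
  refine ⟨rfl, hadd, ?_, hnn, ?_⟩
  · intro a b
    induction a with
    | nil => simp [mulL, evL]
    | cons a l ih =>
      have e1 : mulL z add mul (a :: l) b = addL add (scL mul a b) (z :: mulL z add mul l b) := rfl
      rw [e1, hadd, hsc]
      simp only [evL, h.zero, ih]
      ring
  · intro a
    induction a with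
    | nil => intro b _; simpa [evL] using hnn b
    | cons a l ih =>
      intro b hb
      cases b with
      | nil =>
        have e1 : leL z le (a :: l) [] = Bool.and (le a z) (leL z le l []) := rfl
        rw [e1, Bool.and_eq_true] at hb
        have h1 := h.le _ _ hb.1
        have h2 := ih [] hb.2
        rw [h.zero] at h1
        simp only [evL] at h2 ⊢
        nlinarith
      | cons b m =>
        have e1 : leL z le (a :: l) (b :: m) = Bool.and (le a b) (leL z le l m) := rfl
        rw [e1, Bool.and_eq_true] at hb
        have h1 := h.le _ _ hb.1
        have h2 := ih m hb.2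
        simp only [evL]
        nlinarith

theorem EV.nat : EV 0 Nat.add Nat.mul Nat.ble (fun n : ℕ => (n : ℝ)) where
  zero := by simp
  add := by intro a b; simp
  mul := by intro a b; simp
  nonneg := by intro a; positivity
  le := by
    intro a b h
    simp only [Nat.ble_eq] at h
    exact_mod_cast h

/-- evaluation -/
noncomputable def ev (x y z : ℝ) : P3 → ℝ := evL (evL (evL (fun n : ℕ => (n : ℝ)) z) y) x

theorem EV.three {x y z : ℝ} (hx : 0 ≤ x) (hy : 0 ≤ y) (hz : 0 ≤ z) :
    EV [] add3 mul3 le3 (ev x y z) :=
  ((EV.nat.list hz).list hy).list hx

end Pool.Agent.LibSchE.NP
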